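import Pool.Agent.Lib_MP_b9fedf_qy.DefsY

/-! Reduced hypersurface sections. -/

set_option autoImplicit false

namespace Pool.Agent.QY
open MvPolynomial

/-- the section of `V(q)` by the hypersurface `P = 0` is proper and has no multiple components -/
def RedOn {n : ℕ} (q : Ideal (MvPolynomial (Fin (n + 1)) ℂ))
    (P : MvPolynomial (Fin (n + 1)) ℂ) : Prop :=
  P ∉ q ∧ ∀ 𝔓 ∈ (q ⊔ Ideal.span {P}).minimalPrimes,
    ∃ s, s ∉ 𝔓 ∧ ∀ g ∈ 𝔓, s * g ∈ q ⊔ Ideal.span {P}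

end Pool.Agent.QY
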