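import Pool.Agent.Lib_MP_b9fedf_qy.DefsY

/-! Piece Z2: homogeneous components of a derivation. -/

set_option autoImplicit false

namespace Pool.Agent.QY
open MvPolynomial Pool.Agent.SQ

private theorem sum_apply_DH {n : ℕ} {ι : Type} (s : Finset ι)
    (D : ι → Derivation ℂ (MvPolynomial (Fin (n + 1)) ℂ) (MvPolynomial (Fin (n + 1)) ℂ))
    (x : MvPolynomial (Fin (n + 1)) ℂ) : (∑ i ∈ s, D i) x = ∑ i ∈ s, D i x := by
  classical
  induction s using Finset.induction_on with
  | empty => rw [Finset.sum_empty, Finset.sum_empty]; rfl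
  | insert a s ha ih =>
    rw [Finset.sum_insert ha, Finset.sum_insert ha, Derivation.add_apply, ih]

private theorem mkD_apply_DH {n : ℕ} (d : Fin (n + 1) → MvPolynomial (Fin (n + 1)) ℂ)
    (g : MvPolynomial (Fin (n + 1)) ℂ) :
    mkDerivation ℂ d g = ∑ i, d i * pderiv i g := by
  have h : mkDerivation ℂ d = ∑ i, d i • (pderiv i :
      Derivation ℂ (MvPolynomial (Fin (n + 1)) ℂ) (MvPolynomial (Fin (n + 1)) ℂ)) := by
    apply MvPolynomial.derivation_ext
    intro j
    rw [mkDerivation_X, sum_apply_DH]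
    rw [Finset.sum_eq_single j]
    · rw [Derivation.smul_apply, pderiv_X_self, smul_eq_mul, mul_one]
    · intro i _ hij
      rw [Derivation.smul_apply, pderiv_X_of_ne (fun h => hij h.symm), smul_zero]
    · intro hj
      exact absurd (Finset.mem_univ j) hj
  rw [h, sum_apply_DH]
  refine Finset.sum_congr rfl fun i _ => ?_
  rw [Derivation.smul_apply, smul_eq_mul]

private theorem comp_mul_DH {n : ℕ} (a b : MvPolynomial (Fin (n + 1)) ℂ) (m k : ℕ)
    (hb : b.IsHomogeneous m) :
    homogeneousComponent (k + m) (a * b) = homogeneousComponent k a * b := by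
  conv_lhs => rw [← sum_homogeneousComponent a, Finset.sum_mul, map_sum]
  have h1 : ∀ j, homogeneousComponent (k + m) (homogeneousComponent j a * b)
      = if j = k then homogeneousComponent k a * b else 0 := by
    intro j
    have h2 : (homogeneousComponent j a * b).IsHomogeneous (j + m) :=
      (homogeneousComponent_isHomogeneous j a).mul hb
    rw [homogeneousComponent_of_mem ((mem_homogeneousSubmodule _ _).mpr h2)]
    by_cases hjk : j = k
    · subst hjk
      rw [if_pos rfl, if_pos rfl]
    · rw [if_neg (by omega), if_neg hjk]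
  rw [Finset.sum_congr rfl fun j _ => h1 j, Finset.sum_ite_eq' (Finset.range (a.totalDegree + 1)) k]
  by_cases hk : k ∈ Finset.range (a.totalDegree + 1)
  · rw [if_pos hk]
  · rw [if_neg hk, homogeneousComponent_eq_zero k a
      (by rw [Finset.mem_range] at hk; omega), zero_mul]

/-- PIECE Z2 -/
theorem der_homog {n : ℕ} {q 𝔓 : Ideal (MvPolynomial (Fin (n + 1)) ℂ)} (hqh : HomI q)
    (P : MvPolynomial (Fin (n + 1)) ℂ) (d : Fin (n + 1) → MvPolynomial (Fin (n + 1)) ℂ)
    (hd : ∀ g ∈ q, mkDerivation ℂ d g ∈ q) (hdP : mkDerivation ℂ d P ∉ 𝔓) :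
    ∃ (δ : ℕ) (d' : Fin (n + 1) → MvPolynomial (Fin (n + 1)) ℂ),
      (∀ i, (d' i).IsHomogeneous δ) ∧ (∀ g ∈ q, mkDerivation ℂ d' g ∈ q) ∧
      mkDerivation ℂ d' P ∉ 𝔓 := by
  classical
  let dd : ℕ → Fin (n + 1) → MvPolynomial (Fin (n + 1)) ℂ :=
    fun k i => homogeneousComponent k (d i)
  have hdd : ∀ k, ∀ g ∈ q, mkDerivation ℂ (dd k) g ∈ q := by
    intro k g hg
    rw [← sum_homogeneousComponent g, map_sum]
    refine Ideal.sum_mem _ fun e _ => ?_
    have hge : homogeneousComponent e g ∈ q := hqh g hg e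
    have hhe := homogeneousComponent_isHomogeneous e g
    rcases Nat.eq_zero_or_pos e with he | he
    · subst he
      rw [homogeneousComponent_zero]
      have h0 : mkDerivation ℂ (dd k) (C (coeff 0 g)) = 0 :=
        (mkDerivation ℂ (dd k)).map_algebraMap (coeff 0 g)
      rw [h0]
      exact q.zero_mem
    · have h1 : mkDerivation ℂ (dd k) (homogeneousComponent e g)
          = homogeneousComponent (k + (e - 1)) (mkDerivation ℂ d (homogeneousComponent e g)) := by
        rw [mkD_apply_DH, mkD_apply_DH, map_sum]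
        refine Finset.sum_congr rfl fun i _ => ?_
        rw [comp_mul_DH _ _ (e - 1) k hhe.pderiv]
      rw [h1]
      exact hqh _ (hd _ hge) _
  have hex : ∃ k, mkDerivation ℂ (dd k) P ∉ 𝔓 := by
    by_contra hno
    push Not at hno
    apply hdP
    let K := Finset.univ.sup fun i => (d i).totalDegree
    have hsum : ∀ i, d i = ∑ k ∈ Finset.range (K + 1), dd k i := by
      intro i
      have hle : (d i).totalDegree ≤ K := Finset.le_sup (f := fun i => (d i).totalDegree)
        (Finset.mem_univ i)
      conv_lhs => rw [← sum_homogeneousComponent (d i)]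
      refine Finset.sum_subset (fun x hx => ?_) (fun x _ hx => ?_)
      · rw [Finset.mem_range] at hx ⊢
        omega
      · exact homogeneousComponent_eq_zero x (d i) (by rw [Finset.mem_range] at hx; omega)
    have h2 : mkDerivation ℂ d P = ∑ k ∈ Finset.range (K + 1), mkDerivation ℂ (dd k) P := by
      rw [mkD_apply_DH, Finset.sum_congr rfl fun k _ => mkD_apply_DH (dd k) P, Finset.sum_comm]
      refine Finset.sum_congr rfl fun i _ => ?_
      conv_lhs => rw [hsum i, Finset.sum_mul]
    rw [h2]
    exact Ideal.sum_mem _ fun k _ => hno k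
  obtain ⟨k, hk⟩ := hex
  exact ⟨k, dd k, fun i => homogeneousComponent_isHomogeneous k (d i), hdd k, hk⟩

end Pool.Agent.QY
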