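import Mathlib

set_option autoImplicit false

namespace Pool.Agent.QY

/-- the ring of dual numbers over `L`, without its algebra structures -/
private def DNY1 (L : Type) : Type := TrivSqZeroExt L L

private noncomputable instance instDNY1 (L : Type) [Field L] : CommRing (DNY1 L) :=
  inferInstanceAs (CommRing (TrivSqZeroExt L L))

/-- `x + y ε` -/
private def mkY1 {L : Type} (x y : L) : DNY1 L := ((x, y) : TrivSqZeroExt L L)

private def fstY1 {L : Type} (z : DNY1 L) : L := (z : TrivSqZeroExt L L).fst

private def sndY1 {L : Type} (z : DNY1 L) : L := (z : TrivSqZeroExt L L).snd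

private theorem extY1 {L : Type} {z w : DNY1 L} (h1 : fstY1 z = fstY1 w)
    (h2 : sndY1 z = sndY1 w) : z = w := TrivSqZeroExt.ext h1 h2

private theorem fst_mulY1 {L : Type} [Field L] (z w : DNY1 L) :
    fstY1 (z * w) = fstY1 z * fstY1 w := rfl

private theorem snd_mulY1 {L : Type} [Field L] (z w : DNY1 L) :
    sndY1 (z * w) = fstY1 z * sndY1 w + fstY1 w * sndY1 z := by
  rw [mul_comm (fstY1 w)]
  rfl

private theorem fst_addY1 {L : Type} [Field L] (z w : DNY1 L) :
    fstY1 (z + w) = fstY1 z + fstY1 w := rfl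

private theorem snd_addY1 {L : Type} [Field L] (z w : DNY1 L) :
    sndY1 (z + w) = sndY1 z + sndY1 w := rfl

private theorem fst_oneY1 {L : Type} [Field L] : fstY1 (1 : DNY1 L) = 1 := rfl

private theorem snd_oneY1 {L : Type} [Field L] : sndY1 (1 : DNY1 L) = 0 := rfl

private theorem fst_zeroY1 {L : Type} [Field L] : fstY1 (0 : DNY1 L) = 0 := rfl

private theorem snd_zeroY1 {L : Type} [Field L] : sndY1 (0 : DNY1 L) = 0 := rfl

private theorem fst_mkY1 {L : Type} (x y : L) : fstY1 (mkY1 x y) = x := rfl

private theorem snd_mkY1 {L : Type} (x y : L) : sndY1 (mkY1 x y) = y := rfl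

/-- `a ↦ a + d(a) ε` -/
private def homY1 {A L : Type} [CommRing A] [Field L] [Algebra A L] (d : Derivation ℤ A L) :
    A →+* DNY1 L where
  toFun a := mkY1 (algebraMap A L a) (d a)
  map_one' := extY1 (by simp [fst_mkY1, fst_oneY1]) (by simp [snd_mkY1, snd_oneY1])
  map_zero' := extY1 (by simp [fst_mkY1, fst_zeroY1]) (by simp [snd_mkY1, snd_zeroY1])
  map_add' a b := extY1 (by simp [fst_mkY1, fst_addY1]) (by simp [snd_mkY1, snd_addY1])
  map_mul' a b := extY1 (by simp [fst_mkY1, fst_mulY1])
    (by simp [snd_mkY1, snd_mulY1, fst_mkY1, Algebra.smul_def])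

/-- PIECE Y1 -/
theorem der_extend {A L : Type} [CommRing A] [IsDomain A] [Field L] [CharZero L] [Algebra A L]
    (hinj : Function.Injective (algebraMap A L)) (d : Derivation ℤ A L) :
    ∃ D : Derivation ℤ L L, ∀ a : A, D (algebraMap A L a) = d a := by
  classical
  have : FaithfulSMul A L := (faithfulSMul_iff_algebraMap_injective A L).2 hinj
  let : Algebra (FractionRing A) L := FractionRing.liftAlgebra A L
  have : IsScalarTower A (FractionRing A) L := FractionRing.isScalarTower_liftAlgebra A L
  have : CharZero (FractionRing A) := by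
    refine ⟨fun m n h => ?_⟩
    have := congrArg (algebraMap (FractionRing A) L) h
    simpa using this
  have : Algebra.FormallySmooth A (FractionRing A) :=
    Algebra.FormallySmooth.of_isLocalization (nonZeroDivisors A)
  obtain ⟨s, hs⟩ := exists_isTranscendenceBasis (FractionRing A) L
  have : Algebra.IsAlgebraic
      (IntermediateField.adjoin (FractionRing A) (Set.range ((↑) : s → L))) L :=
    hs.isAlgebraic_field
  have : Algebra.FormallySmooth (FractionRing A) L :=
    Algebra.FormallySmooth.of_algebraicIndependent_of_isSeparable hs.1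
  have hsm : Algebra.FormallySmooth A L := Algebra.FormallySmooth.comp A (FractionRing A) L
  let : Algebra A (DNY1 L) := (homY1 d).toAlgebra
  let π : DNY1 L →ₐ[A] L :=
    { toFun := fstY1
      map_one' := rfl
      map_zero' := rfl
      map_add' := fun _ _ => rfl
      map_mul' := fun _ _ => rfl
      commutes' := fun _ => rfl }
  have hπ : Function.Surjective π := fun x => ⟨mkY1 x 0, rfl⟩
  have hk : IsNilpotent (RingHom.ker (π : DNY1 L →+* L)) := by
    refine ⟨2, ?_⟩
    rw [Ideal.zero_eq_bot, eq_bot_iff, pow_two, Ideal.mul_le]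
    intro r hr t ht
    have hr' : fstY1 r = 0 := hr
    have ht' : fstY1 t = 0 := ht
    refine (Ideal.mem_bot).2 (extY1 ?_ ?_)
    · rw [fst_mulY1, hr', zero_mul, fst_zeroY1]
    · rw [snd_mulY1, hr', ht', zero_mul, zero_mul, add_zero, snd_zeroY1]
  let g : L →ₐ[A] DNY1 L := Algebra.FormallySmooth.liftOfSurjective (AlgHom.id A L) π hπ hk
  have hg : ∀ x, fstY1 (g x) = x := fun x =>
    Algebra.FormallySmooth.liftOfSurjective_apply (AlgHom.id A L) π hπ hk x
  let D₀ : L →+ L :=
    { toFun := fun x => sndY1 (g x)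
      map_zero' := by simp [snd_zeroY1]
      map_add' := fun x y => by simp [snd_addY1] }
  refine ⟨Derivation.mk' D₀.toIntLinearMap fun x y => ?_, fun a => ?_⟩
  · show sndY1 (g (x * y)) = x • sndY1 (g y) + y • sndY1 (g x)
    rw [map_mul, snd_mulY1, hg, hg]
    rfl
  · show sndY1 (g (algebraMap A L a)) = d a
    rw [g.commutes]
    rfl

end Pool.Agent.QY
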