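import Pool.Agent.Lib_MP_b9fedf_qy.DefsY

/-! Algebraic independence modulo an ideal. -/

set_option autoImplicit false

namespace Pool.Agent.QY
open MvPolynomial Pool.Agent.SQ

/-- PIECE Y6 (TrLem.lean) -/
theorem tr_mono {n : ℕ} {q q' : Ideal (MvPolynomial (Fin (n + 1)) ℂ)} {d d' : ℕ}
    (hqq : q ≤ q') (hd : d' ≤ d) (h : Tr q' d) : Tr q d' := by
  obtain ⟨w, hw⟩ := h
  refine ⟨w ∘ Fin.castLE hd, fun G hG => ?_⟩
  have h1 : aeval w (rename (Fin.castLE hd) G) ∈ q' := by
    rw [aeval_rename]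
    exact hqq hG
  have h2 := hw _ h1
  exact rename_injective _ (Fin.castLE_injective hd) (by rw [h2, map_zero])

private theorem key_y6 {n d : ℕ} {q q' : Ideal (MvPolynomial (Fin (n + 1)) ℂ)} (hq : q.IsPrime)
    (hqq : q ≤ q') (w : Fin d → MvPolynomial (Fin (n + 1)) ℂ)
    (hw : ∀ G : MvPolynomial (Fin d) ℂ, aeval w G ∈ q' → G = 0)
    (a : MvPolynomial (Fin (n + 1)) ℂ) (ha : a ∈ q') (haq : a ∉ q) :
    ∀ (m : ℕ) (p : Polynomial (MvPolynomial (Fin d) ℂ)), p.natDegree ≤ m →
      p.eval₂ (aeval w : MvPolynomial (Fin d) ℂ →ₐ[ℂ] MvPolynomial (Fin (n + 1)) ℂ).toRingHom a ∈ q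
      → p = 0 := by
  intro m
  induction m with
  | zero =>
    intro p hp h
    have h0 : p = Polynomial.C (p.coeff 0) := Polynomial.eq_C_of_natDegree_le_zero hp
    rw [h0, Polynomial.eval₂_C] at h
    have h1 := hw _ (hqq h)
    rw [h0, h1, map_zero]
  | succ m ih =>
    intro p hp h
    have h1 : p = p.divX * Polynomial.X + Polynomial.C (p.coeff 0) := (Polynomial.divX_mul_X_add p).symm
    have h2 : p.eval₂ (aeval w : MvPolynomial (Fin d) ℂ →ₐ[ℂ]
        MvPolynomial (Fin (n + 1)) ℂ).toRingHom a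
        = p.divX.eval₂ (aeval w : MvPolynomial (Fin d) ℂ →ₐ[ℂ]
        MvPolynomial (Fin (n + 1)) ℂ).toRingHom a * a + aeval w (p.coeff 0) := by
      conv_lhs => rw [h1]
      rw [Polynomial.eval₂_add, Polynomial.eval₂_mul, Polynomial.eval₂_X, Polynomial.eval₂_C]
      rfl
    have h3 : aeval w (p.coeff 0) ∈ q' := by
      have h4 := hqq h
      rw [h2] at h4
      exact (Ideal.add_mem_iff_right q' (Ideal.mul_mem_left _ _ ha)).1 h4
    have h5 := hw _ h3
    rw [h2, h5, map_zero, add_zero] at h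
    have h6 := (hq.mem_or_mem h).resolve_right haq
    have h7 := ih p.divX (by rw [Polynomial.natDegree_divX_eq_natDegree_tsub_one]; omega) h6
    rw [h1, h7, h5, zero_mul, map_zero, add_zero]

/-- PIECE Y6 -/
theorem tr_drop {n : ℕ} {q q' : Ideal (MvPolynomial (Fin (n + 1)) ℂ)} (hq : q.IsPrime)
    (hqq : q < q') (d : ℕ) (h : Tr q' d) : Tr q (d + 1) := by
  obtain ⟨w, hw⟩ := h
  obtain ⟨hle, a, ha, haq⟩ := SetLike.lt_iff_le_and_exists.1 hqq
  refine ⟨Fin.cons a w, fun G hG => ?_⟩
  have h1 : aeval (Fin.cons a w : Fin (d + 1) → MvPolynomial (Fin (n + 1)) ℂ) G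
      = (finSuccEquiv ℂ d G).eval₂ (aeval w : MvPolynomial (Fin d) ℂ →ₐ[ℂ]
        MvPolynomial (Fin (n + 1)) ℂ).toRingHom a := by
    have h2 : (aeval (Fin.cons a w : Fin (d + 1) → MvPolynomial (Fin (n + 1)) ℂ)
        : MvPolynomial (Fin (d + 1)) ℂ →ₐ[ℂ] MvPolynomial (Fin (n + 1)) ℂ).toRingHom
        = (Polynomial.eval₂RingHom (aeval w : MvPolynomial (Fin d) ℂ →ₐ[ℂ]
        MvPolynomial (Fin (n + 1)) ℂ).toRingHom a).comp (finSuccEquiv ℂ d).toRingEquiv.toRingHom := by
      apply MvPolynomial.ringHom_ext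
      · intro r
        have h5 : (finSuccEquiv ℂ d) (C r) = Polynomial.C (C r) := by
          have h6 := (finSuccEquiv ℂ d).commutes r
          rwa [algebraMap_eq] at h6
        have h7 : ((finSuccEquiv ℂ d).toRingEquiv.toRingHom) (C r) = Polynomial.C (C r) := h5
        rw [RingHom.comp_apply, h7]
        simp [algebraMap_eq]
      · intro i
        refine Fin.cases ?_ (fun j => ?_) i
        · simp [finSuccEquiv_X_zero]
        · simp [finSuccEquiv_X_succ]
    exact congrArg (fun φ => φ G) h2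
  rw [h1] at hG
  have h3 := key_y6 hq hle w hw a ha haq _ _ le_rfl hG
  exact (finSuccEquiv ℂ d).injective (by rw [h3, map_zero])

/-- PIECE Y6 -/
theorem tr_le {n : ℕ} {q : Ideal (MvPolynomial (Fin (n + 1)) ℂ)} (hq : q.IsPrime) {d : ℕ}
    (h : Tr q d) : d ≤ n + 1 := by
  obtain ⟨w, hw⟩ := h
  have h1 : AlgebraicIndependent ℂ w := by
    rw [algebraicIndependent_iff]
    intro G hG
    exact hw G (by rw [hG]; exact q.zero_mem)
  have h2 := h1.cardinalMk_le_trdeg
  rw [MvPolynomial.trdeg_of_isDomain, Cardinal.mk_fin, Cardinal.mk_fin] at h2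
  rw [Cardinal.lift_natCast] at h2
  exact_mod_cast h2

/-- PIECE Y6 -/
theorem tr_one {n : ℕ} {q : Ideal (MvPolynomial (Fin (n + 1)) ℂ)} (h : Tr q 1) :
    ∃ i, X i ∉ q := by
  by_contra hc
  push Not at hc
  obtain ⟨w, hw⟩ := h
  have h1 : ∀ p : MvPolynomial (Fin (n + 1)) ℂ, p - C (constantCoeff p) ∈ q := by
    intro p
    induction p using MvPolynomial.induction_on with
    | C a => simp
    | add p p' hp hp' =>
      have : p + p' - C (constantCoeff (p + p')) = (p - C (constantCoeff p))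
        + (p' - C (constantCoeff p')) := by rw [map_add, map_add]; ring
      rw [this]
      exact q.add_mem hp hp'
    | mul_X p i hp =>
      rw [map_mul, constantCoeff_X, mul_zero, map_zero, sub_zero]
      exact q.mul_mem_left _ (hc i)
  have h2 := hw (X 0 - C (constantCoeff (w 0))) (by
    rw [map_sub, aeval_X, aeval_C, algebraMap_eq]
    exact h1 (w 0))
  have h3 := congrArg (eval (fun _ => constantCoeff (w 0) + 1)) h2
  simp at h3

/-- PIECE Y6 -/
theorem tr_lin {n : ℕ} {q : Ideal (MvPolynomial (Fin (n + 1)) ℂ)} (h : Tr q 2)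
    (a : MvPolynomial (Fin (n + 1)) ℂ) : ∃ i, ∀ α : ℂ, X i - C α * a ∉ q := by
  by_contra hc
  push Not at hc
  choose α hα using hc
  obtain ⟨w, hw⟩ := h
  -- every element is a polynomial in `a` modulo `q`
  have h1 : ∀ p : MvPolynomial (Fin (n + 1)) ℂ, ∃ f : Polynomial ℂ, p - Polynomial.aeval a f ∈ q := by
    intro p
    induction p using MvPolynomial.induction_on with
    | C c => exact ⟨Polynomial.C c, by simp [algebraMap_eq]⟩
    | add p p' hp hp' =>
      obtain ⟨f, hf⟩ := hp
      obtain ⟨f', hf'⟩ := hp'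
      refine ⟨f + f', ?_⟩
      have : p + p' - Polynomial.aeval a (f + f') = (p - Polynomial.aeval a f)
        + (p' - Polynomial.aeval a f') := by rw [map_add]; ring
      rw [this]
      exact q.add_mem hf hf'
    | mul_X p i hp =>
      obtain ⟨f, hf⟩ := hp
      refine ⟨f * (Polynomial.C (α i) * Polynomial.X), ?_⟩
      have : p * X i - Polynomial.aeval a (f * (Polynomial.C (α i) * Polynomial.X))
        = (p - Polynomial.aeval a f) * X i + Polynomial.aeval a f * (X i - C (α i) * a) := by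
        rw [map_mul, map_mul, Polynomial.aeval_X, Polynomial.aeval_C, algebraMap_eq]; ring
      rw [this]
      exact q.add_mem (q.mul_mem_right _ hf) (q.mul_mem_left _ (hα i))
  choose f hf using fun j => h1 (w j)
  -- two polynomials in one variable are dependent
  have h2 : ¬ AlgebraicIndependent ℂ f := by
    intro hi
    have h3 := hi.cardinalMk_le_trdeg
    rw [Polynomial.trdeg_of_isDomain, Cardinal.mk_fin] at h3
    norm_num at h3
  rw [algebraicIndependent_iff] at h2
  push Not at h2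
  obtain ⟨G, hG, hG0⟩ := h2
  refine hG0 (hw G ?_)
  have h4 : ∀ G : MvPolynomial (Fin 2) ℂ, aeval w G
      - Polynomial.aeval a (aeval f G) ∈ q := by
    intro G
    induction G using MvPolynomial.induction_on with
    | C c => simp [algebraMap_eq]
    | add p p' hp hp' =>
      have : aeval w (p + p') - Polynomial.aeval a (aeval f (p + p'))
        = (aeval w p - Polynomial.aeval a (aeval f p))
        + (aeval w p' - Polynomial.aeval a (aeval f p')) := by
        simp only [map_add]; ring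
      rw [this]
      exact q.add_mem hp hp'
    | mul_X p i hp =>
      have : aeval w (p * X i) - Polynomial.aeval a (aeval f (p * X i))
        = (aeval w p - Polynomial.aeval a (aeval f p)) * w i
        + Polynomial.aeval a (aeval f p) * (w i - Polynomial.aeval a (f i)) := by
        simp only [map_mul, aeval_X]; ring
      rw [this]
      exact q.add_mem (q.mul_mem_right _ hp) (q.mul_mem_left _ (hf i))
  have h5 := h4 G
  rw [hG, map_zero, sub_zero] at h5
  exact h5

/-- PIECE Y6 -/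
theorem tr_fin {n N : ℕ} {q : Ideal (MvPolynomial (Fin (n + 1)) ℂ)} (hq : q.IsPrime)
    (h2 : ¬ Tr q (N + 2)) (w : MvPolynomial (Fin (n + 1)) ℂ) (hw : w ∉ q) :
    {𝔓 : Ideal (MvPolynomial (Fin (n + 1)) ℂ) | 𝔓.IsPrime ∧ q ≤ 𝔓 ∧ w ∈ 𝔓 ∧ Tr 𝔓 N}.Finite := by
  refine (Ideal.finite_minimalPrimes_of_isNoetherianRing (MvPolynomial (Fin (n + 1)) ℂ)
    (q ⊔ Ideal.span {w})).subset ?_
  rintro 𝔓 ⟨hP, hqP, hwP, hT⟩
  have hle : q ⊔ Ideal.span {w} ≤ 𝔓 :=
    sup_le hqP (by rw [Ideal.span_le]; exact Set.singleton_subset_iff.2 hwP)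
  obtain ⟨p, hp, hpP⟩ := Ideal.exists_minimalPrimes_le hle
  rcases eq_or_lt_of_le hpP with he | hlt
  · rw [← he]; exact hp
  · exfalso
    have hpp : p.IsPrime := hp.1.1
    have hple : q ⊔ Ideal.span {w} ≤ p := hp.1.2
    have h3 := tr_drop hpp hlt N hT
    have hwp : w ∈ p := hple (Ideal.mem_sup_right (Ideal.mem_span_singleton_self w))
    have hqp : q < p := by
      refine lt_of_le_of_ne (le_sup_left.trans hple) ?_
      intro he
      rw [← he] at hwp
      exact hw hwp
    exact h2 (tr_drop hq hqp (N + 1) h3)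

end Pool.Agent.QY
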