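import Pool.Agent.Lib_MP_b9fedf_qy.DefsY
import Pool.Agent.Lib_MP_b9fedf_qy.DerExt
import Pool.Agent.Lib_MP_b9fedf_qy.TrLem

/-! A derivation which does not vanish on a reduced divisor at its generic point. -/

set_option autoImplicit false

namespace Pool.Agent.QY
open MvPolynomial Pool.Agent.SQ

section

variable {S K : Type} [CommRing S] [Field K]

/-- `x` is in the localisation of the image of `S` at `𝔓` -/
private def InRz (ψ : S →+* K) (𝔓 : Ideal S) (x : K) : Prop :=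
  ∃ a b : S, b ∉ 𝔓 ∧ ψ b * x = ψ a

/-- `x` is in its maximal ideal -/
private def InMz (ψ : S →+* K) (𝔓 : Ideal S) (x : K) : Prop :=
  ∃ a b : S, a ∈ 𝔓 ∧ b ∉ 𝔓 ∧ ψ b * x = ψ a

variable {ψ : S →+* K} {𝔓 : Ideal S}

private theorem one_z1 (h𝔓 : 𝔓.IsPrime) : (1 : S) ∉ 𝔓 := (Ideal.ne_top_iff_one 𝔓).1 h𝔓.ne_top

private theorem of_z1 (h𝔓 : 𝔓.IsPrime) (a : S) : InRz ψ 𝔓 (ψ a) :=
  ⟨a, 1, one_z1 h𝔓, by rw [map_one, one_mul]⟩

private theorem add_z1 (h𝔓 : 𝔓.IsPrime) {x y : K} (hx : InRz ψ 𝔓 x) (hy : InRz ψ 𝔓 y) :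
    InRz ψ 𝔓 (x + y) := by
  obtain ⟨a, b, hb, h1⟩ := hx
  obtain ⟨c, d, hd, h2⟩ := hy
  refine ⟨a * d + b * c, b * d, fun h => (h𝔓.mem_or_mem h).elim hb hd, ?_⟩
  rw [map_mul, map_add, map_mul, map_mul]
  linear_combination ψ d * h1 + ψ b * h2

private theorem mul_z1 (h𝔓 : 𝔓.IsPrime) {x y : K} (hx : InRz ψ 𝔓 x) (hy : InRz ψ 𝔓 y) :
    InRz ψ 𝔓 (x * y) := by
  obtain ⟨a, b, hb, h1⟩ := hx
  obtain ⟨c, d, hd, h2⟩ := hy
  refine ⟨a * c, b * d, fun h => (h𝔓.mem_or_mem h).elim hb hd, ?_⟩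
  rw [map_mul, map_mul]
  linear_combination (ψ d * y) * h1 + ψ a * h2

private theorem neg_z1 {x : K} (hx : InRz ψ 𝔓 x) : InRz ψ 𝔓 (-x) := by
  obtain ⟨a, b, hb, h1⟩ := hx
  refine ⟨-a, b, hb, ?_⟩
  rw [map_neg]
  linear_combination -h1

private theorem ofmul_z1 (h𝔓 : 𝔓.IsPrime) {x : K} {b : S} (hb : b ∉ 𝔓)
    (hx : InRz ψ 𝔓 (ψ b * x)) : InRz ψ 𝔓 x := by
  obtain ⟨c, d, hd, h2⟩ := hx
  refine ⟨c, d * b, fun h => (h𝔓.mem_or_mem h).elim hd hb, ?_⟩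
  rw [map_mul, mul_assoc, h2]

private theorem ofmulM_z1 (h𝔓 : 𝔓.IsPrime) {x : K} {b : S} (hb : b ∉ 𝔓)
    (hx : InMz ψ 𝔓 (ψ b * x)) : InMz ψ 𝔓 x := by
  obtain ⟨c, d, hc, hd, h2⟩ := hx
  refine ⟨c, d * b, hc, fun h => (h𝔓.mem_or_mem h).elim hd hb, ?_⟩
  rw [map_mul, mul_assoc, h2]

private theorem pmul_z1 {x : K} {P : S} (hP : P ∈ 𝔓) (hx : InRz ψ 𝔓 x) :
    InMz ψ 𝔓 (ψ P * x) := by
  obtain ⟨a, b, hb, h1⟩ := hx
  refine ⟨P * a, b, 𝔓.mul_mem_right a hP, hb, ?_⟩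
  rw [map_mul]
  linear_combination ψ P * h1

private theorem ppow_z1 (h𝔓 : 𝔓.IsPrime) {x : K} (P : S) (k : ℕ) (hx : InRz ψ 𝔓 x) :
    InRz ψ 𝔓 (ψ P ^ k * x) := by
  rw [← map_pow]
  exact mul_z1 h𝔓 (of_z1 h𝔓 _) hx

/-- the maximal ideal is generated by `P` -/
private theorem divp_z1 (h𝔓 : 𝔓.IsPrime) {q : Ideal S} (hq𝔓 : q ≤ 𝔓)
    (hker : ∀ g, ψ g = 0 ↔ g ∈ q) {P s : S}
    (hs : s ∉ 𝔓) (hs𝔓 : ∀ g ∈ 𝔓, s * g ∈ q ⊔ Ideal.span {P}) {x : K} (hx : InMz ψ 𝔓 x) :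
    ∃ y, InRz ψ 𝔓 y ∧ x = ψ P * y := by
  obtain ⟨a, b, ha, hb, h1⟩ := hx
  obtain ⟨g, hg, z, hz, hgz⟩ := Submodule.mem_sup.1 (hs𝔓 a ha)
  obtain ⟨c, rfl⟩ := Ideal.mem_span_singleton'.1 hz
  have hg0 : ψ g = 0 := (hker g).2 hg
  have h2 : ψ s * ψ a = ψ c * ψ P := by
    rw [← map_mul, ← hgz, map_add, hg0, zero_add, map_mul]
  have hsb : s * b ∉ 𝔓 := fun h => (h𝔓.mem_or_mem h).elim hs hb
  have hs0 : ψ (s * b) ≠ 0 := fun h => hsb (hq𝔓 ((hker _).1 h))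
  refine ⟨ψ c / ψ (s * b), ⟨c, s * b, hsb, mul_div_cancel₀ _ hs0⟩, ?_⟩
  rw [← mul_div_assoc, eq_div_iff hs0, map_mul]
  linear_combination ψ s * h1 + h2

private theorem noinv_z1 {q : Ideal S} (hq𝔓 : q ≤ 𝔓)
    (hker : ∀ g, ψ g = 0 ↔ g ∈ q) {P : S} (hP : P ∈ 𝔓) {y : K} (hy : InRz ψ 𝔓 y) :
    ψ P * y ≠ 1 := by
  intro h
  obtain ⟨a, b, hb, h1⟩ := hy
  have h2 : ψ (b - P * a) = 0 := by
    rw [map_sub, map_mul]
    linear_combination (-ψ b) * h + ψ P * h1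
  have h3 : b - P * a ∈ 𝔓 := hq𝔓 ((hker _).1 h2)
  exact hb (by simpa using 𝔓.add_mem h3 (𝔓.mul_mem_right a hP))

/-- every element of `K` is in the localisation after multiplication by a power of `P` -/
private theorem pow_z1 [IsNoetherianRing S] (h𝔓 : 𝔓.IsPrime) {q : Ideal S} (hq𝔓 : q ≤ 𝔓)
    (hker : ∀ g, ψ g = 0 ↔ g ∈ q) (hfrac : ∀ y : K, ∃ a b : S, b ∉ q ∧ ψ b * y = ψ a) {P s : S}
    (hPq : P ∉ q) (hP : P ∈ 𝔓) (hs : s ∉ 𝔓) (hs𝔓 : ∀ g ∈ 𝔓, s * g ∈ q ⊔ Ideal.span {P})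
    (y : K) : ∃ k : ℕ, InRz ψ 𝔓 (ψ P ^ k * y) := by
  classical
  obtain ⟨a₀, b, hb, hy⟩ := hfrac y
  have hb0 : ψ b ≠ 0 := fun h => hb ((hker _).1 h)
  have hP0 : ψ P ≠ 0 := fun h => hPq ((hker _).1 h)
  have hex : ∃ k : ℕ, ¬ InRz ψ 𝔓 (ψ b / ψ P ^ k) := by
    by_contra hall
    push Not at hall
    let J : ℕ → Ideal S := fun k =>
      { carrier := {a | InRz ψ 𝔓 (ψ a * (ψ P ^ k / ψ b))}
        add_mem' := fun {a c} ha hc => by
          show InRz ψ 𝔓 (ψ (a + c) * (ψ P ^ k / ψ b))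
          rw [map_add, add_mul]
          exact add_z1 h𝔓 ha hc
        zero_mem' := by
          show InRz ψ 𝔓 (ψ 0 * (ψ P ^ k / ψ b))
          rw [map_zero, zero_mul, ← map_zero ψ]
          exact of_z1 h𝔓 0
        smul_mem' := fun c a ha => by
          show InRz ψ 𝔓 (ψ (c * a) * (ψ P ^ k / ψ b))
          rw [map_mul, mul_assoc]
          exact mul_z1 h𝔓 (of_z1 h𝔓 c) ha }
    have hJ : ∀ k a, a ∈ J k ↔ InRz ψ 𝔓 (ψ a * (ψ P ^ k / ψ b)) := fun k a => Iff.rfl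
    have hmono : Monotone J := by
      refine monotone_nat_of_le_succ fun k a ha => ?_
      rw [hJ] at ha ⊢
      have h1 : ψ a * (ψ P ^ (k + 1) / ψ b) = ψ P * (ψ a * (ψ P ^ k / ψ b)) := by
        rw [pow_succ]
        ring
      rw [h1]
      exact mul_z1 h𝔓 (of_z1 h𝔓 P) ha
    obtain ⟨k, hk⟩ := monotone_stabilizes_iff_noetherian.2
      (inferInstanceAs (IsNoetherianRing S)) ⟨J, hmono⟩
    have hk1 : J k = J (k + 1) := hk (k + 1) (Nat.le_succ k)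
    obtain ⟨a, c, hc, h1⟩ := hall (k + 1)
    have hPk : ψ P ^ (k + 1) ≠ 0 := pow_ne_zero _ hP0
    have h2 : a ∈ J (k + 1) := by
      rw [hJ, ← h1]
      have h3 : ψ c * (ψ b / ψ P ^ (k + 1)) * (ψ P ^ (k + 1) / ψ b) = ψ c := by
        field_simp
      rw [h3]
      exact of_z1 h𝔓 c
    rw [← hk1, hJ, ← h1] at h2
    have h3 : ψ c * (ψ b / ψ P ^ (k + 1)) * (ψ P ^ k / ψ b) = ψ c * (ψ P)⁻¹ := by
      rw [pow_succ]
      field_simp
    rw [h3] at h2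
    exact noinv_z1 hq𝔓 hker hP (ofmul_z1 h𝔓 hc h2) (mul_inv_cancel₀ hP0)
  have hk := Nat.find_spec hex
  have hkm := fun m hm => Nat.find_min (m := m) hex hm
  generalize Nat.find hex = k at hk hkm
  rcases k with _ | j
  · exfalso
    apply hk
    rw [pow_zero, div_one]
    exact of_z1 h𝔓 b
  · have h1 : InRz ψ 𝔓 (ψ b / ψ P ^ j) := not_not.1 (hkm j (Nat.lt_succ_self j))
    have hPj : ψ P ^ j ≠ 0 := pow_ne_zero _ hP0
    obtain ⟨a, c, hc, h2⟩ := h1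
    have ha : a ∉ 𝔓 := by
      intro ha
      obtain ⟨y', hy', h3⟩ := divp_z1 h𝔓 hq𝔓 hker hs hs𝔓
        (⟨a, c, ha, hc, h2⟩ : InMz ψ 𝔓 (ψ b / ψ P ^ j))
      apply hk
      have h4 : ψ b / ψ P ^ (j + 1) = y' := by
        rw [div_eq_iff hPj] at h3
        rw [div_eq_iff (pow_ne_zero _ hP0), h3, pow_succ]
        ring
      rw [h4]
      exact hy'
    refine ⟨j, ofmul_z1 h𝔓 ha ?_⟩
    have h5 : ψ a * (ψ P ^ j * y) = ψ c * ψ a₀ := by
      rw [← h2, ← hy]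
      field_simp
    rw [h5]
    exact mul_z1 h𝔓 (of_z1 h𝔓 c) (of_z1 h𝔓 a₀)

end

/-! ### algebraic independence modulo `q` -/

private theorem key_z1 {n d : ℕ} {q q' : Ideal (MvPolynomial (Fin (n + 1)) ℂ)} (hq : q.IsPrime)
    (hqq : q ≤ q') (w : Fin d → MvPolynomial (Fin (n + 1)) ℂ)
    (hw : ∀ G : MvPolynomial (Fin d) ℂ, aeval w G ∈ q' → G = 0)
    (a : MvPolynomial (Fin (n + 1)) ℂ) (ha : a ∈ q') (haq : a ∉ q) :
    ∀ (m : ℕ) (p : Polynomial (MvPolynomial (Fin d) ℂ)), p.natDegree ≤ m →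
      p.eval₂ (aeval w : MvPolynomial (Fin d) ℂ →ₐ[ℂ] MvPolynomial (Fin (n + 1)) ℂ).toRingHom a ∈ q
      → p = 0 := by
  intro m
  induction m with
  | zero =>
    intro p hp h
    have h0 : p = Polynomial.C (p.coeff 0) := Polynomial.eq_C_of_natDegree_le_zero hp
    rw [h0, Polynomial.eval₂_C] at h
    have h1 := hw _ (hqq h)
    rw [h0, h1, map_zero]
  | succ m ih =>
    intro p hp h
    have h1 : p = p.divX * Polynomial.X + Polynomial.C (p.coeff 0) :=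
      (Polynomial.divX_mul_X_add p).symm
    have h2 : p.eval₂ (aeval w : MvPolynomial (Fin d) ℂ →ₐ[ℂ]
        MvPolynomial (Fin (n + 1)) ℂ).toRingHom a
        = p.divX.eval₂ (aeval w : MvPolynomial (Fin d) ℂ →ₐ[ℂ]
        MvPolynomial (Fin (n + 1)) ℂ).toRingHom a * a + aeval w (p.coeff 0) := by
      conv_lhs => rw [h1]
      rw [Polynomial.eval₂_add, Polynomial.eval₂_mul, Polynomial.eval₂_X, Polynomial.eval₂_C]
      rfl
    have h3 : aeval w (p.coeff 0) ∈ q' := by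
      have h4 := hqq h
      rw [h2] at h4
      exact (Ideal.add_mem_iff_right q' (Ideal.mul_mem_left _ _ ha)).1 h4
    have h5 := hw _ h3
    rw [h2, h5, map_zero, add_zero] at h
    have h6 := (hq.mem_or_mem h).resolve_right haq
    have h7 := ih p.divX (by rw [Polynomial.natDegree_divX_eq_natDegree_tsub_one]; omega) h6
    rw [h1, h7, h5, zero_mul, map_zero, add_zero]

private theorem cons_z1 {n d : ℕ} (w : Fin d → MvPolynomial (Fin (n + 1)) ℂ)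
    (a : MvPolynomial (Fin (n + 1)) ℂ) (G : MvPolynomial (Fin (d + 1)) ℂ) :
    aeval (Fin.cons a w : Fin (d + 1) → MvPolynomial (Fin (n + 1)) ℂ) G
      = (finSuccEquiv ℂ d G).eval₂ (aeval w : MvPolynomial (Fin d) ℂ →ₐ[ℂ]
        MvPolynomial (Fin (n + 1)) ℂ).toRingHom a := by
  have h2 : (aeval (Fin.cons a w : Fin (d + 1) → MvPolynomial (Fin (n + 1)) ℂ)
      : MvPolynomial (Fin (d + 1)) ℂ →ₐ[ℂ] MvPolynomial (Fin (n + 1)) ℂ).toRingHom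
      = (Polynomial.eval₂RingHom (aeval w : MvPolynomial (Fin d) ℂ →ₐ[ℂ]
      MvPolynomial (Fin (n + 1)) ℂ).toRingHom a).comp (finSuccEquiv ℂ d).toRingEquiv.toRingHom := by
    apply MvPolynomial.ringHom_ext
    · intro r
      have h5 : (finSuccEquiv ℂ d) (C r) = Polynomial.C (C r) := by
        have h6 := (finSuccEquiv ℂ d).commutes r
        rwa [algebraMap_eq] at h6
      have h7 : ((finSuccEquiv ℂ d).toRingEquiv.toRingHom) (C r) = Polynomial.C (C r) := h5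
      rw [RingHom.comp_apply, h7]
      simp [algebraMap_eq]
    · intro i
      refine Fin.cases ?_ (fun j => ?_) i
      · simp [finSuccEquiv_X_zero]
      · simp [finSuccEquiv_X_succ]
  exact congrArg (fun φ => φ G) h2

/-! ### the derivation of the field -/

private theorem exD_z1 {n N : ℕ} {K : Type} [Field K] [CharZero K]
    (ψ : MvPolynomial (Fin (n + 1)) ℂ →+* K) (P : MvPolynomial (Fin (n + 1)) ℂ)
    (w : Fin N → MvPolynomial (Fin (n + 1)) ℂ)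
    (hind : ∀ G : MvPolynomial (Fin (N + 1)) ℂ,
      ψ (aeval (Fin.cons P w : Fin (N + 1) → MvPolynomial (Fin (n + 1)) ℂ) G) = 0 → G = 0) :
    ∃ D : Derivation ℤ K K, D (ψ P) = 1 ∧ (∀ i, D (ψ (w i)) = 0) ∧ ∀ c : ℂ, D (ψ (C c)) = 0 := by
  classical
  let φ : MvPolynomial (Fin (N + 1)) ℂ →+* K :=
    ψ.comp (aeval (Fin.cons P w : Fin (N + 1) → MvPolynomial (Fin (n + 1)) ℂ) :
      MvPolynomial (Fin (N + 1)) ℂ →ₐ[ℂ] MvPolynomial (Fin (n + 1)) ℂ).toRingHom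
  let : Algebra (MvPolynomial (Fin (N + 1)) ℂ) K := φ.toAlgebra
  have hinj : Function.Injective (algebraMap (MvPolynomial (Fin (N + 1)) ℂ) K) := by
    rw [injective_iff_map_eq_zero]
    intro G hG
    exact hind G hG
  let d₀ : Derivation ℤ (MvPolynomial (Fin (N + 1)) ℂ) (MvPolynomial (Fin (N + 1)) ℂ) :=
    (pderiv (R := ℂ) (0 : Fin (N + 1))).restrictScalars ℤ
  let d : Derivation ℤ (MvPolynomial (Fin (N + 1)) ℂ) K :=
    (Algebra.linearMap (MvPolynomial (Fin (N + 1)) ℂ) K).compDer d₀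
  have hd : ∀ G, d G = φ (pderiv 0 G) := fun G => rfl
  obtain ⟨D, hD⟩ := der_extend hinj d
  have hD' : ∀ G, D (φ G) = φ (pderiv 0 G) := fun G => (hD G).trans (hd G)
  have hX0 : φ (X 0) = ψ P := by
    show ψ (aeval (Fin.cons P w : Fin (N + 1) → MvPolynomial (Fin (n + 1)) ℂ) (X 0)) = ψ P
    rw [aeval_X]
    rfl
  have hXi : ∀ i : Fin N, φ (X i.succ) = ψ (w i) := by
    intro i
    show ψ (aeval (Fin.cons P w : Fin (N + 1) → MvPolynomial (Fin (n + 1)) ℂ) (X i.succ)) = ψ (w i)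
    rw [aeval_X]
    rfl
  have hC : ∀ c : ℂ, φ (C c) = ψ (C c) := by
    intro c
    show ψ (aeval (Fin.cons P w : Fin (N + 1) → MvPolynomial (Fin (n + 1)) ℂ) (C c)) = ψ (C c)
    rw [aeval_C, algebraMap_eq]
  refine ⟨D, ?_, fun i => ?_, fun c => ?_⟩
  · rw [← hX0, hD', pderiv_X_self, map_one]
  · rw [← hXi, hD', pderiv_X_of_ne (Fin.succ_ne_zero i), map_zero]
  · rw [← hC, hD', pderiv_C, map_zero]

private theorem core_z1 {n N : ℕ} {q 𝔓 : Ideal (MvPolynomial (Fin (n + 1)) ℂ)} (hq : q.IsPrime)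
    (h𝔓 : 𝔓.IsPrime) (hq𝔓 : q ≤ 𝔓) (h2 : ¬ Tr q (N + 2)) (htr : Tr 𝔓 N)
    (P s : MvPolynomial (Fin (n + 1)) ℂ) (hPq : P ∉ q) (hP : P ∈ 𝔓) (hs : s ∉ 𝔓)
    (hs𝔓 : ∀ g ∈ 𝔓, s * g ∈ q ⊔ Ideal.span {P}) {K : Type} [Field K] [CharZero K]
    (ψ : MvPolynomial (Fin (n + 1)) ℂ →+* K) (hker : ∀ g, ψ g = 0 ↔ g ∈ q)
    (hfrac : ∀ y : K, ∃ a b : MvPolynomial (Fin (n + 1)) ℂ, b ∉ q ∧ ψ b * y = ψ a) :
    ∃ D : Derivation ℤ K K, D (ψ P) = 1 ∧ (∀ c : ℂ, D (ψ (C c)) = 0) ∧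
      ∀ i, InRz ψ 𝔓 (D (ψ (X i))) := by
  classical
  have hlt : q < 𝔓 := lt_of_le_of_ne hq𝔓 fun h => hPq (h ▸ hP)
  obtain ⟨w, hw⟩ := htr
  have hind : ∀ G : MvPolynomial (Fin (N + 1)) ℂ,
      ψ (aeval (Fin.cons P w : Fin (N + 1) → MvPolynomial (Fin (n + 1)) ℂ) G) = 0 → G = 0 := by
    intro G hG
    rw [hker, cons_z1] at hG
    have h3 := key_z1 hq hq𝔓 w hw P hP hPq _ _ le_rfl hG
    exact (finSuccEquiv ℂ N).injective (by rw [h3, map_zero])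
  obtain ⟨D, hDP, hDw, hDC⟩ := exD_z1 ψ P w hind
  refine ⟨D, hDP, hDC, ?_⟩
  have hP0 : ψ P ≠ 0 := fun h => hPq ((hker _).1 h)
  -- the least power of `P`
  have hex : ∃ k : ℕ, ∀ i, InRz ψ 𝔓 (ψ P ^ k * D (ψ (X i))) := by
    choose k hk using fun i : Fin (n + 1) =>
      pow_z1 h𝔓 hq𝔓 hker hfrac hPq hP hs hs𝔓 (D (ψ (X i)))
    refine ⟨Finset.univ.sup k, fun i => ?_⟩
    have h3 : k i ≤ Finset.univ.sup k := Finset.le_sup (Finset.mem_univ i)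
    obtain ⟨m, hm⟩ := Nat.exists_eq_add_of_le h3
    rw [hm, pow_add, mul_comm (ψ P ^ k i), mul_assoc]
    exact ppow_z1 h𝔓 P m (hk i)
  have hk := Nat.find_spec hex
  have hkm := fun m hm => Nat.find_min (m := m) hex hm
  generalize Nat.find hex = k at hk hkm
  rcases k with _ | k
  · intro i
    have h3 := hk i
    rwa [pow_zero, one_mul] at h3
  exfalso
  refine hkm k (Nat.lt_succ_self k) fun i => ?_
  -- the derivation `P ^ (k + 1) D`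
  obtain ⟨D', hD'⟩ : ∃ D' : Derivation ℤ K K, ∀ x, D' x = ψ P ^ (k + 1) * D x :=
    ⟨ψ P ^ (k + 1) • D, fun x => rfl⟩
  have hDS : ∀ g, InRz ψ 𝔓 (D' (ψ g)) := by
    intro g
    induction g using MvPolynomial.induction_on with
    | C c =>
      rw [hD', hDC, mul_zero, ← map_zero ψ]
      exact of_z1 h𝔓 0
    | add f g hf hg =>
      rw [map_add, map_add]
      exact add_z1 h𝔓 hf hg
    | mul_X f j hf =>
      rw [map_mul, Derivation.leibniz, smul_eq_mul, smul_eq_mul]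
      refine add_z1 h𝔓 (mul_z1 h𝔓 (of_z1 h𝔓 f) ?_) (mul_z1 h𝔓 (of_z1 h𝔓 (X j)) hf)
      rw [hD']
      exact hk j
  have hDR : ∀ y, InRz ψ 𝔓 y → InRz ψ 𝔓 (D' y) := by
    rintro y ⟨a, b, hb, h3⟩
    refine ofmul_z1 h𝔓 hb ?_
    have h4 : ψ b * D' y = D' (ψ a) + -(y * D' (ψ b)) := by
      rw [← h3, Derivation.leibniz, smul_eq_mul, smul_eq_mul]
      ring
    rw [h4]
    exact add_z1 h𝔓 (hDS a) (neg_z1 (mul_z1 h𝔓 ⟨a, b, hb, h3⟩ (hDS b)))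
  have hDM : ∀ a ∈ 𝔓, InMz ψ 𝔓 (D' (ψ a)) := by
    intro a ha
    obtain ⟨y, hy, h3⟩ := divp_z1 h𝔓 hq𝔓 hker hs hs𝔓
      (⟨a, 1, ha, one_z1 h𝔓, by rw [map_one, one_mul]⟩ : InMz ψ 𝔓 (ψ a))
    have h4 : D' (ψ a) = ψ P * (D' y + ψ P ^ k * y) := by
      have h5 : D' (ψ P) = ψ P ^ (k + 1) := by rw [hD', hDP, mul_one]
      rw [h3, Derivation.leibniz, smul_eq_mul, smul_eq_mul, h5, pow_succ]
      ring
    rw [h4]
    exact pmul_z1 hP (add_z1 h𝔓 (hDR y hy) (ppow_z1 h𝔓 P k hy))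
  -- `D'` vanishes on the polynomials in `w`
  have hDw' : ∀ c : MvPolynomial (Fin N) ℂ, D' (ψ (aeval w c)) = 0 := by
    intro c
    induction c using MvPolynomial.induction_on with
    | C c => rw [aeval_C, algebraMap_eq, hD', hDC, mul_zero]
    | add f g hf hg => rw [map_add, map_add, map_add, hf, hg, add_zero]
    | mul_X f j hf =>
      rw [map_mul, map_mul, Derivation.leibniz, smul_eq_mul, smul_eq_mul, hf, mul_zero, aeval_X,
        hD', hDw, mul_zero, mul_zero, add_zero]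
  have hchain : ∀ (u : MvPolynomial (Fin (n + 1)) ℂ) (g : Polynomial (MvPolynomial (Fin N) ℂ)),
      D' (ψ (g.eval₂ (aeval w : MvPolynomial (Fin N) ℂ →ₐ[ℂ]
        MvPolynomial (Fin (n + 1)) ℂ).toRingHom u)) =
      ψ (g.derivative.eval₂ (aeval w : MvPolynomial (Fin N) ℂ →ₐ[ℂ]
        MvPolynomial (Fin (n + 1)) ℂ).toRingHom u) * D' (ψ u) := by
    intro u g
    induction g using Polynomial.induction_on' with
    | add f g hf hg =>
      rw [Polynomial.eval₂_add, Polynomial.derivative_add, Polynomial.eval₂_add, map_add, map_add,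
        map_add, hf, hg, add_mul]
    | monomial m c =>
      have h6 : D' (ψ ((aeval w : MvPolynomial (Fin N) ℂ →ₐ[ℂ]
        MvPolynomial (Fin (n + 1)) ℂ).toRingHom c)) = 0 := hDw' c
      rw [Polynomial.eval₂_monomial, Polynomial.derivative_monomial, Polynomial.eval₂_monomial,
        map_mul, map_pow, Derivation.leibniz, h6, smul_zero, add_zero, Derivation.leibniz_pow]
      simp only [map_mul, map_pow, map_natCast, smul_eq_mul, nsmul_eq_mul]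
      ring
  -- `D' u` is in the maximal ideal
  have hDu : ∀ u, InMz ψ 𝔓 (D' (ψ u)) := by
    intro u
    have hdep : ∃ g : Polynomial (MvPolynomial (Fin N) ℂ), g ≠ 0 ∧
        g.eval₂ (aeval w : MvPolynomial (Fin N) ℂ →ₐ[ℂ]
          MvPolynomial (Fin (n + 1)) ℂ).toRingHom u ∈ 𝔓 := by
      by_contra hno
      push Not at hno
      apply h2
      refine tr_drop hq hlt (N + 1) ⟨Fin.cons u w, fun G hG => ?_⟩
      rw [cons_z1] at hG
      by_contra hG0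
      exact hno (finSuccEquiv ℂ N G) (fun h => hG0 ((finSuccEquiv ℂ N).injective
        (by rw [h, map_zero]))) hG
    have hdeg : ∃ m : ℕ, ∃ g : Polynomial (MvPolynomial (Fin N) ℂ), g ≠ 0 ∧
        g.eval₂ (aeval w : MvPolynomial (Fin N) ℂ →ₐ[ℂ]
          MvPolynomial (Fin (n + 1)) ℂ).toRingHom u ∈ 𝔓 ∧ g.natDegree = m := by
      obtain ⟨g, h3, h4⟩ := hdep
      exact ⟨_, g, h3, h4, rfl⟩
    obtain ⟨g, hg0, hgu, hgm⟩ := Nat.find_spec hdeg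
    have hmin := fun m hm => Nat.find_min (m := m) hdeg hm
    rw [← hgm] at hmin
    have hpos : 0 < g.natDegree := by
      by_contra h0
      have h3 : g = Polynomial.C (g.coeff 0) :=
        Polynomial.eq_C_of_natDegree_le_zero (by omega)
      rw [h3, Polynomial.eval₂_C] at hgu
      have h4 := hw _ hgu
      rw [h4, map_zero] at h3
      exact hg0 h3
    have hd0 : g.derivative ≠ 0 := by
      intro h3
      have h4 := Polynomial.derivative_eq_zero.1 h3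
      omega
    have hdm : g.derivative.eval₂ (aeval w : MvPolynomial (Fin N) ℂ →ₐ[ℂ]
        MvPolynomial (Fin (n + 1)) ℂ).toRingHom u ∉ 𝔓 := by
      intro h3
      exact hmin _ (Polynomial.natDegree_derivative_lt hpos.ne') ⟨_, hd0, h3, rfl⟩
    have h5 := hDM _ hgu
    rw [hchain] at h5
    exact ofmulM_z1 h𝔓 hdm h5
  obtain ⟨y, hy, h3⟩ := divp_z1 h𝔓 hq𝔓 hker hs hs𝔓 (hDu (X i))
  have h4 : ψ P ^ k * D (ψ (X i)) = y := by
    apply mul_left_cancel₀ hP0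
    rw [← h3, hD', pow_succ]
    ring
  rw [h4]
  exact hy

private theorem core2_z1 {n N : ℕ} {q 𝔓 : Ideal (MvPolynomial (Fin (n + 1)) ℂ)} (hq : q.IsPrime)
    (h𝔓 : 𝔓.IsPrime) (hq𝔓 : q ≤ 𝔓) (h2 : ¬ Tr q (N + 2)) (htr : Tr 𝔓 N)
    (P s : MvPolynomial (Fin (n + 1)) ℂ) (hPq : P ∉ q) (hP : P ∈ 𝔓) (hs : s ∉ 𝔓)
    (hs𝔓 : ∀ g ∈ 𝔓, s * g ∈ q ⊔ Ideal.span {P}) {K : Type} [Field K] [CharZero K]
    (ψ : MvPolynomial (Fin (n + 1)) ℂ →+* K) (hker : ∀ g, ψ g = 0 ↔ g ∈ q)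
    (hfrac : ∀ y : K, ∃ a b : MvPolynomial (Fin (n + 1)) ℂ, b ∉ q ∧ ψ b * y = ψ a) :
    ∃ d : Fin (n + 1) → MvPolynomial (Fin (n + 1)) ℂ,
      (∀ g ∈ q, mkDerivation ℂ d g ∈ q) ∧ mkDerivation ℂ d P ∉ 𝔓 := by
  classical
  obtain ⟨D, hDP, hDC, hDX⟩ := core_z1 hq h𝔓 hq𝔓 h2 htr P s hPq hP hs hs𝔓 ψ hker hfrac
  choose a b hb hab using hDX
  have hbn : ∏ i, b i ∉ 𝔓 := by
    rw [h𝔓.prod_mem_iff]
    rintro ⟨i, _, hi⟩
    exact hb i hi
  have hd : ∀ i, ψ (a i * ∏ j ∈ Finset.univ.erase i, b j) = ψ (∏ i, b i) * D (ψ (X i)) := by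
    intro i
    rw [← Finset.mul_prod_erase Finset.univ b (Finset.mem_univ i), map_mul, map_mul, ← hab i]
    ring
  have hmk : ∀ g, ψ (mkDerivation ℂ (fun i => a i * ∏ j ∈ Finset.univ.erase i, b j) g) =
      ψ (∏ i, b i) * D (ψ g) := by
    intro g
    induction g using MvPolynomial.induction_on with
    | C c => rw [derivation_C, map_zero, hDC, mul_zero]
    | add f g hf hg => rw [map_add, map_add, hf, hg, map_add, map_add, mul_add]
    | mul_X f j hf =>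
      rw [Derivation.leibniz, mkDerivation_X, smul_eq_mul, smul_eq_mul, map_add, map_mul ψ f,
        map_mul ψ (X j), hf, hd, map_mul ψ f, Derivation.leibniz, smul_eq_mul, smul_eq_mul]
      ring
  refine ⟨fun i => a i * ∏ j ∈ Finset.univ.erase i, b j, fun g hg => ?_, fun hmem => ?_⟩
  · rw [← hker, hmk, (hker g).2 hg, map_zero, mul_zero]
  · have h3 : mkDerivation ℂ (fun i => a i * ∏ j ∈ Finset.univ.erase i, b j) P - ∏ i, b i ∈ q := by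
      rw [← hker, map_sub, hmk, hDP, mul_one, sub_self]
    apply hbn
    have h4 := 𝔓.sub_mem hmem (hq𝔓 h3)
    rwa [sub_sub_cancel] at h4

/-- PIECE Z1 (DerPoint.lean) -/
theorem der_point {n N : ℕ} {q 𝔓 : Ideal (MvPolynomial (Fin (n + 1)) ℂ)} (hq : q.IsPrime)
    (h𝔓 : 𝔓.IsPrime) (hq𝔓 : q ≤ 𝔓) (h2 : ¬ Tr q (N + 2)) (htr : Tr 𝔓 N)
    (P s : MvPolynomial (Fin (n + 1)) ℂ) (hPq : P ∉ q) (hP : P ∈ 𝔓) (hs : s ∉ 𝔓)
    (hs𝔓 : ∀ g ∈ 𝔓, s * g ∈ q ⊔ Ideal.span {P}) :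
    ∃ d : Fin (n + 1) → MvPolynomial (Fin (n + 1)) ℂ,
      (∀ g ∈ q, mkDerivation ℂ d g ∈ q) ∧ mkDerivation ℂ d P ∉ 𝔓 := by
  classical
  let A := MvPolynomial (Fin (n + 1)) ℂ ⧸ q
  have : IsDomain A := Ideal.Quotient.isDomain q
  let K := FractionRing A
  let ψ : MvPolynomial (Fin (n + 1)) ℂ →+* K := (algebraMap A K).comp (Ideal.Quotient.mk q)
  have hinj : Function.Injective (algebraMap A K) := IsFractionRing.injective A K
  have hker : ∀ g, ψ g = 0 ↔ g ∈ q := by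
    intro g
    show algebraMap A K (Ideal.Quotient.mk q g) = 0 ↔ g ∈ q
    rw [map_eq_zero_iff _ hinj, Ideal.Quotient.eq_zero_iff_mem]
  have hfrac : ∀ y : K, ∃ a b : MvPolynomial (Fin (n + 1)) ℂ, b ∉ q ∧ ψ b * y = ψ a := by
    intro y
    obtain ⟨a, b, hb, rfl⟩ := IsFractionRing.div_surjective (A := A) y
    obtain ⟨a, rfl⟩ := Ideal.Quotient.mk_surjective a
    obtain ⟨b, rfl⟩ := Ideal.Quotient.mk_surjective b
    have hb0 : ψ b ≠ 0 := by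
      show algebraMap A K (Ideal.Quotient.mk q b) ≠ 0
      rw [Ne, map_eq_zero_iff _ hinj]
      exact nonZeroDivisors.ne_zero hb
    exact ⟨a, b, fun h => hb0 ((hker b).2 h), mul_div_cancel₀ _ hb0⟩
  have hchar : CharZero K :=
    charZero_of_injective_ringHom (f := ψ.comp (C : ℂ →+* MvPolynomial (Fin (n + 1)) ℂ))
      (ψ.comp C).injective
  exact core2_z1 hq h𝔓 hq𝔓 h2 htr P s hPq hP hs hs𝔓 ψ hker hfrac

end Pool.Agent.QY
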