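import Pool.Agent.Lib_MP_b9fedf_qy.Good
import Pool.Agent.Lib_MP_b9fedf_qy.DefsR
import Pool.Agent.Lib_MP_b9fedf_qy.DerPoint
import Pool.Agent.Lib_MP_b9fedf_qy.DerHomog

/-! Certificates for reduced hypersurface sections. -/

set_option autoImplicit false

namespace Pool.Agent.QY
open MvPolynomial Pool.Agent.SQ

theorem homI_range {n : ℕ} {q : Ideal (MvPolynomial (Fin (n + 1)) ℂ)} (hqh : HomI q) (r : ℕ)
    (F : Fin r → MvPolynomial (Fin (n + 1)) ℂ) (δ : Fin r → ℕ)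
    (hF : ∀ a, (F a).IsHomogeneous (δ a)) : HomI (q ⊔ Ideal.span (Set.range F)) := by
  classical
  have h : ∀ s : Finset (Fin r), HomI (q ⊔ Ideal.span (F '' (s : Set (Fin r)))) := by
    intro s
    induction s using Finset.induction_on with
    | empty =>
      rw [Finset.coe_empty, Set.image_empty, Ideal.span_empty, sup_bot_eq]
      exact hqh
    | insert a s has ih =>
      rw [Finset.coe_insert, Set.image_insert_eq, Ideal.span_insert, sup_comm (Ideal.span {F a}),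
        ← sup_assoc]
      exact homI_sup ih _ _ (hF a)
  have h1 := h Finset.univ
  rwa [Finset.coe_univ, Set.image_univ] at h1

theorem min_of_tr {n N : ℕ} {q : Ideal (MvPolynomial (Fin (n + 1)) ℂ)} (hq : q.IsPrime)
    (h2 : ¬ Tr q (N + 2)) (P : MvPolynomial (Fin (n + 1)) ℂ) (hPq : P ∉ q)
    (𝔓 : Ideal (MvPolynomial (Fin (n + 1)) ℂ)) (h𝔓 : 𝔓.IsPrime) (hq𝔓 : q ≤ 𝔓) (hP : P ∈ 𝔓)
    (htr : Tr 𝔓 N) : 𝔓 ∈ (q ⊔ Ideal.span {P}).minimalPrimes := by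
  refine ⟨⟨h𝔓, ?_⟩, ?_⟩
  · exact sup_le hq𝔓 ((Ideal.span_singleton_le_iff_mem _).mpr hP)
  · rintro 𝔔 ⟨h𝔔, hle⟩ h𝔔𝔓
    by_contra hcon
    have h1 : Tr 𝔔 (N + 1) := tr_drop h𝔔 (lt_of_le_not_ge h𝔔𝔓 hcon) N htr
    have hP𝔔 : P ∈ 𝔔 := hle (Ideal.mem_sup_right (Ideal.mem_span_singleton_self _))
    have h3 : q < 𝔔 := by
      refine lt_of_le_of_ne (le_sup_left.trans hle) ?_
      intro h
      rw [← h] at hP𝔔
      exact hPq hP𝔔
    exact h2 (tr_drop hq h3 (N + 1) h1)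

theorem good_red {n m e : ℕ} {q : Ideal (MvPolynomial (Fin (n + 1)) ℂ)} (hq : q.IsPrime)
    (hqh : HomI q) (h2 : Tr q 2) (P : Fin (m + 1) → MvPolynomial (Fin (n + 1)) ℂ)
    (hP : ∀ i, (P i).IsHomogeneous e) (v : Fin (m + 1) → ℂ)
    (hred : RedOn q (∑ i, C (v i) * P i)) :
    ∃ (e₁ : ℕ) (s : MvPolynomial (Fin (m + 1)) ℂ), s.IsHomogeneous e₁ ∧
      eval v s ≠ 0 ∧ ExcOn q P s := by
  classical
  -- the dimension
  obtain ⟨N, hN, hN1, hN2⟩ : ∃ N, 1 ≤ N ∧ Tr q (N + 1) ∧ ¬ Tr q (N + 2) := by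
    by_contra hcon
    push Not at hcon
    have h3 : ∀ N, 1 ≤ N → Tr q (N + 1) := by
      intro N hN
      induction N, hN using Nat.le_induction with
      | base => exact h2
      | succ N hN ih => exact hcon N hN ih
    have := tr_le hq (h3 (n + 1) (by omega))
    omega
  set F := ∑ i, C (v i) * P i with hF
  have hFh : F.IsHomogeneous e := IsHomogeneous.sum _ _ _ fun i _ => (hP i).C_mul _
  have hfin := tr_fin hq hN2 F hred.1
  set T : Finset (Ideal (MvPolynomial (Fin (n + 1)) ℂ)) := hfin.toFinset with hT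
  have hTm : ∀ 𝔓 : T, (𝔓.1.IsPrime ∧ q ≤ 𝔓.1 ∧ F ∈ 𝔓.1 ∧ Tr 𝔓.1 N) := fun 𝔓 =>
    (Set.Finite.mem_toFinset hfin).mp 𝔓.2
  have hex : ∀ 𝔓 : T, ∃ (δ : ℕ) (d' : Fin (n + 1) → MvPolynomial (Fin (n + 1)) ℂ),
      (∀ i, (d' i).IsHomogeneous δ) ∧ (∀ g ∈ q, mkDerivation ℂ d' g ∈ q) ∧
      mkDerivation ℂ d' F ∉ 𝔓.1 := by
    intro 𝔓
    obtain ⟨h1, h3, h4, h5⟩ := hTm 𝔓
    obtain ⟨s, hs, hs2⟩ := hred.2 𝔓.1 (min_of_tr hq hN2 F hred.1 𝔓.1 h1 h3 h4 h5)
    obtain ⟨d, hd, hdF⟩ := der_point hq h1 h3 hN2 h5 F s hred.1 h4 hs hs2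
    exact der_homog hqh F d hd hdF
  choose δ d hd hdq hdF using hex
  set r := Fintype.card T with hr
  set eT : Fin r ≃ T := (Fintype.equivFin T).symm with heT
  obtain ⟨c, rfl⟩ : ∃ c, N = c + 1 := ⟨N - 1, by omega⟩
  have hDh : ∀ a : Fin r, (mkDerivation ℂ (d (eT a)) F).IsHomogeneous (e - 1 + δ (eT a)) :=
    fun a => mkDer_hom _ (hd (eT a)) F hFh
  obtain ⟨ℓ, hℓ⟩ := cut c (q ⊔ Ideal.span {F} ⊔
    Ideal.span (Set.range fun a : Fin r => mkDerivation ℂ (d (eT a)) F))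
    (homI_range (homI_sup hqh _ _ hFh) r _ _ hDh) (by
    intro 𝔓 h𝔓 hle htr
    have h3 : q ≤ 𝔓 := (le_sup_left.trans le_sup_left).trans hle
    have h4 : F ∈ 𝔓 :=
      hle (Ideal.mem_sup_left (Ideal.mem_sup_right (Ideal.mem_span_singleton_self _)))
    have hmem : 𝔓 ∈ T := (Set.Finite.mem_toFinset hfin).mpr ⟨h𝔓, h3, h4, htr⟩
    apply hdF ⟨𝔓, hmem⟩
    refine hle (Ideal.mem_sup_right (Ideal.subset_span ⟨eT.symm ⟨𝔓, hmem⟩, ?_⟩))
    simp only [Equiv.apply_symm_apply])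
  have hder : ∀ (a : Fin r) (x : Fin (n + 1) → ℂ), eval x (mkDerivation ℂ (d (eT a)) F) =
      ∑ i, v i * eval x (mkDerivation ℂ (d (eT a)) (P i)) := by
    intro a x
    rw [hF, map_sum, map_sum]
    refine Finset.sum_congr rfl fun i _ => ?_
    rw [← smul_eq_C_mul, Derivation.map_smul, smul_eq_C_mul, map_mul, eval_C]
  obtain ⟨N₁, e₁, s, hN₁, hs1, hs2, hs3⟩ := cert (r := r) hqh P hP
    (fun a i => mkDerivation ℂ (d (eT a)) (P i)) (fun a => e - 1 + δ (eT a))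
    (fun a i => mkDer_hom _ (hd (eT a)) (P i) (hP i)) ℓ v (by
    intro x hx1 hx2 hx3 hx4
    refine hℓ x ?_ hx4
    have hF0 : eval x F = 0 := by
      rw [hF, map_sum, ← hx2]
      exact Finset.sum_congr rfl fun i _ => by rw [map_mul, eval_C]
    have hle : q ⊔ Ideal.span {F} ⊔
        Ideal.span (Set.range fun a : Fin r => mkDerivation ℂ (d (eT a)) F) ≤
        RingHom.ker (eval x) := by
      refine sup_le (sup_le ?_ ?_) ?_
      · intro w hw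
        exact RingHom.mem_ker.mpr (hx1 w hw)
      · rw [Ideal.span_singleton_le_iff_mem, RingHom.mem_ker]
        exact hF0
      · rw [Ideal.span_le]
        rintro _ ⟨a, rfl⟩
        show _ ∈ RingHom.ker (eval x)
        rw [RingHom.mem_ker, hder]
        exact hx3 a
    intro w hw
    exact RingHom.mem_ker.mp (hle hw))
  exact ⟨e₁, s, hs1, hs2, exc_y hq hqh hN1 (fun a : Fin r => mkDerivation ℂ (d (eT a)))
    (fun a => hdq (eT a)) P hP ℓ s hN₁ hs3⟩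

theorem excOn_mul {n : ℕ} {τ : Type} [Fintype τ] {q : Ideal (MvPolynomial (Fin (n + 1)) ℂ)}
    {P : τ → MvPolynomial (Fin (n + 1)) ℂ} {s : MvPolynomial τ ℂ} (h : ExcOn q P s)
    (u : MvPolynomial τ ℂ) : ExcOn q P (s * u) := by
  intro E _ _ t ht halg D hD y hy
  refine h E t ht halg D hD y ?_
  intro h0
  apply hy
  rw [eval₂_mul, h0, zero_mul]

/-- finitely many certificates are enough -/
theorem good_uniform {n m e : ℕ} {q : Ideal (MvPolynomial (Fin (n + 1)) ℂ)} (hq : q.IsPrime)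
    (hqh : HomI q) (h2 : Tr q 2) (P : Fin (m + 1) → MvPolynomial (Fin (n + 1)) ℂ)
    (hP : ∀ i, (P i).IsHomogeneous e) : ∃ e₂ : ℕ, ∀ v : Fin (m + 1) → ℂ,
    RedOn q (∑ i, C (v i) * P i) → ∃ s : MvPolynomial (Fin (m + 1)) ℂ, s.IsHomogeneous e₂ ∧
      eval v s ≠ 0 ∧ ExcOn q P s := by
  classical
  set Cs : Set (MvPolynomial (Fin (m + 1)) ℂ) :=
    {s | ∃ e₁, s.IsHomogeneous e₁ ∧ ExcOn q P s} with hCs
  obtain ⟨T, hT, hTs⟩ := (Submodule.fg_span_iff_fg_span_finset_subset Cs).mp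
    (IsNoetherian.noetherian (Submodule.span (MvPolynomial (Fin (m + 1)) ℂ) Cs))
  have hT' : ∀ t : MvPolynomial (Fin (m + 1)) ℂ, ∃ e₁, t ∈ T → t.IsHomogeneous e₁ ∧ ExcOn q P t := by
    intro t
    by_cases ht : t ∈ T
    · obtain ⟨e₁, h⟩ := hT ht
      exact ⟨e₁, fun _ => h⟩
    · exact ⟨0, fun h => absurd h ht⟩
  choose deg hdeg using hT'
  refine ⟨T.sup deg, ?_⟩
  intro v hv
  obtain ⟨e₁, s, hs1, hs2, hs3⟩ := good_red hq hqh h2 P hP v hv
  obtain ⟨t, htT, ht⟩ : ∃ t ∈ T, eval v t ≠ 0 := by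
    by_contra hcon
    push Not at hcon
    apply hs2
    have h3 : Submodule.span (MvPolynomial (Fin (m + 1)) ℂ) (T : Set (MvPolynomial (Fin (m + 1)) ℂ)) ≤
        RingHom.ker (eval v) := by
      rw [Submodule.span_le]
      intro t ht
      exact RingHom.mem_ker.mpr (hcon t ht)
    have h4 : s ∈ Submodule.span (MvPolynomial (Fin (m + 1)) ℂ) Cs :=
      Submodule.subset_span ⟨e₁, hs1, hs3⟩
    rw [hTs] at h4
    exact RingHom.mem_ker.mp (h3 h4)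
  obtain ⟨ht1, ht2⟩ := hdeg t htT
  have hle : deg t ≤ T.sup deg := Finset.le_sup htT
  have hv0 : v ≠ 0 := by
    intro h0
    apply hv.1
    rw [h0]
    have : ∑ i, C ((0 : Fin (m + 1) → ℂ) i) * P i = 0 :=
      Finset.sum_eq_zero fun i _ => by rw [Pi.zero_apply, map_zero, zero_mul]
    rw [this]
    exact Ideal.zero_mem _
  obtain ⟨j, hj⟩ := Function.ne_iff.mp hv0
  refine ⟨t * X j ^ (T.sup deg - deg t), ?_, ?_, excOn_mul ht2 _⟩
  · have h5 := ht1.mul ((isHomogeneous_X ℂ j).pow (T.sup deg - deg t))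
    have h6 : deg t + 1 * (T.sup deg - deg t) = T.sup deg := by omega
    rwa [h6] at h5
  · rw [map_mul, map_pow, eval_X]
    exact mul_ne_zero ht (pow_ne_zero _ hj)

end Pool.Agent.QY
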