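import Pool.Agent.Lib_MP_b9fedf_qy.CurveY
import Pool.Agent.Lib_MP_b9fedf_qy.Red
import Pool.Agent.Lib_MP_b9fedf_sq.Fin2

/-! Entire curves tangent to many hypersurfaces of a projective variety. -/

set_option autoImplicit false

namespace Pool.Agent.QY
open MvPolynomial Pool.Agent.SQ

/-- scaling of a homogeneous form with values in an algebra -/
private theorem aeval_scale_mY {A : Type} [CommRing A] [Algebra ℂ A] {m n : ℕ}
    (f : MvPolynomial (Fin m) ℂ) (hf : f.IsHomogeneous n) (t : A) (y : Fin m → A) :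
    aeval (fun i => t * y i) f = t ^ n * aeval y f := by
  classical
  rw [aeval_def, aeval_def, eval₂_eq', eval₂_eq', Finset.mul_sum]
  refine Finset.sum_congr rfl fun s hs => ?_
  have h1 : ∑ i, s i = n := by
    have := hf (mem_support_iff.mp hs)
    rw [Finsupp.weight_apply, Finsupp.sum_fintype _ _ (by simp)] at this
    simpa using this
  rw [show (∏ i, (t * y i) ^ s i) = t ^ n * ∏ i, y i ^ s i by
    rw [← h1, ← Finset.prod_pow_eq_pow_sum, ← Finset.prod_mul_distrib]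
    exact Finset.prod_congr rfl fun i _ => mul_pow _ _ _]
  ring

/-- a nonzero binary form vanishes only at pairs with constant ratio -/
private theorem bin_ratio_mY {K : Type} [Field K] [Algebra ℂ K] {d : ℕ}
    (G : MvPolynomial (Fin 2) ℂ) (hG : G.IsHomogeneous d) (hG0 : G ≠ 0) (a b : K) (hb : b ≠ 0)
    (h : aeval ![a, b] G = 0) : ∃ c : ℂ, a = algebraMap ℂ K c * b := by
  set P : Polynomial ℂ := aeval ![Polynomial.X, 1] G with hP
  have hPe : ∀ (A : Type) [CommRing A] [Algebra ℂ A] (s : A),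
      Polynomial.aeval s P = aeval ![s, 1] G := by
    intro A _ _ s
    rw [hP]
    have h1 := MvPolynomial.comp_aeval_apply (R := ℂ) ![Polynomial.X, (1 : Polynomial ℂ)]
      (Polynomial.aeval s : Polynomial ℂ →ₐ[ℂ] A) G
    rw [h1]
    congr 2
    funext i
    fin_cases i <;> simp
  have hP0 : P ≠ 0 := by
    intro hP0
    apply hG0
    have h1 : X 1 * G = 0 := by
      refine MvPolynomial.funext fun x => ?_
      rw [map_mul, eval_X, map_zero]
      by_cases hx : x 1 = 0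
      · rw [hx, zero_mul]
      have h2 := hPe ℂ (x 0 / x 1)
      rw [hP0, map_zero] at h2
      have h3 := aeval_scale_mY G hG (x 1) ![x 0 / x 1, 1]
      rw [← h2, mul_zero] at h3
      have h4 : (fun i => x 1 * (![x 0 / x 1, (1 : ℂ)] : Fin 2 → ℂ) i) = x := by
        funext i
        fin_cases i
        · show x 1 * (x 0 / x 1) = x 0
          field_simp
        · show x 1 * 1 = x 1
          ring
      rw [h4] at h3
      have h5 : eval x G = 0 := h3
      rw [h5, mul_zero]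
    exact (mul_eq_zero.mp h1).resolve_left (X_ne_zero 1)
  have hr : Polynomial.aeval (a / b) P = 0 := by
    rw [hPe K (a / b)]
    have h3 := aeval_scale_mY G hG b ![a / b, 1]
    have h4 : (fun i => b * (![a / b, (1 : K)] : Fin 2 → K) i) = ![a, b] := by
      funext i
      fin_cases i
      · show b * (a / b) = a
        field_simp
      · show b * 1 = b
        ring
    rw [h4, h] at h3
    exact (mul_eq_zero.mp h3.symm).resolve_left (pow_ne_zero _ hb)
  have hint : IsIntegral ℂ (a / b) := (isAlgebraic_iff_isIntegral).mp ⟨P, hP0, hr⟩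
  obtain ⟨c, hc⟩ := minpoly.mem_range_of_degree_eq_one ℂ (a / b)
    (IsAlgClosed.degree_eq_one_of_irreducible ℂ (minpoly.irreducible hint))
  refine ⟨c, ?_⟩
  rw [hc]
  field_simp

/-- two forms of the same degree which are not proportional modulo `q` are algebraically
independent modulo `q` -/
theorem tr_two_forms {n e : ℕ} {q : Ideal (MvPolynomial (Fin (n + 1)) ℂ)} (hq : q.IsPrime)
    (hqh : HomI q) (P P' : MvPolynomial (Fin (n + 1)) ℂ) (hP : P.IsHomogeneous e)
    (hP' : P'.IsHomogeneous e) (hPq : P ∉ q) (h : ∀ c : ℂ, P' - C c * P ∉ q) : Tr q 2 := by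
  classical
  rcases Nat.eq_zero_or_pos e with rfl | he
  · exfalso
    have h1 : P = C (coeff 0 P) :=
      totalDegree_eq_zero_iff_eq_C.mp (Nat.le_zero.mp hP.totalDegree_le)
    have h2 : P' = C (coeff 0 P') :=
      totalDegree_eq_zero_iff_eq_C.mp (Nat.le_zero.mp hP'.totalDegree_le)
    have h3 : coeff 0 P ≠ 0 := by
      intro h3
      apply hPq
      rw [h1, h3, map_zero]
      exact Ideal.zero_mem _
    apply h (coeff 0 P' / coeff 0 P)
    have h4 : P' - C (coeff 0 P' / coeff 0 P) * P = 0 := by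
      conv_lhs => rw [h2]
      conv_lhs => enter [2, 2]; rw [h1]
      rw [← map_mul, ← map_sub]
      have h5 : coeff 0 (C (coeff 0 P') : MvPolynomial (Fin (n + 1)) ℂ) = coeff 0 P' := by
        rw [coeff_zero_C]
      rw [h5, div_mul_cancel₀ _ h3, sub_self, map_zero]
    rw [h4]
    exact Ideal.zero_mem _
  refine ⟨![P', P], fun G hG => ?_⟩
  by_contra hG0
  -- a nonzero homogeneous component
  obtain ⟨d, hd⟩ : ∃ d, homogeneousComponent d G ≠ 0 := by
    by_contra hcon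
    push Not at hcon
    apply hG0
    rw [← sum_homogeneousComponent G]
    exact Finset.sum_eq_zero fun d _ => hcon d
  have hw : ∀ i : Fin 2, ((![P', P] : Fin 2 → MvPolynomial (Fin (n + 1)) ℂ) i).IsHomogeneous e := by
    intro i
    fin_cases i
    · exact hP'
    · exact hP
  have hcomp : ∀ k, (aeval ![P', P] (homogeneousComponent k G) :
      MvPolynomial (Fin (n + 1)) ℂ).IsHomogeneous (e * k) := fun k =>
    (homogeneousComponent_isHomogeneous k G).aeval
      (![P', P] : Fin 2 → MvPolynomial (Fin (n + 1)) ℂ) hw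
  have hmem : (aeval ![P', P] (homogeneousComponent d G) :
      MvPolynomial (Fin (n + 1)) ℂ) ∈ q := by
    have h1 := hqh _ hG (e * d)
    have h2 : homogeneousComponent (e * d) (aeval ![P', P] G :
        MvPolynomial (Fin (n + 1)) ℂ) = aeval ![P', P] (homogeneousComponent d G) := by
      conv_lhs => rw [← sum_homogeneousComponent G]
      rw [map_sum, map_sum]
      have h3 : ∀ k ∈ Finset.range (G.totalDegree + 1),
          homogeneousComponent (e * d) (aeval ![P', P] (homogeneousComponent k G) :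
            MvPolynomial (Fin (n + 1)) ℂ) =
          if k = d then aeval ![P', P] (homogeneousComponent d G) else 0 := by
        intro k _
        rw [homogeneousComponent_of_mem ((mem_homogeneousSubmodule _ _).mpr (hcomp k))]
        by_cases hed : k = d
        · subst hed
          simp
        · rw [if_neg hed, if_neg (fun h => hed (Nat.eq_of_mul_eq_mul_left he h).symm)]
      rw [Finset.sum_congr rfl h3, Finset.sum_ite_eq']
      by_cases hdm : d ∈ Finset.range (G.totalDegree + 1)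
      · rw [if_pos hdm]
      · rw [if_neg hdm]
        rw [Finset.mem_range, not_lt] at hdm
        rw [homogeneousComponent_eq_zero _ _ (by omega), map_zero]
    rwa [h2] at h1
  have hdom : IsDomain (MvPolynomial (Fin (n + 1)) ℂ ⧸ q) := (Ideal.Quotient.isDomain_iff_prime q).mpr hq
  let K := FractionRing (MvPolynomial (Fin (n + 1)) ℂ ⧸ q)
  let π : MvPolynomial (Fin (n + 1)) ℂ →ₐ[ℂ] K :=
    (IsScalarTower.toAlgHom ℂ (MvPolynomial (Fin (n + 1)) ℂ ⧸ q) K).comp (Ideal.Quotient.mkₐ ℂ q)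
  have hπ : ∀ g, π g = 0 ↔ g ∈ q := by
    intro g
    have h1 : π g = algebraMap (MvPolynomial (Fin (n + 1)) ℂ ⧸ q) K (Ideal.Quotient.mk q g) := rfl
    rw [h1, map_eq_zero_iff _ (IsFractionRing.injective _ K), Ideal.Quotient.eq_zero_iff_mem]
  have h0 : aeval ![π P', π P] (homogeneousComponent d G) = 0 := by
    have h1 := MvPolynomial.comp_aeval_apply (R := ℂ)
      (![P', P] : Fin 2 → MvPolynomial (Fin (n + 1)) ℂ) π (homogeneousComponent d G)
    have h3 : (fun i => π ((![P', P] : Fin 2 → MvPolynomial (Fin (n + 1)) ℂ) i)) =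
        ![π P', π P] := by
      funext i
      fin_cases i <;> rfl
    rw [h3] at h1
    rw [← h1]
    exact (hπ _).mpr hmem
  obtain ⟨c, hc⟩ := bin_ratio_mY _ (homogeneousComponent_isHomogeneous d G) hd (π P') (π P)
    (fun h1 => hPq ((hπ P).mp h1)) h0
  apply h c
  rw [← hπ, map_sub, map_mul, hc]
  have h4 : π (C c) = algebraMap ℂ K c := by
    rw [← MvPolynomial.algebraMap_eq]
    exact π.commutes c
  rw [h4, sub_self]

/-- a basis of the forms of degree `e` modulo `q` -/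
theorem exists_basis_q {n e : ℕ} (q : Ideal (MvPolynomial (Fin (n + 1)) ℂ)) :
    ∃ (N : ℕ) (w : Fin N → MvPolynomial (Fin (n + 1)) ℂ), (∀ l, (w l).IsHomogeneous e) ∧
      (∀ c : Fin N → ℂ, ∑ l, C (c l) * w l ∈ q → c = 0) ∧
      ∀ τ : MvPolynomial (Fin (n + 1)) ℂ, τ.IsHomogeneous e →
        ∃ c : Fin N → ℂ, τ - ∑ l, C (c l) * w l ∈ q := by
  classical
  have hfin : Module.Finite ℂ (homogeneousSubmodule (Fin (n + 1)) ℂ e) := hom_finite e
  set V := Submodule.map (Ideal.Quotient.mkₐ ℂ q).toLinearMap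
    (homogeneousSubmodule (Fin (n + 1)) ℂ e) with hV
  have hVf : Module.Finite ℂ V := by
    rw [hV]
    infer_instance
  let β : Module.Basis (Fin (Module.finrank ℂ V)) ℂ V := Module.finBasis ℂ V
  have h1 : ∀ l, ∃ w : MvPolynomial (Fin (n + 1)) ℂ, w.IsHomogeneous e ∧
      Ideal.Quotient.mkₐ ℂ q w = (β l : MvPolynomial (Fin (n + 1)) ℂ ⧸ q) := by
    intro l
    obtain ⟨w, hw1, hw3⟩ := (β l).2
    exact ⟨w, (mem_homogeneousSubmodule _ _).mp hw1, hw3⟩
  choose w hw hwβ using h1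
  have hsum : ∀ c : Fin (Module.finrank ℂ V) → ℂ,
      Ideal.Quotient.mkₐ ℂ q (∑ l, C (c l) * w l) =
      ((∑ l, c l • β l : V) : MvPolynomial (Fin (n + 1)) ℂ ⧸ q) := by
    intro c
    rw [map_sum, AddSubmonoidClass.coe_finsetSum]
    apply Finset.sum_congr rfl
    intro l _
    rw [← smul_eq_C_mul, map_smul, hwβ]
    rfl
  refine ⟨_, w, hw, ?_, ?_⟩
  · intro c hc
    have h2 : Ideal.Quotient.mkₐ ℂ q (∑ l, C (c l) * w l) = 0 :=
      Ideal.Quotient.eq_zero_iff_mem.mpr hc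
    rw [hsum] at h2
    have h3 : ∑ l, c l • β l = 0 := Subtype.ext h2
    exact funext ((Fintype.linearIndependent_iff.mp β.linearIndependent) c h3)
  · intro τ hτ
    have h2 : Ideal.Quotient.mkₐ ℂ q τ ∈ V :=
      Submodule.mem_map.mpr ⟨τ, (mem_homogeneousSubmodule _ _).mpr hτ, rfl⟩
    refine ⟨β.repr ⟨_, h2⟩, ?_⟩
    have h3 : Ideal.Quotient.mkₐ ℂ q (τ - ∑ l, C (β.repr ⟨_, h2⟩ l) * w l) = 0 := by
      rw [map_sub, hsum, β.sum_repr, sub_self]
    exact Ideal.Quotient.eq_zero_iff_mem.mp h3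

theorem redOn_congr {n : ℕ} {q : Ideal (MvPolynomial (Fin (n + 1)) ℂ)}
    {P F : MvPolynomial (Fin (n + 1)) ℂ} (h : P - F ∈ q) (hP : RedOn q P) : RedOn q F := by
  have h1 : q ⊔ Ideal.span {F} = q ⊔ Ideal.span {P} := by
    apply le_antisymm
    · refine sup_le le_sup_left ((Ideal.span_singleton_le_iff_mem _).mpr ?_)
      have h3 : F = P - (P - F) := by ring
      rw [h3]
      exact Ideal.sub_mem _ (Ideal.mem_sup_right (Ideal.mem_span_singleton_self _))
        (Ideal.mem_sup_left h)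
    · refine sup_le le_sup_left ((Ideal.span_singleton_le_iff_mem _).mpr ?_)
      have h3 : P = F + (P - F) := by ring
      rw [h3]
      exact Ideal.add_mem _ (Ideal.mem_sup_right (Ideal.mem_span_singleton_self _))
        (Ideal.mem_sup_left h)
  refine ⟨?_, ?_⟩
  · intro hF
    apply hP.1
    have h3 : P = F + (P - F) := by ring
    rw [h3]
    exact Ideal.add_mem _ hF h
  · rw [h1]
    exact hP.2

theorem many_y (n e M : ℕ) (q : Ideal (MvPolynomial (Fin (n + 1)) ℂ)) (hq : q.IsPrime)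
    (hqh : HomI q) : ∃ N₀ : ℕ, ∀ D : Finset (MvPolynomial (Fin (n + 1)) ℂ),
    (∀ P ∈ D, P.IsHomogeneous e ∧ RedOn q P) →
    (∀ P ∈ D, ∀ P' ∈ D, ∀ c : ℂ, P' - C c * P ∈ q → P' = P) → N₀ < D.card →
    ∃ (l : ℕ) (ψ : Fin (l + 1) → MvPolynomial (Fin (n + 1)) ℂ)
      (D₁ : Finset (MvPolynomial (Fin (n + 1)) ℂ)) (d : ℕ) (Z : MvPolynomial (Fin (n + 1)) ℂ),
      1 ≤ l ∧ (∀ i, (ψ i).IsHomogeneous e) ∧
      (∀ v : Fin (l + 1) → ℂ, ∑ i, C (v i) * ψ i ∈ q → v = 0) ∧ D₁ ⊆ D ∧ M < D₁.card ∧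
      (∀ Q ∈ D₁, ∃ v : Fin (l + 1) → ℂ, Q - ∑ i, C (v i) * ψ i ∈ q) ∧ Z ∉ q ∧
      Z.IsHomogeneous d ∧
    ∀ f : Fin (n + 1) → ℂ → ℂ, (∀ k, Differentiable ℂ (f k)) →
    (∀ g ∈ q, ∀ z, eval (fun k => f k z) g = 0) →
    (∀ P ∈ D, ∀ P' ∈ D, ∀ (z : ℂ) (a : ℕ),
      analyticOrderAt (fun ζ => eval (fun k => f k ζ) P') z = a →
      analyticOrderAt (fun ζ => eval (fun k => f k ζ) P) z = ((a + 1 : ℕ) : ℕ∞) →
      ∀ A ⊆ D, (∀ Q ∈ A, (a : ℕ∞) ≤ analyticOrderAt (fun ζ => eval (fun k => f k ζ) Q) z) →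
        A.card ≤ M) →
    (∀ z, eval (fun k => f k z) Z = 0) ∨
      ∃ t : Fin (l + 1) → ℂ, t ≠ 0 ∧ ∀ z i i', t i * eval (fun k => f k z) (ψ i') =
        t i' * eval (fun k => f k z) (ψ i) := by
  classical
  by_cases htr : Tr q 2
  swap
  · refine ⟨1, fun D hD hD' hcard => ?_⟩
    exfalso
    obtain ⟨P, hP, P', hP', hne⟩ := Finset.one_lt_card.mp hcard
    exact htr (tr_two_forms hq hqh P P' (hD P hP).1 (hD P' hP').1 (hD P hP).2.1
      fun c hc => hne (hD' P hP P' hP' c hc).symm)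
  obtain ⟨m', P, hPh, hPi, hPs⟩ := exists_basis_q (e := e) q
  rcases Nat.eq_zero_or_pos m' with rfl | hm'
  · refine ⟨0, fun D hD hD' hcard => ?_⟩
    exfalso
    obtain ⟨Q, hQ⟩ := Finset.card_pos.mp hcard
    obtain ⟨c, hc⟩ := hPs Q (hD Q hQ).1
    rw [Finset.univ_eq_empty, Finset.sum_empty, sub_zero] at hc
    exact (hD Q hQ).2.1 hc
  obtain ⟨m, rfl⟩ : ∃ m, m' = m + 1 := ⟨m' - 1, by omega⟩
  obtain ⟨e₂, he₂⟩ := good_uniform hq hqh htr P hPh
  have hPs' : ∀ Q : MvPolynomial (Fin (n + 1)) ℂ, ∃ c : Fin (m + 1) → ℂ,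
      Q.IsHomogeneous e → Q - ∑ l, C (c l) * P l ∈ q := by
    intro Q
    by_cases hQ : Q.IsHomogeneous e
    · obtain ⟨c, hc⟩ := hPs Q hQ
      exact ⟨c, fun _ => hc⟩
    · exact ⟨0, fun h => absurd h hQ⟩
  choose κ hκ using hPs'
  obtain ⟨N₀, hN₀⟩ := curve_y n e M m e₂
  refine ⟨N₀, fun D hD hD' hcard => ?_⟩
  -- linear relations modulo `q`
  have hrel : ∀ Q ∈ D, ∀ Q' ∈ D, ∀ α β : ℂ, α • κ Q + β • κ Q' = 0 →
      C α * Q + C β * Q' ∈ q := by
    intro Q hQ Q' hQ' α β h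
    have h1 := Ideal.add_mem _ (Ideal.mul_mem_left _ (C α) (hκ Q (hD Q hQ).1))
      (Ideal.mul_mem_left _ (C β) (hκ Q' (hD Q' hQ').1))
    have h2 : C α * ∑ l, C (κ Q l) * P l + C β * ∑ l, C (κ Q' l) * P l = 0 := by
      rw [Finset.mul_sum, Finset.mul_sum, ← Finset.sum_add_distrib]
      apply Finset.sum_eq_zero
      intro l _
      have h3 := congrFun h l
      simp only [Pi.add_apply, Pi.smul_apply, smul_eq_mul, Pi.zero_apply] at h3
      rw [← mul_assoc, ← mul_assoc, ← map_mul, ← map_mul, ← add_mul, ← map_add, h3, map_zero,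
        zero_mul]
    have h3 : C α * (Q - ∑ l, C (κ Q l) * P l) + C β * (Q' - ∑ l, C (κ Q' l) * P l) =
        C α * Q + C β * Q' - (C α * ∑ l, C (κ Q l) * P l + C β * ∑ l, C (κ Q' l) * P l) := by
      ring
    rw [h3, h2, sub_zero] at h1
    exact h1
  have hpair : ∀ Q ∈ D, ∀ Q' ∈ D, Q ≠ Q' → ∀ α β : ℂ, α • κ Q + β • κ Q' = 0 →
      α = 0 ∧ β = 0 := by
    intro Q hQ Q' hQ' hne α β h
    have h1 := hrel Q hQ Q' hQ' α β h
    have hβ : β = 0 := by
      by_contra hβ
      apply hne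
      refine (hD' Q hQ Q' hQ' (-(α / β)) ?_).symm
      have h2 := Ideal.mul_mem_left _ (C β⁻¹) h1
      have h3 : C β⁻¹ * (C α * Q + C β * Q') = Q' - C (-(α / β)) * Q := by
        rw [mul_add, ← mul_assoc, ← mul_assoc, ← map_mul, ← map_mul, inv_mul_cancel₀ hβ, map_one,
          one_mul, map_neg, neg_mul, sub_neg_eq_add, div_eq_inv_mul]
        exact add_comm _ _
      rwa [h3] at h2
    refine ⟨?_, hβ⟩
    by_contra hα
    apply (hD Q hQ).2.1
    rw [hβ, map_zero, zero_mul, add_zero] at h1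
    have h2 := Ideal.mul_mem_left _ (C α⁻¹) h1
    rwa [← mul_assoc, ← map_mul, inv_mul_cancel₀ hα, map_one, one_mul] at h2
  have hinj : Set.InjOn κ D := by
    intro Q hQ Q' hQ' h
    by_contra hne
    exact one_ne_zero (hpair Q hQ Q' hQ' hne 1 (-1) (by rw [h]; simp)).1
  have hPW : PW (D.image κ) := by
    intro a ha
    obtain ⟨Q, hQ, rfl⟩ := Finset.mem_image.mp ha
    refine ⟨?_, ?_⟩
    · intro h0
      apply (hD Q hQ).2.1
      have h1 := hκ Q (hD Q hQ).1
      rw [h0] at h1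
      have h2 : ∑ l, C ((0 : Fin (m + 1) → ℂ) l) * P l = 0 :=
        Finset.sum_eq_zero fun l _ => by rw [Pi.zero_apply, map_zero, zero_mul]
      rwa [h2, sub_zero] at h1
    · intro y hy hne
      obtain ⟨Q', hQ', rfl⟩ := Finset.mem_image.mp hy
      rw [LinearIndependent.pair_iff]
      intro α β h
      exact hpair Q hQ Q' hQ' (fun h1 => hne (by rw [h1])) α β h
  obtain ⟨l, T, A₁, dZ, Z, hl, hT, hA₁, hA₁r, hA₁c, hZ0, hZh, hZ⟩ :=
    hN₀ q hq P hPh (D.image κ) hPW (by rw [Finset.card_image_of_injOn hinj]; exact hcard) (by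
      intro a ha
      obtain ⟨Q, hQ, rfl⟩ := Finset.mem_image.mp ha
      exact he₂ _ (redOn_congr (hκ Q (hD Q hQ).1) (hD Q hQ).2))
  refine ⟨l, pullP T P, D.filter fun Q => κ Q ∈ A₁, dZ, Z, hl, pullP_hom T P hPh, ?_,
    Finset.filter_subset _ _, ?_, ?_, hZ0, hZh, ?_⟩
  · intro v hv
    rw [pullP_sum] at hv
    exact hT (by rw [hPi _ hv, map_zero])
  · refine lt_of_lt_of_le hA₁c ?_
    have h3 : A₁ ⊆ (D.filter fun Q => κ Q ∈ A₁).image κ := by
      intro y hy
      obtain ⟨Q, hQ, rfl⟩ := Finset.mem_image.mp (hA₁ hy)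
      exact Finset.mem_image.mpr ⟨Q, Finset.mem_filter.mpr ⟨hQ, hy⟩, rfl⟩
    exact (Finset.card_le_card h3).trans Finset.card_image_le
  · intro Q hQ
    obtain ⟨hQD, hQA⟩ := Finset.mem_filter.mp hQ
    obtain ⟨v, hv⟩ := hA₁r _ hQA
    refine ⟨v, ?_⟩
    rw [pullP_sum, hv]
    exact hκ Q (hD Q hQD).1
  · intro f hf hfq htan
    have hval : ∀ Q ∈ D, (fun ζ => ∑ i, κ Q i * eval (fun k => f k ζ) (P i)) =
        fun ζ => eval (fun k => f k ζ) Q := by
      intro Q hQ
      funext ζ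
      have h1 := hfq _ (hκ Q (hD Q hQ).1) ζ
      rw [map_sub, map_sum, sub_eq_zero] at h1
      rw [h1]
      exact Finset.sum_congr rfl fun i _ => by rw [map_mul, eval_C]
    refine hZ f hf hfq ?_
    intro x hx y hy z c hc hc' A' hA' hA'c
    obtain ⟨Q, hQ, rfl⟩ := Finset.mem_image.mp hx
    obtain ⟨Q', hQ', rfl⟩ := Finset.mem_image.mp hy
    rw [hval Q' hQ'] at hc
    rw [hval Q hQ] at hc'
    have h3 := htan Q hQ Q' hQ' z c hc hc' (D.filter fun Q => κ Q ∈ A') (Finset.filter_subset _ _)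
      (by
        intro R hR
        obtain ⟨hR1, hR2⟩ := Finset.mem_filter.mp hR
        have h4 := hA'c _ hR2
        rw [hval R hR1] at h4
        exact h4)
    refine le_trans ?_ h3
    have h4 : A' ⊆ (D.filter fun Q => κ Q ∈ A').image κ := by
      intro y hy
      obtain ⟨R, hR, rfl⟩ := Finset.mem_image.mp (hA' hy)
      exact Finset.mem_image.mpr ⟨R, Finset.mem_filter.mpr ⟨hR, hy⟩, rfl⟩
    exact (Finset.card_le_card h4).trans Finset.card_image_le

end Pool.Agent.QY
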