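import Pool.Agent.Lib_MP_b9fedf_qy.DefsY

/-! Homogeneous ideals: a homogeneous ideal is prime if it is prime on homogeneous elements, and
adding a homogeneous generator keeps an ideal homogeneous. -/

set_option autoImplicit false

namespace Pool.Agent.QY
open MvPolynomial Pool.Agent.SQ

attribute [local instance] MvPolynomial.gradedAlgebra

private lemma isHom_iff_hprime {n : ℕ} (q : Ideal (MvPolynomial (Fin (n + 1)) ℂ)) :
    q.IsHomogeneous (homogeneousSubmodule (Fin (n + 1)) ℂ) ↔ HomI q := by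
  constructor
  · intro h s hs d
    have h1 := h d hs
    have h2 : ((DirectSum.decompose (homogeneousSubmodule (Fin (n + 1)) ℂ) s d :
        homogeneousSubmodule (Fin (n + 1)) ℂ d) : MvPolynomial (Fin (n + 1)) ℂ) =
        homogeneousComponent d s := decomposition.decompose'_apply s d
    rwa [h2] at h1
  · intro h d s hs
    have h2 : ((DirectSum.decompose (homogeneousSubmodule (Fin (n + 1)) ℂ) s d :
        homogeneousSubmodule (Fin (n + 1)) ℂ d) : MvPolynomial (Fin (n + 1)) ℂ) =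
        homogeneousComponent d s := decomposition.decompose'_apply s d
    rw [h2]
    exact h s hs d

/-- PIECE Y14 (HPrime.lean) -/
theorem hprime {n : ℕ} {q : Ideal (MvPolynomial (Fin (n + 1)) ℂ)} (hqh : HomI q) (hne : q ≠ ⊤)
    (h : ∀ (a b : MvPolynomial (Fin (n + 1)) ℂ) (da db : ℕ), a.IsHomogeneous da →
      b.IsHomogeneous db → a * b ∈ q → a ∈ q ∨ b ∈ q) : q.IsPrime := by
  refine Ideal.IsHomogeneous.isPrime_of_homogeneous_mem_or_mem
    (𝒜 := homogeneousSubmodule (Fin (n + 1)) ℂ) ((isHom_iff_hprime q).2 hqh) hne ?_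
  rintro x y ⟨i, hx⟩ ⟨j, hy⟩ hxy
  exact h x y i j hx hy hxy

/-- PIECE Y14 -/
theorem homI_sup {n : ℕ} {q : Ideal (MvPolynomial (Fin (n + 1)) ℂ)} (hqh : HomI q)
    (a : MvPolynomial (Fin (n + 1)) ℂ) (d : ℕ) (ha : a.IsHomogeneous d) :
    HomI (q ⊔ Ideal.span {a}) := by
  rw [← isHom_iff_hprime]
  refine Ideal.IsHomogeneous.sup ((isHom_iff_hprime q).2 hqh) ?_
  refine Ideal.homogeneous_span (homogeneousSubmodule (Fin (n + 1)) ℂ) _ ?_
  intro x hx
  rw [Set.mem_singleton_iff.1 hx]
  exact ⟨d, ha⟩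

end Pool.Agent.QY
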