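import Pool.Agent.Lib_MP_b9fedf_qy.DefsR

set_option autoImplicit false

namespace Pool.Agent.QY
open MvPolynomial

/-- on projective space the reduced sections are the squarefree forms -/
theorem redOn_bot {n : ℕ} (P : MvPolynomial (Fin (n + 1)) ℂ) (hP : Squarefree P) :
    RedOn (⊥ : Ideal (MvPolynomial (Fin (n + 1)) ℂ)) P := by
  refine ⟨?_, ?_⟩
  · rw [Ideal.mem_bot]
    exact hP.ne_zero
  · intro 𝔓 h𝔓
    rw [bot_sup_eq] at h𝔓 ⊢
    obtain ⟨⟨hprime, hle⟩, hmin⟩ := h𝔓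
    have hP𝔓 : P ∈ 𝔓 := (Ideal.span_singleton_le_iff_mem _).mp hle
    obtain ⟨π, hπ𝔓, hπ, hπP⟩ : ∃ π ∈ 𝔓, Prime π ∧ π ∣ P := by
      obtain ⟨f, hf1, hf2⟩ := UniqueFactorizationMonoid.exists_prime_factors P hP.ne_zero
      obtain ⟨u, hu⟩ := hf2
      have h1 : f.prod ∈ 𝔓 := by
        have h2 : f.prod * u ∈ 𝔓 := by rw [hu]; exact hP𝔓
        exact (hprime.mem_or_mem h2).resolve_right fun h3 =>
          hprime.ne_top (Ideal.eq_top_of_isUnit_mem _ h3 u.isUnit)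
      obtain ⟨π, hπf, hπ𝔓⟩ := (Ideal.IsPrime.multiset_prod_mem_iff_exists_mem hprime f).mp h1
      exact ⟨π, hπ𝔓, hf1 π hπf, (Multiset.dvd_prod hπf).trans ⟨u, hu.symm⟩⟩
    have h1 : 𝔓 ≤ Ideal.span {π} := by
      refine hmin ⟨(Ideal.span_singleton_prime hπ.ne_zero).mpr hπ, ?_⟩
        ((Ideal.span_singleton_le_iff_mem _).mpr hπ𝔓)
      rw [Ideal.span_singleton_le_iff_mem, Ideal.mem_span_singleton]
      exact hπP
    obtain ⟨s, hs⟩ := hπP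
    refine ⟨s, ?_, ?_⟩
    · intro hs𝔓
      obtain ⟨c, hc⟩ := Ideal.mem_span_singleton.mp (h1 hs𝔓)
      exact hπ.not_isUnit (hP π ⟨c, by rw [hs, hc]; ring⟩)
    · intro g hg
      obtain ⟨c, hc⟩ := Ideal.mem_span_singleton.mp (h1 hg)
      rw [Ideal.mem_span_singleton]
      exact ⟨c, by rw [hs, hc]; ring⟩

end Pool.Agent.QY
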