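import Pool.Agent.Lib_MP_b9fedf_sq.Defs3

/-! Definitions for entire curves in arbitrary projective varieties. -/

set_option autoImplicit false

namespace Pool.Agent.QY
open MvPolynomial Pool.Agent.SQ

/-- the ideal contains the homogeneous components of its elements -/
def HomI {n : ℕ} (q : Ideal (MvPolynomial (Fin (n + 1)) ℂ)) : Prop :=
  ∀ s ∈ q, ∀ d, homogeneousComponent d s ∈ q

/-- there are `d` polynomials which are algebraically independent modulo `q` -/
def Tr {n : ℕ} (q : Ideal (MvPolynomial (Fin (n + 1)) ℂ)) (d : ℕ) : Prop :=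
  ∃ w : Fin d → MvPolynomial (Fin (n + 1)) ℂ, ∀ G : MvPolynomial (Fin d) ℂ,
    aeval w G ∈ q → G = 0

/-- For every point `y` with `s(y) ≠ 0` over a field of algebraic functions of one variable, the
points of `V(q)` on the hypersurface `∑ y_x P_x = 0` and on its derivative with respect to the
parameter lie on a hypersurface with constant coefficients which does not contain `V(q)`. -/
def ExcOn {n : ℕ} {τ : Type} [Fintype τ] (q : Ideal (MvPolynomial (Fin (n + 1)) ℂ))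
    (P : τ → MvPolynomial (Fin (n + 1)) ℂ) (s : MvPolynomial τ ℂ) : Prop :=
  ∀ (E : Type) [Field E] [Algebra ℂ E] (t : E), Transcendental ℂ t →
    (∀ x : E, IsAlgebraic (Algebra.adjoin ℂ {t}) x) → ∀ D : Derivation ℂ E E, D t ≠ 0 →
    ∀ y : τ → E, s.eval₂ (algebraMap ℂ E) y ≠ 0 →
    ∃ (dZ : ℕ) (Z : MvPolynomial (Fin (n + 1)) ℂ), Z ∉ q ∧ Z.IsHomogeneous dZ ∧
      ∀ (Ω : Type) [Field Ω] (σ : E →+* Ω) (f : Fin (n + 1) → Ω),
        (∀ g ∈ q, g.eval₂ (σ.comp (algebraMap ℂ E)) f = 0) →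
        ∑ x, σ (y x) * (P x).eval₂ (σ.comp (algebraMap ℂ E)) f = 0 →
        ∑ x, σ (D (y x)) * (P x).eval₂ (σ.comp (algebraMap ℂ E)) f = 0 →
        Z.eval₂ (σ.comp (algebraMap ℂ E)) f = 0

/-- the quadric `ℓ^2 + ∑ c_i g_i` with the parameters `(ℓ, c)` -/
noncomputable def qd {n : ℕ} {ι : Type} [Fintype ι] (g : ι → MvPolynomial (Fin (n + 1)) ℂ)
    (a : Fin (n + 1) ⊕ ι → ℂ) : MvPolynomial (Fin (n + 1)) ℂ :=
  lin (fun i => a (Sum.inl i)) ^ 2 + ∑ i, C (a (Sum.inr i)) * g i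

/-- the quadrics `y_j^2 - Q_j(x)`, `j < K` -/
noncomputable def fam {n : ℕ} {ι : Type} [Fintype ι] (g : ι → MvPolynomial (Fin (n + 1)) ℂ)
    (a : ℕ → Fin (n + 1) ⊕ ι → ℂ) (K : ℕ) (j : Fin K) : MvPolynomial (Fin (n + 1) ⊕ Fin K) ℂ :=
  X (Sum.inr j) ^ 2 - rename Sum.inl (qd g (a j))

/-- smooth complete intersection: the gradients are linearly independent at every nonzero common
zero -/
def SCI {τ : Type} {K : ℕ} (F : Fin K → MvPolynomial τ ℂ) : Prop :=
  ∀ z : τ → ℂ, z ≠ 0 → (∀ j, eval z (F j) = 0) →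
    LinearIndependent ℂ (fun j => fun i => eval z (pderiv i (F j)))

/-- The first `b + 1` coordinates of the linear forms `ℓ_j`, `j < K`, are in general position. -/
def LG {n : ℕ} {ι : Type} (b : ℕ) (K : ℕ) (a : ℕ → Fin (n + 1) ⊕ ι → ℂ) : Prop :=
  ∀ J : Finset ℕ, (∀ j ∈ J, j < K) → J.card ≤ b + 1 →
    LinearIndependent ℂ (fun j : J => fun i : {i : Fin (n + 1) // (i : ℕ) ≤ b} =>
      a j (Sum.inl i.1))

end Pool.Agent.QY
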