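import Pool.Agent.Lib_MP_b9fedf_sq.Defs2
import Pool.Agent.Lib_MP_b9fedf_sq.EntDom
import Pool.Agent.Lib_MP_b9fedf_sq.Der
import Pool.Agent.Lib_MP_b9fedf_qy.DefsY

/-! The exceptional form does not depend on the entire curve, in an arbitrary variety. -/

set_option autoImplicit false

namespace Pool.Agent.QY
open MvPolynomial Pool.Agent.SQ
open scoped TensorProduct

/-- the algebraic closure of the field of rational functions -/
private abbrev EF : Type := AlgebraicClosure (RatFunc ℂ)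

private theorem injEF : Function.Injective (algebraMap (Polynomial ℂ) EF) := by
  rw [IsScalarTower.algebraMap_eq (Polynomial ℂ) (RatFunc ℂ) EF]
  exact (algebraMap (RatFunc ℂ) EF).injective.comp
    (IsFractionRing.injective (Polynomial ℂ) (RatFunc ℂ))

private theorem etaleEF : Algebra.FormallyEtale (Polynomial ℂ) EF := by
  have : Algebra.FormallyEtale (Polynomial ℂ) (RatFunc ℂ) :=
    Algebra.FormallyEtale.of_isLocalization (nonZeroDivisors (Polynomial ℂ))
  have : Algebra.FormallyEtale (RatFunc ℂ) EF :=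
    Algebra.FormallyEtale.of_isSeparable (RatFunc ℂ) EF
  exact Algebra.FormallyEtale.comp (Polynomial ℂ) (RatFunc ℂ) EF

/-- constants among the elements which are algebraic over a field on whose elements the constants
are known -/
private theorem const_algEF {K Ω : Type} [Field K] [Field Ω] [Algebra K Ω] [CharZero K]
    (D : Derivation ℤ Ω Ω) (hK : ∀ k : K, ∃ k' : K, D (algebraMap K Ω k) = algebraMap K Ω k')
    (j : ℂ →+* Ω) (hc : ∀ k : K, D (algebraMap K Ω k) = 0 → ∃ c : ℂ, algebraMap K Ω k = j c)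
    (x : Ω) (hx : IsIntegral K x) (hDx : D x = 0) : ∃ c : ℂ, x = j c := by
  choose d hd using hK
  set p := minpoly K x with hp
  have hmon : p.Monic := minpoly.monic hx
  have h1 : ∑ i ∈ Finset.range p.natDegree, algebraMap K Ω (d (p.coeff i)) * x ^ i = 0 := by
    have h2 : Polynomial.aeval x p = 0 := minpoly.aeval K x
    rw [Polynomial.aeval_eq_sum_range, Finset.sum_range_succ] at h2
    have h3 := congrArg D h2
    rw [map_add, map_sum, map_zero] at h3
    have h4 : ∀ (k : K) (i : ℕ), D (k • x ^ i) = algebraMap K Ω (d k) * x ^ i := by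
      intro k i
      rw [Algebra.smul_def, Derivation.leibniz, Derivation.leibniz_pow, hDx, smul_zero, smul_zero,
        smul_zero, zero_add, hd, smul_eq_mul, mul_comm]
    simp only [h4] at h3
    have h5 : algebraMap K Ω (d (p.coeff p.natDegree)) = 0 := by
      rw [← hd]
      have h6 : p.coeff p.natDegree = 1 := hmon
      rw [h6, map_one, Derivation.map_one_eq_zero]
    rw [h5, zero_mul, add_zero] at h3
    exact h3
  set q : Polynomial K := ∑ i ∈ Finset.range p.natDegree, Polynomial.C (d (p.coeff i)) *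
    Polynomial.X ^ i with hq
  have hqx : Polynomial.aeval x q = 0 := by
    rw [hq, map_sum, ← h1]
    apply Finset.sum_congr rfl
    intro i _
    rw [map_mul, map_pow, Polynomial.aeval_X, Polynomial.aeval_C]
  have hqd : q.degree < p.degree := by
    rw [Polynomial.degree_eq_natDegree hmon.ne_zero]
    refine (Polynomial.degree_sum_le _ _).trans_lt ?_
    rw [Finset.sup_lt_iff (WithBot.bot_lt_coe _)]
    intro i hi
    refine (Polynomial.degree_C_mul_X_pow_le i _).trans_lt ?_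
    exact_mod_cast Finset.mem_range.1 hi
  have hq0 : q = 0 := Polynomial.eq_zero_of_dvd_of_degree_lt (minpoly.dvd K x hqx) hqd
  have h2 : ∀ i, D (algebraMap K Ω (p.coeff i)) = 0 := by
    intro i
    rcases lt_trichotomy i p.natDegree with hi | hi | hi
    · have h3 : q.coeff i = d (p.coeff i) := by
        rw [hq, Polynomial.finsetSum_coeff, Finset.sum_eq_single i]
        · rw [Polynomial.coeff_C_mul_X_pow, if_pos rfl]
        · intro b _ hb
          rw [Polynomial.coeff_C_mul_X_pow, if_neg (Ne.symm hb)]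
        · intro h
          exact absurd (Finset.mem_range.2 hi) h
      rw [hd, ← h3, hq0, Polynomial.coeff_zero, map_zero]
    · have h6 : p.coeff i = 1 := by
        rw [hi]
        exact hmon
      rw [h6, map_one, Derivation.map_one_eq_zero]
    · rw [Polynomial.coeff_eq_zero_of_natDegree_lt hi, map_zero, map_zero]
  choose c hcc using fun i => hc (p.coeff i) (h2 i)
  let _ : Algebra ℂ Ω := j.toAlgebra
  have hint : IsAlgebraic ℂ x := by
    refine ⟨∑ i ∈ Finset.range (p.natDegree + 1), Polynomial.C (c i) * Polynomial.X ^ i, ?_, ?_⟩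
    · intro h
      have h3 := congrArg (fun P => Polynomial.coeff P p.natDegree) h
      simp only [Polynomial.finsetSum_coeff, Polynomial.coeff_C_mul_X_pow,
        Polynomial.coeff_zero] at h3
      rw [Finset.sum_eq_single p.natDegree] at h3
      · rw [if_pos rfl] at h3
        have h4 := hcc p.natDegree
        rw [h3, map_zero, hmon.coeff_natDegree, map_one] at h4
        exact one_ne_zero h4
      · intro b _ hb
        rw [if_neg (Ne.symm hb)]
      · intro h
        exact absurd (Finset.mem_range.2 (Nat.lt_succ_self _)) h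
    · rw [map_sum]
      have h3 : Polynomial.aeval x p = 0 := minpoly.aeval K x
      rw [Polynomial.aeval_eq_sum_range] at h3
      rw [← h3]
      apply Finset.sum_congr rfl
      intro i _
      rw [map_mul, map_pow, Polynomial.aeval_X, Polynomial.aeval_C, Algebra.smul_def, hcc]
      rfl
  have h5 := minpoly.mem_range_of_degree_eq_one ℂ x
    (IsAlgClosed.degree_eq_one_of_irreducible ℂ (minpoly.irreducible hint.isIntegral))
  obtain ⟨c', hc'⟩ := h5
  exact ⟨c', hc'.symm⟩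

/-- polynomials whose quotient has derivative zero -/
private theorem wronskEF (a b : Polynomial ℂ) (hab : IsCoprime a b)
    (h : Polynomial.derivative a * b = a * Polynomial.derivative b) :
    Polynomial.derivative a = 0 ∧ Polynomial.derivative b = 0 := by
  have h1 : Polynomial.wronskian a b = 0 := by
    rw [Polynomial.wronskian, ← h, sub_self]
  exact (hab.wronskian_eq_zero_iff).1 h1

private theorem restrEF {Ω : Type} [Field Ω] [Algebra ℂ Ω] (D : Derivation ℂ Ω Ω) :
    ∃ D' : Derivation ℤ Ω Ω, ∀ x, D' x = D x := ⟨D.restrictScalars ℤ, fun _ => rfl⟩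

private theorem derEF : ∃ D : Derivation ℂ EF EF,
    (∀ P : Polynomial ℂ, D (algebraMap (Polynomial ℂ) EF P) =
      algebraMap (Polynomial ℂ) EF (Polynomial.derivative P)) ∧
    ∀ x, D x = 0 → ∃ c : ℂ, x = algebraMap ℂ EF c := by
  have := etaleEF
  let d0 : Derivation ℂ (Polynomial ℂ) EF :=
    (Algebra.linearMap (Polynomial ℂ) EF).compDer Polynomial.derivative'
  let e := KaehlerDifferential.tensorKaehlerEquivOfFormallyEtale ℂ (Polynomial ℂ) EF
  let g : (EF ⊗[Polynomial ℂ] KaehlerDifferential ℂ (Polynomial ℂ)) →ₗ[EF] EF :=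
    LinearMap.liftBaseChange EF d0.liftKaehlerDifferential
  let D : Derivation ℂ EF EF := (g.comp e.symm.toLinearMap).compDer (KaehlerDifferential.D ℂ EF)
  have hD : ∀ P : Polynomial ℂ, D (algebraMap (Polynomial ℂ) EF P) =
      algebraMap (Polynomial ℂ) EF (Polynomial.derivative P) := by
    intro P
    show g (e.symm (KaehlerDifferential.D ℂ EF (algebraMap (Polynomial ℂ) EF P))) = _
    rw [KaehlerDifferential.tensorKaehlerEquivOfFormallyEtale_symm_D_algebraMap]
    show LinearMap.liftBaseChange EF d0.liftKaehlerDifferential (1 ⊗ₜ _) = _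
    rw [LinearMap.liftBaseChange_tmul, one_smul, Derivation.liftKaehlerDifferential_comp_D]
    rfl
  refine ⟨D, hD, ?_⟩
  intro x hx
  have hinj : Function.Injective (algebraMap (Polynomial ℂ) EF) := injEF
  have hfrac : ∀ k : RatFunc ℂ, algebraMap (RatFunc ℂ) EF k =
      algebraMap (Polynomial ℂ) EF k.num / algebraMap (Polynomial ℂ) EF k.denom := by
    intro k
    conv_lhs => rw [← RatFunc.num_div_denom k]
    rw [map_div₀, ← IsScalarTower.algebraMap_apply, ← IsScalarTower.algebraMap_apply]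
  have hDfrac : ∀ a b : Polynomial ℂ, b ≠ 0 →
      D (algebraMap (Polynomial ℂ) EF a / algebraMap (Polynomial ℂ) EF b) =
      algebraMap (Polynomial ℂ) EF (Polynomial.derivative a * b - a * Polynomial.derivative b) /
        algebraMap (Polynomial ℂ) EF (b * b) := by
    intro a b hb
    have hb' : algebraMap (Polynomial ℂ) EF b ≠ 0 := fun h => hb (hinj (by rw [h, map_zero]))
    rw [Derivation.leibniz_div, hD, hD]
    simp only [smul_eq_mul, map_sub, map_mul]
    field_simp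
  obtain ⟨D', hD'⟩ := restrEF (Ω := EF) D
  have hx' : D' x = 0 := (hD' x).trans hx
  refine const_algEF (K := RatFunc ℂ) D' ?_ (algebraMap ℂ EF) ?_ x
    (Algebra.IsAlgebraic.isAlgebraic x).isIntegral hx'
  · intro k
    refine ⟨algebraMap (Polynomial ℂ) (RatFunc ℂ)
      (Polynomial.derivative k.num * k.denom - k.num * Polynomial.derivative k.denom) /
      algebraMap (Polynomial ℂ) (RatFunc ℂ) (k.denom * k.denom), ?_⟩
    rw [hD', hfrac, hDfrac _ _ k.denom_ne_zero, map_div₀, ← IsScalarTower.algebraMap_apply,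
      ← IsScalarTower.algebraMap_apply]
  · intro k hk
    have hk' : D (algebraMap (RatFunc ℂ) EF k) = 0 := (hD' _).symm.trans hk
    rw [hfrac, hDfrac _ _ k.denom_ne_zero, div_eq_zero_iff] at hk'
    have hb' : algebraMap (Polynomial ℂ) EF (k.denom * k.denom) ≠ 0 := by
      intro h
      have h2 := hinj (h.trans (map_zero _).symm)
      exact k.denom_ne_zero (mul_self_eq_zero.1 h2)
    have h1 : Polynomial.derivative k.num * k.denom = k.num * Polynomial.derivative k.denom :=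
      sub_eq_zero.1 (hinj ((hk'.resolve_right hb').trans (map_zero _).symm))
    obtain ⟨h2, h3⟩ := wronskEF _ _ k.isCoprime_num_denom h1
    obtain ⟨c, hc⟩ : ∃ c, k.num = Polynomial.C c :=
      ⟨_, Polynomial.eq_C_of_natDegree_eq_zero (Polynomial.natDegree_eq_zero_of_derivative_eq_zero h2)⟩
    obtain ⟨d, hd⟩ : ∃ d, k.denom = Polynomial.C d :=
      ⟨_, Polynomial.eq_C_of_natDegree_eq_zero (Polynomial.natDegree_eq_zero_of_derivative_eq_zero h3)⟩
    refine ⟨c / d, ?_⟩
    rw [hfrac, hc, hd, map_div₀]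
    rfl

/-- the variable -/
private noncomputable abbrev TEF : EF := algebraMap (Polynomial ℂ) EF Polynomial.X

private theorem aevalEF (P : Polynomial ℂ) :
    Polynomial.aeval TEF P = algebraMap (Polynomial ℂ) EF P := by
  rw [TEF, Polynomial.aeval_algebraMap_apply, Polynomial.aeval_X_left_apply]

private theorem transEF : Transcendental ℂ TEF := by
  intro h
  obtain ⟨P, hP, h0⟩ := h
  rw [aevalEF] at h0
  exact hP (injEF (h0.trans (map_zero _).symm))

private theorem algebraicEF (x : EF) : IsAlgebraic (Polynomial ℂ) x :=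
  (IsFractionRing.isAlgebraic_iff (Polynomial ℂ) (RatFunc ℂ) EF).2
    (Algebra.IsAlgebraic.isAlgebraic x)

private theorem adjEF (x : EF) : IsAlgebraic (Algebra.adjoin ℂ {TEF}) x := by
  obtain ⟨P, hP, h0⟩ := algebraicEF x
  let g : Polynomial ℂ →+* Algebra.adjoin ℂ {TEF} :=
    ((Polynomial.aeval (R := ℂ) TEF).codRestrict (Algebra.adjoin ℂ {TEF})
      (fun P => by
        rw [Algebra.adjoin_singleton_eq_range_aeval]
        exact ⟨P, rfl⟩) : Polynomial ℂ →ₐ[ℂ] Algebra.adjoin ℂ {TEF})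
  have hg : (algebraMap (Algebra.adjoin ℂ {TEF}) EF).comp g = algebraMap (Polynomial ℂ) EF := by
    exact RingHom.ext fun P => aevalEF P
  refine ⟨P.map g, ?_, ?_⟩
  · intro h
    apply hP
    have h1 : (P.map g).map (algebraMap (Algebra.adjoin ℂ {TEF}) EF) = 0 := by
      rw [h, Polynomial.map_zero]
    rw [Polynomial.map_map, hg] at h1
    exact (Polynomial.map_eq_zero_iff injEF).1 h1
  · rw [Polynomial.aeval_def, Polynomial.eval₂_map, hg]
    exact h0

private theorem liftEF {Ω : Type} [Field Ω] [IsAlgClosed Ω] (φ : ℂ →+* Ω) (t : Ω)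
    (ht : ∀ P : Polynomial ℂ, P ≠ 0 → P.eval₂ φ t ≠ 0) :
    ∃ σ : EF →+* Ω, ∀ P : Polynomial ℂ, σ (algebraMap (Polynomial ℂ) EF P) = P.eval₂ φ t := by
  have hinj : Function.Injective (Polynomial.eval₂RingHom φ t) := by
    rw [injective_iff_map_eq_zero]
    intro P hP
    by_contra h
    exact ht P h hP
  let g : RatFunc ℂ →+* Ω := IsFractionRing.lift hinj
  let _ : Algebra (RatFunc ℂ) Ω := g.toAlgebra
  let σ : EF →ₐ[RatFunc ℂ] Ω := IsAlgClosed.lift
  refine ⟨(σ : EF →+* Ω), fun P => ?_⟩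
  rw [IsScalarTower.algebraMap_apply (Polynomial ℂ) (RatFunc ℂ) EF]
  show σ _ = _
  rw [σ.commutes]
  show g _ = _
  exact IsFractionRing.lift_algebraMap hinj P

/-- a derivation on the image of the algebraic closure is determined by the value at the
variable -/
private theorem uniqEF {Ω : Type} [Field Ω] (σ : EF →+* Ω) (D : Derivation ℂ EF EF)
    (D' : Derivation ℤ Ω Ω) (δ : Ω)
    (h : ∀ P : Polynomial ℂ, D' (σ (algebraMap (Polynomial ℂ) EF P)) =
      δ * σ (D (algebraMap (Polynomial ℂ) EF P))) (x : EF) :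
    D' (σ x) = δ * σ (D x) := by
  set Δ : EF → Ω := fun x => D' (σ x) - δ * σ (D x) with hΔ
  have hadd : ∀ x y, Δ (x + y) = Δ x + Δ y := by
    intro x y
    simp only [hΔ, map_add]
    ring
  have hmul : ∀ x y, Δ (x * y) = σ x * Δ y + σ y * Δ x := by
    intro x y
    simp only [hΔ, map_mul, Derivation.leibniz, smul_eq_mul, map_add]
    ring
  have hpol : ∀ P : Polynomial ℂ, Δ (algebraMap (Polynomial ℂ) EF P) = 0 := fun P =>
    sub_eq_zero.2 (h P)
  have hK : ∀ k : RatFunc ℂ, Δ (algebraMap (RatFunc ℂ) EF k) = 0 := by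
    intro k
    have hb' : algebraMap (Polynomial ℂ) EF k.denom ≠ 0 := fun h2 =>
      k.denom_ne_zero (injEF (h2.trans (map_zero _).symm))
    have h1 : algebraMap (RatFunc ℂ) EF k * algebraMap (Polynomial ℂ) EF k.denom =
        algebraMap (Polynomial ℂ) EF k.num := by
      conv_lhs => rw [← RatFunc.num_div_denom k]
      rw [map_div₀, ← IsScalarTower.algebraMap_apply, ← IsScalarTower.algebraMap_apply,
        RatFunc.num_div_denom, div_mul_cancel₀ _ hb']
    have h2 := congrArg Δ h1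
    rw [hmul, hpol, hpol, mul_zero, zero_add] at h2
    rcases mul_eq_zero.1 h2 with h3 | h3
    · exact absurd ((map_eq_zero σ).1 h3) hb'
    · exact h3
  have hq : ∀ q : Polynomial (RatFunc ℂ), Δ (Polynomial.aeval x q) =
      σ (Polynomial.aeval x (Polynomial.derivative q)) * Δ x := by
    intro q
    induction q using Polynomial.induction_on with
    | C a => rw [Polynomial.aeval_C, hK, Polynomial.derivative_C, map_zero, map_zero, zero_mul]
    | add p q hp hq => rw [map_add, hadd, hp, hq, Polynomial.derivative_add, map_add, map_add,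
        add_mul]
    | monomial n a hn =>
      rw [pow_succ, ← mul_assoc]
      generalize Polynomial.C a * Polynomial.X ^ n = Q at hn ⊢
      rw [map_mul, Polynomial.aeval_X, hmul, hn, Polynomial.derivative_mul,
        Polynomial.derivative_X, mul_one, map_add, map_mul, Polynomial.aeval_X, map_add, map_mul]
      ring
  have hx : IsIntegral (RatFunc ℂ) x := (Algebra.IsAlgebraic.isAlgebraic x).isIntegral
  have h1 := hq (minpoly (RatFunc ℂ) x)
  have h0 : Δ 0 = 0 := by
    simp only [hΔ, map_zero, mul_zero, sub_zero]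
  rw [minpoly.aeval, h0] at h1
  have hsep : (minpoly (RatFunc ℂ) x).Separable := (minpoly.irreducible hx).separable
  have h2 : Polynomial.aeval x (Polynomial.derivative (minpoly (RatFunc ℂ) x)) ≠ 0 :=
    hsep.aeval_derivative_ne_zero (minpoly.aeval _ x)
  rcases mul_eq_zero.1 h1.symm with h3 | h3
  · exact absurd ((map_eq_zero σ).1 h3) h2
  · exact sub_eq_zero.1 h3

/-- the polynomial on a line -/
private theorem lineEF {k : ℕ} (p₀ : Pp k) (e₁ e₂ : Fin (k + 1) → ℂ) (he₁ : eval e₁ p₀ ≠ 0) :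
    eval₂ (algebraMap ℂ EF)
      (fun l => algebraMap ℂ EF (e₁ l) + TEF * algebraMap ℂ EF (e₂ l)) p₀ ≠ 0 := by
  let L : Pp k →+* Polynomial ℂ :=
    eval₂Hom Polynomial.C fun l => Polynomial.C (e₁ l) + Polynomial.X * Polynomial.C (e₂ l)
  have h1 : (algebraMap (Polynomial ℂ) EF).comp L = eval₂Hom (algebraMap ℂ EF)
      (fun l => algebraMap ℂ EF (e₁ l) + TEF * algebraMap ℂ EF (e₂ l)) := by
    apply MvPolynomial.ringHom_ext
    · intro c
      rw [RingHom.comp_apply, eval₂Hom_C, eval₂Hom_C]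
      exact (IsScalarTower.algebraMap_apply ℂ (Polynomial ℂ) EF c).symm
    · intro l
      rw [RingHom.comp_apply, eval₂Hom_X', eval₂Hom_X', map_add, map_mul]
      rfl
  have h2 : (Polynomial.evalRingHom 0).comp L = eval e₁ := by
    apply MvPolynomial.ringHom_ext
    · intro c
      rw [RingHom.comp_apply, eval₂Hom_C, eval_C]
      exact Polynomial.eval_C
    · intro l
      rw [RingHom.comp_apply, eval₂Hom_X', eval_X]
      show Polynomial.eval 0 _ = _
      simp
  intro h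
  have h3 : algebraMap (Polynomial ℂ) EF (L p₀) = 0 := by
    rw [← RingHom.comp_apply, h1]
    exact h
  have h4 : L p₀ = 0 := injEF (h3.trans (map_zero _).symm)
  apply he₁
  rw [← h2, RingHom.comp_apply, h4, map_zero]

private theorem ci_spanEF {k j r : ℕ} {I : Ideal (Sp k j)} {b : Fin r → Sp k j}
    {db : Fin r → ℕ} (hI : CI I r b db) (s : Sp k j) :
    ∃ p : Fin r → Pp k, s - ∑ i, inc (p i) * b i ∈ I := by
  have h : ∀ d, ∃ p : Fin r → Pp k,
      homogeneousComponent d s - ∑ i, inc (p i) * b i ∈ I := by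
    intro d
    obtain ⟨p, _, hp⟩ := hI.span d _ (homogeneousComponent_isHomogeneous d s)
    exact ⟨p, hp⟩
  choose p hp using h
  refine ⟨fun i => ∑ d ∈ Finset.range (s.totalDegree + 1), p d i, ?_⟩
  have h1 : s - ∑ i, inc (∑ d ∈ Finset.range (s.totalDegree + 1), p d i) * b i =
      ∑ d ∈ Finset.range (s.totalDegree + 1),
        (homogeneousComponent d s - ∑ i, inc (p d i) * b i) := by
    rw [Finset.sum_sub_distrib, sum_homogeneousComponent, Finset.sum_comm]
    congr 1
    refine Finset.sum_congr rfl fun i _ => ?_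
    rw [map_sum, Finset.sum_mul]
  rw [h1]
  exact I.sum_mem fun d _ => hp d

/-- every element is integral over the polynomials in `u` modulo `I` -/
private theorem intEF {k j r : ℕ} {I : Ideal (Sp k j)} {b : Fin r → Sp k j}
    {db : Fin r → ℕ} (hI : CI I r b db) (s : Sp k j) :
    ∃ G : Polynomial (Pp k), G.Monic ∧
      G.eval₂ ((inc : Pp k →ₐ[ℂ] Sp k j) : Pp k →+* Sp k j) s ∈ I := by
  let f : Pp k →+* (Sp k j ⧸ I) :=
    (Ideal.Quotient.mk I).comp ((inc : Pp k →ₐ[ℂ] Sp k j) : Pp k →+* Sp k j)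
  have hfin : f.Finite := by
    let : Algebra (Pp k) (Sp k j ⧸ I) := f.toAlgebra
    show Module.Finite (Pp k) (Sp k j ⧸ I)
    classical
    refine ⟨⟨Finset.univ.image fun i => Ideal.Quotient.mk I (b i), ?_⟩⟩
    rw [eq_top_iff]
    rintro x -
    obtain ⟨s, rfl⟩ := Ideal.Quotient.mk_surjective x
    obtain ⟨p, hp⟩ := ci_spanEF hI s
    have h1 : Ideal.Quotient.mk I s = ∑ i, p i • Ideal.Quotient.mk I (b i) := by
      rw [← sub_eq_zero]
      have h2 := Ideal.Quotient.eq_zero_iff_mem.2 hp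
      rw [map_sub, map_sum] at h2
      rw [← h2]
      congr 1
    rw [h1]
    refine Submodule.sum_mem _ fun i _ => Submodule.smul_mem _ _ (Submodule.subset_span ?_)
    simp
  obtain ⟨G, hG, hG0⟩ := hfin.to_isIntegral (Ideal.Quotient.mk I s)
  refine ⟨G, hG, ?_⟩
  rw [← Ideal.Quotient.eq_zero_iff_mem, Polynomial.hom_eval₂]
  exact hG0

/-- the value of the variable `r_i` is a root of a monic polynomial -/
private theorem rootEF {k j : ℕ} {Ω : Type} [CommRing Ω] (φ : ℂ →+* Ω)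
    (p : Fin (k + 1) ⊕ Fin j → Ω) (G : Polynomial (Pp k)) (i : Fin j)
    (h : (G.eval₂ ((inc : Pp k →ₐ[ℂ] Sp k j) : Pp k →+* Sp k j) (X (Sum.inr i))).eval₂ φ p = 0) :
    G.eval₂ (eval₂Hom φ fun l => p (Sum.inl l)) (p (Sum.inr i)) = 0 := by
  have h1 : eval₂Hom φ p
      (G.eval₂ ((inc : Pp k →ₐ[ℂ] Sp k j) : Pp k →+* Sp k j) (X (Sum.inr i))) = 0 := h
  rw [Polynomial.hom_eval₂, eval₂Hom_X'] at h1
  have h2 : (eval₂Hom φ p).comp ((inc : Pp k →ₐ[ℂ] Sp k j) : Pp k →+* Sp k j) =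
      eval₂Hom φ fun l => p (Sum.inl l) := by
    apply MvPolynomial.ringHom_ext
    · intro c
      rw [RingHom.comp_apply, eval₂Hom_C]
      show eval₂Hom φ p (rename Sum.inl (C c)) = φ c
      rw [rename_C, eval₂Hom_C]
    · intro l
      rw [RingHom.comp_apply, eval₂Hom_X']
      show eval₂Hom φ p (rename Sum.inl (X l)) = _
      rw [rename_X, eval₂Hom_X']
  rwa [h2] at h1

/-- roots of polynomials over an algebraically closed field -/
private theorem splitEF {K Ω : Type} [Field K] [IsAlgClosed K] [Field Ω] (σ : K →+* Ω)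
    (P : Polynomial K) (hP : P ≠ 0) (x : Ω) (h : P.eval₂ σ x = 0) : ∃ c : K, x = σ c := by
  have hs := (IsAlgClosed.splits P).eq_prod_roots
  rw [hs, Polynomial.eval₂_mul, Polynomial.eval₂_C, mul_eq_zero] at h
  rcases h with h | h
  · exact absurd ((map_eq_zero σ).1 h) (Polynomial.leadingCoeff_ne_zero.2 hP)
  · rw [Polynomial.eval₂_multiset_prod, Multiset.prod_eq_zero_iff, Multiset.map_map,
      Multiset.mem_map] at h
    obtain ⟨a, -, ha⟩ := h
    refine ⟨a, ?_⟩
    simp only [Function.comp_apply, Polynomial.eval₂_sub, Polynomial.eval₂_X,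
      Polynomial.eval₂_C] at ha
    exact sub_eq_zero.1 ha

/-- the fibres of the zero set are finite -/
private theorem finEF {k j r : ℕ} {I : Ideal (Sp k j)} {b : Fin r → Sp k j} {db : Fin r → ℕ}
    (hI : CI I r b db) {Ω : Type} [Field Ω] (φ : ℂ →+* Ω) (u : Fin (k + 1) → Ω) :
    {y : Fin (k + 1) ⊕ Fin j → Ω |
      (∀ l, y (Sum.inl l) = u l) ∧ ∀ g ∈ I, eval₂ φ y g = 0}.Finite := by
  classical
  choose G hG hG0 using fun i : Fin j => intEF hI (X (Sum.inr i))
  let S : Fin j → Finset Ω := fun i => ((G i).map (eval₂Hom φ u)).roots.toFinset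
  refine ((Fintype.piFinset S).finite_toSet.image fun z => Sum.elim u z).subset ?_
  rintro y ⟨hy, hyI⟩
  refine ⟨fun i => y (Sum.inr i), ?_, ?_⟩
  · rw [Finset.mem_coe, Fintype.mem_piFinset]
    intro i
    rw [Multiset.mem_toFinset, Polynomial.mem_roots ((hG i).map _).ne_zero,
      Polynomial.IsRoot.def, Polynomial.eval_map]
    have h1 := rootEF φ y (G i) i (hyI _ (hG0 i))
    have h3 : (fun l => y (Sum.inl l)) = u := funext hy
    rwa [h3] at h1
  · funext a
    rcases a with l | i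
    · exact (hy l).symm
    · rfl

/-- descent of the points -/
private theorem descEF {k j r : ℕ} {I : Ideal (Sp k j)} {b : Fin r → Sp k j} {db : Fin r → ℕ}
    (hI : CI I r b db) {K Ω : Type} [Field K] [IsAlgClosed K] [Field Ω] (φ : ℂ →+* K)
    (σ : K →+* Ω) (u : Fin (k + 1) → K)
    (p : Fin (k + 1) ⊕ Fin j → Ω) (hu : ∀ l, p (Sum.inl l) = σ (u l))
    (hp : ∀ g ∈ I, g.eval₂ (σ.comp φ) p = 0) :
    ∃ y : Fin (k + 1) ⊕ Fin j → K, (∀ l, y (Sum.inl l) = u l) ∧ ∀ i, p i = σ (y i) := by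
  choose G hG hG0 using fun i : Fin j => intEF hI (X (Sum.inr i))
  have h1 : ∀ i : Fin j, ∃ c : K, p (Sum.inr i) = σ c := by
    intro i
    have h2 := rootEF (σ.comp φ) p (G i) i (hp _ (hG0 i))
    have h3 : eval₂Hom (σ.comp φ) (fun l => p (Sum.inl l)) = σ.comp (eval₂Hom φ u) := by
      apply MvPolynomial.ringHom_ext
      · intro c
        rw [RingHom.comp_apply, eval₂Hom_C, eval₂Hom_C]
        rfl
      · intro l
        rw [RingHom.comp_apply, eval₂Hom_X', eval₂Hom_X', hu]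
    rw [h3, ← Polynomial.eval₂_map] at h2
    exact splitEF σ _ ((hG i).map _).ne_zero _ h2
  choose c hc using h1
  refine ⟨Sum.elim u c, fun l => rfl, ?_⟩
  rintro (l | i)
  · exact hu l
  · exact hc i

private theorem towerEF {A Ω Ω' : Type} [CommRing A] [IsDomain A] [Field Ω] [Field Ω']
    [Algebra Ω Ω'] [Algebra.IsAlgebraic Ω Ω'] (ψ : A →+* Ω)
    (halg : ∀ x : Ω, ∃ P : Polynomial A, P ≠ 0 ∧ P.eval₂ ψ x = 0) (x : Ω') :
    ∃ P : Polynomial A, P ≠ 0 ∧ P.eval₂ ((algebraMap Ω Ω').comp ψ) x = 0 := by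
  let _ : Algebra A Ω := ψ.toAlgebra
  let _ : Algebra A Ω' := ((algebraMap Ω Ω').comp ψ).toAlgebra
  have : IsScalarTower A Ω Ω' := IsScalarTower.of_algebraMap_eq fun _ => rfl
  have : Algebra.IsAlgebraic A Ω := ⟨fun x => by
    obtain ⟨P, hP, h⟩ := halg x
    exact ⟨P, hP, h⟩⟩
  have : Algebra.IsAlgebraic A Ω' := Algebra.IsAlgebraic.trans A Ω Ω'
  obtain ⟨P, hP, h⟩ := Algebra.IsAlgebraic.isAlgebraic (R := A) x
  exact ⟨P, hP, h⟩

/-- the statement over an algebraically closed field -/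
private theorem coreEF {k j r n : ℕ} {I : Ideal (Sp k j)} {b : Fin r → Sp k j} {db : Fin r → ℕ}
    (hI : CI I r b db) (N : Ideal (Sp k j)) (hIN : I ≤ N) (e₁ e₂ : Fin (k + 1) → ℂ)
    (R : Fin (k + 1) ⊕ Fin j → MvPolynomial (Fin (n + 1)) ℂ)
    (D : Derivation ℂ EF EF) (hDP : ∀ P : Polynomial ℂ, D (algebraMap (Polynomial ℂ) EF P) =
      algebraMap (Polynomial ℂ) EF (Polynomial.derivative P))
    (f : Fin (n + 1) → Ent) (Ω : Type) [Field Ω] [IsAlgClosed Ω] (ψ : Ent →+* Ω)
    (hψ : Function.Injective ψ) (halg : ∀ x : Ω, ∃ P : Polynomial Ent, P ≠ 0 ∧ P.eval₂ ψ x = 0)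
    (t : Ω) (p : Fin (k + 1) ⊕ Fin j → Ω)
    (ht : ∀ P : Polynomial ℂ, P ≠ 0 → P.eval₂ (ψ.comp (algebraMap ℂ Ent)) t ≠ 0)
    (hpu : ∀ i, p (Sum.inl i) = ψ (algebraMap ℂ Ent (e₁ i)) + t * ψ (algebraMap ℂ Ent (e₂ i)))
    (hpN : ∀ g ∈ N, g.eval₂ (ψ.comp (algebraMap ℂ Ent)) p = 0)
    (h1 : ∑ i, p i * ψ (aeval f (R i)) = 0) (h2 : ∑ i, p i * ψ (dE (aeval f (R i))) = 0) :
    ∃ (σ : EF →+* Ω) (y : Fin (k + 1) ⊕ Fin j → EF),
      (∀ l, y (Sum.inl l) = algebraMap ℂ EF (e₁ l) + TEF * algebraMap ℂ EF (e₂ l)) ∧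
      (∀ g ∈ N, eval₂ (algebraMap ℂ EF) y g = 0) ∧
      (∀ Q : MvPolynomial (Fin (n + 1)) ℂ,
        Q.eval₂ (σ.comp (algebraMap ℂ EF)) (fun i => ψ (f i)) = ψ (aeval f Q)) ∧
      ∑ x, σ (y x) * (R x).eval₂ (σ.comp (algebraMap ℂ EF)) (fun i => ψ (f i)) = 0 ∧
      ∑ x, σ (D (y x)) * (R x).eval₂ (σ.comp (algebraMap ℂ EF)) (fun i => ψ (f i)) = 0 := by
  obtain ⟨D', hD', hDc'⟩ := der_ext Ω ψ hψ halg
  obtain ⟨σ, hσ⟩ := liftEF (ψ.comp (algebraMap ℂ Ent)) t ht
  have hσC : σ.comp (algebraMap ℂ EF) = ψ.comp (algebraMap ℂ Ent) := by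
    ext1 c
    rw [RingHom.comp_apply, IsScalarTower.algebraMap_apply ℂ (Polynomial ℂ) EF, hσ]
    exact Polynomial.eval₂_C _ _
  have hσT : σ TEF = t := by
    rw [hσ, Polynomial.eval₂_X]
  have hDφ : ∀ c : ℂ, D' ((ψ.comp (algebraMap ℂ Ent)) c) = 0 := by
    intro c
    rw [RingHom.comp_apply, hD', dE_algebraMap, map_zero]
  have hder : ∀ x : EF, D' (σ x) = D' t * σ (D x) := by
    apply uniqEF
    intro P
    rw [hDP, hσ, hσ]
    induction P using Polynomial.induction_on with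
    | C a => rw [Polynomial.eval₂_C, hDφ, Polynomial.derivative_C, Polynomial.eval₂_zero, mul_zero]
    | add p q hp hq => rw [Polynomial.eval₂_add, map_add, hp, hq, Polynomial.derivative_add,
        Polynomial.eval₂_add, mul_add]
    | monomial n a hn =>
      rw [pow_succ, ← mul_assoc]
      generalize Polynomial.C a * Polynomial.X ^ n = Q at hn ⊢
      rw [Polynomial.eval₂_mul, Polynomial.eval₂_X, Derivation.leibniz, hn, smul_eq_mul,
        smul_eq_mul, Polynomial.derivative_mul, Polynomial.derivative_X, mul_one,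
        Polynomial.eval₂_add, Polynomial.eval₂_mul, Polynomial.eval₂_X]
      ring
  -- descent of the point
  have hu' : ∀ l, p (Sum.inl l) = σ (algebraMap ℂ EF (e₁ l) + TEF * algebraMap ℂ EF (e₂ l)) := by
    intro l
    rw [hpu, map_add, map_mul, hσT, ← RingHom.comp_apply σ, ← RingHom.comp_apply σ, hσC]
    rfl
  have hpN' : ∀ g ∈ N, g.eval₂ (σ.comp (algebraMap ℂ EF)) p = 0 := by
    intro g hg
    rw [hσC]
    exact hpN g hg
  obtain ⟨y, hyu, hyp⟩ := descEF hI (algebraMap ℂ EF) σ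
    (fun l => algebraMap ℂ EF (e₁ l) + TEF * algebraMap ℂ EF (e₂ l)) p hu'
    fun g hg => hpN' g (hIN hg)
  have hval : ∀ Q : MvPolynomial (Fin (n + 1)) ℂ,
      Q.eval₂ (σ.comp (algebraMap ℂ EF)) (fun i => ψ (f i)) = ψ (aeval f Q) := by
    intro Q
    rw [hσC]
    exact (eval₂_comp_left ψ _ _ _).symm
  have h3 : ∑ x, σ (y x) * (R x).eval₂ (σ.comp (algebraMap ℂ EF)) (fun i => ψ (f i)) = 0 := by
    rw [← h1]
    refine Finset.sum_congr rfl fun i _ => ?_
    rw [hval, ← hyp]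
  refine ⟨σ, y, hyu, ?_, hval, h3, ?_⟩
  · intro g hg
    apply σ.injective
    rw [map_zero, ← hpN' g hg]
    have h4 : p = fun i => σ (y i) := funext hyp
    rw [h4]
    exact eval₂_comp_left σ _ _ _
  · have hδ : D' t ≠ 0 := by
      intro h
      obtain ⟨c, hc⟩ := hDc' t h
      refine ht (Polynomial.X - Polynomial.C c) (Polynomial.X_sub_C_ne_zero c) ?_
      rw [Polynomial.eval₂_sub, Polynomial.eval₂_X, Polynomial.eval₂_C, hc]
      exact sub_self _
    have h5 := congrArg D' h3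
    rw [map_zero, map_sum] at h5
    have h6 : ∑ i, σ (y i) * ψ (dE (aeval f (R i))) = 0 := by
      rw [← h2]
      refine Finset.sum_congr rfl fun i _ => ?_
      rw [← hyp]
    have h8 : D' t * ∑ x, σ (D (y x)) *
        (R x).eval₂ (σ.comp (algebraMap ℂ EF)) (fun i => ψ (f i)) =
        ∑ x, D' (σ (y x) * (R x).eval₂ (σ.comp (algebraMap ℂ EF)) (fun i => ψ (f i))) -
        ∑ i, σ (y i) * ψ (dE (aeval f (R i))) := by
      rw [Finset.mul_sum, ← Finset.sum_sub_distrib]
      refine Finset.sum_congr rfl fun i _ => ?_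
      rw [hval, Derivation.leibniz, hder, hD', smul_eq_mul, smul_eq_mul]
      ring
    rw [h5, h6, sub_zero] at h8
    exact (mul_eq_zero.1 h8).resolve_left hδ

/-- change of the field -/
private theorem transferEF {k j n : ℕ} (N : Ideal (Sp k j)) (e₁ e₂ : Fin (k + 1) → ℂ)
    (R : Fin (k + 1) ⊕ Fin j → MvPolynomial (Fin (n + 1)) ℂ) (f : Fin (n + 1) → Ent)
    {Ω Ω' : Type} [Field Ω] [Field Ω'] (ι : Ω →+* Ω') (ψ : Ent →+* Ω)
    (t : Ω) (p : Fin (k + 1) ⊕ Fin j → Ω)
    (ht : ∀ P : Polynomial ℂ, P ≠ 0 → P.eval₂ (ψ.comp (algebraMap ℂ Ent)) t ≠ 0)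
    (hpu : ∀ i, p (Sum.inl i) = ψ (algebraMap ℂ Ent (e₁ i)) + t * ψ (algebraMap ℂ Ent (e₂ i)))
    (hpN : ∀ g ∈ N, g.eval₂ (ψ.comp (algebraMap ℂ Ent)) p = 0)
    (h1 : ∑ i, p i * ψ (aeval f (R i)) = 0) (h2 : ∑ i, p i * ψ (dE (aeval f (R i))) = 0) :
    (∀ P : Polynomial ℂ, P ≠ 0 → P.eval₂ ((ι.comp ψ).comp (algebraMap ℂ Ent)) (ι t) ≠ 0) ∧
    (∀ i, ι (p (Sum.inl i)) = (ι.comp ψ) (algebraMap ℂ Ent (e₁ i)) +
      ι t * (ι.comp ψ) (algebraMap ℂ Ent (e₂ i))) ∧
    (∀ g ∈ N, g.eval₂ ((ι.comp ψ).comp (algebraMap ℂ Ent)) (fun i => ι (p i)) = 0) ∧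
    ∑ i, ι (p i) * (ι.comp ψ) (aeval f (R i)) = 0 ∧
    ∑ i, ι (p i) * (ι.comp ψ) (dE (aeval f (R i))) = 0 := by
  refine ⟨?_, ?_, ?_, ?_, ?_⟩
  · intro P hP h
    apply ht P hP
    apply ι.injective
    rw [map_zero, Polynomial.hom_eval₂]
    exact h
  · intro i
    rw [hpu, map_add, map_mul]
    rfl
  · intro g hg
    have h3 := congrArg ι (hpN g hg)
    rw [map_zero, eval₂_comp_left] at h3
    exact h3
  · have h3 := congrArg ι h1
    rw [map_zero, map_sum] at h3
    rw [← h3]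
    exact Finset.sum_congr rfl fun i _ => (map_mul ι _ _).symm
  · have h3 := congrArg ι h2
    rw [map_zero, map_sum] at h3
    rw [← h3]
    exact Finset.sum_congr rfl fun i _ => (map_mul ι _ _).symm

theorem exc_form_y {k j r n : ℕ} {I : Ideal (Sp k j)} {b : Fin r → Sp k j} {db : Fin r → ℕ}
    (hI : CI I r b db) (N : Ideal (Sp k j)) (hIN : I ≤ N) (s α : Sp k j) (p₀ : Pp k)
    (hps : inc p₀ - s * α ∈ N) (e₁ e₂ : Fin (k + 1) → ℂ) (he₁ : eval e₁ p₀ ≠ 0)
    (R : Fin (k + 1) ⊕ Fin j → MvPolynomial (Fin (n + 1)) ℂ)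
    {q : Ideal (MvPolynomial (Fin (n + 1)) ℂ)} (hq : q.IsPrime) (hs : ExcOn q R s) :
    ∃ (dZ : ℕ) (Z : MvPolynomial (Fin (n + 1)) ℂ), Z ∉ q ∧ Z.IsHomogeneous dZ ∧
      ∀ f : Fin (n + 1) → Ent, (∀ g ∈ q, aeval f g = 0) → aeval f Z ≠ 0 →
        NoTr N e₁ e₂ (fun i => aeval f (R i)) := by
  classical
  obtain ⟨D, hDP, hDc⟩ := derEF
  have hDT : D TEF ≠ 0 := by
    rw [hDP, Polynomial.derivative_X, map_one]
    exact one_ne_zero
  set W : Set (Fin (k + 1) ⊕ Fin j → EF) := {y |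
    (∀ l, y (Sum.inl l) = algebraMap ℂ EF (e₁ l) + TEF * algebraMap ℂ EF (e₂ l)) ∧
    ∀ g ∈ N, eval₂ (algebraMap ℂ EF) y g = 0} with hW
  have hfin : W.Finite := (finEF hI (algebraMap ℂ EF)
    (fun l => algebraMap ℂ EF (e₁ l) + TEF * algebraMap ℂ EF (e₂ l))).subset
    fun y hy => ⟨hy.1, fun g hg => hy.2 g (hIN hg)⟩
  have hone : ∀ y : Fin (k + 1) ⊕ Fin j → EF,
      ∃ (dZ : ℕ) (Z : MvPolynomial (Fin (n + 1)) ℂ), Z ∉ q ∧ Z.IsHomogeneous dZ ∧ (y ∈ W →
      ∀ (Ω : Type) [Field Ω] (σ : EF →+* Ω) (f : Fin (n + 1) → Ω),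
        (∀ g ∈ q, g.eval₂ (σ.comp (algebraMap ℂ EF)) f = 0) →
        ∑ x, σ (y x) * (R x).eval₂ (σ.comp (algebraMap ℂ EF)) f = 0 →
        ∑ x, σ (D (y x)) * (R x).eval₂ (σ.comp (algebraMap ℂ EF)) f = 0 →
        Z.eval₂ (σ.comp (algebraMap ℂ EF)) f = 0) := by
    intro y
    by_cases hy : y ∈ W
    · have hs0 : eval₂ (algebraMap ℂ EF) y s ≠ 0 := by
        intro h
        have h1 := hy.2 _ hps
        rw [eval₂_sub, eval₂_mul, h, zero_mul, sub_zero] at h1
        have h2 : eval₂ (algebraMap ℂ EF) y (inc p₀) = eval₂ (algebraMap ℂ EF)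
            (fun l => algebraMap ℂ EF (e₁ l) + TEF * algebraMap ℂ EF (e₂ l)) p₀ := by
          show eval₂ (algebraMap ℂ EF) y (rename Sum.inl p₀) = _
          rw [eval₂_rename]
          congr 1
          funext l
          exact hy.1 l
        rw [h2] at h1
        exact lineEF p₀ e₁ e₂ he₁ h1
      obtain ⟨dZ, Z, h1, h2, h3⟩ := hs EF TEF transEF adjEF D hDT y hs0
      exact ⟨dZ, Z, h1, h2, fun _ => h3⟩
    · exact ⟨0, 1, fun h => hq.ne_top ((Ideal.eq_top_iff_one _).2 h), isHomogeneous_one _ _,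
        fun h => absurd h hy⟩
  choose dZ Z hZ0 hZh hZ using hone
  refine ⟨∑ y ∈ hfin.toFinset, dZ y, ∏ y ∈ hfin.toFinset, Z y, ?_,
    IsHomogeneous.prod _ _ _ fun y _ => hZh y, ?_⟩
  · intro h
    obtain ⟨y, _, hy⟩ := (hq.prod_mem_iff).1 h
    exact hZ0 y hy
  intro f hfq hf Ω _ ψ hψ halg t p ht hpu hpN h1 h2
  obtain ⟨ht', hpu', hpN', h1', h2'⟩ := transferEF N e₁ e₂ R f
    (algebraMap Ω (AlgebraicClosure Ω)) ψ t p ht hpu hpN h1 h2
  obtain ⟨σ, y, hy1, hy2, hval, h3, h4⟩ := coreEF hI N hIN e₁ e₂ R D hDP f (AlgebraicClosure Ω)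
    ((algebraMap Ω (AlgebraicClosure Ω)).comp ψ)
    ((algebraMap Ω (AlgebraicClosure Ω)).injective.comp hψ) (towerEF ψ halg)
    (algebraMap Ω (AlgebraicClosure Ω) t) (fun i => algebraMap Ω (AlgebraicClosure Ω) (p i))
    ht' hpu' hpN' h1' h2'
  have hyW : y ∈ W := ⟨hy1, hy2⟩
  have h5 := hZ y hyW _ σ _ (fun g hg => by rw [hval, hfq g hg, map_zero]) h3 h4
  rw [hval] at h5
  have h6 : aeval f (Z y) = 0 := by
    apply hψ
    apply (algebraMap Ω (AlgebraicClosure Ω)).injective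
    rw [map_zero, map_zero]
    exact h5
  apply hf
  rw [map_prod]
  exact Finset.prod_eq_zero (hfin.mem_toFinset.2 hyW) h6

end Pool.Agent.QY
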