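import Pool.Agent.Lib_MP_b9fedf_sq.AbsZ
import Pool.Agent.Lib_MP_b9fedf_sq.Pack2
import Pool.Agent.Lib_MP_b9fedf_sq.Pkg2
import Pool.Agent.Lib_MP_b9fedf_sq.Planes
import Pool.Agent.Lib_MP_b9fedf_sq.Star
import Pool.Agent.Lib_MP_b9fedf_sq.Lim
import Pool.Agent.Lib_MP_b9fedf_qy.ExcFormY

/-! Entire curves in an arbitrary variety on which no member of the set vanishes identically. -/

set_option autoImplicit false

namespace Pool.Agent.QY
open MvPolynomial Pool.Agent.SQ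

theorem excOn_pull {σ τ : Type} [Fintype σ] [Fintype τ] [DecidableEq σ] {n : ℕ}
    {q : Ideal (MvPolynomial (Fin (n + 1)) ℂ)} {P : τ → MvPolynomial (Fin (n + 1)) ℂ}
    {s : MvPolynomial τ ℂ} (T : (σ → ℂ) →ₗ[ℂ] (τ → ℂ)) (h : ExcOn q P s) :
    ExcOn q (pullP T P) (subs T s) := by
  intro E _ _ t ht halg D hDt y hy
  rw [eval₂_subs] at hy
  obtain ⟨dZ, Z, hZ0, hZh, hZ⟩ := h E t ht halg D hDt _ hy
  refine ⟨dZ, Z, hZ0, hZh, ?_⟩
  intro Ω _ φ f hq h1 h2
  have hP : ∀ i, (pullP T P i).eval₂ (φ.comp (algebraMap ℂ E)) f =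
      ∑ k, φ (algebraMap ℂ E (T (Pi.single i 1) k)) *
        (P k).eval₂ (φ.comp (algebraMap ℂ E)) f := by
    intro i
    unfold pullP
    rw [eval₂_sum]
    refine Finset.sum_congr rfl fun k _ => ?_
    rw [smul_eq_C_mul, eval₂_mul, eval₂_C]
    rfl
  have key : ∀ y : σ → E, ∑ i, φ (y i) * (pullP T P i).eval₂ (φ.comp (algebraMap ℂ E)) f =
      ∑ k, φ (∑ i, y i * algebraMap ℂ E (T (Pi.single i 1) k)) *
        (P k).eval₂ (φ.comp (algebraMap ℂ E)) f := by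
    intro y
    simp only [hP, map_sum, map_mul, Finset.mul_sum, Finset.sum_mul]
    rw [Finset.sum_comm]
    exact Finset.sum_congr rfl fun k _ => Finset.sum_congr rfl fun i _ => by ring
  refine hZ Ω φ f hq ?_ ?_
  · rw [← key]
    exact h1
  · rw [key] at h2
    rw [← h2]
    refine Finset.sum_congr rfl fun k _ => ?_
    congr 2
    rw [map_sum]
    refine Finset.sum_congr rfl fun i _ => ?_
    rw [Derivation.leibniz, Derivation.map_algebraMap, smul_zero, zero_add, smul_eq_mul, mul_comm]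

/-- the coordinates of a non-constant curve are not proportional after an invertible change of
coordinates -/
private theorem pull_nc {σ τ : Type} [Fintype σ] [Fintype τ] [DecidableEq σ] [DecidableEq τ]
    (Ψ : (τ → ℂ) ≃ₗ[ℂ] (σ → ℂ)) (F : τ → Ent)
    (hF : ∀ t : τ → ℂ, t ≠ 0 → ∃ i i', t i • F i' ≠ t i' • F i) :
    ∀ t : σ → ℂ, t ≠ 0 → ∃ i i', t i • pull Ψ.symm.toLinearMap F i' ≠
      t i' • pull Ψ.symm.toLinearMap F i := by
  intro t ht
  by_contra hcon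
  push Not at hcon
  set G := pull Ψ.symm.toLinearMap F with hG
  set t' : τ → ℂ := fun k => dt (Ψ (Pi.single k 1)) t with ht'
  have h1 : ∀ v : σ → ℂ, dt v t = ∑ k, Ψ.symm v k * t' k := by
    intro v
    have h2 : ∀ x, v x = ∑ k, Ψ.symm v k * Ψ (Pi.single k 1) x := by
      intro x
      have h3 := map_eq_sum Ψ.toLinearMap (Ψ.symm v) x
      have h4 : Ψ.toLinearMap (Ψ.symm v) = v := Ψ.apply_symm_apply v
      rw [h4] at h3
      exact h3
    unfold dt
    conv_lhs => rw [Finset.sum_congr rfl fun x _ => by rw [h2 x]]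
    simp only [ht', dt, Finset.sum_mul, Finset.mul_sum]
    rw [Finset.sum_comm]
    exact Finset.sum_congr rfl fun k _ => Finset.sum_congr rfl fun x _ => by ring
  have ht0 : t' ≠ 0 := by
    intro h0
    apply ht
    funext x
    have h2 := h1 (Pi.single x 1)
    rw [h0] at h2
    have h3 : dt (Pi.single x 1) t = t x := by
      unfold dt
      rw [Finset.sum_eq_single x]
      · rw [Pi.single_eq_same, one_mul]
      · intro y _ hy
        rw [Pi.single_apply, if_neg hy, zero_mul]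
      · intro hx
        exact absurd (Finset.mem_univ _) hx
    rw [← h3, h2]
    simp
  obtain ⟨k, l, hkl⟩ := hF t' ht0
  apply hkl
  apply Ent.ext'
  intro z
  have hFz : ∀ k, (F k).1 z = ∑ i, Ψ (Pi.single k 1) i * (G i).1 z := by
    intro k
    rw [hG, pull_sum]
    have h4 : Ψ.symm.toLinearMap (Ψ (Pi.single k 1)) = Pi.single k 1 := Ψ.symm_apply_apply _
    rw [h4, Finset.sum_eq_single k]
    · rw [Pi.single_eq_same, one_mul]
    · intro y _ hy
      rw [Pi.single_apply, if_neg hy, zero_mul]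
    · intro hx
      exact absurd (Finset.mem_univ _) hx
  have hGz : ∀ i i', t i * (G i').1 z = t i' * (G i).1 z := by
    intro i i'
    have h5 := congrArg (fun x : Ent => x.1 z) (hcon i i')
    exact h5
  show t' k * (F l).1 z = t' l * (F k).1 z
  rw [hFz, hFz]
  simp only [ht', dt, Finset.sum_mul, Finset.mul_sum]
  rw [Finset.sum_comm]
  apply Finset.sum_congr rfl
  intro i _
  apply Finset.sum_congr rfl
  intro i' _
  linear_combination (Ψ (Pi.single k 1) i * Ψ (Pi.single l 1) i') * hGz i i'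

/-- the case where no member of `A` vanishes on the curve and no hyperplane contains many points
of `A` -/
theorem set_case_y (n e m M₀ M eₛ : ℕ) : ∃ N₀ : ℕ,
    ∀ q : Ideal (MvPolynomial (Fin (n + 1)) ℂ), q.IsPrime →
    ∀ P : Fin (m + 1) → MvPolynomial (Fin (n + 1)) ℂ, (∀ i, (P i).IsHomogeneous e) →
    ∀ A : Finset (Fin (m + 1) → ℂ), PW A → N₀ < A.card →
    (∀ a ∈ A, ∃ s : MvPolynomial (Fin (m + 1)) ℂ, s.IsHomogeneous eₛ ∧ eval a s ≠ 0 ∧
      ExcOn q P s) →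
    (∀ h : Fin (m + 1) → ℂ, h ≠ 0 → ∀ A' ⊆ A, (∀ a ∈ A', dt a h = 0) → A'.card ≤ M₀) →
    ∃ (dZ : ℕ) (Z : MvPolynomial (Fin (n + 1)) ℂ), Z ∉ q ∧ Z.IsHomogeneous dZ ∧
    ∀ f : Fin (n + 1) → Ent, (∀ g ∈ q, aeval f g = 0) → (∀ a ∈ A, (∑ i, a i • aeval f (P i) : Ent) ≠ 0) →
    (∀ t : Fin (m + 1) → ℂ, t ≠ 0 → ∃ i i', t i • (aeval f (P i') : Ent) ≠
      t i' • (aeval f (P i) : Ent)) →
    (∀ a z, (f a).1 (z + 2 * Real.pi * Complex.I) = (f a).1 z) →
    (∀ a ∈ A, ∀ b ∈ A, ∀ (z : ℂ) (c : ℕ),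
      analyticOrderAt (fun ζ => ∑ k, b k * (aeval f (P k)).1 ζ) z = c →
      analyticOrderAt (fun ζ => ∑ k, a k * (aeval f (P k)).1 ζ) z = ((c + 1 : ℕ) : ℕ∞) →
      ∀ A' ⊆ A, (∀ x ∈ A', (c : ℕ∞) ≤ analyticOrderAt
        (fun ζ => ∑ k, x k * (aeval f (P k)).1 ζ) z) → A'.card ≤ M) →
    aeval f Z = 0 := by
  classical
  choose Di Dp hD using fun k j r => pack2 k j r eₛ
  obtain ⟨N₀, hN₀⟩ := select m (max M₀ M) Di Dp
  refine ⟨N₀, fun q hq P hP A hA hcard hsq hM => ?_⟩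
  obtain ⟨k, j, hk, hkj, A', hA', hA'card, Ψ, I, r, b, db, hCI, hzero, hirr, hpd⟩ :=
    hN₀ A hA hcard
  have hspan : ∀ h : Fin (m + 1) → ℂ, h ≠ 0 → ∃ a ∈ A', dt a h ≠ 0 := by
    intro h hh
    by_contra hcon
    push Not at hcon
    have := hM h hh A' hA' hcon
    have := le_max_left M₀ M
    omega
  set T : (Fin (k + 1) ⊕ Fin j → ℂ) →ₗ[ℂ] (Fin (m + 1) → ℂ) := Ψ.symm.toLinearMap with hT
  have hTΨ : ∀ a, T (Ψ a) = a := fun a => Ψ.symm_apply_apply a
  have hTinj : Function.Injective T := Ψ.symm.injective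
  set Ac : Finset (Fin (k + 1) ⊕ Fin j → ℂ) := A'.image Ψ with hAc
  have hAcc : (Ac : Set (Fin (k + 1) ⊕ Fin j → ℂ)) = Ψ '' (A' : Set (Fin (m + 1) → ℂ)) := by
    rw [hAc, Finset.coe_image]
  have hspan' : ∀ h : Fin (k + 1) ⊕ Fin j → ℂ, h ≠ 0 →
      ∃ a ∈ (Ac : Set (Fin (k + 1) ⊕ Fin j → ℂ)), dt a h ≠ 0 := by
    intro h hh
    have h1 : ∀ a, dt (Ψ a) h = dt a (fun i => ∑ x, Ψ (Pi.single i 1) x * h x) := by
      intro a
      unfold dt
      have h2 : ∀ x, Ψ a x = ∑ i, a i * Ψ (Pi.single i 1) x := fun x =>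
        map_eq_sum Ψ.toLinearMap a x
      simp only [h2, Finset.sum_mul, Finset.mul_sum]
      rw [Finset.sum_comm]
      exact Finset.sum_congr rfl fun i _ => Finset.sum_congr rfl fun x _ => by ring
    obtain ⟨a, ha, ha'⟩ := hspan (fun i => ∑ x, Ψ (Pi.single i 1) x * h x) (by
      intro h0
      apply hh
      funext x
      have h3 := h1 (Ψ.symm (Pi.single x 1))
      rw [Ψ.apply_symm_apply, h0] at h3
      have h4 : dt (Pi.single x 1) h = h x := by
        unfold dt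
        rw [Finset.sum_eq_single x]
        · rw [Pi.single_eq_same, one_mul]
        · intro y _ hy
          rw [Pi.single_apply, if_neg hy, zero_mul]
        · intro hx
          exact absurd (Finset.mem_univ _) hx
      rw [h4] at h3
      rw [h3]
      unfold dt
      simp)
    refine ⟨Ψ a, ?_, ?_⟩
    · rw [hAcc]
      exact ⟨a, ha, rfl⟩
    · rw [h1]
      exact ha'
  obtain ⟨a₀, ha₀⟩ : A'.Nonempty := by
    rw [← Finset.card_pos]
    omega
  obtain ⟨s, hs1, hs2, hs3⟩ := hsq a₀ (hA' ha₀)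
  obtain ⟨pk, p, α, hp0, hps⟩ :=
    hD k j r I b db hCI Ac (by
      intro a ha t ht
      obtain ⟨a', ha', rfl⟩ := Finset.mem_image.mp ha
      exact hzero a' ha' t ht) (by rw [hAcc]; exact hirr) (by rw [hAcc]; exact hpd) (by
      intro h hh hv
      obtain ⟨a, ha, ha'⟩ := hspan' h hh
      apply ha'
      rw [← eval_lin']
      exact hv a ha) (subs T s) (subs_hom T hs1) (by
      intro hv
      have h1 := hv (Ψ a₀) (by rw [hAcc]; exact ⟨a₀, ha₀, rfl⟩)
      rw [eval_subs, hTΨ] at h1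
      exact hs2 h1)
  obtain ⟨Q, ε, hε0, hεli, hdet⟩ := planes hk pk.B p hp0
  have hIN : I ≤ annI I pk.V := le_annI I pk.V
  have hab : ∀ ab : Fin Q × Fin Q, ∃ (dZ : ℕ) (Z : MvPolynomial (Fin (n + 1)) ℂ), Z ∉ q ∧
      Z.IsHomogeneous dZ ∧ ∀ f : Fin (n + 1) → Ent, (∀ g ∈ q, aeval f g = 0) →
        aeval f Z ≠ 0 → NoTr (annI I pk.V) (ε ab.1) (fun i => ε ab.2 i - ε ab.1 i)
          (fun x => aeval f (pullP T P x)) := fun ab =>
    exc_form_y hCI (annI I pk.V) hIN (subs T s) α p hps (ε ab.1)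
      (fun i => ε ab.2 i - ε ab.1 i) (hε0 ab.1) (pullP T P) hq (excOn_pull T hs3)
  choose dZ Z hZ0 hZh hZ using hab
  refine ⟨∑ ab, dZ ab, ∏ ab, Z ab, ?_,
    IsHomogeneous.prod _ _ _ fun ab _ => hZh ab, fun f hfq hAf hnc hper htan => ?_⟩
  · intro h
    obtain ⟨ab, _, hab⟩ := (hq.prod_mem_iff).1 h
    exact hZ0 ab hab
  by_contra hZf
  rw [map_prod] at hZf
  have hZab : ∀ ab, aeval f (Z ab) ≠ 0 := fun ab =>
    Finset.prod_ne_zero_iff.mp hZf ab (Finset.mem_univ _)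
  set F : Fin (m + 1) → Ent := fun i => aeval f (P i) with hF
  set G := pull T F with hG
  have hGR : (fun x => aeval f (pullP T P x)) = G := funext fun x => aeval_pullP T P f x
  have hNT : ∀ a b, a ≠ b → NoTr (annI I pk.V) (ε a) (fun i => ε b i - ε a i) G := by
    intro a b _
    have h1 := hZ (a, b) f hfq (hZab (a, b))
    rw [hGR] at h1
    exact h1
  have hFper : ∀ a z, (F a).1 (z + 2 * Real.pi * Complex.I) = (F a).1 z := by
    intro a z
    show (aeval f (P a)).1 _ = (aeval f (P a)).1 _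
    rw [ent_aeval, ent_aeval]
    congr 2
    funext k
    exact hper k z
  have hGnc := pull_nc Ψ F hnc
  have hG0 : G ≠ 0 := by
    intro h0
    obtain ⟨i, i', hne⟩ := hGnc (fun _ => 1) (by
      intro h1
      exact one_ne_zero (congrFun h1 (Sum.inl 0)))
    apply hne
    rw [show pull Ψ.symm.toLinearMap F = 0 from h0]
    rfl
  -- the members of `A` on the curve
  have e1 : ∀ (a : Fin (m + 1) → ℂ) (ζ : ℂ), ∑ x, Ψ a x * (G x).1 ζ = ∑ k, a k * (F k).1 ζ := by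
    intro a ζ
    rw [hG, pull_sum, hTΨ]
  have hqa : ∀ i, ∃ a ∈ A, Ψ a = pk.q i := by
    intro i
    obtain ⟨a', ha', h1⟩ := Finset.mem_image.mp (pk.hqA i)
    exact ⟨a', hA' ha', h1⟩
  have hqG : ∀ i, (∑ x, pk.q i x • G x : Ent) ≠ 0 := by
    intro i h0
    obtain ⟨a', ha', h1⟩ := hqa i
    apply hAf a' ha'
    apply Ent.ext'
    intro z
    rw [ent_sum_apply]
    show ∑ i, a' i * (F i).1 z = 0
    rw [← e1, h1, ← ent_sum_apply, h0]
    rfl
  -- the point `z₂`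
  have hprod : ∏ i, (∑ x, pk.q i x • G x : Ent) ≠ 0 :=
    Finset.prod_ne_zero_iff.mpr fun i _ => hqG i
  obtain ⟨z₂, hz₂⟩ := (Ent.ne_zero_iff _).mp hprod
  have hqz : ∀ i, dt (pk.q i) (fun x => (G x).1 z₂) ≠ 0 := by
    have h1 : (∏ i, (∑ x, pk.q i x • G x : Ent)).1 z₂ =
        ∏ i, dt (pk.q i) (fun x => (G x).1 z₂) := by
      rw [SubmonoidClass.coe_finsetProd, Finset.prod_apply]
      exact Finset.prod_congr rfl fun i _ => ent_sum_apply (pk.q i) G z₂
    rw [h1] at hz₂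
    intro i
    exact Finset.prod_ne_zero_iff.mp hz₂ i (Finset.mem_univ _)
  obtain ⟨d, b₀, hd0, hstar⟩ := star hk hCI pk.V pk.hIV pk.hsat pk.B pk.hinv Q ε hdet G hG0 hNT z₂
  have hqI : ∀ i, ∀ s ∈ I, eval (pk.q i) s = 0 := by
    intro i s hs
    obtain ⟨a', ha', h1⟩ := Finset.mem_image.mp (pk.hqA i)
    rw [← h1]
    exact hzero a' ha' s hs
  have hcardτ : Fintype.card (Fin (k + 1) ⊕ Fin j) = k + 1 + j := by
    rw [Fintype.card_sum, Fintype.card_fin, Fintype.card_fin]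
  refine pkg2 (τ := Fin (k + 1) ⊕ Fin j) pk.q
    (Y := {y : Fin (k + 1) ⊕ Fin j → ℂ // ∀ s ∈ I, eval y s = 0}) (fun y => y.1)
    (fun i y => eval y.1 (pk.Lp i)) pk.K ?_ ?_ pk.hK2 G hGnc hqG (pull_per T F hFper) ?_ ?_
  · rw [hcardτ]
    have : k + 1 + j + 4 = k + j + 5 := by omega
    rw [this]
    exact pk.hcard
  · intro γ hγ h h' y
    exact pk.hK1 γ hγ h h' y.1 y.2
  · intro z₁ c hc hc' γ hγ hγ0 hsupp
    refine lim hCI pk.V pk.hIV pk.hVhom (fun h hh => ?_) pk.q hqI pk.Lp pk.hLV pk.hLd pk.hδ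
      pk.hLq G z₂ hqz d hd0 hstar z₁ c hc hc' γ hγ ?_ hsupp
    · obtain ⟨p, dp, α, h1, _, _, h2⟩ := pk.hinv h hh
      exact ⟨p, α, h1, h2⟩
    · filter_upwards [hγ0] with z hz y hy
      exact hz ⟨y, hy⟩
  · intro i z c hc hc' h5
    obtain ⟨b', hb', hbord⟩ := exists_order_eq (Ac : Set (Fin (k + 1) ⊕ Fin j → ℂ)) hspan' G z c
      hc hc'
    obtain ⟨b₁, hb₁, rfl⟩ := Finset.mem_image.mp (Finset.mem_coe.mp hb')
    obtain ⟨a₁, ha₁, hqa⟩ := Finset.mem_image.mp (pk.hqA i)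
    have e2 : ∀ a : Fin (m + 1) → ℂ, (fun ζ => ∑ x, Ψ a x * (G x).1 ζ) =
        (fun ζ => ∑ k, a k * (F k).1 ζ) := fun a => funext fun ζ => e1 a ζ
    rw [e2] at hbord
    rw [← hqa, e2] at h5
    have h6 := htan a₁ (hA' ha₁) b₁ (hA' hb₁) z c hbord h5 A' hA' (by
      intro x _
      rw [← e2]
      exact GGL.order_linear (Ψ x) (fun k => (G k).1) z (fun k => (Ent.diff (G k)).analyticAt z)
        c hc)
    have := le_max_right M₀ M
    omega

end Pool.Agent.QY
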