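import Pool.Agent.Lib_MP_b9fedf_sq.AbsAll
import Pool.Agent.Lib_MP_b9fedf_qy.SetCaseY

/-! All entire curves in an arbitrary variety tangent to many hypersurfaces, abstract form. -/

set_option autoImplicit false

namespace Pool.Agent.QY
open MvPolynomial Pool.Agent.SQ

/-- the case where no hyperplane contains many points -/
theorem span_case_y (n e m M₀ M eₛ : ℕ) : ∃ N₀ : ℕ,
    ∀ q : Ideal (MvPolynomial (Fin (n + 1)) ℂ), q.IsPrime →
    ∀ P : Fin (m + 1) → MvPolynomial (Fin (n + 1)) ℂ, (∀ i, (P i).IsHomogeneous e) →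
    ∀ A : Finset (Fin (m + 1) → ℂ), PW A → N₀ < A.card →
    (∀ a ∈ A, ∃ s : MvPolynomial (Fin (m + 1)) ℂ, s.IsHomogeneous eₛ ∧ eval a s ≠ 0 ∧
      ExcOn q P s) →
    (∀ h : Fin (m + 1) → ℂ, h ≠ 0 → ∀ A' ⊆ A, (∀ a ∈ A', dt a h = 0) → A'.card ≤ M₀) →
    ∃ (dZ : ℕ) (Z : MvPolynomial (Fin (n + 1)) ℂ), Z ∉ q ∧ Z.IsHomogeneous dZ ∧
    ∀ f : Fin (n + 1) → Ent, (∀ g ∈ q, aeval f g = 0) →
    (∀ a z, (f a).1 (z + 2 * Real.pi * Complex.I) = (f a).1 z) →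
    (∀ a ∈ A, ∀ b ∈ A, ∀ (z : ℂ) (c : ℕ),
      analyticOrderAt (fun ζ => ∑ k, b k * (aeval f (P k)).1 ζ) z = c →
      analyticOrderAt (fun ζ => ∑ k, a k * (aeval f (P k)).1 ζ) z = ((c + 1 : ℕ) : ℕ∞) →
      ∀ A' ⊆ A, (∀ x ∈ A', (c : ℕ∞) ≤ analyticOrderAt
        (fun ζ => ∑ k, x k * (aeval f (P k)).1 ζ) z) → A'.card ≤ M) →
    aeval f Z = 0 ∨ ∃ t : Fin (m + 1) → ℂ, t ≠ 0 ∧ ∀ i i', t i • (aeval f (P i') : Ent) =
      t i' • (aeval f (P i) : Ent) := by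
  classical
  obtain ⟨N₁, hN₁⟩ := set_case_y n e m M₀ M eₛ
  refine ⟨N₁ + M₀, fun q hq P hP A hA hcard hsq hM => ?_⟩
  have hB : ∀ B : Finset (Fin (m + 1) → ℂ), ∃ (dZ : ℕ) (Z : MvPolynomial (Fin (n + 1)) ℂ),
      Z ∉ q ∧ Z.IsHomogeneous dZ ∧ (B ⊆ A → N₁ < B.card →
    ∀ f : Fin (n + 1) → Ent, (∀ g ∈ q, aeval f g = 0) →
    (∀ a ∈ B, (∑ i, a i • aeval f (P i) : Ent) ≠ 0) →
    (∀ t : Fin (m + 1) → ℂ, t ≠ 0 → ∃ i i', t i • (aeval f (P i') : Ent) ≠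
      t i' • (aeval f (P i) : Ent)) →
    (∀ a z, (f a).1 (z + 2 * Real.pi * Complex.I) = (f a).1 z) →
    (∀ a ∈ B, ∀ b ∈ B, ∀ (z : ℂ) (c : ℕ),
      analyticOrderAt (fun ζ => ∑ k, b k * (aeval f (P k)).1 ζ) z = c →
      analyticOrderAt (fun ζ => ∑ k, a k * (aeval f (P k)).1 ζ) z = ((c + 1 : ℕ) : ℕ∞) →
      ∀ A' ⊆ B, (∀ x ∈ A', (c : ℕ∞) ≤ analyticOrderAt
        (fun ζ => ∑ k, x k * (aeval f (P k)).1 ζ) z) → A'.card ≤ M) →
    aeval f Z = 0) := by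
    intro B
    by_cases hBA : B ⊆ A ∧ N₁ < B.card
    · obtain ⟨dZ, Z, h1, h2, h3⟩ := hN₁ q hq P hP B (pw_subset hBA.1 hA) hBA.2
        (fun a ha => hsq a (hBA.1 ha))
        (fun h hh A' hA' h0 => hM h hh A' (hA'.trans hBA.1) h0)
      exact ⟨dZ, Z, h1, h2, fun _ _ => h3⟩
    · exact ⟨0, 1, fun h => hq.ne_top ((Ideal.eq_top_iff_one _).2 h), isHomogeneous_one _ _,
        fun h1 h2 => absurd ⟨h1, h2⟩ hBA⟩
  choose dZ Z hZ0 hZh hZ using hB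
  refine ⟨∑ B ∈ A.powerset, dZ B, ∏ B ∈ A.powerset, Z B, ?_,
    IsHomogeneous.prod _ _ _ fun B _ => hZh B, fun f hfq hper htan => ?_⟩
  · intro h
    obtain ⟨B, _, hB⟩ := (hq.prod_mem_iff).1 h
    exact hZ0 B hB
  by_contra hcon
  push Not at hcon
  obtain ⟨hZf, hnc⟩ := hcon
  set B := A.filter (fun a => (∑ i, a i • aeval f (P i) : Ent) ≠ 0) with hBdef
  have hBA : B ⊆ A := Finset.filter_subset _ _
  -- the curve is not zero
  obtain ⟨i₀, hi₀⟩ : ∃ i, (aeval f (P i) : Ent) ≠ 0 := by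
    by_contra h0
    push Not at h0
    obtain ⟨i, i', hne⟩ := hnc (fun _ => 1) (fun h1 => one_ne_zero (congrFun h1 0))
    apply hne
    rw [h0, h0]
  obtain ⟨z₁, hz₁⟩ := (Ent.ne_zero_iff _).mp hi₀
  have hcard2 : (A.filter (fun a => ¬ (∑ i, a i • aeval f (P i) : Ent) ≠ 0)).card ≤ M₀ := by
    apply hM (fun i => (aeval f (P i)).1 z₁) (fun h0 => hz₁ (congrFun h0 i₀)) _
      (Finset.filter_subset _ _)
    intro a ha
    have h1 := (Finset.mem_filter.mp ha).2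
    push Not at h1
    have h2 := ent_sum_apply a (fun i => aeval f (P i)) z₁
    rw [h1] at h2
    exact h2.symm
  have hcard3 := Finset.card_filter_add_card_filter_not (s := A)
    (fun a => (∑ i, a i • aeval f (P i) : Ent) ≠ 0)
  have hBcard : N₁ < B.card := by
    have : B.card = (A.filter (fun a => (∑ i, a i • aeval f (P i) : Ent) ≠ 0)).card := rfl
    omega
  have h1 := hZ B hBA hBcard f hfq (fun a ha => (Finset.mem_filter.mp ha).2) hnc hper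
    (fun a ha b hb z c h1 h2 A' hA' h3 =>
      htan a (hBA ha) b (hBA hb) z c h1 h2 A' (hA'.trans hBA) h3)
  apply hZf
  rw [map_prod]
  exact Finset.prod_eq_zero (Finset.mem_powerset.mpr hBA) h1

theorem abs_all_y (n e M m eₛ : ℕ) : ∃ N₀ : ℕ,
    ∀ q : Ideal (MvPolynomial (Fin (n + 1)) ℂ), q.IsPrime →
    ∀ P : Fin (m + 1) → MvPolynomial (Fin (n + 1)) ℂ, (∀ i, (P i).IsHomogeneous e) →
    ∀ A : Finset (Fin (m + 1) → ℂ), PW A → N₀ < A.card →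
    (∀ a ∈ A, ∃ s : MvPolynomial (Fin (m + 1)) ℂ, s.IsHomogeneous eₛ ∧ eval a s ≠ 0 ∧
      ExcOn q P s) →
    ∃ (l : ℕ) (T : (Fin (l + 1) → ℂ) →ₗ[ℂ] (Fin (m + 1) → ℂ)) (A₁ : Finset (Fin (m + 1) → ℂ))
      (dZ : ℕ) (Z : MvPolynomial (Fin (n + 1)) ℂ), 1 ≤ l ∧ Function.Injective T ∧
    A₁ ⊆ A ∧ (∀ a ∈ A₁, ∃ v, T v = a) ∧ M < A₁.card ∧ Z ∉ q ∧ Z.IsHomogeneous dZ ∧
    ∀ f : Fin (n + 1) → Ent, (∀ g ∈ q, aeval f g = 0) →
    (∀ a z, (f a).1 (z + 2 * Real.pi * Complex.I) = (f a).1 z) →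
    (∀ a ∈ A, ∀ b ∈ A, ∀ (z : ℂ) (c : ℕ),
      analyticOrderAt (fun ζ => ∑ k, b k * (aeval f (P k)).1 ζ) z = c →
      analyticOrderAt (fun ζ => ∑ k, a k * (aeval f (P k)).1 ζ) z = ((c + 1 : ℕ) : ℕ∞) →
      ∀ A' ⊆ A, (∀ x ∈ A', (c : ℕ∞) ≤ analyticOrderAt
        (fun ζ => ∑ k, x k * (aeval f (P k)).1 ζ) z) → A'.card ≤ M) →
    aeval f Z = 0 ∨ ∃ t : Fin (l + 1) → ℂ, t ≠ 0 ∧ ∀ i i', t i • (aeval f (pullP T P i') : Ent) =
      t i' • (aeval f (pullP T P i) : Ent) := by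
  classical
  induction m with
  | zero =>
    refine ⟨1, fun q hq P hP A hA hcard => ?_⟩
    exact absurd (pw_one hA) (by omega)
  | succ m ih =>
    obtain ⟨M₀, hM₀⟩ := ih
    obtain ⟨N₀, hN₀⟩ := span_case_y n e (m + 1) M₀ M eₛ
    refine ⟨max N₀ M, fun q hq P hP A hA hcard hsq => ?_⟩
    have hc1 := le_max_left N₀ M
    have hc2 := le_max_right N₀ M
    by_cases hcase : ∀ h : Fin (m + 1 + 1) → ℂ, h ≠ 0 → ∀ A' ⊆ A, (∀ a ∈ A', dt a h = 0) →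
        A'.card ≤ M₀
    · obtain ⟨dZ, Z, hZ0, hZh, hZ⟩ := hN₀ q hq P hP A hA (by omega) hsq hcase
      refine ⟨m + 1, LinearMap.id, A, dZ, Z, by omega, Function.injective_id, le_refl A,
        fun a _ => ⟨a, rfl⟩, by omega, hZ0, hZh, ?_⟩
      intro f hfq hper htan
      rw [pullP_id]
      exact hZ f hfq hper htan
    push Not at hcase
    obtain ⟨h, hh, A₁, hA₁, hA₁h, hA₁card⟩ := hcase
    obtain ⟨T, hT, hTr⟩ := exists_hyper m h hh
    set A₂ : Finset (Fin (m + 1) → ℂ) := A₁.preimage T hT.injOn with hA₂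
    have hA₂mem : ∀ v ∈ A₂, T v ∈ A₁ := fun v hv => Finset.mem_preimage.mp hv
    have himg : A₂.image T = A₁ := by
      rw [hA₂, Finset.image_preimage]
      apply Finset.filter_true_of_mem
      intro a ha
      exact hTr a (hA₁h a ha)
    have hcard₂ : A₂.card = A₁.card := by
      rw [← himg, Finset.card_image_of_injective _ hT]
    have hPW : PW A₂ := by
      intro a ha
      have h1 := hA (T a) (hA₁ (hA₂mem a ha))
      refine ⟨?_, ?_⟩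
      · rintro rfl
        exact h1.1 (map_zero T)
      · intro b hb hab
        have h2 := h1.2 (T b) (hA₁ (hA₂mem b hb)) (fun h3 => hab (hT h3))
        apply LinearIndependent.of_comp T
        convert h2 using 1
        funext i
        fin_cases i <;> rfl
    obtain ⟨l, T₂, A₃, dZ, Z, hl, hT₂, hA₃, hA₃r, hA₃card, hZ0, hZh, hZ⟩ :=
      hM₀ q hq (pullP T P) (pullP_hom T P hP) A₂ hPW (by omega) (by
      intro a ha
      obtain ⟨s, hs1, hs2, hs3⟩ := hsq _ (hA₁ (hA₂mem a ha))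
      exact ⟨subs T s, subs_hom T hs1, by rw [eval_subs]; exact hs2, excOn_pull T hs3⟩)
    refine ⟨l, T.comp T₂, A₃.image T, dZ, Z, hl, hT.comp hT₂, ?_, ?_, ?_, hZ0, hZh, ?_⟩
    · intro a ha
      obtain ⟨v, hv, rfl⟩ := Finset.mem_image.mp ha
      exact hA₁ (hA₂mem v (hA₃ hv))
    · intro a ha
      obtain ⟨v, hv, rfl⟩ := Finset.mem_image.mp ha
      obtain ⟨w, rfl⟩ := hA₃r v hv
      exact ⟨w, rfl⟩
    · rw [Finset.card_image_of_injective _ hT]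
      exact hA₃card
    intro f hfq hper htan
    rw [pullP_comp]
    refine hZ f hfq hper ?_
    intro a ha b hb z c
    have h1 := htan (T a) (hA₁ (hA₂mem a ha)) (T b) (hA₁ (hA₂mem b hb)) z c
    have e1 : ∀ a : Fin (m + 1) → ℂ, (fun ζ => ∑ k, a k * (aeval f (pullP T P k)).1 ζ) =
        (fun ζ => ∑ k, T a k * (aeval f (P k)).1 ζ) := by
      intro a
      funext ζ
      simp only [aeval_pullP]
      rw [pull_sum]
    rw [e1, e1]
    intro h2 h3 A' hA' h4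
    have h5 := h1 h2 h3 (A'.image T) (by
      intro x hx
      obtain ⟨y, hy, rfl⟩ := Finset.mem_image.mp hx
      exact hA₁ (hA₂mem y (hA' hy))) (by
      intro x hx
      obtain ⟨y, hy, rfl⟩ := Finset.mem_image.mp hx
      rw [← e1]
      exact h4 y hy)
    rwa [Finset.card_image_of_injective _ hT] at h5

end Pool.Agent.QY
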