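import Pool.Agent.Lib_MP_b9fedf_qy.DefsY
import Pool.Agent.Lib_MP_b9fedf_sq.EntDom

/-! Piece Y12: an entire curve in the cone `V(q)` whose image under a finite map is a point is
constant. -/

set_option autoImplicit false

namespace Pool.Agent.QY
open MvPolynomial Pool.Agent.SQ Filter Topology

private theorem hom_eval_FMY {n e : ℕ} {P : MvPolynomial (Fin (n + 1)) ℂ}
    (hP : P.IsHomogeneous e) (r : ℂ) (u : Fin (n + 1) → ℂ) :
    eval (fun i => r * u i) P = r ^ e * eval u P := by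
  rw [eval_eq', eval_eq', Finset.mul_sum]
  refine Finset.sum_congr rfl fun d hd => ?_
  have h1 : ∑ i, d i = e := by
    by_contra hne
    have h2 : d.degree ≠ e := by
      rw [Finsupp.degree_eq_sum]
      exact hne
    exact (mem_support_iff.mp hd) (hP.coeff_eq_zero h2)
  have h3 : ∏ i, (r * u i) ^ d i = r ^ e * ∏ i, u i ^ d i := by
    rw [← h1, ← Finset.prod_pow_eq_pow_sum, ← Finset.prod_mul_distrib]
    exact Finset.prod_congr rfl fun i _ => mul_pow _ _ _
  rw [h3]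
  ring

/-- The zero set of a homogeneous ideal is a cone. -/
private theorem cone_FMY {n : ℕ} {q : Ideal (MvPolynomial (Fin (n + 1)) ℂ)} (hq : HomI q)
    (r : ℂ) (u : Fin (n + 1) → ℂ) (hu : ∀ g ∈ q, eval u g = 0) :
    ∀ g ∈ q, eval (fun i => r * u i) g = 0 := by
  intro g hg
  rw [← sum_homogeneousComponent g, map_sum]
  refine Finset.sum_eq_zero fun d _ => ?_
  rw [hom_eval_FMY (homogeneousComponent_isHomogeneous d g) r u, hu _ (hq g hg d), mul_zero]

/-- The values of a finite map on the cone are bounded from below. -/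
private theorem lower_FMY {n e : ℕ} (he : 1 ≤ e) {ι : Type} [Fintype ι]
    (q : Ideal (MvPolynomial (Fin (n + 1)) ℂ)) (hq : HomI q)
    (P : ι → MvPolynomial (Fin (n + 1)) ℂ) (hP : ∀ i, (P i).IsHomogeneous e)
    (h0 : ∀ x : Fin (n + 1) → ℂ, (∀ g ∈ q, eval x g = 0) → (∀ i, eval x (P i) = 0) → x = 0) :
    ∃ m : ℝ, 0 < m ∧ ∀ x : Fin (n + 1) → ℂ, (∀ g ∈ q, eval x g = 0) →
      m * ‖x‖ ^ e ≤ ∑ i, ‖eval x (P i)‖ := by
  have hc : Continuous (fun x : Fin (n + 1) → ℂ => ∑ i, ‖eval x (P i)‖) :=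
    continuous_finsetSum _ fun i _ => (MvPolynomial.continuous_eval (P i)).norm
  let V : Set (Fin (n + 1) → ℂ) := {x | ∀ g ∈ q, eval x g = 0}
  have hV : IsClosed V := by
    have h1 : V = ⋂ g ∈ q, {x | eval x g = 0} := by
      ext x
      simp [V]
    rw [h1]
    exact isClosed_biInter fun g _ =>
      isClosed_eq (MvPolynomial.continuous_eval g) continuous_const
  have hK : IsCompact (Metric.sphere (0 : Fin (n + 1) → ℂ) 1 ∩ V) :=
    (isCompact_sphere (0 : Fin (n + 1) → ℂ) 1).inter_right hV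
  have hunit : ∀ x : Fin (n + 1) → ℂ, x ≠ 0 → x ∈ V →
      ∃ u ∈ Metric.sphere (0 : Fin (n + 1) → ℂ) 1 ∩ V,
        x = fun i => ((‖x‖ : ℝ) : ℂ) * u i := by
    intro x hx hxV
    have hx1 : ‖x‖ ≠ 0 := norm_ne_zero_iff.mpr hx
    have hxC : ((‖x‖ : ℝ) : ℂ) ≠ 0 := Complex.ofReal_ne_zero.mpr hx1
    let u : Fin (n + 1) → ℂ := fun i => ((‖x‖ : ℝ) : ℂ)⁻¹ * x i
    have hu : u = ((‖x‖ : ℝ) : ℂ)⁻¹ • x := rfl
    have hu1 : ‖u‖ = 1 := by
      rw [hu, norm_smul, norm_inv, Complex.norm_real, norm_norm, inv_mul_cancel₀ hx1]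
    refine ⟨u, ⟨mem_sphere_zero_iff_norm.mpr hu1, cone_FMY hq _ x hxV⟩, ?_⟩
    funext i
    show x i = ((‖x‖ : ℝ) : ℂ) * (((‖x‖ : ℝ) : ℂ)⁻¹ * x i)
    rw [mul_inv_cancel_left₀ hxC]
  rcases (Metric.sphere (0 : Fin (n + 1) → ℂ) 1 ∩ V).eq_empty_or_nonempty with hS | hS
  · refine ⟨1, one_pos, fun x hx => ?_⟩
    have hx0 : x = 0 := by
      by_contra hne
      obtain ⟨u, hu, _⟩ := hunit x hne hx
      rw [hS] at hu
      exact hu
    rw [hx0, norm_zero, zero_pow (by omega), mul_zero]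
    exact Finset.sum_nonneg fun i _ => norm_nonneg _
  obtain ⟨x₀, hx₀, hmin⟩ := hK.exists_isMinOn hS hc.continuousOn
  refine ⟨∑ i, ‖eval x₀ (P i)‖, ?_, ?_⟩
  · have hnn : 0 ≤ ∑ i, ‖eval x₀ (P i)‖ := Finset.sum_nonneg fun i _ => norm_nonneg _
    refine lt_of_le_of_ne hnn fun h => ?_
    have h1 := (Finset.sum_eq_zero_iff_of_nonneg (fun i _ => norm_nonneg _)).mp h.symm
    have h2 : x₀ = 0 := h0 x₀ hx₀.2 fun i => norm_eq_zero.mp (h1 i (Finset.mem_univ i))
    have h3 := hx₀.1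
    rw [h2, mem_sphere_zero_iff_norm, norm_zero] at h3
    exact zero_ne_one h3
  · intro x hxV
    by_cases hx : x = 0
    · rw [hx, norm_zero, zero_pow (by omega), mul_zero]
      exact Finset.sum_nonneg fun i _ => norm_nonneg _
    · obtain ⟨u, hu, hxu⟩ := hunit x hx hxV
      have h1 : ∑ i, ‖eval x (P i)‖ = ‖x‖ ^ e * ∑ i, ‖eval u (P i)‖ := by
        rw [Finset.mul_sum]
        refine Finset.sum_congr rfl fun i _ => ?_
        conv_lhs => rw [hxu]
        rw [hom_eval_FMY (hP i), norm_mul, norm_pow, Complex.norm_real, norm_norm]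
      rw [h1, mul_comm]
      refine mul_le_mul_of_nonneg_left ?_ (by positivity)
      exact hmin hu

/-- Riemann and Liouville. -/
private theorem liou_FMY {h G : ℂ → ℂ} (hh : Differentiable ℂ h) (hG : Differentiable ℂ G)
    (hG0 : ∃ z, G z ≠ 0) (C : ℝ) (hb : ∀ z, ‖h z‖ ≤ C * ‖G z‖) :
    ∃ c : ℂ, ∀ z, h z = c * G z := by
  have hGan : AnalyticOnNhd ℂ G Set.univ := hG.differentiableOn.analyticOnNhd isOpen_univ
  have hiso : ∀ z₀, ∀ᶠ w in 𝓝[≠] z₀, G w ≠ 0 := by
    intro z₀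
    rcases (hGan z₀ (Set.mem_univ _)).eventually_eq_zero_or_eventually_ne_zero with h1 | h1
    · exfalso
      obtain ⟨z, hz⟩ := hG0
      have h2 : AnalyticOnNhd ℂ (0 : ℂ → ℂ) Set.univ := analyticOnNhd_const
      have h3 : G = 0 := hGan.eq_of_eventuallyEq h2 h1
      exact hz (congrFun h3 z)
    · exact h1
  let g : ℂ → ℂ := fun w => h w / G w
  let q : ℂ → ℂ := fun z => limUnder (𝓝[≠] z) g
  have hgC : ∀ w, G w ≠ 0 → ‖g w‖ ≤ C := by
    intro w hw
    show ‖h w / G w‖ ≤ C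
    rw [norm_div, div_le_iff₀ (norm_pos_iff.mpr hw)]
    exact hb w
  have hqg : ∀ w, G w ≠ 0 → q w = g w := by
    intro w hw
    have h1 : ContinuousAt g w := (hh w).continuousAt.div (hG w).continuousAt hw
    exact (h1.tendsto.mono_left nhdsWithin_le_nhds).limUnder_eq
  have hqd : Differentiable ℂ q := by
    intro z₀
    obtain ⟨s, hs, hs2⟩ : ∃ s ∈ 𝓝 z₀, ∀ w ∈ s \ {z₀}, G w ≠ 0 := by
      obtain ⟨s, hs, hs2⟩ := mem_nhdsWithin_iff_exists_mem_nhds_inter.mp (hiso z₀)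
      exact ⟨s, hs, fun w hw => hs2 ⟨hw.1, hw.2⟩⟩
    have h1 : DifferentiableOn ℂ g (s \ {z₀}) := fun w hw =>
      ((hh w).div (hG w) (hs2 w hw)).differentiableWithinAt
    have h2 : BddAbove (norm ∘ g '' (s \ {z₀})) := by
      refine ⟨C, ?_⟩
      rintro x ⟨w, hw, rfl⟩
      exact hgC w (hs2 w hw)
    have h3 := Complex.differentiableOn_update_limUnder_of_bddAbove hs h1 h2
    have h4 : DifferentiableAt ℂ (Function.update g z₀ (limUnder (𝓝[≠] z₀) g)) z₀ :=
      h3.differentiableAt hs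
    refine h4.congr_of_eventuallyEq ?_
    filter_upwards [hs] with w hw
    by_cases hwz : w = z₀
    · rw [hwz, Function.update_self]
    · rw [Function.update_of_ne hwz]
      exact hqg w (hs2 w ⟨hw, hwz⟩)
  have hqC : ∀ z, ‖q z‖ ≤ C := by
    intro z
    have h1 : Tendsto (fun w => ‖q w‖) (𝓝[≠] z) (𝓝 ‖q z‖) :=
      ((hqd z).continuousAt.norm.tendsto).mono_left nhdsWithin_le_nhds
    refine le_of_tendsto h1 ?_
    filter_upwards [hiso z] with w hw
    rw [hqg w hw]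
    exact hgC w hw
  obtain ⟨c, hc⟩ := hqd.exists_const_forall_eq_of_bounded (by
    rw [isBounded_iff_forall_norm_le]
    refine ⟨C, ?_⟩
    rintro x ⟨z, rfl⟩
    exact hqC z)
  refine ⟨c, fun z => ?_⟩
  by_cases hz : G z = 0
  · have h1 := hb z
    rw [hz, norm_zero, mul_zero] at h1
    rw [hz, mul_zero]
    exact norm_le_zero_iff.mp h1
  · have h1 := hqg z hz
    rw [hc z] at h1
    rw [h1]
    exact (div_mul_cancel₀ _ hz).symm

/-- An entire function whose power is a constant multiple of the power of another one. -/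
private theorem root_FMY {e : ℕ} (he : 1 ≤ e) {f g : ℂ → ℂ} (hf : Differentiable ℂ f)
    (hg : Differentiable ℂ g) (c : ℂ) (h : ∀ z, f z ^ e = c * g z ^ e) :
    ∃ μ : ℂ, ∀ z, f z = μ * g z := by
  classical
  have hp : (Polynomial.X ^ e - Polynomial.C c : Polynomial ℂ) ≠ 0 :=
    Polynomial.X_pow_sub_C_ne_zero (by omega) c
  let S : Finset ℂ := (Polynomial.X ^ e - Polynomial.C c : Polynomial ℂ).roots.toFinset
  have hS : ∀ μ : ℂ, μ ^ e = c → μ ∈ S := by
    intro μ hμ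
    rw [Multiset.mem_toFinset, Polynomial.mem_roots hp, Polynomial.IsRoot.def,
      Polynomial.eval_sub, Polynomial.eval_pow, Polynomial.eval_X, Polynomial.eval_C, hμ, sub_self]
  obtain ⟨μ₀, hμ₀⟩ : ∃ μ : ℂ, μ ^ e = c := by
    obtain ⟨μ, hμ⟩ := IsAlgClosed.exists_pow_nat_eq c (show 0 < e by omega)
    exact ⟨μ, hμ⟩
  let F : Ent := ⟨f, hf⟩
  let G : Ent := ⟨g, hg⟩
  have hev : ∀ (T : Finset ℂ) (z : ℂ), (∏ μ ∈ T, (F - algebraMap ℂ Ent μ * G)).1 z =
      ∏ μ ∈ T, (f z - μ * g z) := by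
    intro T z
    induction T using Finset.induction_on with
    | empty => rfl
    | insert a T ha ih =>
      rw [Finset.prod_insert ha, Finset.prod_insert ha, ← ih]
      rfl
  have hz : ∏ μ ∈ S, (F - algebraMap ℂ Ent μ * G) = 0 := by
    apply Ent.ext'
    intro z
    rw [hev]
    show _ = (0 : ℂ)
    by_cases hgz : g z = 0
    · have h1 : f z = 0 := by
        have h2 := h z
        rw [hgz, zero_pow (by omega), mul_zero] at h2
        exact pow_eq_zero_iff (by omega) |>.mp h2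
      refine Finset.prod_eq_zero (hS μ₀ hμ₀) ?_
      rw [h1, hgz, mul_zero, sub_zero]
    · refine Finset.prod_eq_zero (hS (f z / g z) ?_) ?_
      · rw [div_pow, h z, mul_div_cancel_right₀ _ (pow_ne_zero e hgz)]
      · rw [div_mul_cancel₀ _ hgz, sub_self]
  obtain ⟨μ, _, hμ⟩ := Finset.prod_eq_zero_iff.mp hz
  refine ⟨μ, fun z => ?_⟩
  have h1 := congrFun (congrArg Subtype.val hμ) z
  have h2 : f z - μ * g z = 0 := h1
  exact sub_eq_zero.mp h2

/-- PIECE Y12 -/
theorem finite_map_y {n e : ℕ} (he : 1 ≤ e) {ι : Type} [Fintype ι]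
    (q : Ideal (MvPolynomial (Fin (n + 1)) ℂ)) (hq : HomI q)
    (P : ι → MvPolynomial (Fin (n + 1)) ℂ) (hP : ∀ i, (P i).IsHomogeneous e)
    (h0 : ∀ x : Fin (n + 1) → ℂ, (∀ g ∈ q, eval x g = 0) → (∀ i, eval x (P i) = 0) → x = 0)
    (f : Fin (n + 1) → ℂ → ℂ) (hf : ∀ k, Differentiable ℂ (f k))
    (hfq : ∀ g ∈ q, ∀ z, eval (fun k => f k z) g = 0) (t : ι → ℂ) (ht : t ≠ 0)
    (hft : ∀ z i i', t i * eval (fun k => f k z) (P i') = t i' * eval (fun k => f k z) (P i)) :
    ∃ v : Fin (n + 1) → ℂ, v ≠ 0 ∧ ∀ z i j, v i * f j z = v j * f i z := by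
  classical
  obtain ⟨m, hm, hlow⟩ := lower_FMY he q hq P hP h0
  obtain ⟨i₀, hi₀⟩ : ∃ i, t i ≠ 0 := by
    by_contra hn
    push Not at hn
    exact ht (funext hn)
  let G : ℂ → ℂ := fun z => eval (fun k => f k z) (P i₀)
  have hGd : Differentiable ℂ G := by
    have h1 : G = fun z => ∑ d ∈ (P i₀).support, (P i₀).coeff d * ∏ i, f i z ^ d i := by
      funext z
      exact eval_eq' _ _
    rw [h1]
    exact Differentiable.fun_sum fun d _ => (Differentiable.fun_finsetProd fun i _ =>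
      (hf i).pow _).const_mul _
  have hPG : ∀ z i, eval (fun k => f k z) (P i) = t i / t i₀ * G z := by
    intro z i
    have h1 := hft z i₀ i
    show _ = t i / t i₀ * eval (fun k => f k z) (P i₀)
    field_simp
    linear_combination h1
  have hbd : ∀ k z, ‖f k z ^ e‖ ≤ ((∑ i, ‖t i / t i₀‖) / m) * ‖G z‖ := by
    intro k z
    have h1 := hlow (fun k => f k z) (fun g hg => hfq g hg z)
    have h2 : ∑ i, ‖eval (fun k => f k z) (P i)‖ = (∑ i, ‖t i / t i₀‖) * ‖G z‖ := by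
      rw [Finset.sum_mul]
      refine Finset.sum_congr rfl fun i _ => ?_
      rw [hPG, norm_mul]
    rw [h2] at h1
    have h3 : ‖f k z‖ ≤ ‖fun k => f k z‖ := norm_le_pi_norm (fun k => f k z) k
    have h4 : ‖f k z ^ e‖ ≤ ‖fun k => f k z‖ ^ e := by
      rw [norm_pow]
      exact pow_le_pow_left₀ (norm_nonneg _) h3 e
    rw [div_mul_eq_mul_div, le_div_iff₀ hm, mul_comm]
    exact (mul_le_mul_of_nonneg_left h4 hm.le).trans h1
  by_cases hf0 : ∀ k z, f k z = 0
  · refine ⟨fun _ => 1, ?_, fun z i j => by rw [hf0, hf0]⟩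
    intro h
    exact one_ne_zero (congrFun h 0)
  · push Not at hf0
    obtain ⟨l, z₁, hl⟩ := hf0
    have hG0 : ∃ z, G z ≠ 0 := by
      refine ⟨z₁, fun h => ?_⟩
      have h1 := hbd l z₁
      rw [h, norm_zero, mul_zero] at h1
      exact pow_ne_zero e hl (norm_le_zero_iff.mp h1)
    have hk : ∀ k, ∃ c : ℂ, ∀ z, f k z ^ e = c * G z := fun k =>
      liou_FMY ((hf k).pow e) hGd hG0 _ (hbd k)
    choose c hc using hk
    have hcl : c l ≠ 0 := by
      intro h
      have h1 := hc l z₁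
      rw [h, zero_mul] at h1
      exact pow_ne_zero e hl h1
    have hk2 : ∀ k, ∃ μ : ℂ, ∀ z, f k z = μ * f l z := by
      intro k
      refine root_FMY he (hf k) (hf l) (c k / c l) fun z => ?_
      rw [hc k z, hc l z, ← mul_assoc, div_mul_cancel₀ _ hcl]
    choose v hv using hk2
    refine ⟨v, ?_, fun z i j => ?_⟩
    · intro h
      have h1 := hv l z₁
      rw [h] at h1
      apply hl
      rw [h1]
      exact zero_mul _
    · rw [hv j z, hv i z]
      ring

end Pool.Agent.QY
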