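import Pool.Agent.Lib_MP_b9fedf_qy.DefsY
import Pool.Agent.Lib_MP_b9fedf_sq.EntDom

/-! The alternative for holomorphic maps from vector spaces. -/

set_option autoImplicit false

namespace Pool.Agent.QY
open MvPolynomial Pool.Agent.SQ

/-- the quadrics are squares along the curve -/
def Mult {n : ℕ} {ι : Type} [Fintype ι] (g : ι → MvPolynomial (Fin (n + 1)) ℂ)
    (a : ℕ → Fin (n + 1) ⊕ ι → ℂ) (K : ℕ) (f : Fin (n + 1) → ℂ → ℂ) : Prop :=
  ∀ j < K, ∃ y : ℂ → ℂ, Differentiable ℂ y ∧ ∀ z, y z ^ 2 = eval (fun k => f k z) (qd g (a j))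

theorem mul_zero_ent (u v : ℂ → ℂ) (hu : Differentiable ℂ u) (hv : Differentiable ℂ v)
    (h : ∀ z, u z * v z = 0) : (∀ z, u z = 0) ∨ ∀ z, v z = 0 := by
  have h1 : (⟨u, hu⟩ : Ent) * ⟨v, hv⟩ = 0 := Ent.ext' fun z => h z
  rcases mul_eq_zero.mp h1 with h2 | h2
  · left
    intro z
    exact congrFun (congrArg Subtype.val h2) z
  · right
    intro z
    exact congrFun (congrArg Subtype.val h2) z

theorem line_diff {E V : Type} [NormedAddCommGroup E] [NormedSpace ℂ E] [NormedAddCommGroup V]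
    [NormedSpace ℂ V] (u : E → V) (hu : Differentiable ℂ u) (a b : E) :
    Differentiable ℂ (fun t : ℂ => u (a + t • (b - a))) := by
  apply hu.comp
  exact (differentiable_const a).add (differentiable_id.smul_const (b - a))

theorem mul_zero_E {E : Type} [NormedAddCommGroup E] [NormedSpace ℂ E] (u v : E → ℂ)
    (hu : Differentiable ℂ u) (hv : Differentiable ℂ v)
    (h : ∀ z, u z * v z = 0) : (∀ z, u z = 0) ∨ ∀ z, v z = 0 := by
  by_contra hcon
  push Not at hcon
  obtain ⟨⟨a, ha⟩, b, hb⟩ := hcon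
  rcases mul_zero_ent _ _ (line_diff u hu a b) (line_diff v hv a b) (fun t => h _) with h1 | h1
  · have := h1 0
    simp only [zero_smul, add_zero] at this
    exact ha this
  · have := h1 1
    simp only [one_smul, add_sub_cancel] at this
    exact hb this

/-- sign of a square root -/
theorem sign_E {E : Type} [NormedAddCommGroup E] [NormedSpace ℂ E] (u v : E → ℂ)
    (hu : Differentiable ℂ u) (hv : Differentiable ℂ v)
    (h : ∀ z, u z ^ 2 = v z ^ 2) : ∃ ε : ℂ, (ε = 1 ∨ ε = -1) ∧ ∀ z, u z = ε * v z := by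
  rcases mul_zero_E (fun z => u z - v z) (fun z => u z + v z) (hu.sub hv) (hu.add hv) (fun z => by
    have := h z
    linear_combination this) with h1 | h1
  · exact ⟨1, Or.inl rfl, fun z => by rw [one_mul]; exact sub_eq_zero.mp (h1 z)⟩
  · exact ⟨-1, Or.inr rfl, fun z => by linear_combination h1 z⟩

theorem qd_eval {n : ℕ} {ι : Type} [Fintype ι] (g : ι → MvPolynomial (Fin (n + 1)) ℂ)
    (a : Fin (n + 1) ⊕ ι → ℂ) (x : Fin (n + 1) → ℂ) :
    eval x (qd g a) = (∑ i, a (Sum.inl i) * x i) ^ 2 + ∑ i, a (Sum.inr i) * eval x (g i) := by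
  unfold qd lin
  simp only [map_add, map_sum, map_mul, map_pow, eval_C, eval_X]

theorem hom_smul {τ : Type} {d : ℕ} (Q : MvPolynomial τ ℂ) (hQ : Q.IsHomogeneous d) (c : ℂ)
    (x : τ → ℂ) : eval (c • x) Q = c ^ d * eval x Q := by
  rw [eval_eq, eval_eq, Finset.mul_sum]
  refine Finset.sum_congr rfl fun m hm => ?_
  have h1 := hQ (mem_support_iff.mp hm)
  have h2 : ∑ i ∈ m.support, m i = d := by
    rw [← h1, Finsupp.weight_apply, Finsupp.sum]
    simp
  simp only [Pi.smul_apply, smul_eq_mul, mul_pow]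
  rw [Finset.prod_mul_distrib, Finset.prod_pow_eq_pow_sum, h2]
  ring

theorem alt_line {N K : ℕ} {ι : Type} [Fintype ι] (g : ι → MvPolynomial (Fin (N + 1)) ℂ)
    (hg : ∀ a, (qd g a).IsHomogeneous 2) (a : ℕ → Fin (N + 1) ⊕ ι → ℂ)
    (hc : ∀ f : Fin (N + 1) → ℂ → ℂ, (∀ k, Differentiable ℂ (f k)) → Mult g a K f →
        (∃ v : Fin (N + 1) → ℂ, v ≠ 0 ∧ ∀ z i j, v i * f j z = v j * f i z) ∨
        ∀ z i, eval (fun k => f k z) (g i) = 0)
    (h : ℂ → Fin (N + 1) → ℂ) (y : ℂ → Fin K → ℂ) (hh : Differentiable ℂ h)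
    (hy : Differentiable ℂ y) (h0 : ∀ z, ¬ (h z = 0 ∧ y z = 0))
    (hF : ∀ z j, y z j ^ 2 = eval (h z) (qd g (a j))) :
    (∀ z w, ∃ c : ℂ, h w = c • h z ∧ y w = c • y z) ∨ ∀ z i, eval (h z) (g i) = 0 := by
  have hhd : ∀ k, Differentiable ℂ (fun z => h z k) := differentiable_pi.mp hh
  have hyd : ∀ j, Differentiable ℂ (fun z => y z j) := differentiable_pi.mp hy
  have hh0 : ∀ z, h z ≠ 0 := by
    intro z hz
    refine h0 z ⟨hz, ?_⟩
    funext j
    have h1 := hF z j
    rw [hz] at h1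
    have h2 := hom_smul (qd g (a j)) (hg _) 0 (0 : Fin (N + 1) → ℂ)
    rw [smul_zero, zero_pow two_ne_zero, zero_mul] at h2
    rw [h2] at h1
    exact pow_eq_zero_iff two_ne_zero |>.1 h1
  rcases hc (fun k z => h z k) hhd (fun j hj => ⟨fun z => y z ⟨j, hj⟩, hyd _, fun z => hF z ⟨j, hj⟩⟩)
    with ⟨v, hv, hv2⟩ | h1
  · left
    obtain ⟨i₀, hi₀⟩ := Function.ne_iff.mp hv
    simp only [Pi.zero_apply] at hi₀
    set c : ℂ → ℂ := fun z => h z i₀ / v i₀ with hcdef
    have hcd : Differentiable ℂ c := (hhd i₀).div_const _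
    have hcv : ∀ z, h z = c z • v := by
      intro z
      funext j
      rw [Pi.smul_apply, smul_eq_mul, hcdef]
      have := hv2 z i₀ j
      field_simp
      linear_combination this
    have hc0 : ∀ z, c z ≠ 0 := by
      intro z hz
      apply hh0 z
      rw [hcv, hz, zero_smul]
    have hκ : ∀ j, ∃ κ : ℂ, ∀ z, y z j = κ * c z := by
      intro j
      obtain ⟨κ, hκ⟩ := IsAlgClosed.exists_pow_nat_eq (eval v (qd g (a j))) (n := 2) (by norm_num)
      obtain ⟨ε, hε, hε2⟩ := sign_E (fun z => y z j) (fun z => κ * c z) (hyd j)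
        (hcd.const_mul κ) (fun z => by
          have h3 := hF z j
          rw [hcv z, hom_smul _ (hg _), ← hκ] at h3
          rw [h3]
          ring)
      exact ⟨ε * κ, fun z => by rw [hε2 z]; ring⟩
    choose κ hκ using hκ
    intro z w
    refine ⟨c w / c z, ?_, ?_⟩
    · rw [hcv w, hcv z, smul_smul, div_mul_cancel₀ _ (hc0 z)]
    · funext j
      rw [Pi.smul_apply, smul_eq_mul, hκ j w, hκ j z]
      have := hc0 z
      field_simp
  · right
    exact h1

theorem alt_E {N K : ℕ} {ι : Type} [Fintype ι] (g : ι → MvPolynomial (Fin (N + 1)) ℂ)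
    (hg : ∀ a, (qd g a).IsHomogeneous 2) (a : ℕ → Fin (N + 1) ⊕ ι → ℂ)
    (hc : ∀ f : Fin (N + 1) → ℂ → ℂ, (∀ k, Differentiable ℂ (f k)) → Mult g a K f →
        (∃ v : Fin (N + 1) → ℂ, v ≠ 0 ∧ ∀ z i j, v i * f j z = v j * f i z) ∨
        ∀ z i, eval (fun k => f k z) (g i) = 0)
    {E : Type} [NormedAddCommGroup E] [NormedSpace ℂ E]
    (h : E → Fin (N + 1) → ℂ) (y : E → Fin K → ℂ) (hh : Differentiable ℂ h)
    (hy : Differentiable ℂ y) (h0 : ∀ z, ¬ (h z = 0 ∧ y z = 0))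
    (hF : ∀ z j, y z j ^ 2 = eval (h z) (qd g (a j))) :
    (∀ z w, ∃ c : ℂ, h w = c • h z ∧ y w = c • y z) ∨
      ((∀ z i, eval (h z) (g i) = 0) ∧ ∃ ε : Fin K → ℂ, (∀ j, ε j = 1 ∨ ε j = -1) ∧
        ∀ z j, y z j = ε j * ∑ i, a j (Sum.inl i) * h z i) := by
  have hhd : ∀ k, Differentiable ℂ (fun z => h z k) := differentiable_pi.mp hh
  have hyd : ∀ j, Differentiable ℂ (fun z => y z j) := differentiable_pi.mp hy
  by_cases hconst : ∀ z w, ∃ c : ℂ, h w = c • h z ∧ y w = c • y z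
  · exact Or.inl hconst
  right
  push Not at hconst
  obtain ⟨z₀, w₀, hzw⟩ := hconst
  -- the alternative on lines
  have hl : ∀ z w, (∃ c : ℂ, h w = c • h z ∧ y w = c • y z) ∨ ∀ i, eval (h z) (g i) = 0 := by
    intro z w
    rcases alt_line g hg a hc (fun t => h (z + t • (w - z))) (fun t => y (z + t • (w - z)))
      (line_diff h hh z w) (line_diff y hy z w) (fun t => h0 _) (fun t j => hF _ j) with h1 | h1
    · left
      have h2 := h1 0 1
      simpa only [zero_smul, add_zero, one_smul, add_sub_cancel] using h2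
    · right
      have h2 := h1 0
      simpa only [zero_smul, add_zero] using h2
  have hgz : ∀ z i, eval (h z) (g i) = 0 := by
    intro z
    rcases hl z z₀ with ⟨c, hc1, hc2⟩ | h1
    · rcases hl z w₀ with ⟨c', hc1', hc2'⟩ | h1
      · exfalso
        have hc0 : c ≠ 0 := by
          intro hc0
          apply h0 z₀
          rw [hc1, hc2, hc0, zero_smul, zero_smul]
          exact ⟨rfl, rfl⟩
        apply hzw (c' / c)
        · rw [hc1', hc1, smul_smul, div_mul_cancel₀ _ hc0]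
        · rw [hc2', hc2, smul_smul, div_mul_cancel₀ _ hc0]
      · exact h1
    · exact h1
  refine ⟨hgz, ?_⟩
  have hs : ∀ j : Fin K, ∃ ε : ℂ, (ε = 1 ∨ ε = -1) ∧
      ∀ z, y z j = ε * ∑ i, a j (Sum.inl i) * h z i := by
    intro j
    refine sign_E (fun z => y z j) (fun z => ∑ i, a j (Sum.inl i) * h z i) (hyd j) ?_ ?_
    · exact Differentiable.fun_sum fun i _ => (hhd i).const_mul _
    · intro z
      show y z j ^ 2 = _
      rw [hF z j, qd_eval]
      rw [Finset.sum_eq_zero (s := Finset.univ) (f := fun i => a j (Sum.inr i) * eval (h z) (g i))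
        fun i _ => by rw [hgz z i, mul_zero], add_zero]
  choose ε hε hε2 using hs
  exact ⟨ε, hε, fun z j => hε2 j z⟩

end Pool.Agent.QY
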