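import Pool.Agent.Lib_MP_b9fedf_qy.ElimY

set_option autoImplicit false

namespace Pool.Agent.QY
open MvPolynomial Pool.Agent.SQ

private abbrev IxC {n : ℕ} (q : Ideal (MvPolynomial (Fin (n + 1)) ℂ)) (r c : ℕ) : Type :=
  ((q × ℕ) ⊕ Unit) ⊕ (Fin r ⊕ Fin c)

private noncomputable def FC {n r c : ℕ} {τ : Type} [Fintype τ]
    (q : Ideal (MvPolynomial (Fin (n + 1)) ℂ)) (P : τ → MvPolynomial (Fin (n + 1)) ℂ)
    (P' : Fin r → τ → MvPolynomial (Fin (n + 1)) ℂ) (ℓ : Fin c → Fin (n + 1) → ℂ) :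
    IxC q r c → MvPolynomial (Fin (n + 1)) (MvPolynomial τ ℂ)
  | Sum.inl (Sum.inl g) => MvPolynomial.map C (homogeneousComponent g.2 g.1.1)
  | Sum.inl (Sum.inr _) => ∑ x, C (X x) * MvPolynomial.map C (P x)
  | Sum.inr (Sum.inl a) => ∑ x, C (X x) * MvPolynomial.map C (P' a x)
  | Sum.inr (Sum.inr j) => MvPolynomial.map C (lin (ℓ j))

private def dC {n r c : ℕ} (q : Ideal (MvPolynomial (Fin (n + 1)) ℂ)) (e : ℕ) (e' : Fin r → ℕ) :
    IxC q r c → ℕ
  | Sum.inl (Sum.inl g) => g.2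
  | Sum.inl (Sum.inr _) => e
  | Sum.inr (Sum.inl a) => e' a
  | Sum.inr (Sum.inr _) => 1

private theorem lin_hom_cert {n : ℕ} (h : Fin (n + 1) → ℂ) : (lin h).IsHomogeneous 1 := by
  unfold lin
  apply IsHomogeneous.sum
  intro i _
  have := (isHomogeneous_C (Fin (n + 1)) (h i)).mul (isHomogeneous_X ℂ i)
  simpa using this

private theorem eval_lin_cert {n : ℕ} (h x : Fin (n + 1) → ℂ) : eval x (lin h) = dt h x := by
  unfold lin dt
  simp [map_sum]

private theorem sum_hom_cert {n e : ℕ} {τ : Type} [Fintype τ]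
    (P : τ → MvPolynomial (Fin (n + 1)) ℂ) (hP : ∀ x, (P x).IsHomogeneous e) :
    (∑ x, C (X x : MvPolynomial τ ℂ) * MvPolynomial.map C (P x) :
      MvPolynomial (Fin (n + 1)) (MvPolynomial τ ℂ)).IsHomogeneous e := by
  apply IsHomogeneous.sum
  intro x _
  have := (isHomogeneous_C (Fin (n + 1)) (X x : MvPolynomial τ ℂ)).mul
    ((hP x).map (C : ℂ →+* MvPolynomial τ ℂ))
  simpa using this

private theorem comp_C_cert {τ E : Type} [Field E] (φ : ℂ →+* E) (y : τ → E) :
    (eval₂Hom φ y).comp (C : ℂ →+* MvPolynomial τ ℂ) = φ := by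
  ext z
  simp

private theorem sum_eval_cert {n : ℕ} {τ : Type} [Fintype τ]
    (P : τ → MvPolynomial (Fin (n + 1)) ℂ) (a₀ : τ → ℂ) (x : Fin (n + 1) → ℂ) :
    (∑ i, C (X i : MvPolynomial τ ℂ) * MvPolynomial.map C (P i) :
      MvPolynomial (Fin (n + 1)) (MvPolynomial τ ℂ)).eval₂ (eval a₀) x =
      ∑ i, a₀ i * eval x (P i) := by
  rw [eval₂_sum]
  apply Finset.sum_congr rfl
  intro i _
  rw [eval₂_mul, eval₂_C, eval₂_map]
  have : (eval a₀).comp (C : ℂ →+* MvPolynomial τ ℂ) = RingHom.id ℂ := by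
    ext z
    simp
  rw [this]
  simp [eval_X, eval₂_id]

private theorem map_sum_cert {n : ℕ} {τ E : Type} [Fintype τ] [Field E] (φ : ℂ →+* E)
    (y : τ → E) (lam : E) (P : τ → MvPolynomial (Fin (n + 1)) ℂ) :
    MvPolynomial.map (eval₂Hom φ (fun i => lam * y i))
      (∑ x, C (X x : MvPolynomial τ ℂ) * MvPolynomial.map C (P x) :
      MvPolynomial (Fin (n + 1)) (MvPolynomial τ ℂ)) =
      C lam * ∑ x, C (y x) * MvPolynomial.map φ (P x) := by
  rw [map_sum, Finset.mul_sum]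
  apply Finset.sum_congr rfl
  intro i _
  rw [map_mul, map_C, map_map, comp_C_cert]
  simp only [coe_eval₂Hom, eval₂_X, C_mul]
  ring

private theorem scale_cert {τ E : Type} [Field E] (φ : ℂ →+* E) (y : τ → E) (lam : E)
    (s : MvPolynomial τ ℂ) (d : ℕ) (hs : s.IsHomogeneous d) :
    s.eval₂ φ (fun i => lam * y i) = s.eval₂ φ y * lam ^ d := by
  rw [eval₂_eq, eval₂_eq, Finset.sum_mul]
  apply Finset.sum_congr rfl
  intro m hm
  have hdeg : ∑ i ∈ m.support, m i = d := by
    have := hs (mem_support_iff.mp hm)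
    rw [← this]
    simp [Finsupp.weight_apply, Finsupp.sum]
  simp only [mul_pow]
  rw [Finset.prod_mul_distrib, Finset.prod_pow_eq_pow_sum, hdeg]
  ring

private theorem lam_cert {τ E : Type} [Field E] (φ : ℂ →+* E) (y : τ → E)
    (Θ : MvPolynomial τ ℂ) (e₁ : ℕ) (h : (homogeneousComponent e₁ Θ).eval₂ φ y ≠ 0) :
    ∃ lam : E, lam ≠ 0 ∧ Θ.eval₂ φ (fun i => lam * y i) ≠ 0 := by
  classical
  have hinf : Infinite E := Infinite.of_injective φ φ.injective
  set p : Polynomial E := ∑ d ∈ Finset.range (Θ.totalDegree + 1),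
    Polynomial.monomial d ((homogeneousComponent d Θ).eval₂ φ y) with hp
  have he₁ : e₁ ∈ Finset.range (Θ.totalDegree + 1) := by
    by_contra hcon
    rw [Finset.mem_range, not_lt] at hcon
    apply h
    rw [homogeneousComponent_eq_zero _ _ (by omega)]
    simp
  have hp0 : p ≠ 0 := by
    intro h0
    have h1 : p.coeff e₁ = 0 := by rw [h0]; simp
    rw [hp, Polynomial.finsetSum_coeff] at h1
    simp only [Polynomial.coeff_monomial] at h1
    rw [Finset.sum_ite_eq' (Finset.range (Θ.totalDegree + 1)) e₁] at h1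
    rw [if_pos he₁] at h1
    exact h h1
  have hev : ∀ lam : E, Θ.eval₂ φ (fun i => lam * y i) = p.eval lam := by
    intro lam
    conv_lhs => rw [← sum_homogeneousComponent Θ]
    rw [eval₂_sum, hp, Polynomial.eval_finsetSum]
    apply Finset.sum_congr rfl
    intro d _
    rw [Polynomial.eval_monomial]
    exact scale_cert φ y lam _ d (homogeneousComponent_isHomogeneous d Θ)
  have hpX : p * Polynomial.X ≠ 0 := mul_ne_zero hp0 Polynomial.X_ne_zero
  by_contra hcon
  push Not at hcon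
  apply hpX
  apply Polynomial.funext
  intro lam
  rw [Polynomial.eval_mul, Polynomial.eval_X, Polynomial.eval_zero]
  by_cases hl : lam = 0
  · rw [hl, mul_zero]
  · rw [← hev lam, hcon lam hl, zero_mul]

/-- PIECE Y10 (Cert.lean; uses elim_y) -/
theorem cert {n r c e : ℕ} {τ : Type} [Fintype τ] {q : Ideal (MvPolynomial (Fin (n + 1)) ℂ)}
    (hqh : HomI q) (P : τ → MvPolynomial (Fin (n + 1)) ℂ) (hP : ∀ x, (P x).IsHomogeneous e)
    (P' : Fin r → τ → MvPolynomial (Fin (n + 1)) ℂ) (e' : Fin r → ℕ)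
    (hP' : ∀ a x, (P' a x).IsHomogeneous (e' a)) (ℓ : Fin c → Fin (n + 1) → ℂ) (a₀ : τ → ℂ)
    (h₀ : ∀ x : Fin (n + 1) → ℂ, (∀ g ∈ q, eval x g = 0) → ∑ i, a₀ i * eval x (P i) = 0 →
      (∀ a, ∑ i, a₀ i * eval x (P' a i) = 0) → (∀ j, dt (ℓ j) x = 0) → x = 0) :
    ∃ (N₁ e₁ : ℕ) (s : MvPolynomial τ ℂ), 1 ≤ N₁ ∧ s.IsHomogeneous e₁ ∧ eval a₀ s ≠ 0 ∧
      ∀ (E : Type) [Field E] (φ : ℂ →+* E) (y : τ → E), s.eval₂ φ y ≠ 0 →
        ∀ i, X i ^ N₁ ∈ q.map (MvPolynomial.map φ) ⊔
          Ideal.span {∑ x, C (y x) * MvPolynomial.map φ (P x)} ⊔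
          Ideal.span (Set.range fun a => ∑ x, C (y x) * MvPolynomial.map φ (P' a x)) ⊔
          Ideal.span (Set.range fun j => MvPolynomial.map φ (lin (ℓ j))) := by
  classical
  have hC0 : (eval a₀).comp (C : ℂ →+* MvPolynomial τ ℂ) = RingHom.id ℂ := by
    ext z
    simp
  obtain ⟨N₁, Θ, hN₁, hΘ, hmain⟩ := elim_y (A := MvPolynomial τ ℂ) (FC q P P' ℓ) (dC q e e')
    (by
      rintro ((g | u) | (a | j))
      · exact (homogeneousComponent_isHomogeneous g.2 g.1.1).map _
      · exact sum_hom_cert P hP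
      · exact sum_hom_cert (P' a) (hP' a)
      · exact (lin_hom_cert (ℓ j)).map _)
    (eval a₀)
    (by
      intro x hx
      apply h₀ x
      · intro g hg
        rw [← sum_homogeneousComponent g, map_sum]
        apply Finset.sum_eq_zero
        intro d _
        have h1 := hx (Sum.inl (Sum.inl (⟨g, hg⟩, d)))
        simp only [FC] at h1
        rw [eval₂_map, hC0, eval₂_id] at h1
        exact h1
      · have h1 := hx (Sum.inl (Sum.inr ()))
        simp only [FC] at h1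
        rw [sum_eval_cert] at h1
        exact h1
      · intro a
        have h1 := hx (Sum.inr (Sum.inl a))
        simp only [FC] at h1
        rw [sum_eval_cert] at h1
        exact h1
      · intro j
        have h1 := hx (Sum.inr (Sum.inr j))
        simp only [FC] at h1
        rw [eval₂_map, hC0, eval₂_id, eval_lin_cert] at h1
        exact h1)
  have hex : ∃ e₁, eval a₀ (homogeneousComponent e₁ Θ) ≠ 0 := by
    by_contra hcon
    push Not at hcon
    apply hΘ
    rw [← sum_homogeneousComponent Θ, map_sum]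
    exact Finset.sum_eq_zero fun d _ => hcon d
  obtain ⟨e₁, he₁⟩ := hex
  refine ⟨N₁, e₁, homogeneousComponent e₁ Θ, hN₁, homogeneousComponent_isHomogeneous e₁ Θ, he₁, ?_⟩
  intro E _ φ y hy i
  obtain ⟨lam, hlam, hne⟩ := lam_cert φ y Θ e₁ hy
  have hmem := hmain E (eval₂Hom φ (fun i => lam * y i)) (by simpa using hne) i
  refine (Ideal.span_le.mpr ?_) hmem
  rintro _ ⟨((g | u) | (a | j)), rfl⟩
  · apply Ideal.mem_sup_left
    apply Ideal.mem_sup_left
    apply Ideal.mem_sup_left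
    simp only [FC]
    rw [MvPolynomial.map_map, comp_C_cert]
    exact Ideal.mem_map_of_mem _ (hqh g.1.1 g.1.2 g.2)
  · apply Ideal.mem_sup_left
    apply Ideal.mem_sup_left
    apply Ideal.mem_sup_right
    simp only [FC]
    rw [map_sum_cert]
    exact Ideal.mul_mem_left _ _ (Ideal.subset_span rfl)
  · apply Ideal.mem_sup_left
    apply Ideal.mem_sup_right
    simp only [FC]
    rw [map_sum_cert]
    exact Ideal.mul_mem_left _ _ (Ideal.subset_span ⟨a, rfl⟩)
  · apply Ideal.mem_sup_right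
    simp only [FC]
    rw [MvPolynomial.map_map, comp_C_cert]
    exact Ideal.subset_span ⟨j, rfl⟩

end Pool.Agent.QY
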