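import Pool.Agent.Lib_MP_b9fedf_sq.Fin
import Pool.Agent.Lib_MP_b9fedf_qy.AbsAllY

/-! All entire curves in a projective variety tangent to many hypersurfaces. -/

set_option autoImplicit false

namespace Pool.Agent.QY
open MvPolynomial Pool.Agent.SQ

theorem curve_y (n e M m eₛ : ℕ) : ∃ N₀ : ℕ,
    ∀ q : Ideal (MvPolynomial (Fin (n + 1)) ℂ), q.IsPrime →
    ∀ P : Fin (m + 1) → MvPolynomial (Fin (n + 1)) ℂ, (∀ i, (P i).IsHomogeneous e) →
    ∀ A : Finset (Fin (m + 1) → ℂ), PW A → N₀ < A.card →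
    (∀ a ∈ A, ∃ s : MvPolynomial (Fin (m + 1)) ℂ, s.IsHomogeneous eₛ ∧ eval a s ≠ 0 ∧
      ExcOn q P s) →
    ∃ (l : ℕ) (T : (Fin (l + 1) → ℂ) →ₗ[ℂ] (Fin (m + 1) → ℂ)) (A₁ : Finset (Fin (m + 1) → ℂ))
      (dZ : ℕ) (Z : MvPolynomial (Fin (n + 1)) ℂ), 1 ≤ l ∧ Function.Injective T ∧
    A₁ ⊆ A ∧ (∀ a ∈ A₁, ∃ v, T v = a) ∧ M < A₁.card ∧ Z ∉ q ∧ Z.IsHomogeneous dZ ∧
    ∀ f : Fin (n + 1) → ℂ → ℂ, (∀ k, Differentiable ℂ (f k)) →
    (∀ g ∈ q, ∀ z, eval (fun k => f k z) g = 0) →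
    (∀ a ∈ A, ∀ b ∈ A, ∀ (z : ℂ) (c : ℕ),
      analyticOrderAt (fun ζ => ∑ i, b i * eval (fun k => f k ζ) (P i)) z = c →
      analyticOrderAt (fun ζ => ∑ i, a i * eval (fun k => f k ζ) (P i)) z = ((c + 1 : ℕ) : ℕ∞) →
      ∀ A' ⊆ A, (∀ x ∈ A', (c : ℕ∞) ≤ analyticOrderAt
        (fun ζ => ∑ i, x i * eval (fun k => f k ζ) (P i)) z) → A'.card ≤ M) →
    (∀ z, eval (fun k => f k z) Z = 0) ∨
      ∃ t : Fin (l + 1) → ℂ, t ≠ 0 ∧ ∀ z i i', t i * eval (fun k => f k z) (pullP T P i') =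
        t i' * eval (fun k => f k z) (pullP T P i) := by
  classical
  obtain ⟨N₀, hN₀⟩ := abs_all_y n e M m eₛ
  refine ⟨N₀, fun q hq P hP A hA hcard hgood => ?_⟩
  obtain ⟨l, T, A₁, dZ, Z, hl, hT, hA₁, hA₁r, hA₁c, hZ0, hZh, hZ⟩ :=
    hN₀ q hq P hP A hA hcard hgood
  refine ⟨l, T, A₁, dZ, Z, hl, hT, hA₁, hA₁r, hA₁c, hZ0, hZh, ?_⟩
  intro f hf hfq htan
  set g : Fin (n + 1) → Ent := fun k => ⟨fun z => f k (Complex.exp z),
    (hf k).comp Complex.differentiable_exp⟩ with hg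
  have hgv : ∀ k z, (g k).1 z = f k (Complex.exp z) := fun k z => rfl
  -- zeros of forms
  have hzero : ∀ R : MvPolynomial (Fin (n + 1)) ℂ, aeval g R = 0 →
      ∀ z, eval (fun k => f k z) R = 0 := by
    intro R hR
    have h1 : (fun w => eval (fun k => f k w) R) = fun _ => 0 := by
      apply GGL.eq_of_comp_exp _ continuous_const
      · intro z
        have h2 := ent_aeval g R z
        rw [hR] at h2
        exact h2.symm
      · simp_rw [MvPolynomial.eval_eq']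
        exact continuous_finsetSum _ fun a _ => continuous_const.mul
          (continuous_finsetProd _ fun k _ => (hf k).continuous.pow _)
    exact fun z => congrFun h1 z
  have hzero' : ∀ R : MvPolynomial (Fin (n + 1)) ℂ, (∀ z, eval (fun k => f k z) R = 0) →
      aeval g R = 0 := by
    intro R hR
    apply Ent.ext'
    intro z
    rw [ent_aeval]
    exact hR _
  have hord : ∀ (u : ℂ → ℂ) (z : ℂ), analyticOrderAt (fun ζ => u (Complex.exp ζ)) z =
      analyticOrderAt u (Complex.exp z) := by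
    intro u z
    exact analyticOrderAt_comp_of_deriv_ne_zero (f := u) (g := Complex.exp) (z₀ := z)
      (by fun_prop) (by rw [Complex.deriv_exp]; exact Complex.exp_ne_zero z)
  rcases hZ g (fun R hR => hzero' R (hfq R hR)) (by
      intro k z
      rw [hgv, hgv, Complex.exp_add, Complex.exp_two_pi_mul_I, mul_one]) (by
    have e1 : ∀ (a : Fin (m + 1) → ℂ) (z : ℂ),
        analyticOrderAt (fun ζ => ∑ k, a k * (aeval g (P k)).1 ζ) z =
          analyticOrderAt (fun ζ => ∑ i, a i * eval (fun k => f k ζ) (P i)) (Complex.exp z) := by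
      intro a z
      rw [← hord]
      congr 1
      funext ζ
      simp only [ent_aeval]
      rfl
    intro a ha b hb z c h1 h2 A' hA' h3
    rw [e1] at h1 h2
    refine htan a ha b hb (Complex.exp z) c h1 h2 A' hA' fun x hx => ?_
    rw [← e1]
    exact h3 x hx) with h | ⟨t, ht0, ht⟩
  · left
    exact hzero Z h
  · right
    refine ⟨t, ht0, fun z i i' => ?_⟩
    have h1 : aeval g (C (t i) * pullP T P i' - C (t i') * pullP T P i) = 0 := by
      rw [map_sub, map_mul, map_mul, algHom_C, algHom_C, ← Algebra.smul_def, ← Algebra.smul_def,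
        ht i i', sub_self]
    have h2 := hzero _ h1 z
    rw [map_sub, map_mul, map_mul, eval_C, eval_C, sub_eq_zero] at h2
    exact h2

end Pool.Agent.QY
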