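import Pool.Agent.Lib_MP_b9fedf_qy.TrLem
import Pool.Agent.Lib_MP_b9fedf_qy.HPrime

/-! Cutting with general linear forms. -/

set_option autoImplicit false

namespace Pool.Agent.QY
open MvPolynomial Pool.Agent.SQ

/-- restriction of a form to the line through `x` -/
private theorem line_cut {n : ℕ} (x : Fin (n + 1) → ℂ) (g : MvPolynomial (Fin (n + 1)) ℂ) (d : ℕ)
    (hg : g.IsHomogeneous d) :
    aeval (fun i => Polynomial.C (x i) * Polynomial.X) g
      = Polynomial.C (eval x g) * (Polynomial.X : Polynomial ℂ) ^ d := by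
  rw [aeval_def, eval₂_eq, eval_eq, map_sum, Finset.sum_mul]
  refine Finset.sum_congr rfl fun s hs => ?_
  have h1 : ∑ i ∈ s.support, s i = d := by
    have h2 := hg (mem_support_iff.1 hs)
    rw [Finsupp.weight_apply, Finsupp.sum] at h2
    simpa using h2
  rw [map_mul, map_prod]
  have h3 : ∀ i ∈ s.support, (Polynomial.C (x i) * Polynomial.X : Polynomial ℂ) ^ s i
      = Polynomial.C (x i ^ s i) * Polynomial.X ^ s i := by
    intro i _
    rw [mul_pow, Polynomial.C_pow]
  rw [Finset.prod_congr rfl h3, Finset.prod_mul_distrib, Finset.prod_pow_eq_pow_sum, h1,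
    Polynomial.algebraMap_eq, mul_assoc]

private theorem zero_cut {n : ℕ} (J : Ideal (MvPolynomial (Fin (n + 1)) ℂ)) (hJ : HomI J)
    (h : ∀ 𝔓 : Ideal (MvPolynomial (Fin (n + 1)) ℂ), 𝔓.IsPrime → J ≤ 𝔓 → ¬ Tr 𝔓 1)
    (x : Fin (n + 1) → ℂ) (hx : ∀ g ∈ J, eval x g = 0) : x = 0 := by
  by_contra hx0
  obtain ⟨i, hi⟩ := Function.ne_iff.1 hx0
  let φ : MvPolynomial (Fin (n + 1)) ℂ →ₐ[ℂ] Polynomial ℂ :=
    aeval (fun i => Polynomial.C (x i) * Polynomial.X)
  refine h (RingHom.ker φ) (RingHom.ker_isPrime φ) ?_ ?_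
  · intro g hg
    rw [RingHom.mem_ker]
    rw [← sum_homogeneousComponent g, map_sum]
    refine Finset.sum_eq_zero fun d _ => ?_
    show aeval (fun i => Polynomial.C (x i) * Polynomial.X) (homogeneousComponent d g) = 0
    rw [line_cut x _ d (homogeneousComponent_isHomogeneous d g), hx _ (hJ g hg d), map_zero,
      zero_mul]
  · refine ⟨fun _ => X i, fun G hG => ?_⟩
    rw [RingHom.mem_ker] at hG
    have h1 : ∀ c : ℂ, eval (fun _ => c) G = 0 := by
      intro c
      have h2 := congrArg (Polynomial.eval (c / x i)) hG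
      have h3 : Polynomial.eval (c / x i) (φ (aeval (fun _ : Fin 1 => X i) G))
          = eval (fun _ => c) G := by
        have h4 : ((Polynomial.evalRingHom (c / x i)).comp (φ : MvPolynomial (Fin (n + 1)) ℂ →+*
            Polynomial ℂ)).comp ((aeval (fun _ : Fin 1 => X i) : MvPolynomial (Fin 1) ℂ →ₐ[ℂ]
            MvPolynomial (Fin (n + 1)) ℂ) : MvPolynomial (Fin 1) ℂ →+* MvPolynomial (Fin (n + 1)) ℂ)
            = eval (fun _ => c) := by
          apply MvPolynomial.ringHom_ext
          · intro r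
            simp [φ, algebraMap_eq]
          · intro j
            have h5 : x i * (c / x i) = c := mul_div_cancel₀ c hi
            simp [φ, h5]
        exact congrArg (fun ψ => ψ G) h4
      rw [h3] at h2
      simpa using h2
    apply MvPolynomial.funext
    intro y
    have h6 : y = fun _ => y 0 := by
      funext j
      rw [Subsingleton.elim j 0]
    rw [h6, h1, map_zero]

private theorem eval_lin_cut {n : ℕ} (l x : Fin (n + 1) → ℂ) : eval x (lin l) = dt l x := by
  simp [lin, dt]

private theorem hom_lin_cut {n : ℕ} (l : Fin (n + 1) → ℂ) : (lin l).IsHomogeneous 1 := by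
  refine IsHomogeneous.sum _ _ _ fun i _ => ?_
  have h1 := (isHomogeneous_C (Fin (n + 1)) (l i)).mul (isHomogeneous_X ℂ i)
  simpa using h1

/-- the linear forms in an ideal -/
private noncomputable def sub_cut {n : ℕ} (P : Ideal (MvPolynomial (Fin (n + 1)) ℂ)) :
    Submodule ℂ (Fin (n + 1) → ℂ) where
  carrier := {l | lin l ∈ P}
  add_mem' := by
    intro a b ha hb
    have h1 : lin (a + b) = lin a + lin b := by
      simp [lin, add_mul, Finset.sum_add_distrib]
    show lin (a + b) ∈ P
    rw [h1]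
    exact P.add_mem ha hb
  zero_mem' := by
    show lin 0 ∈ P
    simp [lin]
  smul_mem' := by
    intro c a ha
    have h1 : lin (c • a) = C c * lin a := by
      simp [lin, Finset.mul_sum, mul_assoc]
    show lin (c • a) ∈ P
    rw [h1]
    exact P.mul_mem_left _ ha

/-- PIECE Y7 (Cut.lean; uses TrLem) -/
theorem cut {n : ℕ} (c : ℕ) (J : Ideal (MvPolynomial (Fin (n + 1)) ℂ)) (hJ : HomI J)
    (h : ∀ 𝔓 : Ideal (MvPolynomial (Fin (n + 1)) ℂ), 𝔓.IsPrime → J ≤ 𝔓 → ¬ Tr 𝔓 (c + 1)) :
    ∃ ℓ : Fin c → Fin (n + 1) → ℂ, ∀ x : Fin (n + 1) → ℂ, (∀ g ∈ J, eval x g = 0) →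
      (∀ j, dt (ℓ j) x = 0) → x = 0 := by
  induction c generalizing J with
  | zero =>
    exact ⟨fun j => j.elim0, fun x hx _ => zero_cut J hJ h x hx⟩
  | succ c ih =>
    -- the minimal primes of `J`
    have hfin := Ideal.finite_minimalPrimes_of_isNoetherianRing
      (MvPolynomial (Fin (n + 1)) ℂ) J
    have hS : {P ∈ J.minimalPrimes | Tr P 1}.Finite := hfin.subset (Set.sep_subset _ _)
    obtain ⟨l, hl⟩ : ∃ l : Fin (n + 1) → ℂ, ∀ P ∈ J.minimalPrimes, Tr P 1 → lin l ∉ P := by
      by_contra hcon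
      push Not at hcon
      have : Finite {P // P ∈ {P ∈ J.minimalPrimes | Tr P 1}} := hS.to_subtype
      have h1 : ⋃ P : {P // P ∈ {P ∈ J.minimalPrimes | Tr P 1}},
          ((sub_cut P.1 : Submodule ℂ (Fin (n + 1) → ℂ)) : Set (Fin (n + 1) → ℂ)) = Set.univ := by
        rw [Set.eq_univ_iff_forall]
        intro l
        obtain ⟨P, hP, hT, hlP⟩ := hcon l
        exact Set.mem_iUnion.2 ⟨⟨P, hP, hT⟩, hlP⟩
      obtain ⟨P, hP⟩ := Subspace.exists_eq_top_of_iUnion_eq_univ h1
      obtain ⟨i, hi⟩ := tr_one P.2.2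
      have h2 : (Pi.single i 1 : Fin (n + 1) → ℂ) ∈ sub_cut P.1 := by
        rw [hP]; trivial
      have h3 : lin (Pi.single i 1 : Fin (n + 1) → ℂ) = X i := by
        unfold lin
        rw [Finset.sum_eq_single i]
        · simp
        · intro j _ hj
          simp [Pi.single_eq_of_ne hj]
        · intro hi
          exact absurd (Finset.mem_univ i) hi
      apply hi
      rw [← h3]
      exact h2
    have hJ' : HomI (J ⊔ Ideal.span {lin l}) := homI_sup hJ _ 1 (hom_lin_cut l)
    obtain ⟨ℓ, hℓ⟩ := ih (J ⊔ Ideal.span {lin l}) hJ' (by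
      intro 𝔓 hP hle hT
      have hlP : lin l ∈ 𝔓 := hle (Ideal.mem_sup_right (Ideal.mem_span_singleton_self _))
      obtain ⟨p, hp, hpP⟩ := Ideal.exists_minimalPrimes_le (le_sup_left.trans hle)
      have hT1 : Tr p 1 := tr_mono hpP (by omega) hT
      have hlt : p < 𝔓 := by
        refine lt_of_le_of_ne hpP ?_
        intro he
        exact hl p hp hT1 (by rw [he]; exact hlP)
      exact h p hp.1.1 hp.1.2 (tr_drop hp.1.1 hlt (c + 1) hT))
    refine ⟨Fin.cons l ℓ, fun x hx hd => ?_⟩
    refine hℓ x ?_ ?_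
    · have h1 : J ⊔ Ideal.span {lin l} ≤ RingHom.ker (eval x) := by
        refine sup_le (fun g hg => hx g hg) ?_
        rw [Ideal.span_le, Set.singleton_subset_iff]
        show eval x (lin l) = 0
        rw [eval_lin_cut]
        simpa using hd 0
      exact fun g hg => h1 hg
    · intro j
      simpa using hd j.succ

end Pool.Agent.QY
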