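import Mathlib

/-! Veronese maps. -/

set_option autoImplicit false

namespace Pool.Agent.QY

/-- the exponents of the monomials of degree `k` in `n + 1` variables -/
abbrev Mon (n k : ℕ) : Type := {α : Fin (n + 1) → Fin (k + 1) // ∑ i, (α i : ℕ) = k}

/-- the Veronese map -/
def vero {n : ℕ} (k : ℕ) (x : Fin (n + 1) → ℂ) (α : Mon n k) : ℂ := ∏ i, x i ^ (α.1 i : ℕ)

end Pool.Agent.QY
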