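import Pool.Agent.Lib_MP_b9fedf_qy.DefsY
import Pool.Agent.Lib_MP_b9fedf_qy.DerExt

set_option autoImplicit false

namespace Pool.Agent.QY
open MvPolynomial Pool.Agent.SQ

private theorem mkDer_applyY8 {n : ℕ}
    (d : Fin (n + 1) → MvPolynomial (Fin (n + 1)) ℂ) (g : MvPolynomial (Fin (n + 1)) ℂ) :
    mkDerivation ℂ d g = ∑ i, pderiv i g * d i := by
  classical
  induction g using MvPolynomial.induction_on with
  | C r => simp
  | add p r hp hr =>
    rw [map_add, hp, hr, ← Finset.sum_add_distrib]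
    refine Finset.sum_congr rfl fun i _ => ?_
    rw [map_add, add_mul]
  | mul_X p j hp =>
    rw [Derivation.leibniz, smul_eq_mul, smul_eq_mul, mkDerivation_X, hp]
    have : ∀ i, pderiv i (p * X j) * d i =
        (if i = j then p * d i else 0) + X j * (pderiv i p * d i) := fun i => by
      rw [Derivation.leibniz, smul_eq_mul, smul_eq_mul, pderiv_X, Pi.single_apply]
      by_cases h : i = j
      · rw [if_pos h.symm, if_pos h]; ring
      · rw [if_neg (fun h' => h h'.symm), if_neg h]; ring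
    rw [Finset.sum_congr rfl fun i _ => this i, Finset.sum_add_distrib, Finset.mul_sum,
      Finset.sum_ite_eq' Finset.univ j, if_pos (Finset.mem_univ j)]

/-- the derivation of the fraction field -/
private theorem derq_fieldY8 {L : Type} [Field L] [Algebra ℂ L] (h : L)
    (htr : Transcendental ℂ h) :
    ∃ D : L →+ L, (∀ x y, D (x * y) = x * D y + y * D x) ∧ (∀ c : ℂ, D (algebraMap ℂ L c) = 0) ∧
      D h = 1 := by
  have hchar : CharZero L := charZero_of_injective_algebraMap (algebraMap ℂ L).injective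
  let algA : Algebra (Polynomial ℂ) L :=
    (Polynomial.aeval h : Polynomial ℂ →ₐ[ℂ] L).toRingHom.toAlgebra
  have hA : ∀ f : Polynomial ℂ, algebraMap (Polynomial ℂ) L f = Polynomial.aeval h f :=
    fun f => rfl
  have hinj : Function.Injective (algebraMap (Polynomial ℂ) L) :=
    transcendental_iff_injective.1 htr
  let d0 : Derivation ℤ (Polynomial ℂ) L :=
    (Algebra.linearMap (Polynomial ℂ) L).compDer (Polynomial.derivative'.restrictScalars ℤ)
  have hd0 : ∀ f, d0 f = Polynomial.aeval h (Polynomial.derivative f) := fun f => rfl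
  obtain ⟨D, hD⟩ := der_extend hinj d0
  refine ⟨D.toLinearMap.toAddMonoidHom, fun x y => ?_, fun c => ?_, ?_⟩
  · exact D.leibniz x y
  · have := (hD (Polynomial.C c)).trans (hd0 (Polynomial.C c))
    rw [hA, Polynomial.aeval_C, Polynomial.derivative_C, map_zero] at this
    exact this
  · have := (hD Polynomial.X).trans (hd0 Polynomial.X)
    rw [hA, Polynomial.aeval_X, Polynomial.derivative_X, map_one] at this
    exact this

/-- the lift to the polynomial ring -/
private theorem derq_auxY8 {n : ℕ} {q : Ideal (MvPolynomial (Fin (n + 1)) ℂ)}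
    {L : Type} [Field L] [Algebra (MvPolynomial (Fin (n + 1)) ℂ ⧸ q) L]
    [IsDomain (MvPolynomial (Fin (n + 1)) ℂ ⧸ q)]
    [IsFractionRing (MvPolynomial (Fin (n + 1)) ℂ ⧸ q) L]
    (a b : MvPolynomial (Fin (n + 1)) ℂ) (hbq : b ∉ q) (hab : ∀ c : ℂ, a - C c * b ∉ q) :
    ∃ d : Fin (n + 1) → MvPolynomial (Fin (n + 1)) ℂ,
      (∀ g ∈ q, mkDerivation ℂ d g ∈ q) ∧
      b * mkDerivation ℂ d a - a * mkDerivation ℂ d b ∉ q := by
  classical
  let ι : MvPolynomial (Fin (n + 1)) ℂ →+* L :=
    (algebraMap (MvPolynomial (Fin (n + 1)) ℂ ⧸ q) L).comp (Ideal.Quotient.mk q)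
  have hι0 : ∀ g, ι g = algebraMap (MvPolynomial (Fin (n + 1)) ℂ ⧸ q) L
    (Ideal.Quotient.mk q g) := fun g => rfl
  have hι : ∀ g, ι g = 0 ↔ g ∈ q := fun g => by
    rw [hι0, map_eq_zero_iff _ (IsFractionRing.injective (MvPolynomial (Fin (n + 1)) ℂ ⧸ q) L),
      Ideal.Quotient.eq_zero_iff_mem]
  let algC : Algebra ℂ L := (ι.comp C).toAlgebra
  have hC : ∀ c : ℂ, algebraMap ℂ L c = ι (C c) := fun c => rfl
  have hb0 : ι b ≠ 0 := fun h => hbq ((hι b).1 h)
  obtain ⟨h, hh⟩ : ∃ h : L, h = ι a / ι b := ⟨_, rfl⟩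
  have htr : Transcendental ℂ h := by
    intro halg
    obtain ⟨c, hc⟩ := minpoly.mem_range_of_degree_eq_one ℂ h
      (IsAlgClosed.degree_eq_one_of_irreducible ℂ (minpoly.irreducible halg.isIntegral))
    apply hab c
    rw [← hι, map_sub, map_mul, ← hC]
    have h1 : algebraMap ℂ L c = h := hc
    rw [h1, hh, div_mul_cancel₀ _ hb0, sub_self]
  obtain ⟨D, hDl, hDC, hDh⟩ := derq_fieldY8 h htr
  have hW : ι b * D (ι a) - ι a * D (ι b) = ι b * ι b := by
    have ha : ι a = h * ι b := by rw [hh, div_mul_cancel₀ _ hb0]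
    rw [ha, hDl, hDh]
    ring
  obtain ⟨c, hc⟩ := IsLocalization.exist_integer_multiples_of_finite
    (nonZeroDivisors (MvPolynomial (Fin (n + 1)) ℂ ⧸ q))
    (fun i : Fin (n + 1) => D (ι (X i)))
  choose d' hd' using hc
  choose d hd using fun i => Ideal.Quotient.mk_surjective (d' i)
  obtain ⟨c', hc'⟩ := Ideal.Quotient.mk_surjective
    (c : MvPolynomial (Fin (n + 1)) ℂ ⧸ q)
  have hc0 : ι c' ≠ 0 := by
    rw [hι0, hc', Ne, map_eq_zero_iff _
      (IsFractionRing.injective (MvPolynomial (Fin (n + 1)) ℂ ⧸ q) L)]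
    exact nonZeroDivisors.coe_ne_zero c
  have hdi : ∀ i, ι (d i) = ι c' * D (ι (X i)) := fun i => by
    rw [hι0, hι0 c', hd, hc', hd' i, Algebra.smul_def]
  have hmk : ∀ g, ι (mkDerivation ℂ d g) = ι c' * D (ι g) := fun g => by
    induction g using MvPolynomial.induction_on with
    | C r => rw [derivation_C, map_zero, ← hC, hDC, mul_zero]
    | add p r hp hr => rw [map_add, map_add, map_add, map_add, hp, hr, mul_add]
    | mul_X p i hp =>
      rw [Derivation.leibniz, smul_eq_mul, smul_eq_mul, mkDerivation_X, map_add, map_mul, map_mul,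
        hp, hdi, map_mul, hDl]
      ring
  refine ⟨d, fun g hg => ?_, fun hmem => ?_⟩
  · rw [← hι, hmk, (hι g).2 hg, map_zero, mul_zero]
  · rw [← hι, map_sub, map_mul, map_mul, hmk, hmk] at hmem
    have : ι c' * (ι b * D (ι a) - ι a * D (ι b)) = 0 := by
      rw [← hmem]; ring
    rw [hW] at this
    exact (mul_ne_zero hc0 (mul_ne_zero hb0 hb0)) this

private theorem mkDer_homY8 {n : ℕ} {δ m : ℕ}
    (d : Fin (n + 1) → MvPolynomial (Fin (n + 1)) ℂ) (hd : ∀ i, (d i).IsHomogeneous δ)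
    (g : MvPolynomial (Fin (n + 1)) ℂ) (hg : g.IsHomogeneous m) :
    (mkDerivation ℂ d g).IsHomogeneous (m - 1 + δ) := by
  rw [mkDer_applyY8]
  exact IsHomogeneous.sum _ _ _ fun i _ => hg.pderiv.mul (hd i)

private theorem mkDer_sumY8 {n N : ℕ}
    (d : Fin (n + 1) → MvPolynomial (Fin (n + 1)) ℂ)
    (hN : ∀ i, (d i).totalDegree < N) (g : MvPolynomial (Fin (n + 1)) ℂ) :
    mkDerivation ℂ d g =
      ∑ δ ∈ Finset.range N, mkDerivation ℂ (fun i => homogeneousComponent δ (d i)) g := by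
  simp only [mkDer_applyY8]
  rw [Finset.sum_comm]
  refine Finset.sum_congr rfl fun i _ => ?_
  rw [← Finset.mul_sum]
  congr 1
  conv_lhs => rw [← sum_homogeneousComponent (d i)]
  refine Finset.sum_subset (fun x hx => ?_) fun x _ hx => ?_
  · rw [Finset.mem_range] at hx ⊢
    exact lt_of_lt_of_le hx (hN i)
  · rw [Finset.mem_range, not_lt] at hx
    exact homogeneousComponent_eq_zero _ _ (by omega)

/-- PIECE Y8 (DerQ.lean; uses der_extend) -/
theorem derq {n : ℕ} {q : Ideal (MvPolynomial (Fin (n + 1)) ℂ)} (hq : q.IsPrime) (hqh : HomI q)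
    (a b : MvPolynomial (Fin (n + 1)) ℂ) (e : ℕ) (ha : a.IsHomogeneous e)
    (hb : b.IsHomogeneous e) (hbq : b ∉ q) (hab : ∀ c : ℂ, a - C c * b ∉ q) :
    ∃ (δ : ℕ) (d : Fin (n + 1) → MvPolynomial (Fin (n + 1)) ℂ), (∀ i, (d i).IsHomogeneous δ) ∧
      (∀ g ∈ q, mkDerivation ℂ d g ∈ q) ∧
      b * mkDerivation ℂ d a - a * mkDerivation ℂ d b ∉ q := by
  classical
  have := hq
  obtain ⟨d, hd, hd2⟩ := derq_auxY8
    (L := FractionRing (MvPolynomial (Fin (n + 1)) ℂ ⧸ q)) a b hbq hab
  obtain ⟨N, hN⟩ : ∃ N, ∀ i, (d i).totalDegree < N :=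
    ⟨(Finset.univ.sup fun i => (d i).totalDegree) + 1, fun i =>
      Nat.lt_succ_of_le (Finset.le_sup (f := fun i => (d i).totalDegree) (Finset.mem_univ i))⟩
  have hex : ∃ δ ∈ Finset.range N,
      b * mkDerivation ℂ (fun i => homogeneousComponent δ (d i)) a -
      a * mkDerivation ℂ (fun i => homogeneousComponent δ (d i)) b ∉ q := by
    by_contra hcon
    push Not at hcon
    apply hd2
    rw [mkDer_sumY8 d hN a, mkDer_sumY8 d hN b, Finset.mul_sum, Finset.mul_sum,
      ← Finset.sum_sub_distrib]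
    exact Ideal.sum_mem _ hcon
  obtain ⟨δ, _, hδ⟩ := hex
  refine ⟨δ, fun i => homogeneousComponent δ (d i), fun i =>
    homogeneousComponent_isHomogeneous _ _, ?_, hδ⟩
  -- homogeneous elements of q
  have hhom : ∀ (m : ℕ) (g : MvPolynomial (Fin (n + 1)) ℂ), g ∈ q → g.IsHomogeneous m →
      mkDerivation ℂ (fun i => homogeneousComponent δ (d i)) g ∈ q := by
    intro m g hgq hg
    by_cases hδN : δ < N
    · have h1 := hqh _ (hd g hgq) (m - 1 + δ)
      rw [mkDer_sumY8 d hN g, map_sum, Finset.sum_eq_single δ] at h1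
      · rwa [homogeneousComponent_of_mem ((mem_homogeneousSubmodule _ _).2 (mkDer_homY8 _
          (fun i => homogeneousComponent_isHomogeneous δ (d i)) g hg)), if_pos rfl] at h1
      · intro δ' _ hne
        rw [homogeneousComponent_of_mem ((mem_homogeneousSubmodule _ _).2 (mkDer_homY8 _
          (fun i => homogeneousComponent_isHomogeneous δ' (d i)) g hg)), if_neg (by omega)]
      · intro hn
        exact absurd (Finset.mem_range.2 hδN) hn
    · have h0 : (fun i => homogeneousComponent δ (d i)) = fun _ => 0 := by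
        funext i
        have := hN i
        exact homogeneousComponent_eq_zero _ _ (by omega)
      rw [h0, mkDer_applyY8]
      simp
  intro g hg
  rw [← sum_homogeneousComponent g, map_sum]
  exact Ideal.sum_mem _ fun m _ => hhom m _ (hqh g hg m) (homogeneousComponent_isHomogeneous m g)

end Pool.Agent.QY
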