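import Pool.Agent.Lib_MP_b9fedf_qy.DefsY

/-! PIECE Y4: projective elimination by determinants. -/

set_option autoImplicit false

namespace Pool.Agent.QY
open MvPolynomial Pool.Agent.SQ

/-- the exponents of degree `N`, as a finite set -/
private noncomputable def TT_elim_y (τ : Type) [Fintype τ] [DecidableEq τ] (N : ℕ) :
    Finset (τ →₀ ℕ) :=
  Finset.finsuppAntidiag Finset.univ N

private theorem mem_TT_elim_y {τ : Type} [Fintype τ] [DecidableEq τ] (N : ℕ) (α : τ →₀ ℕ) :
    α ∈ TT_elim_y τ N ↔ α.degree = N := by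
  unfold TT_elim_y
  rw [Finset.mem_finsuppAntidiag]
  constructor
  · rintro ⟨h, -⟩
    rw [Finsupp.degree_eq_sum]; exact h
  · intro h
    rw [Finsupp.degree_eq_sum] at h
    exact ⟨h, Finset.subset_univ _⟩

/-- coefficients of degree `N` -/
private noncomputable def LL_elim_y {τ : Type} [Fintype τ] [DecidableEq τ] (k : Type) [Field k]
    (N : ℕ) : MvPolynomial τ k →ₗ[k] ({α // α ∈ TT_elim_y τ N} → k) where
  toFun p := fun α => coeff α.1 p
  map_add' p q := by ext α; simp
  map_smul' c p := by ext α; simp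

private theorem null_elim_y {τ : Type} [Fintype τ] [DecidableEq τ] {ι : Type} {k : Type} [Field k]
    [IsAlgClosed k] (G : ι → MvPolynomial τ k)
    (h₀ : ∀ x : τ → k, (∀ i, eval x (G i) = 0) → x = 0) :
    ∃ N : ℕ, ∀ i : τ, (X i : MvPolynomial τ k) ^ N ∈ Ideal.span (Set.range G) := by
  have h1 : ∀ i : τ, ∃ n : ℕ, (X i : MvPolynomial τ k) ^ n ∈ Ideal.span (Set.range G) := by
    intro i
    have h2 : (X i : MvPolynomial τ k) ∈ (Ideal.span (Set.range G)).radical := by
      rw [← MvPolynomial.vanishingIdeal_zeroLocus_eq_radical (K := k)]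
      rw [MvPolynomial.mem_vanishingIdeal_iff]
      intro x hx
      rw [MvPolynomial.mem_zeroLocus_iff] at hx
      have h3 : x = 0 := by
        apply h₀
        intro j
        have := hx (G j) (Ideal.subset_span ⟨j, rfl⟩)
        simpa [MvPolynomial.aeval_eq_eval] using this
      rw [h3]; simp
    exact h2
  choose n hn using h1
  refine ⟨∑ i, n i, fun i => ?_⟩
  have h2 : n i ≤ ∑ i, n i := Finset.single_le_sum (fun _ _ => Nat.zero_le _) (Finset.mem_univ i)
  obtain ⟨m, hm⟩ := Nat.exists_eq_add_of_le h2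
  rw [hm, pow_add]
  exact Ideal.mul_mem_right _ _ (hn i)

private theorem mono_elim_y {τ : Type} [Fintype τ] [DecidableEq τ] {k : Type} [Field k]
    (I : Ideal (MvPolynomial τ k)) (N : ℕ) (hN : ∀ i : τ, (X i : MvPolynomial τ k) ^ N ∈ I)
    (α : τ →₀ ℕ) (hα : α.degree = Fintype.card τ * N + 1) :
    (monomial α (1 : k)) ∈ I := by
  have h1 : ∃ i, N ≤ α i := by
    by_contra hcon
    push Not at hcon
    have h2 : α.degree ≤ Fintype.card τ * N := by
      rw [Finsupp.degree_eq_sum]
      calc ∑ i, α i ≤ ∑ _i : τ, N := Finset.sum_le_sum fun i _ => (hcon i).le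
        _ = Fintype.card τ * N := by simp
    omega
  obtain ⟨i, hi⟩ := h1
  have h3 : monomial α (1 : k) = monomial (α - Finsupp.single i N) 1 * X i ^ N := by
    rw [X_pow_eq_monomial, monomial_mul, one_mul]
    congr 1
    rw [tsub_add_cancel_of_le]
    rw [Finsupp.single_le_iff]; exact hi
  rw [h3]
  exact Ideal.mul_mem_left _ _ (hN i)

/-- PIECE Y4 (ElimY.lean) -/
theorem elim_y {A : Type} [CommRing A] {τ : Type} [Fintype τ] [DecidableEq τ] {ι : Type}
    (F : ι → MvPolynomial τ A) (dF : ι → ℕ) (hF : ∀ i, (F i).IsHomogeneous (dF i))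
    {k₀ : Type} [Field k₀] [IsAlgClosed k₀] (φ₀ : A →+* k₀)
    (h₀ : ∀ x : τ → k₀, (∀ i, (F i).eval₂ φ₀ x = 0) → x = 0) :
    ∃ (N₁ : ℕ) (Θ : A), 1 ≤ N₁ ∧ φ₀ Θ ≠ 0 ∧ ∀ (k : Type) [Field k] (φ : A →+* k), φ Θ ≠ 0 →
      ∀ i : τ, X i ^ N₁ ∈ Ideal.span (Set.range fun i => MvPolynomial.map φ (F i)) := by
  classical
  obtain ⟨N, hN⟩ := null_elim_y (fun i => MvPolynomial.map φ₀ (F i)) (fun x hx => h₀ x
    (fun i => by rw [← hx i, eval_map]))
  set N₁ := Fintype.card τ * N + 1 with hN₁
  set T := {α // α ∈ TT_elim_y τ N₁} with hT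
  -- the products
  let P := {q : (τ →₀ ℕ) × ι // q.1.degree + dF q.2 = N₁}
  have hhom : ∀ (k : Type) [Field k] (φ : A →+* k) (β : τ →₀ ℕ) (j : ι),
      (monomial β (1 : k) * MvPolynomial.map φ (F j)).IsHomogeneous (β.degree + dF j) := by
    intro k _ φ β j
    exact (isHomogeneous_monomial 1 rfl).mul ((hF j).map φ)
  let v : P → (T → k₀) := fun q => LL_elim_y k₀ N₁ (monomial q.1.1 (1 : k₀) *
    MvPolynomial.map φ₀ (F q.1.2))
  set I := Ideal.span (Set.range fun i => MvPolynomial.map φ₀ (F i)) with hI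
  have hL : ∀ p ∈ I, ∀ q : MvPolynomial τ k₀,
      LL_elim_y k₀ N₁ (q * p) ∈ Submodule.span k₀ (Set.range v) := by
    intro p hp
    refine Submodule.span_induction (p := fun p _ => ∀ q : MvPolynomial τ k₀,
      LL_elim_y k₀ N₁ (q * p) ∈ Submodule.span k₀ (Set.range v)) ?_ ?_ ?_ ?_ hp
    · rintro _ ⟨j, rfl⟩ q
      induction q using MvPolynomial.induction_on' with
      | monomial β c =>
        have h1 : monomial β c * (MvPolynomial.map φ₀) (F j) =
            c • (monomial β (1 : k₀) * (MvPolynomial.map φ₀) (F j)) := by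
          rw [← smul_mul_assoc, smul_monomial, smul_eq_mul, mul_one]
        simp only
        rw [h1, map_smul]
        apply Submodule.smul_mem
        by_cases hb : β.degree + dF j = N₁
        · exact Submodule.subset_span ⟨⟨(β, j), hb⟩, rfl⟩
        · have h2 : LL_elim_y k₀ N₁ (monomial β (1 : k₀) * (MvPolynomial.map φ₀) (F j)) = 0 := by
            ext α
            have h3 := (hhom k₀ φ₀ β j).coeff_eq_zero (d := α.1) (by
              have := (mem_TT_elim_y N₁ α.1).1 α.2
              rw [this]; exact fun h => hb h.symm)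
            simpa [LL_elim_y] using h3
          rw [h2]; exact Submodule.zero_mem _
      | add q r hq hr =>
        simp only at hq hr ⊢
        rw [add_mul, map_add]
        exact Submodule.add_mem _ hq hr
    · intro q; simp
    · intro p p' _ _ hp hp' q
      rw [mul_add, map_add]
      exact Submodule.add_mem _ (hp q) (hp' q)
    · intro r p _ hp q
      rw [smul_eq_mul, ← mul_assoc]
      exact hp (q * r)
  have hspan : Submodule.span k₀ (Set.range v) = ⊤ := by
    rw [eq_top_iff, ← (Pi.basisFun k₀ T).span_eq, Submodule.span_le]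
    rintro _ ⟨α, rfl⟩
    have h1 := hL _ (mono_elim_y I N hN α.1 ((mem_TT_elim_y N₁ α.1).1 α.2)) 1
    have h2 : LL_elim_y k₀ N₁ (1 * monomial α.1 (1 : k₀)) = (Pi.basisFun k₀ T) α := by
      ext β
      simp only [LL_elim_y, one_mul, LinearMap.coe_mk, AddHom.coe_mk, coeff_monomial,
        Pi.basisFun_apply, Pi.single_apply]
      by_cases hab : α.1 = β.1
      · have : β = α := Subtype.ext hab.symm
        simp [this]
      · have : β ≠ α := fun h => hab (by rw [h])
        simp [hab, this]
    rw [h2] at h1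
    exact h1
  obtain ⟨κ, a, -, hsp, hli⟩ := exists_linearIndependent' k₀ v
  rw [hspan] at hsp
  let b : Module.Basis κ k₀ (T → k₀) := Module.Basis.mk hli (by rw [hsp])
  let e : T ≃ κ := (Pi.basisFun k₀ T).indexEquiv b
  let s : T → P := fun t => a (e t)
  let M : Matrix T T A := Matrix.of fun x y => coeff y.1 (monomial (s x).1.1 (1 : A) * F (s x).1.2)
  have hM : ∀ (k : Type) [Field k] (φ : A →+* k), φ M.det = (Matrix.of fun (x y : T) =>
      coeff y.1 (monomial (s x).1.1 (1 : k) * MvPolynomial.map φ (F (s x).1.2))).det := by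
    intro k _ φ
    rw [RingHom.map_det]
    congr 1
    ext x y
    simp only [M, RingHom.mapMatrix_apply, Matrix.map_apply, Matrix.of_apply]
    rw [← coeff_map, map_mul, map_monomial, map_one]
  refine ⟨N₁, M.det, by omega, ?_, ?_⟩
  · rw [hM]
    have h1 : LinearIndependent k₀ (fun t : T => v (s t)) := hli.comp e e.injective
    have h2 := (Matrix.linearIndependent_rows_iff_isUnit (A := (Matrix.of fun (x y : T) =>
      coeff y.1 (monomial (s x).1.1 (1 : k₀) * MvPolynomial.map φ₀ (F (s x).1.2))))).1 h1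
    exact ((Matrix.isUnit_iff_isUnit_det _).1 h2).ne_zero
  · intro k _ φ hφ i
    rw [hM] at hφ
    set B : Matrix T T k := Matrix.of fun (x y : T) =>
      coeff y.1 (monomial (s x).1.1 (1 : k) * MvPolynomial.map φ (F (s x).1.2)) with hB
    have hu : IsUnit B.det := isUnit_iff_ne_zero.2 hφ
    let i₀ : T := ⟨Finsupp.single i N₁, by
      rw [mem_TT_elim_y]; simp [Finsupp.degree_single]⟩
    let c : T → k := fun x => B⁻¹ i₀ x
    have hc : ∀ y : T, ∑ x, c x * B x y = if i₀ = y then 1 else 0 := by
      intro y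
      have := congrFun (congrFun (Matrix.nonsing_inv_mul B hu) i₀) y
      rw [Matrix.mul_apply, Matrix.one_apply] at this
      exact this
    have hQ : (X i : MvPolynomial τ k) ^ N₁ = ∑ x, C (c x) * (monomial (s x).1.1 (1 : k) *
        MvPolynomial.map φ (F (s x).1.2)) := by
      ext α
      rw [coeff_sum]
      by_cases hα : α.degree = N₁
      · let y : T := ⟨α, (mem_TT_elim_y N₁ α).2 hα⟩
        have h1 : ∀ x : T, coeff α (C (c x) * (monomial (s x).1.1 (1 : k) *
            MvPolynomial.map φ (F (s x).1.2))) = c x * B x y := by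
          intro x
          rw [coeff_C_mul]; rfl
        rw [Finset.sum_congr rfl fun x _ => h1 x, hc y, coeff_X_pow]
        by_cases h2 : Finsupp.single i N₁ = α
        · have : i₀ = y := Subtype.ext h2
          simp [h2, this]
        · have : i₀ ≠ y := fun h => h2 (congrArg Subtype.val h)
          simp [h2, this]
      · rw [coeff_X_pow, if_neg]
        · symm
          apply Finset.sum_eq_zero
          intro x _
          rw [coeff_C_mul, (hhom k φ (s x).1.1 (s x).1.2).coeff_eq_zero (by
            rw [(s x).2]; exact hα), mul_zero]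
        · rintro rfl
          exact hα (by simp [Finsupp.degree_single])
    rw [hQ]
    apply Ideal.sum_mem
    intro x _
    exact Ideal.mul_mem_left _ _ (Ideal.mul_mem_left _ _ (Ideal.subset_span ⟨_, rfl⟩))

end Pool.Agent.QY
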