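import Pool.Agent.Lib_MP_b9fedf_qy.DefsY

/-! Piece Y3: if powers of the coordinates of a point are combinations of `c` elements with
coefficients of lower degree over a field of algebraic functions of one variable, then `c + 2`
polynomials in the coordinates are algebraically dependent over the constants. -/

set_option autoImplicit false

namespace Pool.Agent.QY
open MvPolynomial Pool.Agent.SQ

private theorem fin_l_int {n c N₁ : ℕ} {E Ω : Type} [Field E] [Field Ω] {R : Type} [CommRing R]
    [Algebra R Ω] (S : Subalgebra R Ω) (σ : E →+* Ω) (hσ : ∀ e, σ e ∈ S) (x : Fin (n + 1) → Ω)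
    (v : Fin c → Ω) (hv : ∀ j, v j ∈ S) (h : Fin (n + 1) → Fin c → MvPolynomial (Fin (n + 1)) E)
    (hh : ∀ i j, (h i j).IsHomogeneous (N₁ - 1)) (hN : 1 ≤ N₁)
    (hx : ∀ i, x i ^ N₁ = ∑ j, v j * (h i j).eval₂ σ x) (i : Fin (n + 1)) :
    IsIntegral S (x i) := by
  classical
  let mon : (Fin (n + 1) → ℕ) → Ω := fun m => ∏ i, x i ^ m i
  let D := (n + 1) * N₁
  let T : Set Ω := mon '' {m | ∑ i, m i ≤ D}
  let M : Submodule S Ω := Submodule.span S T
  have hT : T.Finite := by
    refine Set.Finite.image _ ((Set.finite_Iic (fun _ : Fin (n + 1) => D)).subset ?_)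
    intro m hm i
    exact (Finset.single_le_sum (f := m) (fun _ _ => Nat.zero_le _) (Finset.mem_univ i)).trans hm
  have hadd : ∀ m m' : Fin (n + 1) → ℕ, mon (m + m') = mon m * mon m' := by
    intro m m'
    simp only [mon, Pi.add_apply, pow_add, Finset.prod_mul_distrib]
  have hsing : ∀ (i : Fin (n + 1)) (k : ℕ), mon (Pi.single i k) = x i ^ k := by
    intro i k
    simp only [mon]
    rw [Finset.prod_eq_single i]
    · rw [Pi.single_eq_same]
    · intro j _ hj
      rw [Pi.single_eq_of_ne hj, pow_zero]
    · intro h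
      exact absurd (Finset.mem_univ i) h
  have hmon : ∀ d, ∀ m : Fin (n + 1) → ℕ, ∑ i, m i = d → mon m ∈ M := by
    intro d
    induction d using Nat.strong_induction_on with
    | _ d ih =>
      intro m hm
      by_cases hd : d ≤ D
      · exact Submodule.subset_span ⟨m, by simpa [hm] using hd, rfl⟩
      · obtain ⟨i, hi⟩ : ∃ i, N₁ ≤ m i := by
          by_contra hcon
          push Not at hcon
          have h1 : ∑ i, m i ≤ ∑ _i : Fin (n + 1), N₁ :=
            Finset.sum_le_sum fun i _ => (hcon i).le
          rw [Finset.sum_const, Finset.card_univ, Fintype.card_fin, smul_eq_mul, hm] at h1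
          exact hd h1
        let m' : Fin (n + 1) → ℕ := m - Pi.single i N₁
        have hm' : m = m' + Pi.single i N₁ := by
          funext j
          simp only [m', Pi.add_apply, Pi.sub_apply]
          by_cases hj : j = i
          · subst hj
            rw [Pi.single_eq_same]
            omega
          · rw [Pi.single_eq_of_ne hj]
            omega
        have hs' : ∑ j, m' j + N₁ = d := by
          rw [← hm, hm']
          simp only [Pi.add_apply, Finset.sum_add_distrib]
          congr 1
          rw [Finset.sum_pi_single']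
          simp
        rw [hm', hadd, hsing, hx i, Finset.mul_sum]
        refine Submodule.sum_mem _ fun j _ => ?_
        rw [eval₂_eq', Finset.mul_sum, Finset.mul_sum]
        refine Submodule.sum_mem _ fun s hs => ?_
        have h1 : ∑ i, s i = N₁ - 1 := by
          have h2 := hh i j (mem_support_iff.1 hs)
          rw [← h2, Finsupp.weight_apply, Finsupp.sum_fintype _ _ (by simp)]
          simp
        have h2 : mon (m' + s) ∈ M := by
          refine ih (d - 1) (by omega) _ ?_
          simp only [Pi.add_apply, Finset.sum_add_distrib, h1]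
          omega
        rw [hadd] at h2
        have h3 := Submodule.smul_mem M
          (⟨v j, hv j⟩ * ⟨σ (coeff s (h i j)), hσ _⟩ : S) h2
        convert h3 using 1
        rw [Algebra.smul_def]
        simp only [map_mul]
        show mon m' * (v j * (σ (coeff s (h i j)) * ∏ i, x i ^ s i)) =
          (v j * σ (coeff s (h i j))) * (mon m' * mon s)
        simp only [mon]
        ring
  have hM1 : (1 : Ω) ∈ M := by
    have := hmon 0 0 (by simp)
    simpa [mon] using this
  refine isIntegral_of_smul_mem_submodule M ?_ (Submodule.fg_span hT) (x i) ?_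
  · intro h0
    rw [h0, Submodule.mem_bot] at hM1
    exact one_ne_zero hM1
  · intro y hy
    induction hy using Submodule.span_induction with
    | mem y hy =>
      obtain ⟨m, -, rfl⟩ := hy
      have := hmon _ (m + Pi.single i 1) rfl
      rw [hadd, hsing, pow_one, mul_comm] at this
      exact this
    | zero => simp
    | add y z _ _ hy hz => rw [smul_add]; exact M.add_mem hy hz
    | smul a y _ hy => rw [smul_comm]; exact M.smul_mem _ hy

private theorem fin_l_map {E Ω : Type} [Field E] [Field Ω] [Algebra ℂ E] [Algebra ℂ Ω]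
    (σ : E →ₐ[ℂ] Ω) (t : E) (e : E) (h : IsAlgebraic (Algebra.adjoin ℂ {t}) e)
    (s : Set Ω) (hs : σ t ∈ s) : IsAlgebraic (Algebra.adjoin ℂ s) (σ e) := by
  have hmem : ∀ a : Algebra.adjoin ℂ ({t} : Set E), σ a ∈ Algebra.adjoin ℂ s := by
    rintro ⟨a, ha⟩
    have h1 : σ a ∈ (Algebra.adjoin ℂ ({t} : Set E)).map σ := ⟨a, ha, rfl⟩
    rw [AlgHom.map_adjoin] at h1
    refine Algebra.adjoin_mono ?_ h1
    rw [Set.image_singleton]
    exact Set.singleton_subset_iff.2 hs
  let φ : Algebra.adjoin ℂ ({t} : Set E) →+* Algebra.adjoin ℂ s :=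
    ((σ.comp (Algebra.adjoin ℂ ({t} : Set E)).val).codRestrict _ hmem).toRingHom
  have hφ : Function.Injective φ := by
    intro a b hab
    have := congrArg Subtype.val hab
    exact Subtype.ext (σ.toRingHom.injective this)
  obtain ⟨p, hp0, hp⟩ := h
  refine ⟨p.map φ, fun h0 => hp0 ((Polynomial.map_eq_zero_iff hφ).1 h0), ?_⟩
  rw [Polynomial.aeval_def, Polynomial.eval₂_map]
  have h1 : (algebraMap (Algebra.adjoin ℂ s) Ω).comp φ =
      (σ : E →+* Ω).comp (algebraMap (Algebra.adjoin ℂ ({t} : Set E)) E) :=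
    RingHom.ext fun _ => rfl
  rw [h1]
  have h2 := Polynomial.hom_eval₂ p (algebraMap (Algebra.adjoin ℂ ({t} : Set E)) E)
    (σ : E →+* Ω) e
  rw [Polynomial.aeval_def] at hp
  rw [hp, map_zero] at h2
  exact h2.symm

/-- PIECE Y3 -/
theorem fin_l {n c N₁ : ℕ} {E Ω : Type} [Field E] [Field Ω] [Algebra ℂ E] (t : E)
    (halg : ∀ x : E, IsAlgebraic (Algebra.adjoin ℂ {t}) x) (σ : E →+* Ω) (x : Fin (n + 1) → Ω)
    (v : Fin c → Ω) (h : Fin (n + 1) → Fin c → MvPolynomial (Fin (n + 1)) E)
    (hh : ∀ i j, (h i j).IsHomogeneous (N₁ - 1)) (hN : 1 ≤ N₁)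
    (hx : ∀ i, x i ^ N₁ = ∑ j, v j * (h i j).eval₂ σ x)
    (w : Fin (c + 2) → MvPolynomial (Fin (n + 1)) ℂ) :
    ∃ G : MvPolynomial (Fin (c + 2)) ℂ, G ≠ 0 ∧
      (aeval w G).eval₂ (σ.comp (algebraMap ℂ E)) x = 0 := by
  classical
  let _ : Algebra ℂ Ω := (σ.comp (algebraMap ℂ E)).toAlgebra
  let σ' : E →ₐ[ℂ] Ω := { σ with commutes' := fun _ => rfl }
  by_contra hcon
  have hW : AlgebraicIndependent ℂ (fun j => aeval x (w j)) := by
    rw [algebraicIndependent_iff]
    intro G hG
    by_contra hG0
    refine hcon ⟨G, hG0, ?_⟩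
    have h1 : aeval x (aeval w G) = aeval (fun j => aeval x (w j)) G := by
      have h2 : (aeval x).comp (aeval w) = (aeval (fun j => aeval x (w j)) :
          MvPolynomial (Fin (c + 2)) ℂ →ₐ[ℂ] Ω) := by
        apply MvPolynomial.algHom_ext
        intro j
        simp
      exact congrArg (fun f => f G) h2
    rw [hG, aeval_def] at h1
    exact h1
  let s : Set Ω := insert (σ t) (Set.range v)
  let S := Subalgebra.algebraicClosure (Algebra.adjoin ℂ s) Ω
  have hσS : ∀ e, σ e ∈ S := fun e =>
    fin_l_map σ' t e (halg e) s (Set.mem_insert _ _)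
  have hvS : ∀ j, v j ∈ S := fun j =>
    isAlgebraic_algebraMap (⟨v j, Algebra.subset_adjoin (Set.mem_insert_of_mem _ ⟨j, rfl⟩)⟩ :
      Algebra.adjoin ℂ s)
  have hxS : ∀ i, x i ∈ S := fun i => by
    have h1 := (fin_l_int S σ hσS x v hvS h hh hN hx i).isAlgebraic
    exact h1.restrictScalars (Algebra.adjoin ℂ s)
  have hWS : ∀ j, aeval x (w j) ∈ S := by
    intro j
    have h1 : aeval x (w j) ∈ S.restrictScalars ℂ := by
      have h2 : aeval x (w j) ∈ (aeval x : MvPolynomial (Fin (n + 1)) ℂ →ₐ[ℂ] Ω).range := ⟨_, rfl⟩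
      rw [← Algebra.adjoin_range_eq_range_aeval] at h2
      refine Algebra.adjoin_le ?_ h2
      rintro _ ⟨i, rfl⟩
      exact hxS i
    exact h1
  have hind : (AlgebraicIndependent.matroid ℂ Ω).Indep (Set.range fun j => aeval x (w j)) :=
    hW.to_subtype_range
  have hsub : (Set.range fun j => aeval x (w j)) ⊆ (AlgebraicIndependent.matroid ℂ Ω).closure s := by
    rw [AlgebraicIndependent.matroid_closure_eq]
    rintro _ ⟨j, rfl⟩
    exact hWS j
  have h1 := hind.encard_le_eRk_of_subset hsub
  rw [Matroid.eRk_closure_eq] at h1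
  have h2 := h1.trans (Matroid.eRk_le_encard _ s)
  have h3 : (Set.range fun j => aeval x (w j)).encard = (c + 2 : ℕ) := by
    rw [← Set.image_univ, hW.injective.encard_image, Set.encard_univ]
    simp
  have h4 : s.encard ≤ (c + 1 : ℕ) := by
    refine (Set.encard_insert_le _ _).trans ?_
    have h5 : (Set.range v).encard ≤ (c : ℕ) := by
      rw [← Set.image_univ]
      refine (Set.encard_image_le _ _).trans ?_
      rw [Set.encard_univ]
      simp
    push_cast
    gcongr
  rw [h3] at h2
  have h5 := h2.trans h4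
  norm_cast at h5
  omega

end Pool.Agent.QY
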