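import Pool.Agent.Lib_MP_b9fedf_qy.DerExt
import Pool.Agent.Lib_MP_b9fedf_qy.DefsY

/-! Points over algebraic functions and derivations. -/

set_option autoImplicit false

namespace Pool.Agent.QY
open MvPolynomial Pool.Agent.SQ

/-- a function with the rules of a derivation which kills the constants and `t` is zero -/
private theorem uniq_lemx {E Ω : Type} [Field E] [Algebra ℂ E] [Field Ω] (σ : E →+* Ω) (t : E)
    (halg : ∀ x : E, IsAlgebraic (Algebra.adjoin ℂ {t}) x) (Δ : E → Ω)
    (hadd : ∀ x y, Δ (x + y) = Δ x + Δ y) (hmul : ∀ x y, Δ (x * y) = σ x * Δ y + σ y * Δ x)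
    (hc : ∀ c : ℂ, Δ (algebraMap ℂ E c) = 0) (ht : Δ t = 0) (x : E) : Δ x = 0 := by
  have h0 : Δ 0 = 0 := by
    have := hadd 0 0
    rw [add_zero] at this
    exact left_eq_add.mp this
  have hpol : ∀ r : Polynomial ℂ, Δ (Polynomial.aeval t r) = 0 := by
    intro r
    induction r using Polynomial.induction_on with
    | C a => rw [Polynomial.aeval_C]; exact hc a
    | add p q hp hq => rw [map_add, hadd, hp, hq, add_zero]
    | monomial n a hn =>
      rw [pow_succ, ← mul_assoc]
      generalize Polynomial.C a * Polynomial.X ^ n = Q at hn ⊢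
      rw [map_mul, Polynomial.aeval_X, hmul, hn, ht, mul_zero, mul_zero, add_zero]
  set K := IntermediateField.adjoin ℂ {t} with hKdef
  have hK : ∀ k : K, Δ (k : E) = 0 := by
    intro k
    obtain ⟨r, s, hrs⟩ := (IntermediateField.mem_adjoin_simple_iff ℂ (k : E)).mp k.2
    by_cases hs : Polynomial.aeval t s = 0
    · rw [hrs, hs, div_zero, h0]
    have h1 : (k : E) * Polynomial.aeval t s = Polynomial.aeval t r := by
      rw [hrs, div_mul_cancel₀ _ hs]
    have h2 := congrArg Δ h1
    rw [hmul, hpol, hpol, mul_zero, zero_add] at h2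
    rcases mul_eq_zero.1 h2 with h3 | h3
    · exact absurd ((map_eq_zero σ).1 h3) hs
    · exact h3
  have hq : ∀ q : Polynomial K, Δ (Polynomial.aeval x q) =
      σ (Polynomial.aeval x (Polynomial.derivative q)) * Δ x := by
    intro q
    induction q using Polynomial.induction_on with
    | C a =>
      rw [Polynomial.aeval_C, Polynomial.derivative_C, map_zero, map_zero, zero_mul]
      exact hK a
    | add p q hp hq => rw [map_add, hadd, hp, hq, Polynomial.derivative_add, map_add, map_add,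
        add_mul]
    | monomial n a hn =>
      rw [pow_succ, ← mul_assoc]
      generalize Polynomial.C a * Polynomial.X ^ n = Q at hn ⊢
      rw [map_mul, Polynomial.aeval_X, hmul, hn, Polynomial.derivative_mul,
        Polynomial.derivative_X, mul_one, map_add, map_mul, Polynomial.aeval_X, map_add, map_mul]
      ring
  have hx : IsIntegral K x := by
    have h1 := halg x
    have h2 : ∀ a : Algebra.adjoin ℂ {t}, (a : E) ∈ K := fun a =>
      IntermediateField.algebra_adjoin_le_adjoin ℂ {t} a.2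
    obtain ⟨p, hp, hpx⟩ := h1
    let ι : Algebra.adjoin ℂ {t} →+* K :=
      (Subalgebra.inclusion (IntermediateField.algebra_adjoin_le_adjoin ℂ {t})).toRingHom
    have hι : Function.Injective ι := Subalgebra.inclusion_injective _
    rw [← isAlgebraic_iff_isIntegral]
    refine ⟨p.map ι, ?_, ?_⟩
    · rwa [Ne, Polynomial.map_eq_zero_iff hι]
    · rw [Polynomial.aeval_def, Polynomial.eval₂_map]
      rw [Polynomial.aeval_def] at hpx
      exact hpx
  have : CharZero E := charZero_of_injective_algebraMap (algebraMap ℂ E).injective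
  have : CharZero K := charZero_of_injective_algebraMap (algebraMap ℂ K).injective
  have h1 := hq (minpoly K x)
  rw [minpoly.aeval, h0] at h1
  have hsep : (minpoly K x).Separable := (minpoly.irreducible hx).separable
  have h2 : Polynomial.aeval x (Polynomial.derivative (minpoly K x)) ≠ 0 :=
    hsep.aeval_derivative_ne_zero (minpoly.aeval _ x)
  rcases mul_eq_zero.1 h1.symm with h3 | h3
  · exact absurd ((map_eq_zero σ).1 h3) h2
  · exact h3

theorem lem_x {n : ℕ} {τ : Type} [Fintype τ] {q : Ideal (MvPolynomial (Fin (n + 1)) ℂ)}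
    (hq : q.IsPrime)
    (dd : Derivation ℂ (MvPolynomial (Fin (n + 1)) ℂ) (MvPolynomial (Fin (n + 1)) ℂ))
    (hdd : ∀ g ∈ q, dd g ∈ q)
    {E : Type} [Field E] [Algebra ℂ E] (t : E)
    (halg : ∀ x : E, IsAlgebraic (Algebra.adjoin ℂ {t}) x) (D : Derivation ℂ E E)
    (hDt : D t ≠ 0) {Ω : Type} [Field Ω] (σ : E →+* Ω) (x : Fin (n + 1) → Ω)
    (hx : ∀ g : MvPolynomial (Fin (n + 1)) ℂ,
      g.eval₂ (σ.comp (algebraMap ℂ E)) x = 0 ↔ g ∈ q)
    (P : τ → MvPolynomial (Fin (n + 1)) ℂ) (y : τ → E)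
    (h1 : ∑ i, σ (y i) * (P i).eval₂ (σ.comp (algebraMap ℂ E)) x = 0)
    (h2 : ∑ i, σ (D (y i)) * (P i).eval₂ (σ.comp (algebraMap ℂ E)) x = 0) :
    ∑ i, σ (y i) * (dd (P i)).eval₂ (σ.comp (algebraMap ℂ E)) x = 0 := by
  classical
  set ψ : ℂ →+* Ω := σ.comp (algebraMap ℂ E) with hψ
  have hcharΩ : CharZero Ω := charZero_of_injective_ringHom ψ.injective
  have hdom : IsDomain (MvPolynomial (Fin (n + 1)) ℂ ⧸ q) :=
    (Ideal.Quotient.isDomain_iff_prime q).mpr hq
  -- the embedding of the coordinate ring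
  let φ : MvPolynomial (Fin (n + 1)) ℂ ⧸ q →+* Ω :=
    Ideal.Quotient.lift q (MvPolynomial.eval₂Hom ψ x) (fun g hg => (hx g).mpr hg)
  have hφ : ∀ g, φ (Ideal.Quotient.mk q g) = g.eval₂ ψ x := fun g => rfl
  let _ : Algebra (MvPolynomial (Fin (n + 1)) ℂ ⧸ q) Ω := φ.toAlgebra
  have hinj : Function.Injective (algebraMap (MvPolynomial (Fin (n + 1)) ℂ ⧸ q) Ω) := by
    rw [injective_iff_map_eq_zero]
    intro a ha
    obtain ⟨g, rfl⟩ := Ideal.Quotient.mk_surjective a
    exact Ideal.Quotient.eq_zero_iff_mem.mpr ((hx g).mp ha)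
  -- the induced derivation
  have hdiff : ∀ g g' : MvPolynomial (Fin (n + 1)) ℂ,
      Ideal.Quotient.mk q g = Ideal.Quotient.mk q g' → (dd g).eval₂ ψ x = (dd g').eval₂ ψ x := by
    intro g g' h
    have h3 : g - g' ∈ q := (Ideal.Quotient.eq).mp h
    have h4 := (hx _).mpr (hdd _ h3)
    rw [map_sub, eval₂_sub, sub_eq_zero] at h4
    exact h4
  choose s hs using (Ideal.Quotient.mk_surjective (I := q))
  let f : (MvPolynomial (Fin (n + 1)) ℂ ⧸ q) →+ Ω :=
    { toFun := fun a => (dd (s a)).eval₂ ψ x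
      map_zero' := by
        rw [hdiff (s 0) 0 (by rw [hs, map_zero]), map_zero, eval₂_zero]
      map_add' := by
        intro a b
        rw [hdiff (s (a + b)) (s a + s b) (by rw [hs, map_add, hs, hs]), map_add, eval₂_add] }
  let d : Derivation ℤ (MvPolynomial (Fin (n + 1)) ℂ ⧸ q) Ω :=
    Derivation.mk' f.toIntLinearMap (by
      intro a b
      show (dd (s (a * b))).eval₂ ψ x = φ a * (dd (s b)).eval₂ ψ x + φ b * (dd (s a)).eval₂ ψ x
      rw [hdiff (s (a * b)) (s a * s b) (by rw [hs, map_mul, hs, hs]), Derivation.leibniz,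
        eval₂_add, smul_eq_mul, smul_eq_mul, eval₂_mul, eval₂_mul]
      conv_rhs => rw [← hs a, ← hs b]
      rw [hφ, hφ, hs, hs])
  have hd : ∀ g, d (Ideal.Quotient.mk q g) = (dd g).eval₂ ψ x := by
    intro g
    exact hdiff _ _ (hs _)
  obtain ⟨Δ, hΔ⟩ := der_extend hinj d
  have hΔg : ∀ g : MvPolynomial (Fin (n + 1)) ℂ, Δ (g.eval₂ ψ x) = (dd g).eval₂ ψ x := by
    intro g
    rw [← hd]
    exact hΔ (Ideal.Quotient.mk q g)
  have hΔc : ∀ c : ℂ, Δ (ψ c) = 0 := by
    intro c
    have h3 := hΔg (C c)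
    rw [eval₂_C] at h3
    rw [h3, ← MvPolynomial.algebraMap_eq, Derivation.map_algebraMap, eval₂_zero]
  -- comparison with `D`
  have hcomp : ∀ c : E, σ (D t) * Δ (σ c) - Δ (σ t) * σ (D c) = 0 := by
    refine uniq_lemx σ t halg (fun c => σ (D t) * Δ (σ c) - Δ (σ t) * σ (D c)) ?_ ?_ ?_ ?_
    · intro a b
      simp only [map_add]
      ring
    · intro a b
      simp only [map_mul, Derivation.leibniz, smul_eq_mul, map_add]
      ring
    · intro c
      have h3 : Δ (σ (algebraMap ℂ E c)) = 0 := hΔc c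
      rw [h3, Derivation.map_algebraMap, map_zero, mul_zero, mul_zero, sub_zero]
    · ring
  have hDt' : σ (D t) ≠ 0 := fun h => hDt ((map_eq_zero σ).mp h)
  have h3 := congrArg Δ h1
  rw [map_sum, map_zero] at h3
  have h4 : ∀ i, Δ (σ (y i) * (P i).eval₂ ψ x) = σ (y i) * (dd (P i)).eval₂ ψ x +
      (P i).eval₂ ψ x * Δ (σ (y i)) := by
    intro i
    rw [Derivation.leibniz, hΔg, smul_eq_mul, smul_eq_mul]
  rw [Finset.sum_congr rfl fun i _ => h4 i, Finset.sum_add_distrib] at h3
  have h5 : σ (D t) * ∑ i, (P i).eval₂ ψ x * Δ (σ (y i)) = 0 := by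
    rw [Finset.mul_sum]
    have h6 : ∀ i, σ (D t) * ((P i).eval₂ ψ x * Δ (σ (y i))) =
        Δ (σ t) * (σ (D (y i)) * (P i).eval₂ ψ x) := by
      intro i
      have := hcomp (y i)
      linear_combination (P i).eval₂ ψ x * this
    rw [Finset.sum_congr rfl fun i _ => h6 i, ← Finset.mul_sum, h2, mul_zero]
  rw [(mul_eq_zero.mp h5).resolve_left hDt', add_zero] at h3
  exact h3

end Pool.Agent.QY
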