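import Pool.Agent.Lib_MP_b9fedf_qy.DefsY
import Pool.Agent.Lib_MP_b9fedf_qy.LemX
import Pool.Agent.Lib_MP_b9fedf_qy.FinL

/-! Piece Y5: the exceptional form of a pencil of hypersurfaces in an arbitrary variety. -/

set_option autoImplicit false

namespace Pool.Agent.QY
open MvPolynomial Pool.Agent.SQ

/-- the value of a homogeneous polynomial at a scaled point -/
private theorem hom_exc_y {n : ℕ} {k A : Type} [CommRing k] [CommRing A] (φ : k →+* A)
    (x : Fin (n + 1) → A) (g : MvPolynomial (Fin (n + 1)) k) (d : ℕ) (hg : g.IsHomogeneous d) :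
    g.eval₂ ((Polynomial.C : A →+* Polynomial A).comp φ)
      (fun i => Polynomial.C (x i) * Polynomial.X) =
      Polynomial.C (g.eval₂ φ x) * Polynomial.X ^ d := by
  rw [eval₂_eq', eval₂_eq', map_sum, Finset.sum_mul]
  refine Finset.sum_congr rfl fun s hs => ?_
  have h1 : ∑ i, s i = d := by
    have h2 := hg (mem_support_iff.1 hs)
    rw [← h2, Finsupp.weight_apply, Finsupp.sum_fintype _ _ (by simp)]
    simp
  rw [map_mul, map_prod]
  simp only [mul_pow, Finset.prod_mul_distrib, map_pow]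
  rw [Finset.prod_pow_eq_pow_sum, h1, mul_assoc]
  rfl

/-- the coefficients of the value at a scaled point -/
private theorem coeff_exc_y {n : ℕ} {k A : Type} [CommRing k] [CommRing A] (φ : k →+* A)
    (x : Fin (n + 1) → A) (g : MvPolynomial (Fin (n + 1)) k) (d : ℕ) :
    (g.eval₂ ((Polynomial.C : A →+* Polynomial A).comp φ)
      (fun i => Polynomial.C (x i) * Polynomial.X)).coeff d =
      (homogeneousComponent d g).eval₂ φ x := by
  classical
  conv_lhs => rw [← sum_homogeneousComponent g]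
  rw [eval₂_sum, Polynomial.finsetSum_coeff]
  have h1 : ∀ i ∈ Finset.range (g.totalDegree + 1),
      ((homogeneousComponent i g).eval₂ ((Polynomial.C : A →+* Polynomial A).comp φ)
        (fun i => Polynomial.C (x i) * Polynomial.X)).coeff d =
      if i = d then (homogeneousComponent i g).eval₂ φ x else 0 := by
    intro i _
    rw [hom_exc_y φ x _ i (homogeneousComponent_isHomogeneous i g),
      Polynomial.coeff_C_mul_X_pow]
    by_cases h : d = i
    · rw [if_pos h, if_pos h.symm]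
    · rw [if_neg h, if_neg (Ne.symm h)]
  rw [Finset.sum_congr rfl h1, Finset.sum_ite_eq']
  split_ifs with h2
  · rfl
  · rw [homogeneousComponent_eq_zero, eval₂_zero]
    rw [Finset.mem_range, not_lt] at h2
    omega

/-- PIECE Y5 (ExcY.lean; uses lem_x, fin_l) -/
theorem exc_y {n r c N₁ e : ℕ} {τ : Type} [Fintype τ]
    {q : Ideal (MvPolynomial (Fin (n + 1)) ℂ)} (hq : q.IsPrime) (hqh : HomI q)
    (htr : Tr q (c + 2))
    (d : Fin r → Derivation ℂ (MvPolynomial (Fin (n + 1)) ℂ) (MvPolynomial (Fin (n + 1)) ℂ))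
    (hd : ∀ a, ∀ g ∈ q, d a g ∈ q)
    (P : τ → MvPolynomial (Fin (n + 1)) ℂ) (hP : ∀ x, (P x).IsHomogeneous e)
    (ℓ : Fin c → Fin (n + 1) → ℂ) (s : MvPolynomial τ ℂ) (hN₁ : 1 ≤ N₁)
    (hs : ∀ (E : Type) [Field E] (φ : ℂ →+* E) (y : τ → E), s.eval₂ φ y ≠ 0 →
      ∀ i, X i ^ N₁ ∈ q.map (MvPolynomial.map φ) ⊔
        Ideal.span {∑ x, C (y x) * MvPolynomial.map φ (P x)} ⊔
        Ideal.span (Set.range fun a => ∑ x, C (y x) * MvPolynomial.map φ (d a (P x))) ⊔
        Ideal.span (Set.range fun j => MvPolynomial.map φ (lin (ℓ j)))) :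
    ExcOn q P s := by
  classical
  intro E _ _ t ht halg D hDt y hy
  let φ : ℂ →+* E := algebraMap ℂ E
  let J : Ideal (MvPolynomial (Fin (n + 1)) E) := q.map (MvPolynomial.map φ) ⊔
    Ideal.span {∑ x, C (y x) * MvPolynomial.map φ (P x),
      ∑ x, C (D (y x)) * MvPolynomial.map φ (P x)}
  by_cases hJ : ∃ (dZ : ℕ) (Z : MvPolynomial (Fin (n + 1)) ℂ), Z ∉ q ∧ Z.IsHomogeneous dZ ∧
      MvPolynomial.map φ Z ∈ J
  · obtain ⟨dZ, Z, hZq, hZh, hZJ⟩ := hJ
    refine ⟨dZ, Z, hZq, hZh, ?_⟩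
    intro Ω _ σ f h1 h2 h3
    have hle : J ≤ RingHom.ker (eval₂Hom σ f) := by
      refine sup_le ?_ ?_
      · rw [Ideal.map_le_iff_le_comap]
        intro g hg
        show eval₂Hom σ f (MvPolynomial.map φ g) = 0
        rw [coe_eval₂Hom, eval₂_map]
        exact h1 g hg
      · rw [Ideal.span_le]
        rintro g (rfl | rfl)
        · show eval₂Hom σ f _ = 0
          rw [map_sum, ← h2]
          refine Finset.sum_congr rfl fun x _ => ?_
          rw [map_mul, eval₂Hom_C, coe_eval₂Hom, eval₂_map]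
        · show eval₂Hom σ f _ = 0
          rw [map_sum, ← h3]
          refine Finset.sum_congr rfl fun x _ => ?_
          rw [map_mul, eval₂Hom_C, coe_eval₂Hom, eval₂_map]
    have h4 : eval₂Hom σ f (MvPolynomial.map φ Z) = 0 := hle hZJ
    rw [coe_eval₂Hom, eval₂_map] at h4
    exact h4
  · exfalso
    push Not at hJ
    let M : Submonoid (MvPolynomial (Fin (n + 1)) E) :=
      { carrier := {w | ∃ (dZ : ℕ) (Z : MvPolynomial (Fin (n + 1)) ℂ), Z ∉ q ∧
          Z.IsHomogeneous dZ ∧ MvPolynomial.map φ Z = w}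
        mul_mem' := by
          rintro a b ⟨da, Za, ha1, ha2, rfl⟩ ⟨db, Zb, hb1, hb2, rfl⟩
          refine ⟨da + db, Za * Zb, ?_, ha2.mul hb2, map_mul _ _ _⟩
          intro h
          rcases hq.mem_or_mem h with h | h
          · exact ha1 h
          · exact hb1 h
        one_mem' := ⟨0, 1, (Ideal.ne_top_iff_one q).1 hq.ne_top, isHomogeneous_one _ _,
          map_one _⟩ }
    have hdisj : Disjoint (J : Set (MvPolynomial (Fin (n + 1)) E)) M := by
      rw [Set.disjoint_left]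
      rintro w hw ⟨dZ, Z, h1, h2, rfl⟩
      exact hJ dZ Z h1 h2 hw
    obtain ⟨𝔓, h𝔓, hJ𝔓, hdis⟩ := Ideal.exists_le_prime_disjoint J M hdisj
    let B : Type := MvPolynomial (Fin (n + 1)) E ⧸ 𝔓
    let Ω₀ : Type := FractionRing B
    let π : MvPolynomial (Fin (n + 1)) E →+* Ω₀ := (algebraMap B Ω₀).comp (Ideal.Quotient.mk 𝔓)
    have hπ : ∀ g, π g = 0 ↔ g ∈ 𝔓 := by
      intro g
      show algebraMap B Ω₀ (Ideal.Quotient.mk 𝔓 g) = 0 ↔ _
      rw [map_eq_zero_iff _ (IsFractionRing.injective B Ω₀), Ideal.Quotient.eq_zero_iff_mem]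
    let φ₀ : E →+* Ω₀ := π.comp C
    let x₀ : Fin (n + 1) → Ω₀ := fun i => π (X i)
    have hev : ∀ g : MvPolynomial (Fin (n + 1)) E, g.eval₂ φ₀ x₀ = π g := by
      intro g
      have h1 : eval₂Hom φ₀ x₀ = π := by
        apply MvPolynomial.ringHom_ext
        · intro a
          rw [eval₂Hom_C]
          rfl
        · intro i
          rw [eval₂Hom_X']
      rw [← coe_eval₂Hom, h1]
    have hev' : ∀ g : MvPolynomial (Fin (n + 1)) ℂ,
        g.eval₂ (φ₀.comp φ) x₀ = π (MvPolynomial.map φ g) := by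
      intro g
      rw [← hev, eval₂_map]
    have hq0 : ∀ g ∈ q, g.eval₂ (φ₀.comp φ) x₀ = 0 := by
      intro g hg
      rw [hev', hπ]
      exact hJ𝔓 (Ideal.mem_sup_left (Ideal.mem_map_of_mem _ hg))
    have hhom : ∀ (dZ : ℕ) (g : MvPolynomial (Fin (n + 1)) ℂ), g.IsHomogeneous dZ →
        g.eval₂ (φ₀.comp φ) x₀ = 0 → g ∈ q := by
      intro dZ g hg h0
      by_contra hgq
      rw [hev', hπ] at h0
      exact Set.disjoint_left.1 hdis h0 ⟨dZ, g, hgq, hg, rfl⟩
    have hQ0 : ∑ x, φ₀ (y x) * (P x).eval₂ (φ₀.comp φ) x₀ = 0 := by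
      have h1 : (∑ x, C (y x) * MvPolynomial.map φ (P x) : MvPolynomial (Fin (n + 1)) E) ∈ 𝔓 :=
        hJ𝔓 (Ideal.mem_sup_right (Ideal.subset_span (Set.mem_insert _ _)))
      rw [← hπ, map_sum] at h1
      rw [← h1]
      refine Finset.sum_congr rfl fun x _ => ?_
      rw [map_mul, hev']
      rfl
    have hD0 : ∑ x, φ₀ (D (y x)) * (P x).eval₂ (φ₀.comp φ) x₀ = 0 := by
      have h1 : (∑ x, C (D (y x)) * MvPolynomial.map φ (P x) : MvPolynomial (Fin (n + 1)) E) ∈
          𝔓 :=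
        hJ𝔓 (Ideal.mem_sup_right (Ideal.subset_span (Set.mem_insert_of_mem _ rfl)))
      rw [← hπ, map_sum] at h1
      rw [← h1]
      refine Finset.sum_congr rfl fun x _ => ?_
      rw [map_mul, hev']
      rfl
    let Ω : Type := FractionRing (Polynomial Ω₀)
    let ι : Polynomial Ω₀ →+* Ω := algebraMap (Polynomial Ω₀) Ω
    have hι : Function.Injective ι := IsFractionRing.injective (Polynomial Ω₀) Ω
    let ψ : E →+* Polynomial Ω₀ := (Polynomial.C : Ω₀ →+* Polynomial Ω₀).comp φ₀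
    let z : Fin (n + 1) → Polynomial Ω₀ := fun i => Polynomial.C (x₀ i) * Polynomial.X
    let σ : E →+* Ω := ι.comp ψ
    let x : Fin (n + 1) → Ω := fun i => ι (z i)
    have hσ : ∀ g : MvPolynomial (Fin (n + 1)) E, g.eval₂ σ x = ι (g.eval₂ ψ z) := by
      intro g
      rw [← coe_eval₂Hom, ← coe_eval₂Hom]
      have h1 : eval₂Hom σ x = ι.comp (eval₂Hom ψ z) := by
        apply MvPolynomial.ringHom_ext
        · intro a
          rw [eval₂Hom_C]
          show ι (ψ a) = ι (eval₂Hom ψ z (C a))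
          rw [eval₂Hom_C]
        · intro i
          rw [eval₂Hom_X']
          show ι (z i) = ι (eval₂Hom ψ z (X i))
          rw [eval₂Hom_X']
      rw [h1]
      rfl
    have hσ' : ∀ g : MvPolynomial (Fin (n + 1)) ℂ,
        g.eval₂ (σ.comp φ) x = ι (g.eval₂ (ψ.comp φ) z) := by
      intro g
      rw [← eval₂_map, hσ, eval₂_map]
    have hcf : ∀ (g : MvPolynomial (Fin (n + 1)) ℂ) (l : ℕ), (g.eval₂ (ψ.comp φ) z).coeff l =
        (homogeneousComponent l g).eval₂ (φ₀.comp φ) x₀ := fun g l =>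
      coeff_exc_y (φ₀.comp φ) x₀ g l
    have hgen : ∀ g : MvPolynomial (Fin (n + 1)) ℂ, g.eval₂ (σ.comp φ) x = 0 ↔ g ∈ q := by
      intro g
      rw [hσ', map_eq_zero_iff _ hι]
      constructor
      · intro h
        rw [← sum_homogeneousComponent g]
        refine q.sum_mem fun l _ => ?_
        refine hhom l _ (homogeneousComponent_isHomogeneous l g) ?_
        rw [← hcf, h, Polynomial.coeff_zero]
      · intro h
        apply Polynomial.ext
        intro l
        rw [hcf, Polynomial.coeff_zero]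
        exact hq0 _ (hqh g h l)
    have hPz : ∀ a, (P a).eval₂ (ψ.comp φ) z =
        Polynomial.C ((P a).eval₂ (φ₀.comp φ) x₀) * Polynomial.X ^ e := fun a =>
      hom_exc_y (φ₀.comp φ) x₀ (P a) e (hP a)
    have hsum : ∀ u : τ → E, ∑ a, φ₀ (u a) * (P a).eval₂ (φ₀.comp φ) x₀ = 0 →
        ∑ a, ψ (u a) * (P a).eval₂ (ψ.comp φ) z = 0 := by
      intro u hu
      have h1 : ∀ a, ψ (u a) * (P a).eval₂ (ψ.comp φ) z =
          Polynomial.C (φ₀ (u a) * (P a).eval₂ (φ₀.comp φ) x₀) * Polynomial.X ^ e := by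
        intro a
        rw [hPz, map_mul, mul_assoc]
        rfl
      rw [Finset.sum_congr rfl fun a _ => h1 a, ← Finset.sum_mul, ← map_sum, hu, map_zero,
        zero_mul]
    have hsum' : ∀ u : τ → E, ∀ p : τ → MvPolynomial (Fin (n + 1)) ℂ,
        ∑ a, σ (u a) * (p a).eval₂ (σ.comp φ) x =
        ι (∑ a, ψ (u a) * (p a).eval₂ (ψ.comp φ) z) := by
      intro u p
      rw [map_sum]
      refine Finset.sum_congr rfl fun a _ => ?_
      rw [map_mul, hσ']
      rfl
    have h1 : ∑ a, σ (y a) * (P a).eval₂ (σ.comp φ) x = 0 := by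
      rw [hsum', hsum y hQ0, map_zero]
    have h2 : ∑ a, σ (D (y a)) * (P a).eval₂ (σ.comp φ) x = 0 := by
      rw [hsum', hsum _ hD0, map_zero]
    have h3 : ∀ a, ∑ b, ψ (y b) * (d a (P b)).eval₂ (ψ.comp φ) z = 0 := by
      intro a
      have h4 := lem_x hq (d a) (hd a) t halg D hDt σ x hgen P y h1 h2
      have h5 := hsum' y fun b => d a (P b)
      rw [h4] at h5
      exact (map_eq_zero_iff _ hι).1 h5.symm
    have hker : q.map (MvPolynomial.map φ) ⊔
        Ideal.span {∑ x, C (y x) * MvPolynomial.map φ (P x)} ⊔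
        Ideal.span (Set.range fun a => ∑ x, C (y x) * MvPolynomial.map φ (d a (P x))) ≤
        RingHom.ker (eval₂Hom ψ z) := by
      refine sup_le (sup_le ?_ ?_) ?_
      · rw [Ideal.map_le_iff_le_comap]
        intro g hg
        show eval₂Hom ψ z (MvPolynomial.map φ g) = 0
        rw [coe_eval₂Hom, eval₂_map]
        have h4 := (hgen g).2 hg
        rw [hσ'] at h4
        exact (map_eq_zero_iff _ hι).1 h4
      · rw [Ideal.span_le, Set.singleton_subset_iff]
        show eval₂Hom ψ z _ = 0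
        rw [map_sum, ← hsum y hQ0]
        refine Finset.sum_congr rfl fun x _ => ?_
        rw [map_mul, eval₂Hom_C, coe_eval₂Hom, eval₂_map]
      · rw [Ideal.span_le]
        rintro _ ⟨a, rfl⟩
        show eval₂Hom ψ z _ = 0
        rw [map_sum, ← h3 a]
        refine Finset.sum_congr rfl fun x _ => ?_
        rw [map_mul, eval₂Hom_C, coe_eval₂Hom, eval₂_map]
    have hmem : ∀ i, ∃ H : Fin c → MvPolynomial (Fin (n + 1)) E,
        z i ^ N₁ = ∑ j, (H j).eval₂ ψ z * (lin (ℓ j)).eval₂ (ψ.comp φ) z := by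
      intro i
      obtain ⟨u, hu, v, hv, huv⟩ := Submodule.mem_sup.1 (hs E φ y hy i)
      obtain ⟨H, hH⟩ := (Ideal.mem_span_range_iff_exists_fun).1 hv
      refine ⟨H, ?_⟩
      have h4 := congrArg (eval₂Hom ψ z) huv
      rw [map_add, show eval₂Hom ψ z u = 0 from hker hu, zero_add, ← hH, map_sum, map_pow,
        eval₂Hom_X'] at h4
      rw [← h4]
      refine Finset.sum_congr rfl fun j _ => ?_
      rw [map_mul, coe_eval₂Hom, eval₂_map]
    choose H hH using hmem
    have hlin : ∀ j, (lin (ℓ j)).eval₂ (ψ.comp φ) z =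
        Polynomial.C ((lin (ℓ j)).eval₂ (φ₀.comp φ) x₀) * Polynomial.X ^ 1 := fun j =>
      hom_exc_y (φ₀.comp φ) x₀ _ 1 (by
        refine IsHomogeneous.sum _ _ _ fun i _ => ?_
        simpa using (isHomogeneous_C (Fin (n + 1)) (ℓ j i)).mul (isHomogeneous_X ℂ i))
    have hco : ∀ i, x₀ i ^ N₁ = ∑ j, (lin (ℓ j)).eval₂ (φ₀.comp φ) x₀ *
        (homogeneousComponent (N₁ - 1) (H i j)).eval₂ φ₀ x₀ := by
      intro i
      have h4 := congrArg (fun p => Polynomial.coeff p N₁) (hH i)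
      simp only [Polynomial.finsetSum_coeff] at h4
      have h5 : (z i ^ N₁).coeff N₁ = x₀ i ^ N₁ := by
        show ((Polynomial.C (x₀ i) * Polynomial.X) ^ N₁).coeff N₁ = _
        rw [mul_pow, ← map_pow, Polynomial.coeff_C_mul_X_pow, if_pos rfl]
      rw [h5] at h4
      rw [h4]
      refine Finset.sum_congr rfl fun j _ => ?_
      rw [hlin, pow_one, ← mul_assoc]
      obtain ⟨N, rfl⟩ : ∃ N, N₁ = N + 1 := ⟨N₁ - 1, by omega⟩
      rw [Polynomial.coeff_mul_X, mul_comm, Polynomial.coeff_C_mul, Nat.add_sub_cancel]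
      congr 1
      exact coeff_exc_y φ₀ x₀ (H i j) N
    have hfin : ∀ i, x i ^ N₁ = ∑ j, (lin (ℓ j)).eval₂ (σ.comp φ) x *
        (homogeneousComponent (N₁ - 1) (H i j)).eval₂ σ x := by
      intro i
      have h4 : z i ^ N₁ = ∑ j, (lin (ℓ j)).eval₂ (ψ.comp φ) z *
          (homogeneousComponent (N₁ - 1) (H i j)).eval₂ ψ z := by
        have h5 : ∀ j, (lin (ℓ j)).eval₂ (ψ.comp φ) z *
            (homogeneousComponent (N₁ - 1) (H i j)).eval₂ ψ z =
            Polynomial.C ((lin (ℓ j)).eval₂ (φ₀.comp φ) x₀ *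
              (homogeneousComponent (N₁ - 1) (H i j)).eval₂ φ₀ x₀) * Polynomial.X ^ N₁ := by
          intro j
          have h6 : (homogeneousComponent (N₁ - 1) (H i j)).eval₂ ψ z =
              Polynomial.C ((homogeneousComponent (N₁ - 1) (H i j)).eval₂ φ₀ x₀) *
                Polynomial.X ^ (N₁ - 1) :=
            hom_exc_y φ₀ x₀ _ _ (homogeneousComponent_isHomogeneous _ _)
          rw [hlin, h6, map_mul]
          obtain ⟨N, rfl⟩ : ∃ N, N₁ = N + 1 := ⟨N₁ - 1, by omega⟩
          rw [Nat.add_sub_cancel, pow_succ]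
          ring
        rw [Finset.sum_congr rfl fun j _ => h5 j, ← Finset.sum_mul, ← map_sum, ← hco]
        show (Polynomial.C (x₀ i) * Polynomial.X) ^ N₁ = _
        rw [mul_pow, map_pow]
      show ι (z i) ^ N₁ = _
      rw [← map_pow, h4, map_sum]
      refine Finset.sum_congr rfl fun j _ => ?_
      rw [map_mul, hσ', hσ]
    obtain ⟨w, hw⟩ := htr
    obtain ⟨G, hG, hG0⟩ := fin_l t halg σ x (fun j => (lin (ℓ j)).eval₂ (σ.comp φ) x)
      (fun i j => homogeneousComponent (N₁ - 1) (H i j))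
      (fun i j => homogeneousComponent_isHomogeneous _ _) hN₁ hfin w
    exact hG (hw G ((hgen _).1 hG0))

end Pool.Agent.QY
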