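import Pool.Agent.Lib_MP_b9fedf_qy.DefsY
import Pool.Agent.Lib_MP_b9fedf_qy.DerExt

set_option autoImplicit false
set_option linter.unusedSectionVars false

namespace Pool.Agent.QY
open MvPolynomial Pool.Agent.SQ

/-- chain rule for a derivation which kills the constants -/
theorem der_eval_gs {σ : Type} [Fintype σ] [DecidableEq σ] {Ω : Type} [Field Ω] (ψ : ℂ →+* Ω)
    (D : Derivation ℤ Ω Ω) (hD : ∀ z, D (ψ z) = 0) (x : σ → Ω) (G : MvPolynomial σ ℂ) :
    D (G.eval₂ ψ x) = ∑ k, (pderiv k G).eval₂ ψ x * D (x k) := by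
  induction G using MvPolynomial.induction_on with
  | C z =>
    rw [eval₂_C, hD]
    symm
    refine Finset.sum_eq_zero fun k _ => ?_
    rw [pderiv_C, eval₂_zero, zero_mul]
  | add p q hp hq =>
    rw [eval₂_add, map_add, hp, hq, ← Finset.sum_add_distrib]
    refine Finset.sum_congr rfl fun k _ => ?_
    rw [map_add, eval₂_add, add_mul]
  | mul_X p i hp =>
    rw [eval₂_mul, eval₂_X, Derivation.leibniz, hp, smul_eq_mul, smul_eq_mul]
    have h1 : ∀ k, (pderiv k (p * X i)).eval₂ ψ x * D (x k) =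
        x i * ((pderiv k p).eval₂ ψ x * D (x k)) + if k = i then p.eval₂ ψ x * D (x i) else 0 := by
      intro k
      rw [Derivation.leibniz, eval₂_add, smul_eq_mul, smul_eq_mul, eval₂_mul, eval₂_mul, eval₂_X,
        pderiv_X]
      by_cases h : k = i
      · subst h
        rw [if_pos rfl, Pi.single_eq_same, eval₂_one]
        ring
      · rw [if_neg h, Pi.single_eq_of_ne (Ne.symm h), eval₂_zero]
        ring
    rw [Finset.sum_congr rfl fun k _ => h1 k, Finset.sum_add_distrib, Finset.sum_ite_eq' Finset.univ i,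
      if_pos (Finset.mem_univ i), ← Finset.mul_sum]
    ring

/-- the derivations with respect to the parameters -/
theorem exists_der_gs {τ : Type} [DecidableEq τ] {Ω : Type} [Field Ω] [CharZero Ω]
    (φ : MvPolynomial τ ℂ →+* Ω) (hφ : Function.Injective φ) (p : τ) :
    ∃ D : Derivation ℤ Ω Ω, (∀ z, D (φ (C z)) = 0) ∧
      ∀ q, D (φ (X q)) = if q = p then 1 else 0 := by
  let _ : Algebra (MvPolynomial τ ℂ) Ω := φ.toAlgebra
  have hs : ∀ (u : MvPolynomial τ ℂ) (z : Ω), u • z = φ u * z := fun u z => rfl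
  let d : Derivation ℤ (MvPolynomial τ ℂ) Ω :=
    { toFun := fun u => φ (pderiv p u)
      map_add' := fun u v => by rw [map_add, map_add]
      map_smul' := fun m u => by
        rw [map_zsmul, map_zsmul]
        rfl
      map_one_eq_zero' := by
        show φ (pderiv p 1) = 0
        rw [Derivation.map_one_eq_zero, map_zero]
      leibniz' := fun u v => by
        show φ (pderiv p (u * v)) = u • φ (pderiv p v) + v • φ (pderiv p u)
        rw [Derivation.leibniz, map_add, smul_eq_mul, smul_eq_mul, map_mul, map_mul, hs, hs] }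
  obtain ⟨D, hD⟩ := der_extend (A := MvPolynomial τ ℂ) (L := Ω) hφ d
  have hD' : ∀ u, D (φ u) = φ (pderiv p u) := fun u => hD u
  refine ⟨D, fun z => ?_, fun q => ?_⟩
  · rw [hD', pderiv_C, map_zero]
  · rw [hD', pderiv_X]
    by_cases h : q = p
    · subst h
      rw [Pi.single_eq_same, map_one, if_pos rfl]
    · rw [Pi.single_eq_of_ne h, map_zero, if_neg h]

/-- PIECE B3 -/
theorem gen_smooth {n b ρ K : ℕ} {ι : Type} [Fintype ι] [DecidableEq ι]
    (g : ι → MvPolynomial (Fin (n + 1)) ℂ) {Ω : Type} [Field Ω] [CharZero Ω]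
    (φ : MvPolynomial (Fin (n + 1) ⊕ ι) ℂ →+* Ω) (hφ : Function.Injective φ)
    (a : ℕ → Fin (n + 1) ⊕ ι → ℂ) (x : Fin (n + 1) → Ω) (y : Fin K → Ω) (hx : x ≠ 0)
    (hρ : (∀ i, (g i).eval₂ (φ.comp C) x = 0) → ρ ≤ Module.finrank Ω (Submodule.span Ω
      (Set.range fun i => fun k => (pderiv k (g i)).eval₂ (φ.comp C) x)))
    (hb : (∀ i, (g i).eval₂ (φ.comp C) x = 0) → ∀ J : Finset (Fin K),
      (∀ j ∈ J, ∑ k, φ (C (a j (Sum.inl k))) * x k = 0) → J.card ≤ b)
    (hρb : b + n + 1 < 2 * ρ)
    (hF : ∀ j : Fin K, y j ^ 2 = (qd g (a j)).eval₂ (φ.comp C) x)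
    (hQ : (∑ k, φ (X (Sum.inl k)) * x k) ^ 2 +
      ∑ i, φ (X (Sum.inr i)) * (g i).eval₂ (φ.comp C) x = 0)
    (μ : Fin K → Ω) (hμ : ∀ j, μ j * y j = 0)
    (hμ2 : ∀ k, 2 * (∑ k', φ (X (Sum.inl k')) * x k') * φ (X (Sum.inl k)) +
      ∑ i, φ (X (Sum.inr i)) * (pderiv k (g i)).eval₂ (φ.comp C) x =
      ∑ j : Fin K, μ j * (pderiv k (qd g (a j))).eval₂ (φ.comp C) x) : False := by
  classical
  set ψ : ℂ →+* Ω := φ.comp C with hψ
  have hDψ : ∀ D : Derivation ℤ Ω Ω, (∀ z, D (φ (C z)) = 0) → ∀ z, D (ψ z) = 0 := fun D h z => h z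
  -- `S = 0`
  have hS : ∀ D : Derivation ℤ Ω Ω, (∀ z, D (φ (C z)) = 0) →
      ∑ k, (2 * (∑ k', φ (X (Sum.inl k')) * x k') * φ (X (Sum.inl k)) +
        ∑ i, φ (X (Sum.inr i)) * (pderiv k (g i)).eval₂ ψ x) * D (x k) = 0 := by
    intro D hD
    have h1 : ∀ k, (2 * (∑ k', φ (X (Sum.inl k')) * x k') * φ (X (Sum.inl k)) +
        ∑ i, φ (X (Sum.inr i)) * (pderiv k (g i)).eval₂ ψ x) * D (x k) =
        ∑ j : Fin K, μ j * ((pderiv k (qd g (a j))).eval₂ ψ x * D (x k)) := by
      intro k
      rw [hμ2 k, Finset.sum_mul]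
      exact Finset.sum_congr rfl fun j _ => mul_assoc _ _ _
    rw [Finset.sum_congr rfl fun k _ => h1 k, Finset.sum_comm]
    refine Finset.sum_eq_zero fun j _ => ?_
    rw [← Finset.mul_sum, ← der_eval_gs ψ D (hDψ D hD), ← hF j, pow_two, Derivation.leibniz,
      smul_eq_mul]
    calc μ j * (y j * D (y j) + y j * D (y j)) = 2 * (μ j * y j) * D (y j) := by ring
      _ = 0 := by rw [hμ j]; ring
  -- derivative of the equation `hQ`
  have hDQ : ∀ D : Derivation ℤ Ω Ω, (∀ z, D (φ (C z)) = 0) →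
      2 * (∑ k, φ (X (Sum.inl k)) * x k) * (∑ k, x k * D (φ (X (Sum.inl k)))) +
        ∑ i, (g i).eval₂ ψ x * D (φ (X (Sum.inr i))) = 0 := by
    intro D hD
    have h1 := congrArg D hQ
    rw [map_zero, map_add, pow_two, Derivation.leibniz, smul_eq_mul, map_sum, map_sum] at h1
    have h2 := hS D hD
    have h3 : ∑ k, D (φ (X (Sum.inl k)) * x k) = ∑ k, x k * D (φ (X (Sum.inl k))) +
        ∑ k, φ (X (Sum.inl k)) * D (x k) := by
      rw [← Finset.sum_add_distrib]
      refine Finset.sum_congr rfl fun k _ => ?_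
      rw [Derivation.leibniz, smul_eq_mul, smul_eq_mul]
      ring
    have h4 : ∑ i, D (φ (X (Sum.inr i)) * (g i).eval₂ ψ x) =
        ∑ i, (g i).eval₂ ψ x * D (φ (X (Sum.inr i))) +
        ∑ k, (∑ i, φ (X (Sum.inr i)) * (pderiv k (g i)).eval₂ ψ x) * D (x k) := by
      have h5 : ∀ i, D (φ (X (Sum.inr i)) * (g i).eval₂ ψ x) =
          (g i).eval₂ ψ x * D (φ (X (Sum.inr i))) +
          ∑ k, φ (X (Sum.inr i)) * (pderiv k (g i)).eval₂ ψ x * D (x k) := by
        intro i
        rw [Derivation.leibniz, smul_eq_mul, smul_eq_mul, der_eval_gs ψ D (hDψ D hD),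
          Finset.mul_sum, add_comm]
        congr 1
        exact Finset.sum_congr rfl fun k _ => (mul_assoc _ _ _).symm
      rw [Finset.sum_congr rfl fun i _ => h5 i, Finset.sum_add_distrib, Finset.sum_comm]
      congr 1
      exact Finset.sum_congr rfl fun k _ => (Finset.sum_mul _ _ _).symm
    have h6 : ∑ k, (2 * (∑ k', φ (X (Sum.inl k')) * x k') * φ (X (Sum.inl k)) +
        ∑ i, φ (X (Sum.inr i)) * (pderiv k (g i)).eval₂ ψ x) * D (x k) =
        2 * (∑ k', φ (X (Sum.inl k')) * x k') * (∑ k, φ (X (Sum.inl k)) * D (x k)) +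
        ∑ k, (∑ i, φ (X (Sum.inr i)) * (pderiv k (g i)).eval₂ ψ x) * D (x k) := by
      generalize (∑ k', φ (X (Sum.inl k')) * x k') = ℓ
      rw [Finset.mul_sum, ← Finset.sum_add_distrib]
      refine Finset.sum_congr rfl fun k _ => ?_
      ring
    rw [h6] at h2
    rw [h3, h4] at h1
    linear_combination h1 - h2
  -- the common zeros
  have hg0 : ∀ i, (g i).eval₂ ψ x = 0 := by
    intro i
    obtain ⟨D, hD1, hD2⟩ := exists_der_gs φ hφ (Sum.inr i)
    have h1 := hDQ D hD1
    have h2 : ∑ k, x k * D (φ (X (Sum.inl k))) = 0 := by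
      refine Finset.sum_eq_zero fun k _ => ?_
      rw [hD2, if_neg (by simp), mul_zero]
    have h3 : ∑ i', (g i').eval₂ ψ x * D (φ (X (Sum.inr i'))) = (g i).eval₂ ψ x := by
      rw [Finset.sum_eq_single i]
      · rw [hD2, if_pos rfl, mul_one]
      · intro i' _ hi
        rw [hD2, if_neg (fun h => hi (Sum.inr.inj h)), mul_zero]
      · intro h
        exact absurd (Finset.mem_univ i) h
    rw [h2, h3, mul_zero, zero_add] at h1
    exact h1
  have hl0 : ∑ k, φ (X (Sum.inl k)) * x k = 0 := by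
    obtain ⟨k, hk⟩ := Function.ne_iff.1 hx
    obtain ⟨D, hD1, hD2⟩ := exists_der_gs φ hφ (Sum.inl k)
    have h1 := hDQ D hD1
    have h2 : ∑ k', x k' * D (φ (X (Sum.inl k'))) = x k := by
      rw [Finset.sum_eq_single k]
      · rw [hD2, if_pos rfl, mul_one]
      · intro i' _ hi
        rw [hD2, if_neg (fun h => hi (Sum.inl.inj h)), mul_zero]
      · intro h
        exact absurd (Finset.mem_univ k) h
    have h3 : ∑ i', (g i').eval₂ ψ x * D (φ (X (Sum.inr i'))) = 0 := by
      refine Finset.sum_eq_zero fun i' _ => ?_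
      rw [hg0, zero_mul]
    rw [h2, h3, add_zero] at h1
    rcases mul_eq_zero.1 h1 with h4 | h4
    · rcases mul_eq_zero.1 h4 with h5 | h5
      · exact absurd h5 two_ne_zero
      · exact h5
    · exact absurd h4 hk
  -- the gradients
  let dg : ι → Fin (n + 1) → Ω := fun i k => (pderiv k (g i)).eval₂ ψ x
  let dQ : Fin K → Fin (n + 1) → Ω := fun j k => (pderiv k (qd g (a j))).eval₂ ψ x
  have hgrad : ∀ k, ∑ i, φ (X (Sum.inr i)) * dg i k = ∑ j : Fin K, μ j * dQ j k := by
    intro k
    have h1 := hμ2 k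
    rw [hl0, mul_zero, zero_mul, zero_add] at h1
    exact h1
  let J : Finset (Fin K) := Finset.univ.filter fun j => μ j ≠ 0
  have hJ : J.card ≤ b := by
    refine hb hg0 J fun j hj => ?_
    have hj' : μ j ≠ 0 := (Finset.mem_filter.1 hj).2
    have hy : y j = 0 := by
      rcases mul_eq_zero.1 (hμ j) with h | h
      · exact absurd h hj'
      · exact h
    have h1 := hF j
    rw [hy] at h1
    have h2 : (qd g (a j)).eval₂ ψ x = (∑ k, φ (C (a j (Sum.inl k))) * x k) ^ 2 := by
      unfold qd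
      rw [eval₂_add, eval₂_pow, eval₂_sum]
      have h3 : ∑ i, eval₂ ψ x (C (a j (Sum.inr i)) * g i) = 0 := by
        refine Finset.sum_eq_zero fun i _ => ?_
        rw [eval₂_mul, hg0, mul_zero]
      rw [h3, add_zero]
      congr 1
      unfold lin
      rw [eval₂_sum]
      refine Finset.sum_congr rfl fun k _ => ?_
      rw [eval₂_mul, eval₂_C, eval₂_X]
      rfl
    rw [h2] at h1
    have h4 : (∑ k, φ (C (a j (Sum.inl k))) * x k) ^ 2 = 0 := by
      rw [← h1]
      ring
    exact pow_eq_zero_iff (two_ne_zero) |>.1 h4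
  -- second derivatives
  let M : Matrix (Fin (n + 1)) (Fin (n + 1)) Ω := Matrix.of fun k l =>
    ∑ j : Fin K, μ j * (pderiv l (pderiv k (qd g (a j)))).eval₂ ψ x -
      ∑ i, φ (X (Sum.inr i)) * (pderiv l (pderiv k (g i))).eval₂ ψ x
  let T : Submodule Ω (Fin (n + 1) → Ω) := LinearMap.ker (Matrix.of dg).mulVecLin
  have hmem : ∀ i, dg i ∈ Submodule.span Ω (dQ '' (J : Set (Fin K))) ⊔ T.map M.mulVecLin := by
    intro i
    obtain ⟨D, hD1, hD2⟩ := exists_der_gs φ hφ (Sum.inr i)
    have hT : (fun k => D (x k)) ∈ T := by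
      rw [LinearMap.mem_ker, Matrix.mulVecLin_apply]
      funext i'
      have h1 := congrArg D (hg0 i')
      rw [der_eval_gs ψ D (hDψ D hD1), map_zero] at h1
      exact h1
    have h1 : dg i = ∑ j ∈ J, D (μ j) • dQ j + M.mulVecLin (fun k => D (x k)) := by
      funext k
      have h2 := congrArg D (hgrad k)
      rw [map_sum, map_sum] at h2
      have h3 : ∑ i', D (φ (X (Sum.inr i')) * dg i' k) = dg i k +
          ∑ l, (∑ i', φ (X (Sum.inr i')) * (pderiv l (pderiv k (g i'))).eval₂ ψ x) * D (x l) := by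
        have h4 : ∀ i', D (φ (X (Sum.inr i')) * dg i' k) =
            (if i' = i then dg i k else 0) +
            ∑ l, φ (X (Sum.inr i')) * (pderiv l (pderiv k (g i'))).eval₂ ψ x * D (x l) := by
          intro i'
          rw [Derivation.leibniz, smul_eq_mul, smul_eq_mul, der_eval_gs ψ D (hDψ D hD1),
            Finset.mul_sum, add_comm, hD2]
          congr 1
          · by_cases h : i' = i
            · subst h
              rw [if_pos rfl, if_pos rfl, mul_one]
            · rw [if_neg h, if_neg (fun h' => h (Sum.inr.inj h')), mul_zero]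
          · exact Finset.sum_congr rfl fun k _ => (mul_assoc _ _ _).symm
        rw [Finset.sum_congr rfl fun i' _ => h4 i', Finset.sum_add_distrib,
          Finset.sum_ite_eq' Finset.univ i, if_pos (Finset.mem_univ i), Finset.sum_comm]
        congr 1
        exact Finset.sum_congr rfl fun k _ => (Finset.sum_mul _ _ _).symm
      have h5 : ∑ j, D (μ j * dQ j k) = ∑ j ∈ J, D (μ j) * dQ j k +
          ∑ l, (∑ j : Fin K, μ j * (pderiv l (pderiv k (qd g (a j)))).eval₂ ψ x) * D (x l) := by
        have h6 : ∀ j, D (μ j * dQ j k) = D (μ j) * dQ j k +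
            ∑ l, μ j * (pderiv l (pderiv k (qd g (a j)))).eval₂ ψ x * D (x l) := by
          intro j
          rw [Derivation.leibniz, smul_eq_mul, smul_eq_mul, der_eval_gs ψ D (hDψ D hD1),
            Finset.mul_sum, add_comm]
          congr 1
          · ring
          · exact Finset.sum_congr rfl fun k _ => (mul_assoc _ _ _).symm
        rw [Finset.sum_congr rfl fun j _ => h6 j, Finset.sum_add_distrib, Finset.sum_comm]
        congr 1
        · symm
          refine Finset.sum_subset (Finset.subset_univ J) fun j _ hj => ?_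
          have : μ j = 0 := by
            by_contra hne
            exact hj (Finset.mem_filter.2 ⟨Finset.mem_univ j, hne⟩)
          rw [this, map_zero, zero_mul]
        · exact Finset.sum_congr rfl fun k _ => (Finset.sum_mul _ _ _).symm
      rw [h3, h5] at h2
      rw [Pi.add_apply, Finset.sum_apply, Matrix.mulVecLin_apply]
      have h7 : (M.mulVec fun k => D (x k)) k =
          ∑ l, (∑ j : Fin K, μ j * (pderiv l (pderiv k (qd g (a j)))).eval₂ ψ x) * D (x l) -
          ∑ l, (∑ i', φ (X (Sum.inr i')) * (pderiv l (pderiv k (g i'))).eval₂ ψ x) * D (x l) := by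
        rw [← Finset.sum_sub_distrib]
        have h8 : (M.mulVec fun k => D (x k)) k = ∑ l, M k l * D (x l) := rfl
        rw [h8]
        refine Finset.sum_congr rfl fun l _ => ?_
        rw [← sub_mul]
        rfl
      rw [h7]
      simp only [Pi.smul_apply, smul_eq_mul]
      linear_combination h2
    rw [h1]
    refine Submodule.add_mem_sup ?_ ⟨_, hT, rfl⟩
    exact Submodule.sum_mem _ fun j hj => Submodule.smul_mem _ _
      (Submodule.subset_span ⟨j, hj, rfl⟩)
  -- dimensions
  set r := Module.finrank Ω (Submodule.span Ω (Set.range dg)) with hr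
  have hr1 : ρ ≤ r := hρ hg0
  have hle : Submodule.span Ω (Set.range dg) ≤
      Submodule.span Ω (dQ '' (J : Set (Fin K))) ⊔ T.map M.mulVecLin := by
    refine Submodule.span_le.2 ?_
    rintro _ ⟨i, rfl⟩
    exact hmem i
  have h1 : r ≤ Module.finrank Ω (Submodule.span Ω (dQ '' (J : Set (Fin K)))) +
      Module.finrank Ω (T.map M.mulVecLin) :=
    (Submodule.finrank_mono hle).trans (Submodule.finrank_add_le_finrank_add_finrank _ _)
  have h2 : Module.finrank Ω (Submodule.span Ω (dQ '' (J : Set (Fin K)))) ≤ J.card := by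
    have : dQ '' (J : Set (Fin K)) = ((J.image dQ : Finset _) : Set _) := by
      rw [Finset.coe_image]
    rw [this]
    exact (finrank_span_finset_le_card _).trans Finset.card_image_le
  have h3 : Module.finrank Ω (T.map M.mulVecLin) ≤ Module.finrank Ω T :=
    Submodule.finrank_map_le _ _
  have h4 : r + Module.finrank Ω T = n + 1 := by
    have h5 := LinearMap.finrank_range_add_finrank_ker (Matrix.of dg).mulVecLin
    rw [Module.finrank_fin_fun] at h5
    have h6 : r = Module.finrank Ω (LinearMap.range (Matrix.of dg).mulVecLin) := by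
      have h7 := Matrix.rank_eq_finrank_span_row (Matrix.of dg)
      rw [Matrix.rank] at h7
      rw [h7]
      rfl
    rw [h6]
    exact h5
  omega

end Pool.Agent.QY
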