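import Pool.Agent.Lib_MP_b9fedf_qy.DefsY
import Pool.Agent.Lib_MP_b9fedf_sq.EntDom

set_option autoImplicit false

namespace Pool.Agent.QY
open MvPolynomial Pool.Agent.SQ

/-- PIECE B1 (MinorY.lean) -/
theorem li_iff_minor {k : Type} [Field k] {τ : Type} [Fintype τ] {K : ℕ} (v : Fin K → τ → k) :
    LinearIndependent k v ↔ ∃ s : Fin K → τ, (Matrix.of fun a b => v a (s b)).det ≠ 0 := by
  classical
  constructor
  · intro hv
    let A : Matrix (Fin K) τ k := Matrix.of v
    have hrank : A.rank = K := by
      have := LinearIndependent.rank_matrix (M := A) hv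
      rwa [Fintype.card_fin] at this
    obtain ⟨κ, a, -, hspan, hli⟩ := exists_linearIndependent' k (fun j : τ => A.col j)
    have hfr : Module.finrank k (Submodule.span k (Set.range (A.col))) = K := by
      rw [← Matrix.rank_eq_finrank_span_cols]
      exact hrank
    have hfin : Finite κ := by
      have h1 := hli.finite
      exact h1
    have := Fintype.ofFinite κ
    have hcard : Fintype.card κ = K := by
      have h2 := finrank_span_eq_card hli
      rw [hspan] at h2
      rw [← h2]
      exact hfr
    let e : Fin K ≃ κ := (Fintype.equivFinOfCardEq hcard).symm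
    refine ⟨fun b => a (e b), ?_⟩
    have hli2 : LinearIndependent k (fun b : Fin K => A.col (a (e b))) :=
      hli.comp e e.injective
    have h3 : LinearIndependent k (Matrix.of fun x b => v x (a (e b)) : Matrix (Fin K) (Fin K) k).col :=
      hli2
    rw [Matrix.linearIndependent_cols_iff_isUnit, Matrix.isUnit_iff_isUnit_det] at h3
    exact h3.ne_zero
  · rintro ⟨s, hs⟩
    have h1 : IsUnit (Matrix.of fun a b => v a (s b) : Matrix (Fin K) (Fin K) k) := by
      rw [Matrix.isUnit_iff_isUnit_det]
      exact isUnit_iff_ne_zero.2 hs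
    have h2 := Matrix.linearIndependent_rows_iff_isUnit.2 h1
    have h3 : LinearIndependent k ((LinearMap.funLeft k k s) ∘ v) := h2
    exact h3.of_comp _

end Pool.Agent.QY
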