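import Pool.Agent.Lib_MP_b9fedf_qy.ElimY
import Pool.Agent.Lib_MP_b9fedf_qy.MinorY
import Pool.Agent.Lib_MP_b9fedf_qy.GenSmooth

set_option autoImplicit false

namespace Pool.Agent.QY
open MvPolynomial Pool.Agent.SQ

/-- the generic version of `qd` -/
private noncomputable def qdA {n : ℕ} {ι : Type} [Fintype ι] {A : Type} [CommRing A] (κ : ℂ →+* A)
    (g : ι → MvPolynomial (Fin (n + 1)) ℂ) (p : Fin (n + 1) ⊕ ι → A) :
    MvPolynomial (Fin (n + 1)) A :=
  (∑ k, C (p (Sum.inl k)) * X k) ^ 2 + ∑ i, C (p (Sum.inr i)) * MvPolynomial.map κ (g i)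

/-- the generic version of `fam` -/
private noncomputable def famA {n : ℕ} {ι : Type} [Fintype ι] {A : Type} [CommRing A]
    (κ : ℂ →+* A) (g : ι → MvPolynomial (Fin (n + 1)) ℂ) (P : ℕ → Fin (n + 1) ⊕ ι → A) (K : ℕ)
    (j : Fin K) : MvPolynomial (Fin (n + 1) ⊕ Fin K) A :=
  X (Sum.inr j) ^ 2 - rename Sum.inl (qdA κ g (P j))

/-- the generic version of `SCI` -/
private def SCA {τ : Type} {K : ℕ} {k : Type} [Field k] (F : Fin K → MvPolynomial τ k) : Prop :=
  ∀ z : τ → k, z ≠ 0 → (∀ j, eval z (F j) = 0) →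
    LinearIndependent k (fun j => fun i => eval z (pderiv i (F j)))

private theorem map_qdA {n : ℕ} {ι : Type} [Fintype ι] {A B : Type} [CommRing A] [CommRing B]
    (κ : ℂ →+* A) (φ : A →+* B)
    (g : ι → MvPolynomial (Fin (n + 1)) ℂ) (p : Fin (n + 1) ⊕ ι → A) :
    MvPolynomial.map φ (qdA κ g p) = qdA (φ.comp κ) g (fun t => φ (p t)) := by
  simp [qdA, map_sum, MvPolynomial.map_map]

private theorem map_famA {n : ℕ} {ι : Type} [Fintype ι] {A B : Type} [CommRing A] [CommRing B]
    (κ : ℂ →+* A) (φ : A →+* B)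
    (g : ι → MvPolynomial (Fin (n + 1)) ℂ) (P : ℕ → Fin (n + 1) ⊕ ι → A) (K : ℕ) (j : Fin K) :
    MvPolynomial.map φ (famA κ g P K j) = famA (φ.comp κ) g (fun j t => φ (P j t)) K j := by
  rw [famA, famA, map_sub, map_pow, map_X, MvPolynomial.map_rename, map_qdA]

private theorem qdA_id {n : ℕ} {ι : Type} [Fintype ι]
    (g : ι → MvPolynomial (Fin (n + 1)) ℂ) (p : Fin (n + 1) ⊕ ι → ℂ) :
    qdA (RingHom.id ℂ) g p = qd g p := by
  simp [qdA, qd, lin, MvPolynomial.map_id]

private theorem famA_id {n : ℕ} {ι : Type} [Fintype ι]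
    (g : ι → MvPolynomial (Fin (n + 1)) ℂ) (a : ℕ → Fin (n + 1) ⊕ ι → ℂ) (K : ℕ) :
    famA (RingHom.id ℂ) g a K = fam g a K := by
  funext j
  rw [famA, fam, qdA_id]

private theorem qdA_hom {n : ℕ} {ι : Type} [Fintype ι] {A : Type} [CommRing A] (κ : ℂ →+* A)
    (g : ι → MvPolynomial (Fin (n + 1)) ℂ) (hg : ∀ i, (g i).IsHomogeneous 2)
    (p : Fin (n + 1) ⊕ ι → A) : (qdA κ g p).IsHomogeneous 2 := by
  refine IsHomogeneous.add ?_ ?_
  · have h : (∑ k, C (p (Sum.inl k)) * X k : MvPolynomial (Fin (n + 1)) A).IsHomogeneous 1 := by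
      refine IsHomogeneous.sum _ _ _ fun k _ => ?_
      have := (isHomogeneous_C (Fin (n + 1)) (p (Sum.inl k))).mul (isHomogeneous_X A k)
      simpa using this
    have := h.pow 2
    simpa using this
  · refine IsHomogeneous.sum _ _ _ fun i _ => ?_
    have := (isHomogeneous_C (Fin (n + 1)) (p (Sum.inr i))).mul ((hg i).map κ)
    simpa using this

private theorem famA_hom {n : ℕ} {ι : Type} [Fintype ι] {A : Type} [CommRing A] (κ : ℂ →+* A)
    (g : ι → MvPolynomial (Fin (n + 1)) ℂ) (hg : ∀ i, (g i).IsHomogeneous 2)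
    (P : ℕ → Fin (n + 1) ⊕ ι → A) (K : ℕ) (j : Fin K) : (famA κ g P K j).IsHomogeneous 2 := by
  refine IsHomogeneous.sub ?_ ?_
  · exact isHomogeneous_X_pow _ 2
  · exact (qdA_hom κ g hg _).rename_isHomogeneous

private theorem eval_qdA {n : ℕ} {ι : Type} [Fintype ι] {A : Type} [CommRing A] (κ : ℂ →+* A)
    (g : ι → MvPolynomial (Fin (n + 1)) ℂ) (p : Fin (n + 1) ⊕ ι → A) (x : Fin (n + 1) → A) :
    eval x (qdA κ g p) = (∑ k, p (Sum.inl k) * x k) ^ 2 + ∑ i, p (Sum.inr i) * (g i).eval₂ κ x := by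
  simp [qdA, map_sum, eval_map]

private theorem eval_pd_qdA {n : ℕ} {ι : Type} [Fintype ι] {A : Type} [CommRing A] (κ : ℂ →+* A)
    (g : ι → MvPolynomial (Fin (n + 1)) ℂ) (p : Fin (n + 1) ⊕ ι → A) (x : Fin (n + 1) → A)
    (k : Fin (n + 1)) :
    eval x (pderiv k (qdA κ g p)) = 2 * (∑ k', p (Sum.inl k') * x k') * p (Sum.inl k) +
      ∑ i, p (Sum.inr i) * (pderiv k (g i)).eval₂ κ x := by
  have h1 : pderiv k (∑ k', C (p (Sum.inl k')) * X k' : MvPolynomial (Fin (n + 1)) A)
      = C (p (Sum.inl k)) := by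
    rw [map_sum, Finset.sum_eq_single k]
    · rw [pderiv_C_mul, pderiv_X_self, mul_one]
    · intro j _ hj
      rw [pderiv_C_mul, pderiv_X_of_ne hj, mul_zero]
    · intro h
      exact absurd (Finset.mem_univ _) h
  rw [qdA, map_add, Derivation.leibniz_pow, h1]
  simp only [map_add, map_sum, pderiv_C_mul, pderiv_map, smul_eq_mul, nsmul_eq_mul, map_mul,
    eval_C, eval_map, eval_X, map_pow, Nat.cast_ofNat, map_ofNat]
  ring

private theorem eval_famA {n : ℕ} {ι : Type} [Fintype ι] {A : Type} [CommRing A] (κ : ℂ →+* A)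
    (g : ι → MvPolynomial (Fin (n + 1)) ℂ) (P : ℕ → Fin (n + 1) ⊕ ι → A) (K : ℕ) (j : Fin K)
    (z : Fin (n + 1) ⊕ Fin K → A) :
    eval z (famA κ g P K j) = z (Sum.inr j) ^ 2 - eval (fun k => z (Sum.inl k)) (qdA κ g (P j)) := by
  rw [famA, map_sub, map_pow, eval_X, eval_rename]
  rfl

private theorem eval_pd_famA_inl {n : ℕ} {ι : Type} [Fintype ι] {A : Type} [CommRing A]
    (κ : ℂ →+* A) (g : ι → MvPolynomial (Fin (n + 1)) ℂ) (P : ℕ → Fin (n + 1) ⊕ ι → A) (K : ℕ)
    (j : Fin K) (z : Fin (n + 1) ⊕ Fin K → A) (k : Fin (n + 1)) :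
    eval z (pderiv (Sum.inl k) (famA κ g P K j))
      = - eval (fun k => z (Sum.inl k)) (pderiv k (qdA κ g (P j))) := by
  rw [famA, map_sub, pderiv_rename Sum.inl_injective, Derivation.leibniz_pow,
    pderiv_X_of_ne (by simp), map_sub, eval_rename]
  simp
  rfl

private theorem eval_pd_famA_inr {n : ℕ} {ι : Type} [Fintype ι] {A : Type} [CommRing A]
    (κ : ℂ →+* A) (g : ι → MvPolynomial (Fin (n + 1)) ℂ) (P : ℕ → Fin (n + 1) ⊕ ι → A) (K : ℕ)
    (j l : Fin K) (z : Fin (n + 1) ⊕ Fin K → A) :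
    eval z (pderiv (Sum.inr l) (famA κ g P K j)) = if j = l then 2 * z (Sum.inr j) else 0 := by
  have h0 : pderiv (Sum.inr l : Fin (n + 1) ⊕ Fin K)
      (rename Sum.inl (qdA κ g (P j)) : MvPolynomial (Fin (n + 1) ⊕ Fin K) A) = 0 := by
    apply pderiv_eq_zero_of_notMem_vars
    intro h
    have h2 := vars_rename (Sum.inl : Fin (n + 1) → Fin (n + 1) ⊕ Fin K) (qdA κ g (P j)) h
    simp at h2
  rw [famA, map_sub, h0, sub_zero, Derivation.leibniz_pow]
  by_cases hjl : j = l
  · subst hjl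
    rw [pderiv_X_self]
    simp
  · rw [pderiv_X_of_ne (by simpa using hjl), if_neg hjl]
    simp

private theorem det_hom {A : Type} [CommRing A] {τ : Type} {K : ℕ}
    (M : Matrix (Fin K) (Fin K) (MvPolynomial τ A)) (hM : ∀ i j, (M i j).IsHomogeneous 1) :
    M.det.IsHomogeneous K := by
  rw [Matrix.det_apply']
  refine IsHomogeneous.sum _ _ _ fun σ _ => ?_
  have h1 : (∏ i, M (σ i) i).IsHomogeneous (∑ _i : Fin K, 1) :=
    IsHomogeneous.prod _ _ _ fun i _ => hM _ _
  have h2 : (((Equiv.Perm.sign σ : ℤˣ) : ℤ) : MvPolynomial τ A).IsHomogeneous 0 := by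
    have h3 : (((Equiv.Perm.sign σ : ℤˣ) : ℤ) : MvPolynomial τ A)
        = C (((Equiv.Perm.sign σ : ℤˣ) : ℤ) : A) := by simp
    rw [h3]
    exact isHomogeneous_C _ _
  have h4 := h2.mul h1
  simpa using h4

private theorem sca_elim {A : Type} [CommRing A] {τ : Type} [Fintype τ] [DecidableEq τ] {K : ℕ}
    (F : Fin K → MvPolynomial τ A) (hF : ∀ j, (F j).IsHomogeneous 2)
    {k₀ : Type} [Field k₀] [IsAlgClosed k₀] (φ₀ : A →+* k₀)
    (h₀ : SCA (fun j => MvPolynomial.map φ₀ (F j))) :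
    ∃ Θ : A, φ₀ Θ ≠ 0 ∧ ∀ (k : Type) [Field k] (φ : A →+* k), φ Θ ≠ 0 →
      SCA (fun j => MvPolynomial.map φ (F j)) := by
  classical
  let G : Fin K ⊕ (Fin K → τ) → MvPolynomial τ A := fun t => match t with
    | Sum.inl j => F j
    | Sum.inr s => (Matrix.of fun a b => pderiv (s b) (F a)).det
  let dG : Fin K ⊕ (Fin K → τ) → ℕ := fun t => match t with
    | Sum.inl _ => 2
    | Sum.inr _ => K
  have hG : ∀ t, (G t).IsHomogeneous (dG t) := by
    rintro (j | s)
    · exact hF j
    · exact det_hom _ fun i j => by simpa using (hF i).pderiv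
  -- evaluation of the minors
  have hmin : ∀ (k : Type) [Field k] (φ : A →+* k) (z : τ → k) (s : Fin K → τ),
      eval z (MvPolynomial.map φ (G (Sum.inr s)))
        = (Matrix.of fun a b => eval z (pderiv (s b) (MvPolynomial.map φ (F a)))).det := by
    intro k _ φ z s
    have h1 : eval z (MvPolynomial.map φ (G (Sum.inr s)))
        = ((eval z).comp (MvPolynomial.map φ)) (Matrix.of fun a b => pderiv (s b) (F a)).det := rfl
    rw [h1, RingHom.map_det]
    congr 1
    ext a b
    simp [pderiv_map]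
  obtain ⟨N₁, Θ, hN, hΘ, hall⟩ := elim_y G dG hG φ₀ (by
    intro x hx
    by_contra hne
    have h1 : ∀ j, eval x (MvPolynomial.map φ₀ (F j)) = 0 := by
      intro j
      rw [eval_map]
      exact hx (Sum.inl j)
    obtain ⟨s, hs⟩ := (li_iff_minor _).1 (h₀ x hne h1)
    apply hs
    have h2 := hmin k₀ φ₀ x s
    rw [eval_map, hx (Sum.inr s)] at h2
    exact h2.symm)
  refine ⟨Θ, hΘ, fun k _ φ hφ z hz hzF => ?_⟩
  by_contra hli
  apply hz
  funext i
  have h1 := hall k φ hφ i
  have h2 : ∀ p ∈ Ideal.span (Set.range fun i => MvPolynomial.map φ (G i)), eval z p = 0 := by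
    intro p hp
    have h3 : Ideal.span (Set.range fun i => MvPolynomial.map φ (G i)) ≤ RingHom.ker (eval z) := by
      rw [Ideal.span_le]
      rintro _ ⟨t, rfl⟩
      rcases t with j | s
      · exact hzF j
      · change eval z (MvPolynomial.map φ (G (Sum.inr s))) = 0
        rw [hmin]
        by_contra hs
        exact hli ((li_iff_minor _).2 ⟨s, hs⟩)
    exact h3 hp
  have h4 := h2 _ h1
  rw [map_pow, eval_X] at h4
  exact pow_eq_zero_iff (by omega) |>.1 h4

private theorem lg_card {n b K : ℕ} {ι : Type} (hbn : b ≤ n) (a : ℕ → Fin (n + 1) ⊕ ι → ℂ)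
    (hL : LG b K a) {Ω : Type} [Field Ω] (κ : ℂ →+* Ω) (x : Fin (n + 1) → Ω) (hx : x ≠ 0)
    (hx0 : ∀ i : Fin (n + 1), b < (i : ℕ) → x i = 0) (J : Finset (Fin K))
    (hJ : ∀ j ∈ J, ∑ k, κ (a j (Sum.inl k)) * x k = 0) : J.card ≤ b := by
  classical
  by_contra hcon
  obtain ⟨J', hJJ, hJ'⟩ := Finset.exists_subset_card_eq (show b + 1 ≤ J.card by omega)
  let e : Fin (b + 1) ≃ J' := (J'.equivFinOfCardEq hJ').symm
  let E : Fin (b + 1) ≃ {i : Fin (n + 1) // (i : ℕ) ≤ b} :=
    { toFun := fun t => ⟨⟨t.1, by omega⟩, by have := t.2; simp only; omega⟩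
      invFun := fun i => ⟨i.1.1, by have := i.2; omega⟩
      left_inv := fun t => rfl
      right_inv := fun i => rfl }
  have h1 : LinearIndependent ℂ (fun t : Fin (b + 1) => fun i : {i : Fin (n + 1) // (i : ℕ) ≤ b} =>
      a (e t).1 (Sum.inl i.1)) := by
    have h2 := hL (J'.map Fin.valEmbedding) (by
      intro j hj
      obtain ⟨j', -, rfl⟩ := Finset.mem_map.1 hj
      exact j'.2) (by rw [Finset.card_map, hJ'])
    let f : Fin (b + 1) → (J'.map Fin.valEmbedding : Finset ℕ) := fun t =>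
      ⟨((e t).1 : Fin K), Finset.mem_map.2 ⟨(e t).1, (e t).2, rfl⟩⟩
    have hf : Function.Injective f := by
      intro t t' htt
      have h3 : ((e t).1 : ℕ) = ((e t').1 : ℕ) := congrArg (fun q => q.1) htt
      exact e.injective (Subtype.ext (Fin.ext h3))
    exact h2.comp f hf
  have h2 : LinearIndependent ℂ (Matrix.of fun t c : Fin (b + 1) =>
      a (e t).1 (Sum.inl (E c).1)).row := by
    have h3 := h1.map' (LinearMap.funLeft ℂ ℂ E)
      (LinearMap.ker_eq_bot.2 (LinearMap.funLeft_injective_of_surjective ℂ ℂ E E.surjective))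
    exact h3
  rw [Matrix.linearIndependent_rows_iff_isUnit, Matrix.isUnit_iff_isUnit_det,
    isUnit_iff_ne_zero] at h2
  have h3 : (Matrix.of fun t c : Fin (b + 1) => κ (a (e t).1 (Sum.inl (E c).1))).det ≠ 0 := by
    have h4 := RingHom.map_det κ (Matrix.of fun t c : Fin (b + 1) => a (e t).1 (Sum.inl (E c).1))
    have h5 : κ.mapMatrix (Matrix.of fun t c : Fin (b + 1) => a (e t).1 (Sum.inl (E c).1))
        = Matrix.of fun t c : Fin (b + 1) => κ (a (e t).1 (Sum.inl (E c).1)) := by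
      ext t c
      rfl
    rw [h5] at h4
    rw [← h4]
    exact (map_ne_zero κ).2 h2
  have h4 : (fun c : Fin (b + 1) => x (E c).1) = 0 := by
    apply Matrix.eq_zero_of_mulVec_eq_zero h3
    funext t
    have h5 := hJ (e t).1 (hJJ (e t).2)
    rw [Pi.zero_apply, ← h5, Matrix.mulVec, dotProduct]
    have h6 : ∑ k, κ (a (e t).1 (Sum.inl k)) * x k
        = ∑ k ∈ Finset.univ.filter (fun k : Fin (n + 1) => (k : ℕ) ≤ b),
          κ (a (e t).1 (Sum.inl k)) * x k := by
      rw [Finset.sum_filter]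
      refine Finset.sum_congr rfl fun k _ => ?_
      split_ifs with hk
      · rfl
      · rw [hx0 k (by omega), mul_zero]
    rw [h6]
    refine Finset.sum_bij' (fun c _ => (E c).1)
      (fun k hk => E.symm ⟨k, (Finset.mem_filter.1 hk).2⟩) ?_ ?_ ?_ ?_ ?_
    · intro c _
      exact Finset.mem_filter.2 ⟨Finset.mem_univ _, (E c).2⟩
    · intro k hk
      exact Finset.mem_univ _
    · intro c _
      exact E.symm_apply_apply c
    · intro k hk
      rfl
    · intro c _
      rfl
  apply hx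
  funext i
  by_cases hi : (i : ℕ) ≤ b
  · have := congrFun h4 (E.symm ⟨i, hi⟩)
    exact this
  · exact hx0 i (by omega)

private theorem lg_poly {n b K : ℕ} {ι : Type} (hbn : b ≤ n) (a : ℕ → Fin (n + 1) ⊕ ι → ℂ)
    (hL : LG b K a) :
    ∃ Λ : MvPolynomial (Fin (n + 1) ⊕ ι) ℂ, Λ ≠ 0 ∧
      ∀ c, eval c Λ ≠ 0 → LG b (K + 1) (Function.update a K c) := by
  classical
  let W := {i : Fin (n + 1) // (i : ℕ) ≤ b} → ℂ
  let w : ℕ → W := fun j i => a j (Sum.inl i.1)
  have hdim : Module.finrank ℂ W = b + 1 := by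
    have E : Fin (b + 1) ≃ {i : Fin (n + 1) // (i : ℕ) ≤ b} :=
      { toFun := fun t => ⟨⟨t.1, by omega⟩, by have := t.2; simp only; omega⟩
        invFun := fun i => ⟨i.1.1, by have := i.2; omega⟩
        left_inv := fun t => rfl
        right_inv := fun i => rfl }
    rw [Module.finrank_fintype_fun_eq_card, ← Fintype.card_congr E, Fintype.card_fin]
  have hex : ∀ J : Finset ℕ, ∃ Λ : MvPolynomial (Fin (n + 1) ⊕ ι) ℂ, Λ ≠ 0 ∧ (J.card ≤ b →
      ∀ c, eval c Λ ≠ 0 → (fun i : {i : Fin (n + 1) // (i : ℕ) ≤ b} => c (Sum.inl i.1)) ∉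
        Submodule.span ℂ (w '' (J : Set ℕ))) := by
    intro J
    by_cases hJ : J.card ≤ b
    · have hlt : Submodule.span ℂ (w '' (J : Set ℕ)) < ⊤ := by
        rw [lt_top_iff_ne_top]
        intro htop
        have h1 : Module.finrank ℂ (Submodule.span ℂ (w '' (J : Set ℕ))) ≤ J.card := by
          have h2 := finrank_span_finset_le_card (R := ℂ) (J.image w)
          rw [Finset.coe_image] at h2
          exact h2.trans Finset.card_image_le
        rw [htop, finrank_top, hdim] at h1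
        omega
      obtain ⟨f, hf0, hf⟩ := Submodule.exists_le_ker_of_lt_top _ hlt
      let Λ : MvPolynomial (Fin (n + 1) ⊕ ι) ℂ :=
        ∑ i : {i : Fin (n + 1) // (i : ℕ) ≤ b}, C (f (Pi.single i 1)) * X (Sum.inl i.1)
      have hev : ∀ c : Fin (n + 1) ⊕ ι → ℂ, eval c Λ = f (fun i => c (Sum.inl i.1)) := by
        intro c
        have h1 : (fun i : {i : Fin (n + 1) // (i : ℕ) ≤ b} => c (Sum.inl i.1))
            = ∑ i, c (Sum.inl i.1) • (Pi.single i (1 : ℂ) : W) := by
          rw [pi_eq_sum_univ' (fun i : {i : Fin (n + 1) // (i : ℕ) ≤ b} => c (Sum.inl i.1))]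
        rw [h1, map_sum]
        simp only [Λ, map_sum, map_mul, eval_C, eval_X, map_smul, smul_eq_mul]
        exact Finset.sum_congr rfl fun i _ => mul_comm _ _
      refine ⟨Λ, ?_, fun _ c hc hmem => ?_⟩
      · intro h0
        apply hf0
        refine LinearMap.ext fun v => ?_
        have h1 := hev (fun t => match t with
          | Sum.inl k => if hk : (k : ℕ) ≤ b then v ⟨k, hk⟩ else 0
          | Sum.inr _ => 0)
        rw [h0, map_zero] at h1
        have h2 : (fun i : {i : Fin (n + 1) // (i : ℕ) ≤ b} =>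
            (if hk : ((i.1 : Fin (n + 1)) : ℕ) ≤ b then v ⟨i.1, hk⟩ else 0)) = v := by
          funext i
          rw [dif_pos i.2]
        have h3 : f v = 0 := by
          rw [← h2]
          exact h1.symm
        rw [h3, LinearMap.zero_apply]
      · apply hc
        rw [hev]
        exact hf hmem
    · exact ⟨1, one_ne_zero, fun h => absurd h hJ⟩
  choose Λ hΛ0 hΛ using hex
  refine ⟨∏ J ∈ (Finset.range K).powerset, Λ J, Finset.prod_ne_zero_iff.2 fun J _ => hΛ0 J,
    fun c hc => ?_⟩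
  intro J hJK hJc
  by_cases hK : K ∈ J
  · have hJ0 : (J.erase K).card ≤ b := by
      rw [Finset.card_erase_of_mem hK]; omega
    have hJ0K : J.erase K ⊆ Finset.range K := by
      intro j hj
      have h1 := hJK j (Finset.mem_of_mem_erase hj)
      have h2 := Finset.ne_of_mem_erase hj
      exact Finset.mem_range.2 (by omega)
    have hne : eval c (Λ (J.erase K)) ≠ 0 := by
      rw [map_prod] at hc
      exact Finset.prod_ne_zero_iff.1 hc _ (Finset.mem_powerset.2 hJ0K)
    have hns := hΛ (J.erase K) hJ0 c hne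
    let w' : ℕ → W := fun j i => Function.update a K c j (Sum.inl i.1)
    have hww : ∀ j, j ≠ K → w' j = w j := by
      intro j hj
      funext i
      simp only [w', w]
      rw [Function.update_of_ne hj]
    have hwK : w' K = fun i : {i : Fin (n + 1) // (i : ℕ) ≤ b} => c (Sum.inl i.1) := by
      funext i
      simp only [w']
      rw [Function.update_self]
    have himg : w' '' ((J.erase K : Finset ℕ) : Set ℕ) = w '' ((J.erase K : Finset ℕ) : Set ℕ) := by
      apply Set.image_congr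
      intro j hj
      exact hww j (Finset.ne_of_mem_erase hj)
    have h1 : LinearIndepOn ℂ w' (insert K ((J.erase K : Finset ℕ) : Set ℕ)) := by
      rw [linearIndepOn_insert (by simp)]
      refine ⟨?_, ?_⟩
      · have h2 := hL (J.erase K) (fun j hj => Finset.mem_range.1 (hJ0K hj)) (by omega)
        have h3 : LinearIndepOn ℂ w ((J.erase K : Finset ℕ) : Set ℕ) := h2
        refine h3.congr ?_
        intro j hj
        exact (hww j (Finset.ne_of_mem_erase hj)).symm
      · rw [himg, hwK]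
        exact hns
    have h2 : (insert K ((J.erase K : Finset ℕ) : Set ℕ)) = (J : Set ℕ) := by
      rw [← Finset.coe_insert, Finset.insert_erase hK]
    rw [h2] at h1
    exact h1
  · have h1 := hL J (fun j hj => by
      have h2 := hJK j hj
      have h3 : j ≠ K := fun h => hK (h ▸ hj)
      omega) hJc
    have h4 : (fun j : J => fun i : {i : Fin (n + 1) // (i : ℕ) ≤ b} =>
        Function.update a K c (j : ℕ) (Sum.inl i.1))
        = (fun j : J => fun i : {i : Fin (n + 1) // (i : ℕ) ≤ b} => a (j : ℕ) (Sum.inl i.1)) := by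
      funext j i
      have h5 : (j : ℕ) ≠ K := by
        intro h6
        have h7 := j.2
        rw [h6] at h7
        exact hK h7
      rw [Function.update_of_ne h5]
    rw [h4]
    exact h1

private theorem gen_step {n b ρ : ℕ} {ι : Type} [Fintype ι] [DecidableEq ι]
    (g : ι → MvPolynomial (Fin (n + 1)) ℂ) (hg : ∀ i, (g i).IsHomogeneous 2)
    (hV : ∀ (Ω : Type) [Field Ω] (φ : ℂ →+* Ω) (x : Fin (n + 1) → Ω),
      (∀ i, (g i).eval₂ φ x = 0) → ∀ i : Fin (n + 1), b < (i : ℕ) → x i = 0)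
    (hρ : ∀ (Ω : Type) [Field Ω] (φ : ℂ →+* Ω) (x : Fin (n + 1) → Ω), x ≠ 0 →
      (∀ i, (g i).eval₂ φ x = 0) → ρ ≤ Module.finrank Ω (Submodule.span Ω
      (Set.range fun i => fun k => (pderiv k (g i)).eval₂ φ x)))
    (hρb : b + n + 1 < 2 * ρ) (hbn : b ≤ n) (K : ℕ) (a : ℕ → Fin (n + 1) ⊕ ι → ℂ)
    (hS : SCI (fam g a K)) (hL : LG b K a) {Ω : Type} [Field Ω] [CharZero Ω]
    (φ : MvPolynomial (Fin (n + 1) ⊕ ι) ℂ →+* Ω) (hφ : Function.Injective φ) :
    SCA (famA (φ.comp C) g (fun j t => φ (Function.update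
      (fun (j : ℕ) (t : Fin (n + 1) ⊕ ι) => (C (a j t) : MvPolynomial (Fin (n + 1) ⊕ ι) ℂ)) K X j t))
      (K + 1)) := by
  classical
  set κ : ℂ →+* Ω := φ.comp C with hκ
  set P : ℕ → Fin (n + 1) ⊕ ι → Ω := fun j t => φ (Function.update
      (fun (j : ℕ) (t : Fin (n + 1) ⊕ ι) => (C (a j t) : MvPolynomial (Fin (n + 1) ⊕ ι) ℂ)) K X j t)
    with hP
  have hPj : ∀ j, j ≠ K → P j = fun t => κ (a j t) := by
    intro j hj
    funext t
    simp only [hP]
    rw [Function.update_of_ne hj]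
    rfl
  have hPK : P K = fun t => φ (X t) := by
    funext t
    simp only [hP]
    rw [Function.update_self]
  -- extension of the field
  have hSΩ : SCA (famA κ g (fun j t => κ (a j t)) K) := by
    obtain ⟨Θ, hΘ, hall⟩ := sca_elim (A := ℂ) (fam g a K) (fun j => by
        rw [← famA_id]; exact famA_hom _ g hg a K j) (RingHom.id ℂ) (by
        intro z hz hzF
        simp only [MvPolynomial.map_id] at hzF ⊢
        exact hS z hz hzF)
    have h1 := hall Ω κ (by
      rw [RingHom.id_apply] at hΘ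
      exact (map_ne_zero κ).2 hΘ)
    have h2 : (fun j => MvPolynomial.map κ (fam g a K j))
        = famA κ g (fun j t => κ (a j t)) K := by
      funext j
      rw [← famA_id, map_famA, RingHom.comp_id]
    rw [h2] at h1
    exact h1
  intro z hz hzF
  by_contra hli
  obtain ⟨ν, hν, hν0⟩ : ∃ ν : Fin (K + 1) → Ω,
      (∀ i, ∑ j, ν j * eval z (pderiv i (famA κ g P (K + 1) j)) = 0) ∧ ν ≠ 0 := by
    rw [Fintype.not_linearIndependent_iff] at hli
    obtain ⟨ν, h1, j, hj⟩ := hli
    refine ⟨ν, fun i => ?_, fun h => hj (by rw [h]; rfl)⟩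
    have h2 := congrFun h1 i
    simpa [Finset.sum_apply] using h2
  set x : Fin (n + 1) → Ω := fun k => z (Sum.inl k) with hx
  set y : Fin (K + 1) → Ω := fun j => z (Sum.inr j) with hy
  -- the equations
  have hyj : ∀ j : Fin (K + 1), y j ^ 2 = eval x (qdA κ g (P j)) := by
    intro j
    have h1 := hzF j
    rw [eval_famA] at h1
    exact sub_eq_zero.1 h1
  have hνy : ∀ l : Fin (K + 1), ν l * y l = 0 := by
    intro l
    have h1 := hν (Sum.inr l)
    rw [Finset.sum_eq_single l] at h1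
    · rw [eval_pd_famA_inr, if_pos rfl] at h1
      have h2 : 2 * (ν l * y l) = 0 := by
        rw [← h1]; simp only [hy]; ring
      rcases mul_eq_zero.1 h2 with h3 | h3
      · exact absurd h3 two_ne_zero
      · exact h3
    · intro j _ hj
      rw [eval_pd_famA_inr, if_neg hj, mul_zero]
    · intro h
      exact absurd (Finset.mem_univ _) h
  have hνx : ∀ k, ∑ j : Fin (K + 1), ν j * eval x (pderiv k (qdA κ g (P j))) = 0 := by
    intro k
    have h1 := hν (Sum.inl k)
    have h2 : ∑ j : Fin (K + 1), ν j * eval x (pderiv k (qdA κ g (P j)))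
        = - ∑ j, ν j * eval z (pderiv (Sum.inl k) (famA κ g P (K + 1) j)) := by
      rw [← Finset.sum_neg_distrib]
      refine Finset.sum_congr rfl fun j _ => ?_
      rw [eval_pd_famA_inl]
      ring
    rw [h2, h1, neg_zero]
  have hKne : ∀ j : Fin K, ((Fin.castSucc j : Fin (K + 1)) : ℕ) ≠ K := fun j => by
    have := j.2
    simp only [Fin.val_castSucc]
    omega
  -- x is not zero
  have hqd0 : ∀ p : Fin (n + 1) ⊕ ι → Ω, x = 0 → eval x (qdA κ g p) = 0 := by
    intro p hx0
    rw [hx0, MvPolynomial.eval_zero, MvPolynomial.constantCoeff_eq]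
    exact (qdA_hom κ g hg p).coeff_eq_zero (by simp)
  have hx0 : x ≠ 0 := by
    intro hx0
    apply hz
    funext t
    rcases t with k | j
    · exact congrFun hx0 k
    · have h1 := hyj j
      rw [hqd0 _ hx0] at h1
      exact pow_eq_zero_iff (two_ne_zero) |>.1 h1
  -- the restricted point
  let z' : Fin (n + 1) ⊕ Fin K → Ω := Sum.elim x (fun j => y j.castSucc)
  have hz' : z' ≠ 0 := by
    intro h
    apply hx0
    funext k
    exact congrFun h (Sum.inl k)
  have hz'F : ∀ j, eval z' (famA κ g (fun j t => κ (a j t)) K j) = 0 := by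
    intro j
    rw [eval_famA]
    have h1 := hyj j.castSucc
    rw [hPj _ (hKne j)] at h1
    exact sub_eq_zero.2 h1
  have hLI := hSΩ z' hz' hz'F
  -- the last coefficient is not zero
  have hνK : ν (Fin.last K) ≠ 0 := by
    intro hνK
    apply hν0
    have h1 : ∀ j : Fin K, ν j.castSucc = 0 := by
      refine Fintype.linearIndependent_iff.1 hLI (fun j => ν j.castSucc) ?_
      funext t
      rw [Finset.sum_apply]
      simp only [Pi.smul_apply, smul_eq_mul, Pi.zero_apply]
      rcases t with k | l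
      · have h2 := hνx k
        rw [Fin.sum_univ_castSucc, hνK, zero_mul, add_zero] at h2
        have h3 : ∑ j : Fin K, ν j.castSucc * eval z' (pderiv (Sum.inl k)
            (famA κ g (fun j t => κ (a j t)) K j))
            = - ∑ j : Fin K, ν j.castSucc * eval x (pderiv k (qdA κ g (P (j.castSucc : Fin (K+1))))) := by
          rw [← Finset.sum_neg_distrib]
          refine Finset.sum_congr rfl fun j _ => ?_
          rw [eval_pd_famA_inl, hPj _ (hKne j)]
          simp only [z', Sum.elim_inl, Fin.val_castSucc]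
          ring
        rw [h3, h2, neg_zero]
      · rw [Finset.sum_eq_single l]
        · rw [eval_pd_famA_inr, if_pos rfl]
          have h2 := hνy l.castSucc
          simp only [z', Sum.elim_inr]
          linear_combination 2 * h2
        · intro j _ hj
          rw [eval_pd_famA_inr, if_neg hj, mul_zero]
        · intro h
          exact absurd (Finset.mem_univ _) h
    funext j
    refine Fin.lastCases ?_ (fun i => ?_) j
    · exact hνK
    · exact h1 i
  have hyK : y (Fin.last K) = 0 := by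
    rcases mul_eq_zero.1 (hνy (Fin.last K)) with h | h
    · exact absurd h hνK
    · exact h
  -- apply gen_smooth
  have hlast : ((Fin.last K : Fin (K + 1)) : ℕ) = K := rfl
  have hev₂ : ∀ p : MvPolynomial (Fin (n + 1)) ℂ, p.eval₂ κ x = eval x (MvPolynomial.map κ p) :=
    fun p => (eval_map κ x p).symm
  have hmapqd : ∀ j, MvPolynomial.map κ (qd g (a j)) = qdA κ g (fun t => κ (a j t)) := by
    intro j
    rw [← qdA_id, map_qdA, RingHom.comp_id]
  refine gen_smooth (b := b) (ρ := ρ) (K := K) g φ hφ a x (fun j => y j.castSucc) hx0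
    (fun h => hρ Ω κ x hx0 h) (fun h J hJ => ?_) hρb (fun j => ?_) ?_
    (fun j => - (ν j.castSucc / ν (Fin.last K))) (fun j => ?_) (fun k => ?_)
  · refine lg_card hbn a hL κ x hx0 (hV Ω κ x h) J fun j hj => ?_
    exact hJ j hj
  · have h1 := hyj j.castSucc
    rw [hPj _ (hKne j)] at h1
    rw [← hκ, hev₂, hmapqd]
    exact h1
  · have h1 := hyj (Fin.last K)
    rw [hyK, hlast, hPK, eval_qdA] at h1
    rw [← hκ, ← h1]
    simp
  · have h1 := hνy j.castSucc
    have h2 : -(ν j.castSucc / ν (Fin.last K)) * y j.castSucc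
        = - (ν j.castSucc * y j.castSucc) / ν (Fin.last K) := by ring
    rw [h2, h1]
    simp
  · have h1 := hνx k
    rw [Fin.sum_univ_castSucc, hlast, hPK, eval_pd_qdA] at h1
    have h2 : ∑ j : Fin K, -(ν j.castSucc / ν (Fin.last K)) *
        (pderiv k (qd g (a j))).eval₂ (φ.comp C) x
        = - (∑ j : Fin K, ν j.castSucc * eval x (pderiv k (qdA κ g (P (j.castSucc : Fin (K+1))))))
          / ν (Fin.last K) := by
      rw [neg_div, Finset.sum_div, ← Finset.sum_neg_distrib]
      refine Finset.sum_congr rfl fun j _ => ?_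
      rw [← hκ, hev₂, ← pderiv_map, hmapqd, hPj _ (hKne j)]
      simp only [Fin.val_castSucc]
      ring
    rw [h2, eq_div_iff hνK]
    rw [← hκ]
    linear_combination h1

/-- PIECE B4 (ExtStep.lean; uses elim_y, li_iff_minor, gen_smooth) -/
theorem ext_step {n b ρ : ℕ} {ι : Type} [Fintype ι] [DecidableEq ι]
    (g : ι → MvPolynomial (Fin (n + 1)) ℂ) (hg : ∀ i, (g i).IsHomogeneous 2)
    (hV : ∀ (Ω : Type) [Field Ω] (φ : ℂ →+* Ω) (x : Fin (n + 1) → Ω),
      (∀ i, (g i).eval₂ φ x = 0) → ∀ i : Fin (n + 1), b < (i : ℕ) → x i = 0)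
    (hρ : ∀ (Ω : Type) [Field Ω] (φ : ℂ →+* Ω) (x : Fin (n + 1) → Ω), x ≠ 0 →
      (∀ i, (g i).eval₂ φ x = 0) → ρ ≤ Module.finrank Ω (Submodule.span Ω
      (Set.range fun i => fun k => (pderiv k (g i)).eval₂ φ x)))
    (hρb : b + n + 1 < 2 * ρ) (hbn : b ≤ n) (K : ℕ) (a : ℕ → Fin (n + 1) ⊕ ι → ℂ)
    (hS : SCI (fam g a K)) (hL : LG b K a) (Θ : MvPolynomial (Fin (n + 1) ⊕ ι) ℂ)
    (hΘ : Θ ≠ 0) :
    ∃ c : Fin (n + 1) ⊕ ι → ℂ, eval c Θ ≠ 0 ∧ SCI (fam g (Function.update a K c) (K + 1)) ∧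
      LG b (K + 1) (Function.update a K c) := by
  classical
  obtain ⟨Λ, hΛ0, hΛ⟩ := lg_poly hbn a hL
  let A := MvPolynomial (Fin (n + 1) ⊕ ι) ℂ
  let Ω := AlgebraicClosure (FractionRing A)
  let φ : A →+* Ω := (algebraMap (FractionRing A) Ω).comp (algebraMap A (FractionRing A))
  have hφ : Function.Injective φ :=
    (algebraMap (FractionRing A) Ω).injective.comp (IsFractionRing.injective A (FractionRing A))
  haveI : CharZero Ω := charZero_of_injective_ringHom (φ.comp C).injective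
  have hgen := gen_step g hg hV hρ hρb hbn K a hS hL φ hφ
  let P : ℕ → Fin (n + 1) ⊕ ι → A := Function.update
      (fun (j : ℕ) (t : Fin (n + 1) ⊕ ι) => (C (a j t) : MvPolynomial (Fin (n + 1) ⊕ ι) ℂ)) K X
  obtain ⟨Θ₁, hΘ₁, hall⟩ := sca_elim (famA (C : ℂ →+* A) g P (K + 1))
    (fun j => famA_hom _ g hg P (K + 1) j) φ (by
      have h1 : (fun j => MvPolynomial.map φ (famA (C : ℂ →+* A) g P (K + 1) j))
          = famA (φ.comp C) g (fun j t => φ (P j t)) (K + 1) := by
        funext j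
        rw [map_famA]
      rw [h1]
      exact hgen)
  have hΘ₁0 : Θ₁ ≠ 0 := fun h => hΘ₁ (by rw [h, map_zero])
  have hprod : Θ * Θ₁ * Λ ≠ 0 := mul_ne_zero (mul_ne_zero hΘ hΘ₁0) hΛ0
  obtain ⟨c, hc⟩ : ∃ c, eval c (Θ * Θ₁ * Λ) ≠ 0 := by
    by_contra hcon
    push Not at hcon
    exact hprod (MvPolynomial.funext fun c => by rw [hcon c, map_zero])
  rw [map_mul, map_mul] at hc
  have hc1 : eval c Θ ≠ 0 := fun h => hc (by rw [h]; ring)
  have hc2 : eval c Θ₁ ≠ 0 := fun h => hc (by rw [h]; ring)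
  have hc3 : eval c Λ ≠ 0 := fun h => hc (by rw [h]; ring)
  refine ⟨c, hc1, ?_, hΛ c hc3⟩
  have h1 := hall ℂ (eval c) hc2
  have h2 : (fun j => MvPolynomial.map (eval c) (famA (C : ℂ →+* A) g P (K + 1) j))
      = fam g (Function.update a K c) (K + 1) := by
    funext j
    rw [map_famA, ← famA_id]
    have h3 : (eval c).comp (C : ℂ →+* A) = RingHom.id ℂ := by
      ext r
      simp
    have h4 : (fun (j : ℕ) t => eval c (P j t)) = Function.update a K c := by
      funext j t
      by_cases hj : j = K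
      · subst hj
        simp only [P]
        rw [Function.update_self, Function.update_self, eval_X]
      · simp only [P]
        rw [Function.update_of_ne hj, Function.update_of_ne hj, eval_C]
    rw [h3, h4]
  rw [h2] at h1
  exact h1

end Pool.Agent.QY
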