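import Pool.Agent.Lib_MP_b9fedf_qy.DefsV

set_option autoImplicit false

namespace Pool.Agent.QY
open MvPolynomial Topology

/-- the exponent of `x_i ^ (k-1) x_j` -/
private def monVeroLift {n k : ℕ} (hk : 1 ≤ k) (i j : Fin (n + 1)) : Mon n k :=
  ⟨fun l => ⟨(if l = i then k - 1 else 0) + (if l = j then 1 else 0), by split_ifs <;> omega⟩, by
    simp only
    rw [Finset.sum_add_distrib, Finset.sum_ite_eq', Finset.sum_ite_eq']
    simp
    omega⟩

private theorem vero_monVeroLift {n k : ℕ} (hk : 1 ≤ k) (i j : Fin (n + 1))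
    (x : Fin (n + 1) → ℂ) : vero k x (monVeroLift hk i j) = x i ^ (k - 1) * x j := by
  unfold vero monVeroLift
  simp only [pow_add, Finset.prod_mul_distrib]
  congr 1
  · rw [Finset.prod_eq_single i]
    · simp
    · intro b _ hb
      simp [hb]
    · simp
  · rw [Finset.prod_eq_single j]
    · simp
    · intro b _ hb
      simp [hb]
    · simp

private theorem vero_smul_VeroLift {n k : ℕ} (c : ℂ) (x : Fin (n + 1) → ℂ) :
    vero k (c • x) = c ^ k • vero k x := by
  funext α
  simp only [vero, Pi.smul_apply, smul_eq_mul, mul_pow, Finset.prod_mul_distrib]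
  congr 1
  rw [Finset.prod_pow_eq_pow_sum, α.2]

/-- two points with the same image differ by a root of unity, determined by one coordinate -/
private theorem vero_eq_VeroLift {n k : ℕ} (hk : 1 ≤ k) {x y : Fin (n + 1) → ℂ}
    (h : vero k x = vero k y) {i : Fin (n + 1)} (hi : y i ≠ 0) :
    (x i / y i) ^ k = 1 ∧ x = (x i / y i) • y := by
  have h1 : ∀ j, x i ^ (k - 1) * x j = y i ^ (k - 1) * y j := by
    intro j
    rw [← vero_monVeroLift hk i j x, ← vero_monVeroLift hk i j y, h]
  have hkk : ∀ z : ℂ, z ^ (k - 1) * z = z ^ k := by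
    intro z
    rw [← pow_succ]
    congr 1
    omega
  have h2 : x i ^ k = y i ^ k := by
    have := h1 i
    rwa [hkk, hkk] at this
  have hxi : x i ≠ 0 := by
    intro h0
    rw [h0, zero_pow (by omega)] at h2
    exact pow_ne_zero k hi h2.symm
  refine ⟨by rw [div_pow, h2, div_self (pow_ne_zero k hi)], ?_⟩
  funext j
  rw [Pi.smul_apply, smul_eq_mul]
  have h3 : x i ^ (k - 1) ≠ 0 := pow_ne_zero _ hxi
  apply mul_left_cancel₀ h3
  rw [h1 j]
  have h4 : x i ^ (k - 1) * (x i / y i * y j) = x i ^ k / y i * y j := by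
    rw [← hkk (x i)]; ring
  rw [h4, h2, ← hkk (y i)]
  field_simp

section

variable {n k : ℕ} (hk : 1 ≤ k) {E : Type} [NormedAddCommGroup E] [NormedSpace ℂ E]
  (F : E → Mon n k → ℂ)

/-- the local `k`-th root of the `i`-th coordinate -/
private noncomputable def gVeroLift (i : Fin (n + 1)) (c : ℂ) (z : E) : ℂ :=
  c * (F z (monVeroLift hk i i) / c ^ k) ^ ((k : ℂ)⁻¹)

/-- the local section -/
private noncomputable def sVeroLift (i : Fin (n + 1)) (c : ℂ) (z : E) : Fin (n + 1) → ℂ :=
  fun j => F z (monVeroLift hk i j) / gVeroLift hk F i c z ^ (k - 1)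

/-- the domain of the local section -/
private def uVeroLift (i : Fin (n + 1)) (c : ℂ) : Set E :=
  {z | F z (monVeroLift hk i i) / c ^ k ∈ Complex.slitPlane}

omit [NormedAddCommGroup E] [NormedSpace ℂ E] in
private theorem g_pow_VeroLift {i : Fin (n + 1)} {c : ℂ} (hc : c ≠ 0) (z : E) :
    gVeroLift hk F i c z ^ k = F z (monVeroLift hk i i) := by
  unfold gVeroLift
  rw [mul_pow, Complex.cpow_nat_inv_pow _ (by omega)]
  field_simp

omit [NormedAddCommGroup E] [NormedSpace ℂ E] in
private theorem g_ne_VeroLift {i : Fin (n + 1)} {c : ℂ} (hc : c ≠ 0) {z : E}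
    (hz : z ∈ uVeroLift hk F i c) : gVeroLift hk F i c z ≠ 0 := by
  intro h
  have h1 := g_pow_VeroLift hk F (i := i) hc z
  rw [h, zero_pow (by omega)] at h1
  have h2 : F z (monVeroLift hk i i) / c ^ k ∈ Complex.slitPlane := hz
  rw [← h1, zero_div] at h2
  exact Complex.slitPlane_ne_zero h2 rfl

omit [NormedAddCommGroup E] [NormedSpace ℂ E] in
private theorem s_spec_VeroLift {i : Fin (n + 1)} {c : ℂ} (hc : c ≠ 0) {z : E}
    (hz : z ∈ uVeroLift hk F i c) (h : ∃ x : Fin (n + 1) → ℂ, F z = vero k x) :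
    F z = vero k (sVeroLift hk F i c z) ∧
      sVeroLift hk F i c z i = gVeroLift hk F i c z := by
  obtain ⟨x, hx⟩ := h
  have hg := g_ne_VeroLift hk F hc hz
  have hgp := g_pow_VeroLift hk F (i := i) hc z
  set g := gVeroLift hk F i c z with hgdef
  have hm : ∀ j, F z (monVeroLift hk i j) = x i ^ (k - 1) * x j := fun j => by
    rw [hx, vero_monVeroLift]
  have hkk : ∀ z : ℂ, z ^ (k - 1) * z = z ^ k := by
    intro z
    rw [← pow_succ]
    congr 1
    omega
  have hxi : x i ^ k = g ^ k := by rw [hgp, hm i, hkk]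
  have hx0 : x i ≠ 0 := by
    intro h0
    rw [h0, zero_pow (by omega)] at hxi
    exact pow_ne_zero k hg hxi.symm
  have hs : sVeroLift hk F i c z = (g / x i) • x := by
    funext j
    have h1 : sVeroLift hk F i c z j = x i ^ (k - 1) * x j / g ^ (k - 1) := by
      show F z (monVeroLift hk i j) / gVeroLift hk F i c z ^ (k - 1) = _
      rw [hm j, ← hgdef]
    rw [h1, Pi.smul_apply, smul_eq_mul]
    have h2 : x i ^ (k - 1) * x i = g ^ (k - 1) * g := by rw [hkk, hkk, hxi]
    have h3 : g ^ (k - 1) ≠ 0 := pow_ne_zero _ hg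
    rw [div_mul_eq_mul_div, div_eq_div_iff h3 hx0]
    linear_combination (x j) * h2
  constructor
  · rw [hs, vero_smul_VeroLift, div_pow, hxi, div_self (pow_ne_zero k hg), one_smul, hx]
  · rw [hs, Pi.smul_apply, smul_eq_mul, div_mul_cancel₀ _ hx0]

omit [NormedAddCommGroup E] [NormedSpace ℂ E] in
private theorem mem_u_VeroLift {i : Fin (n + 1)} {z : E} {x : Fin (n + 1) → ℂ}
    (hx : F z = vero k x) (hi : x i ≠ 0) : z ∈ uVeroLift hk F i (x i) := by
  show F z (monVeroLift hk i i) / x i ^ k ∈ Complex.slitPlane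
  rw [hx, vero_monVeroLift]
  have : x i ^ (k - 1) * x i = x i ^ k := by
    rw [← pow_succ]
    congr 1
    omega
  rw [this, div_self (pow_ne_zero k hi)]
  exact Complex.one_mem_slitPlane

variable {F} (hF : Differentiable ℂ F)
include hF

private theorem F_diff_VeroLift (α : Mon n k) : Differentiable ℂ fun z => F z α := fun z =>
  differentiableAt_pi.1 (hF z) α

private theorem g_diff_VeroLift {i : Fin (n + 1)} {c : ℂ} {z : E}
    (hz : z ∈ uVeroLift hk F i c) : DifferentiableAt ℂ (gVeroLift hk F i c) z := by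
  unfold gVeroLift
  refine DifferentiableAt.const_mul ?_ c
  have h1 : DifferentiableAt ℂ (fun z => F z (monVeroLift hk i i) / c ^ k) z := by
    simp only [div_eq_mul_inv]
    exact (F_diff_VeroLift hF _ z).mul_const _
  exact h1.cpow_const hz

private theorem u_open_VeroLift (i : Fin (n + 1)) (c : ℂ) : IsOpen (uVeroLift hk F i c) := by
  have h1 : Continuous fun z => F z (monVeroLift hk i i) / c ^ k :=
    (F_diff_VeroLift hF _).continuous.div_const _
  exact Complex.isOpen_slitPlane.preimage h1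

private theorem s_cont_VeroLift {i : Fin (n + 1)} {c : ℂ} (hc : c ≠ 0) :
    ContinuousOn (sVeroLift hk F i c) (uVeroLift hk F i c) := by
  intro z hz
  refine ContinuousAt.continuousWithinAt ?_
  refine continuousAt_pi.2 fun j => ?_
  show ContinuousAt (fun z => F z (monVeroLift hk i j) / gVeroLift hk F i c z ^ (k - 1)) z
  exact (F_diff_VeroLift hF _ z).continuousAt.div
    ((g_diff_VeroLift hk hF hz).continuousAt.pow _) (pow_ne_zero _ (g_ne_VeroLift hk F hc hz))

include hk in
/-- the projection from the pairs is a covering map -/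
private theorem covering_VeroLift (hF0 : ∀ z, F z ≠ 0)
    (h : ∀ z, ∃ x : Fin (n + 1) → ℂ, F z = vero k x) :
    IsCoveringMap (fun p : {p : E × (Fin (n + 1) → ℂ) // F p.1 = vero k p.2} => p.1.1) := by
  have hfin : Finite {ζ : ℂ // ζ ^ k = 1} := by
    have : {ζ : ℂ | ζ ^ k = 1} ⊆ ((Polynomial.nthRootsFinset k (1 : ℂ) : Finset ℂ) : Set ℂ) := by
      intro ζ hζ
      exact (Polynomial.mem_nthRootsFinset (by omega) 1).2 hζ
    exact (Finset.finite_toSet _).subset this
  have key : ∀ z₀ : E, IsEvenlyCovered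
      (fun p : {p : E × (Fin (n + 1) → ℂ) // F p.1 = vero k p.2} => p.1.1) z₀
      {ζ : ℂ // ζ ^ k = 1} := by
    intro z₀
    obtain ⟨x₀, hx₀⟩ := h z₀
    have hx0 : x₀ ≠ 0 := by
      rintro rfl
      refine hF0 z₀ ?_
      rw [hx₀]
      have := vero_smul_VeroLift (n := n) (k := k) (0 : ℂ) 0
      rw [zero_smul, zero_pow (by omega), zero_smul] at this
      exact this
    obtain ⟨i, hi⟩ : ∃ i, x₀ i ≠ 0 := by
      by_contra hcon
      push Not at hcon
      exact hx0 (funext hcon)
    set c := x₀ i with hc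
    set U := uVeroLift hk F i c with hU
    have hUo : IsOpen U := u_open_VeroLift hk hF i c
    have hπ : Continuous (fun p : {p : E × (Fin (n + 1) → ℂ) // F p.1 = vero k p.2} => p.1.1) :=
      continuous_fst.comp continuous_subtype_val
    refine ⟨inferInstance, U, mem_u_VeroLift hk F hx₀ hi, hUo, hUo.preimage hπ, ?_⟩
    -- the trivialisation
    have hspec : ∀ z ∈ U, F z = vero k (sVeroLift hk F i c z) ∧
        sVeroLift hk F i c z i = gVeroLift hk F i c z := fun z hz =>
      s_spec_VeroLift hk F hi hz (h z)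
    have hgne : ∀ z ∈ U, gVeroLift hk F i c z ≠ 0 := fun z hz => g_ne_VeroLift hk F hi hz
    have hgc : ContinuousOn (gVeroLift hk F i c) U := fun z hz =>
      (g_diff_VeroLift hk hF hz).continuousAt.continuousWithinAt
    have hroot : ∀ z ∈ U, ∀ x : Fin (n + 1) → ℂ, F z = vero k x →
        (x i / gVeroLift hk F i c z) ^ k = 1 ∧
          x = (x i / gVeroLift hk F i c z) • sVeroLift hk F i c z := by
      intro z hz x hx
      obtain ⟨h1, h2⟩ := hspec z hz
      have h3 : sVeroLift hk F i c z i ≠ 0 := by rw [h2]; exact hgne z hz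
      have h4 := vero_eq_VeroLift hk (hx.symm.trans h1) h3
      rwa [h2] at h4
    refine ⟨{ toFun := fun p => (⟨p.1.1.1, p.2⟩, ⟨p.1.1.2 i / gVeroLift hk F i c p.1.1.1,
                (hroot _ p.2 _ p.1.2).1⟩)
              invFun := fun q => ⟨⟨(q.1.1, q.2.1 • sVeroLift hk F i c q.1.1), by
                show F q.1.1 = vero k (q.2.1 • sVeroLift hk F i c q.1.1)
                rw [vero_smul_VeroLift, q.2.2, one_smul]
                exact (hspec _ q.1.2).1⟩, q.1.2⟩
              left_inv := ?_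
              right_inv := ?_
              continuous_toFun := ?_
              continuous_invFun := ?_ }, fun p => rfl⟩
    · rintro ⟨⟨⟨z, x⟩, hx⟩, hz⟩
      refine Subtype.ext (Subtype.ext (Prod.ext rfl ?_))
      exact (hroot z hz x hx).2.symm
    · rintro ⟨⟨z, hz⟩, ⟨ζ, hζ⟩⟩
      refine Prod.ext rfl (Subtype.ext ?_)
      show (ζ • sVeroLift hk F i c z) i / gVeroLift hk F i c z = ζ
      rw [Pi.smul_apply, smul_eq_mul, (hspec z hz).2, mul_div_assoc, div_self (hgne z hz), mul_one]
    · refine Continuous.prodMk ?_ ?_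
      · exact Continuous.subtype_mk (hπ.comp continuous_subtype_val) _
      · refine Continuous.subtype_mk ?_ _
        refine Continuous.div ?_ ?_ fun p => hgne _ p.2
        · exact (continuous_apply i).comp
            (continuous_snd.comp (continuous_subtype_val.comp continuous_subtype_val))
        · exact hgc.comp_continuous (hπ.comp continuous_subtype_val) fun p => p.2
    · refine Continuous.subtype_mk (Continuous.subtype_mk ?_ _) _
      refine Continuous.prodMk (continuous_subtype_val.comp continuous_fst) ?_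
      refine Continuous.smul (continuous_subtype_val.comp continuous_snd) ?_
      exact (s_cont_VeroLift hk hF hi).comp_continuous
        (continuous_subtype_val.comp continuous_fst) fun p => p.1.2
  intro z₀
  exact (key z₀).to_isEvenlyCovered_preimage

end

/-- PIECE V1 (VeroLift.lean) -/
theorem vero_lift {n k : ℕ} (hk : 1 ≤ k) {E : Type} [NormedAddCommGroup E] [NormedSpace ℂ E]
    (F : E → Mon n k → ℂ) (hF : Differentiable ℂ F) (hF0 : ∀ z, F z ≠ 0)
    (h : ∀ z, ∃ x : Fin (n + 1) → ℂ, F z = vero k x) :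
    ∃ f : E → Fin (n + 1) → ℂ, Differentiable ℂ f ∧ ∀ z, F z = vero k (f z) := by
  have hcov := covering_VeroLift hk hF hF0 h
  obtain ⟨x₀, hx₀⟩ := h 0
  let _ : NormedSpace ℝ E := NormedSpace.complexToReal
  obtain ⟨Φ, ⟨-, hΦ⟩, -⟩ := hcov.existsUnique_continuousMap_lifts (A := E) (ContinuousMap.id E) 0
    ⟨(0, x₀), hx₀⟩ rfl
  have h1 : ∀ z, (Φ z).1.1 = z := fun z => congrFun hΦ z
  set f : E → Fin (n + 1) → ℂ := fun z => (Φ z).1.2 with hf
  have hfF : ∀ z, F z = vero k (f z) := by
    intro z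
    have := (Φ z).2
    rwa [h1] at this
  have hfc : Continuous f := continuous_snd.comp (continuous_subtype_val.comp Φ.continuous)
  refine ⟨f, fun z₀ => ?_, hfF⟩
  have hx0 : f z₀ ≠ 0 := by
    intro h0
    refine hF0 z₀ ?_
    rw [hfF z₀, h0]
    have := vero_smul_VeroLift (n := n) (k := k) (0 : ℂ) 0
    rw [zero_smul, zero_pow (by omega), zero_smul] at this
    exact this
  obtain ⟨i, hi⟩ : ∃ i, f z₀ i ≠ 0 := by
    by_contra hcon
    push Not at hcon
    exact hx0 (funext hcon)
  set c := f z₀ i with hc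
  have hz₀ : z₀ ∈ uVeroLift hk F i c := mem_u_VeroLift hk F (hfF z₀) hi
  have hUo := u_open_VeroLift hk hF i c
  have hgd := g_diff_VeroLift hk hF hz₀
  -- the quotient is a root of unity, close to one
  have hq : ∀ᶠ z in 𝓝 z₀, f z i = gVeroLift hk F i c z := by
    have hc1 : ContinuousAt (fun z => f z i / gVeroLift hk F i c z) z₀ :=
      ((continuous_apply i).comp hfc).continuousAt.div hgd.continuousAt
        (g_ne_VeroLift hk F hi hz₀)
    have hv1 : gVeroLift hk F i c z₀ = c := by
      unfold gVeroLift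
      have : F z₀ (monVeroLift hk i i) = c ^ k := by
        rw [hfF z₀, vero_monVeroLift, ← pow_succ]
        congr 1
        omega
      rw [this, div_self (pow_ne_zero k hi), Complex.one_cpow, mul_one]
    have hv : f z₀ i / gVeroLift hk F i c z₀ = 1 := by
      rw [hv1]
      exact div_self hi
    have hfin : {ζ : ℂ | ζ ^ k = 1 ∧ ζ ≠ 1}.Finite := by
      have : {ζ : ℂ | ζ ^ k = 1 ∧ ζ ≠ 1} ⊆ ((Polynomial.nthRootsFinset k (1 : ℂ) : Finset ℂ) : Set ℂ) := by
        intro ζ hζ
        exact (Polynomial.mem_nthRootsFinset (by omega) 1).2 hζ.1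
      exact (Finset.finite_toSet _).subset this
    have hopen : {ζ : ℂ | ζ ^ k = 1 ∧ ζ ≠ 1}ᶜ ∈ 𝓝 (1 : ℂ) :=
      hfin.isClosed.isOpen_compl.mem_nhds fun h => h.2 rfl
    have hev : ∀ᶠ z in 𝓝 z₀, f z i / gVeroLift hk F i c z ∈ {ζ : ℂ | ζ ^ k = 1 ∧ ζ ≠ 1}ᶜ := by
      refine hc1 ?_
      show {ζ : ℂ | ζ ^ k = 1 ∧ ζ ≠ 1}ᶜ ∈ 𝓝 (f z₀ i / gVeroLift hk F i c z₀)
      rw [hv]
      exact hopen
    filter_upwards [hev, hUo.mem_nhds hz₀] with z h2 h3
    have h4 := g_ne_VeroLift hk F hi h3
    have h5 : (f z i / gVeroLift hk F i c z) ^ k = 1 := by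
      have h6 := s_spec_VeroLift hk F hi h3 (h z)
      have h7 : sVeroLift hk F i c z i ≠ 0 := by rw [h6.2]; exact h4
      have h8 := (vero_eq_VeroLift hk ((hfF z).symm.trans h6.1) h7).1
      rwa [h6.2] at h8
    by_contra hne
    refine h2 ⟨h5, fun h6 => hne ?_⟩
    exact (div_eq_one_iff_eq h4).1 h6
  have hfi : DifferentiableAt ℂ (fun z => f z i) z₀ := hgd.congr_of_eventuallyEq hq
  rw [differentiableAt_pi]
  intro j
  have hj : (fun z => f z j) =ᶠ[𝓝 z₀] fun z => F z (monVeroLift hk i j) / f z i ^ (k - 1) := by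
    have hne : ∀ᶠ z in 𝓝 z₀, f z i ≠ 0 :=
      ((continuous_apply i).comp hfc).continuousAt.eventually_ne hi
    filter_upwards [hne] with z hz
    rw [hfF z, vero_monVeroLift, mul_comm, mul_div_assoc, div_self (pow_ne_zero _ hz), mul_one]
  refine DifferentiableAt.congr_of_eventuallyEq ?_ hj
  have h2 : DifferentiableAt ℂ (fun z => f z i ^ (k - 1)) z₀ := hfi.fun_pow _
  have h3 : DifferentiableAt ℂ (fun z => (f z i ^ (k - 1))⁻¹) z₀ :=
    h2.fun_inv (pow_ne_zero _ hi)
  simp only [div_eq_mul_inv]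
  exact (F_diff_VeroLift hF _ z₀).fun_mul h3

end Pool.Agent.QY
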