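import Pool.Agent.Lib_MP_b9fedf_ag.Defs2
import Pool.Agent.Lib_MP_b9fedf_qy.VeroLift
import Pool.Agent.Lib_MP_b9fedf_qy.DefsY

/-! The Green-Griffiths-Lang statements for `X` and for a variety with exceptional set `X`. -/

set_option autoImplicit false

namespace Pool.Agent.QY
open MvPolynomial Pool.Agent.SQ Pool.Agent.GGL

/-- the exponent of `x_i ^ (k-1) x_j` -/
def monIJ {n k : ℕ} (hk : 1 ≤ k) (i j : Fin (n + 1)) : Mon n k :=
  ⟨fun l => ⟨(if l = i then k - 1 else 0) + (if l = j then 1 else 0), by split_ifs <;> omega⟩, by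
    simp only
    rw [Finset.sum_add_distrib, Finset.sum_ite_eq', Finset.sum_ite_eq']
    simp
    omega⟩

theorem vero_monIJ {n k : ℕ} (hk : 1 ≤ k) (i j : Fin (n + 1)) (x : Fin (n + 1) → ℂ) :
    vero k x (monIJ hk i j) = x i ^ (k - 1) * x j := by
  unfold vero monIJ
  simp only [pow_add, Finset.prod_mul_distrib]
  congr 1
  · rw [Finset.prod_eq_single i]
    · simp
    · intro b _ hb
      simp [hb]
    · simp
  · rw [Finset.prod_eq_single j]
    · simp
    · intro b _ hb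
      simp [hb]
    · simp

theorem vero_smul {n k : ℕ} (c : ℂ) (x : Fin (n + 1) → ℂ) :
    vero k (c • x) = c ^ k • vero k x := by
  funext α
  simp only [vero, Pi.smul_apply, smul_eq_mul, mul_pow, Finset.prod_mul_distrib]
  congr 1
  rw [Finset.prod_pow_eq_pow_sum, α.2]

theorem vero_ne {n k : ℕ} (hk : 1 ≤ k) {x : Fin (n + 1) → ℂ} (hx : x ≠ 0) : vero k x ≠ 0 := by
  intro h
  obtain ⟨i, hi⟩ := Function.ne_iff.mp hx
  have h1 := congrFun h (monIJ hk i i)
  rw [vero_monIJ, ← pow_succ, Pi.zero_apply] at h1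
  exact pow_ne_zero _ hi h1

theorem vero_zero {n k : ℕ} (hk : 1 ≤ k) : vero k (0 : Fin (n + 1) → ℂ) = 0 := by
  have := vero_smul (k := k) 0 (0 : Fin (n + 1) → ℂ)
  rw [smul_zero, zero_pow (by omega), zero_smul] at this
  exact this

/-- two points with proportional images are proportional -/
theorem vero_prop {n k : ℕ} (hk : 1 ≤ k) {x y : Fin (n + 1) → ℂ} (hx : x ≠ 0) (hy : y ≠ 0) (c : ℂ)
    (h : vero k x = c • vero k y) : ∃ d : ℂ, x = d • y := by
  obtain ⟨i, hi⟩ := Function.ne_iff.mp hy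
  simp only [Pi.zero_apply] at hi
  have hc : c ≠ 0 := by
    intro hc
    rw [hc, zero_smul] at h
    exact vero_ne hk hx h
  have h1 : ∀ j, x i ^ (k - 1) * x j = c * (y i ^ (k - 1) * y j) := by
    intro j
    have := congrFun h (monIJ hk i j)
    rw [Pi.smul_apply, smul_eq_mul, vero_monIJ, vero_monIJ] at this
    exact this
  have hxi : x i ≠ 0 := by
    intro h0
    have h2 := h1 i
    rw [h0, mul_zero] at h2
    exact (mul_ne_zero hc (mul_ne_zero (pow_ne_zero _ hi) hi)) h2.symm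
  refine ⟨x i / y i, ?_⟩
  funext j
  rw [Pi.smul_apply, smul_eq_mul]
  have h2 := h1 i
  have h3 := h1 j
  have h4 : c * y i ^ (k - 1) = x i ^ (k - 1) * x i / y i := by
    field_simp
    linear_combination -h2
  have h5 : x i ^ (k - 1) * x j = x i ^ (k - 1) * (x i / y i * y j) := by
    rw [h3, ← mul_assoc, h4]
    ring
  exact mul_left_cancel₀ (pow_ne_zero _ hxi) h5

/-- `Y` contains the image of `X` under the Veronese map, and every holomorphic map from a vector
space to `Y` is constant or has its image in this image of `X`, up to signs of coordinates. -/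
def AltAll {n m k : ℕ} (S : Set (MvPolynomial (Fin (n + 1)) ℂ))
    (T : Set (MvPolynomial (Fin (m + 1)) ℂ)) (L : (Mon n k → ℂ) →ₗ[ℂ] (Fin (m + 1) → ℂ)) : Prop :=
  ∀ (E : Type) [NormedAddCommGroup E] [NormedSpace ℂ E] (f : E → Fin (m + 1) → ℂ),
    Differentiable ℂ f → (∀ z, f z ≠ 0) → (∀ z, ∀ p ∈ T, eval (f z) p = 0) →
    (∀ z w, ∃ c : ℂ, f w = c • f z) ∨
    ∃ ε : Fin (m + 1) → ℂ, (∀ i, ε i = 1 ∨ ε i = -1) ∧
      (∀ p ∈ T, ∀ z : Fin (m + 1) → ℂ, eval (ε * z) p = eval z p) ∧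
      ∀ z, ∃ x : Fin (n + 1) → ℂ, x ≠ 0 ∧ (∀ p ∈ S, eval x p = 0) ∧ f z = ε * L (vero k x)

theorem lift_E {n m k : ℕ} (hk : 1 ≤ k) (S : Set (MvPolynomial (Fin (n + 1)) ℂ))
    (hS : ∀ p ∈ S, ∃ d : ℕ, p.IsHomogeneous d) (L : (Mon n k → ℂ) →ₗ[ℂ] (Fin (m + 1) → ℂ))
    (hL : Function.Injective L) {E : Type} [NormedAddCommGroup E] [NormedSpace ℂ E]
    (f : E → Fin (m + 1) → ℂ) (hf : Differentiable ℂ f) (ε : Fin (m + 1) → ℂ)
    (hε : ∀ i, ε i = 1 ∨ ε i = -1)
    (h : ∀ z, ∃ x : Fin (n + 1) → ℂ, x ≠ 0 ∧ (∀ p ∈ S, eval x p = 0) ∧ f z = ε * L (vero k x)) :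
    ∃ u : E → Fin (n + 1) → ℂ, Differentiable ℂ u ∧ (∀ z, u z ≠ 0) ∧
      (∀ z, ∀ p ∈ S, eval (u z) p = 0) ∧ ∀ z, f z = ε * L (vero k (u z)) := by
  obtain ⟨L', hL'⟩ := L.exists_leftInverse_of_injective (LinearMap.ker_eq_bot.mpr hL)
  have hε2 : ε * ε = 1 := by
    funext i
    rw [Pi.mul_apply, Pi.one_apply]
    rcases hε i with h | h <;> rw [h] <;> norm_num
  have hLL : ∀ w, L' (L w) = w := fun w => LinearMap.congr_fun hL' w
  set F : E → Mon n k → ℂ := fun z => L' (ε * f z) with hF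
  have hFv : ∀ z (x : Fin (n + 1) → ℂ), f z = ε * L (vero k x) → F z = vero k x := by
    intro z x hx
    rw [hF]
    simp only
    rw [hx, ← mul_assoc, hε2, one_mul, hLL]
  have hFd : Differentiable ℂ F := by
    have h1 : Differentiable ℂ (fun z => ε * f z) := by
      rw [differentiable_pi]
      intro i
      exact (differentiable_pi.mp hf i).const_mul (ε i)
    exact (LinearMap.toContinuousLinearMap L').differentiable.comp h1
  obtain ⟨u, hu, hu2⟩ := vero_lift hk F hFd (by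
    intro z
    obtain ⟨x, hx, _, hx2⟩ := h z
    rw [hFv z x hx2]
    exact vero_ne hk hx) (by
    intro z
    obtain ⟨x, _, _, hx2⟩ := h z
    exact ⟨x, hFv z x hx2⟩)
  have hu0 : ∀ z, u z ≠ 0 := by
    intro z hz
    obtain ⟨x, hx, _, hx2⟩ := h z
    have h1 := hu2 z
    rw [hFv z x hx2, hz, vero_zero hk] at h1
    exact vero_ne hk hx h1
  refine ⟨u, hu, hu0, ?_, ?_⟩
  · intro z p hp
    obtain ⟨x, hx, hxS, hx2⟩ := h z
    have h1 := hu2 z
    rw [hFv z x hx2] at h1
    obtain ⟨d, hd⟩ := vero_prop hk (hu0 z) hx 1 (by rw [one_smul]; exact h1.symm)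
    obtain ⟨e, he⟩ := hS p hp
    rw [hd]
    have h2 : eval (d • x) p = d ^ e * eval x p := by
      rw [eval_eq, eval_eq, Finset.mul_sum]
      refine Finset.sum_congr rfl fun m hm => ?_
      have h1 := he (mem_support_iff.mp hm)
      have h2 : ∑ i ∈ m.support, m i = e := by
        rw [← h1, Finsupp.weight_apply, Finsupp.sum]
        simp
      simp only [Pi.smul_apply, smul_eq_mul, mul_pow]
      rw [Finset.prod_mul_distrib, Finset.prod_pow_eq_pow_sum, h2]
      ring
    rw [h2, hxS p hp, mul_zero]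
  · intro z
    obtain ⟨x, _, _, hx2⟩ := h z
    rw [← hu2 z, hFv z x hx2]
    exact hx2

theorem vero_diff {n k : ℕ} {E : Type} [NormedAddCommGroup E] [NormedSpace ℂ E]
    (u : E → Fin (n + 1) → ℂ) (hu : Differentiable ℂ u) :
    Differentiable ℂ (fun z => vero k (u z)) := by
  rw [differentiable_pi]
  intro α
  unfold vero
  have hi := differentiable_pi.mp hu
  have hfin : ∀ s : Finset (Fin (n + 1)),
      Differentiable ℂ (fun z => ∏ i ∈ s, u z i ^ (α.1 i : ℕ)) := by
    classical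
    intro s
    induction s using Finset.induction_on with
    | empty =>
      simp only [Finset.prod_empty]
      exact differentiable_const 1
    | insert i s his ih =>
      simp only [Finset.prod_insert his]
      exact ((hi i).pow _).mul ih
  exact hfin Finset.univ

theorem ggl_iff {n m k : ℕ} (hk : 1 ≤ k) (S : Set (MvPolynomial (Fin (n + 1)) ℂ))
    (hS : ∀ p ∈ S, ∃ d : ℕ, p.IsHomogeneous d) (T : Set (MvPolynomial (Fin (m + 1)) ℂ))
    (L : (Mon n k → ℂ) →ₗ[ℂ] (Fin (m + 1) → ℂ)) (hL : Function.Injective L)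
    (hin : ∀ x : Fin (n + 1) → ℂ, x ≠ 0 → (∀ p ∈ S, eval x p = 0) →
      ∀ p ∈ T, eval (L (vero k x)) p = 0)
    (hY : AltAll S T L) : GGL n S ↔ GGL m T := by
  -- images of curves of `X`
  have himg : ∀ (E : Type) [NormedAddCommGroup E] [NormedSpace ℂ E] (u : E → Fin (n + 1) → ℂ),
      Differentiable ℂ u → Differentiable ℂ (fun z => L (vero k (u z))) := by
    intro E _ _ u hu
    exact (LinearMap.toContinuousLinearMap L).differentiable.comp (vero_diff u hu)
  have hLne : ∀ x : Fin (n + 1) → ℂ, x ≠ 0 → L (vero k x) ≠ 0 := by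
    intro x hx h
    exact vero_ne hk hx (hL (by rw [h, map_zero]))
  have hLprop : ∀ (x y : Fin (n + 1) → ℂ), x ≠ 0 → y ≠ 0 → ∀ c : ℂ,
      L (vero k x) = c • L (vero k y) → ∃ d : ℂ, x = d • y := by
    intro x y hx hy c h
    rw [← map_smul] at h
    exact vero_prop hk hx hy c (hL h)
  have hLsmul : ∀ (x y : Fin (n + 1) → ℂ) (d : ℂ), x = d • y →
      L (vero k x) = d ^ k • L (vero k y) := by
    intro x y d h
    rw [h, vero_smul, map_smul]
  constructor
  · intro hX hTY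
    -- `X` receives no non-constant torus maps
    have hTX := hX (by
      intro g Λ hΛ hspan F hF hF0 hFS hFΛ z w
      obtain ⟨c, hc⟩ := hTY g Λ hΛ hspan (fun z => L (vero k (F z))) (himg _ F hF)
        (fun z => hLne _ (hF0 z)) (fun z p hp => hin _ (hF0 z) (hFS z) p hp)
        (fun z l hl => by
          obtain ⟨d, hd⟩ := hFΛ z l hl
          exact ⟨d ^ k, hLsmul _ _ d hd⟩) z w
      exact hLprop _ _ (hF0 w) (hF0 z) c hc)
    intro f hf hf0 hfT
    rcases hY ℂ f hf hf0 hfT with h1 | ⟨ε, hε, _, h1⟩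
    · exact h1
    obtain ⟨u, hu, hu0, huS, hu2⟩ := lift_E hk S hS L hL f hf ε hε h1
    intro z w
    obtain ⟨d, hd⟩ := hTX u hu hu0 huS z w
    refine ⟨d ^ k, ?_⟩
    rw [hu2 w, hu2 z, hLsmul _ _ d hd, mul_smul_comm]
  · intro hGY hTX
    have hTY := hGY (by
      intro g Λ hΛ hspan F hF hF0 hFS hFΛ
      rcases hY (Fin g → ℂ) F hF hF0 hFS with h1 | ⟨ε, hε, _, h1⟩
      · exact h1
      obtain ⟨u, hu, hu0, huS, hu2⟩ := lift_E hk S hS L hL F hF ε hε h1
      have hε2 : ε * ε = 1 := by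
        funext i
        rw [Pi.mul_apply, Pi.one_apply]
        rcases hε i with h | h <;> rw [h] <;> norm_num
      have hcons := hTX g Λ hΛ hspan u hu hu0 huS (by
        intro z l hl
        obtain ⟨c, hc⟩ := hFΛ z l hl
        apply hLprop _ _ (hu0 _) (hu0 _) c
        rw [hu2, hu2] at hc
        have h2 : ε * (ε * L (vero k (u (z + l)))) = ε * (c • (ε * L (vero k (u z)))) := by
          rw [hc]
        rw [mul_smul_comm, ← mul_assoc, ← mul_assoc, hε2, one_mul, one_mul] at h2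
        exact h2)
      intro z w
      obtain ⟨d, hd⟩ := hcons z w
      refine ⟨d ^ k, ?_⟩
      rw [hu2 w, hu2 z, hLsmul _ _ d hd, mul_smul_comm])
    intro f hf hf0 hfS z w
    obtain ⟨c, hc⟩ := hTY (fun z => L (vero k (f z))) (himg _ f hf) (fun z => hLne _ (hf0 z))
      (fun z p hp => hin _ (hf0 z) (hfS z) p hp) z w
    exact hLprop _ _ (hf0 w) (hf0 z) c hc

end Pool.Agent.QY
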