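import Pool.Agent.Lib_MP_b9fedf_qy.DefsV

/-! Quadratic equations of the Veronese image of a projective set. -/

set_option autoImplicit false

namespace Pool.Agent.QY
open MvPolynomial

private theorem split_vero_quad {n : ℕ} (β : Fin (n + 1) → ℕ) (m : ℕ) (h : m ≤ ∑ i, β i) :
    ∃ α γ : Fin (n + 1) → ℕ, α + γ = β ∧ ∑ i, α i = m := by
  induction m with
  | zero => exact ⟨0, β, by simp, by simp⟩
  | succ m ih =>
    obtain ⟨α, γ, h1, h2⟩ := ih (by omega)
    have h3 : ∑ i, α i + ∑ i, γ i = ∑ i, β i := by
      rw [← h1, ← Finset.sum_add_distrib]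
      rfl
    have h4 : ∃ i, γ i ≠ 0 := by
      by_contra hc
      push Not at hc
      have : ∑ i, γ i = 0 := Finset.sum_eq_zero fun i _ => hc i
      omega
    obtain ⟨i, hi⟩ := h4
    refine ⟨α + Pi.single i 1, γ - Pi.single i 1, ?_, ?_⟩
    · rw [← h1]
      funext j
      by_cases hj : j = i
      · subst hj
        simp only [Pi.add_apply, Pi.sub_apply, Pi.single_eq_same]
        omega
      · simp [Pi.single_eq_of_ne hj]
    · simp only [Pi.add_apply, Finset.sum_add_distrib, h2]
      rw [Finset.sum_pi_single']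
      simp

private theorem pred_vero_quad {n : ℕ} (β : Fin (n + 1) → ℕ) (j : Fin (n + 1)) (h : β j ≠ 0) :
    ∃ γ : Fin (n + 1) → ℕ, γ + Pi.single j 1 = β := by
  refine ⟨β - Pi.single j 1, ?_⟩
  funext i
  by_cases hj : i = j
  · subst hj
    simp only [Pi.add_apply, Pi.sub_apply, Pi.single_eq_same]
    omega
  · simp [Pi.single_eq_of_ne hj]

private theorem sumsingle_vero_quad {n : ℕ} (j : Fin (n + 1)) (m : ℕ) :
    ∑ i, (Pi.single j m : Fin (n + 1) → ℕ) i = m := by
  rw [Finset.sum_pi_single']
  simp

private theorem toric_vero_quad {n k : ℕ} (hk : 1 ≤ k) (w : (Fin (n + 1) → ℕ) → ℂ)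
    (hw : ∀ a b c d : Fin (n + 1) → ℕ, ∑ i, a i = k → ∑ i, b i = k → ∑ i, c i = k →
      ∑ i, d i = k → a + b = c + d → w a * w b = w c * w d) :
    ∃ x : Fin (n + 1) → ℂ, ∀ β : Fin (n + 1) → ℕ, ∑ i, β i = k → w β = ∏ i, x i ^ β i := by
  by_cases h0 : ∀ β : Fin (n + 1) → ℕ, ∑ i, β i = k → w β = 0
  · refine ⟨0, fun β hβ => ?_⟩
    rw [h0 β hβ]
    have h4 : ∃ i, β i ≠ 0 := by
      by_contra hc
      push Not at hc
      have : ∑ i, β i = 0 := Finset.sum_eq_zero fun i _ => hc i
      omega
    obtain ⟨i, hi⟩ := h4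
    exact (Finset.prod_eq_zero (Finset.mem_univ i) (by simp [hi])).symm
  · push Not at h0
    obtain ⟨β₀, hβ₀, hw₀⟩ := h0
    have hP : ∀ m : ℕ, 1 ≤ m → m ≤ k → ∃ (i : Fin (n + 1)) (β : Fin (n + 1) → ℕ),
        ∑ i, β i = k ∧ w β ≠ 0 ∧ m ≤ β i := by
      intro m hm
      induction m, hm using Nat.le_induction with
      | base =>
        intro _
        have h4 : ∃ i, β₀ i ≠ 0 := by
          by_contra hc
          push Not at hc
          have : ∑ i, β₀ i = 0 := Finset.sum_eq_zero fun i _ => hc i
          omega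
        obtain ⟨i, hi⟩ := h4
        exact ⟨i, β₀, hβ₀, hw₀, by omega⟩
      | succ m hm ih =>
        intro hmk
        obtain ⟨i, β, h1, h2, h3⟩ := ih (by omega)
        by_cases h4 : m + 1 ≤ β i
        · exact ⟨i, β, h1, h2, h4⟩
        have h5 : β i = m := by omega
        have h6 : ∃ j, j ≠ i ∧ β j ≠ 0 := by
          by_contra hc
          push Not at hc
          have : ∑ j, β j = β i := Finset.sum_eq_single i (fun j _ hj => hc j hj) (by simp)
          omega
        obtain ⟨j, hji, hj⟩ := h6
        obtain ⟨γ, hγ⟩ := pred_vero_quad β j hj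
        have hγi : γ i ≠ 0 := by
          have := congrFun hγ i
          simp only [Pi.add_apply, Pi.single_eq_of_ne hji.symm] at this
          omega
        obtain ⟨δ, hδ⟩ := pred_vero_quad γ i hγi
        have hsum : ∑ i, γ i + 1 = k := by
          rw [← h1, ← hγ]
          simp only [Pi.add_apply, Finset.sum_add_distrib, sumsingle_vero_quad]
        have hsum2 : ∑ i, δ i + 1 = ∑ i, γ i := by
          rw [← hδ]
          simp only [Pi.add_apply, Finset.sum_add_distrib, sumsingle_vero_quad]
        have key := hw β β (γ + Pi.single i 1) (δ + Pi.single j 1 + Pi.single j 1) h1 h1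
          (by simp only [Pi.add_apply, Finset.sum_add_distrib, sumsingle_vero_quad]; omega)
          (by simp only [Pi.add_apply, Finset.sum_add_distrib, sumsingle_vero_quad]; omega)
          (by rw [← hγ, ← hδ]; abel)
        refine ⟨i, γ + Pi.single i 1, ?_, ?_, ?_⟩
        · simp only [Pi.add_apply, Finset.sum_add_distrib, sumsingle_vero_quad]
          omega
        · intro hc
          rw [hc, zero_mul] at key
          exact h2 (mul_self_eq_zero.mp key)
        · have := congrFun hγ i
          simp only [Pi.add_apply, Pi.single_eq_of_ne hji.symm] at this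
          simp only [Pi.add_apply, Pi.single_eq_same]
          omega
    obtain ⟨i, β, h1, h2, h3⟩ := hP k hk le_rfl
    have hβ : β = Pi.single i k := by
      have h5 : ∑ j ∈ Finset.univ.erase i, β j + β i = k := by
        rw [← h1]
        exact Finset.sum_erase_add _ _ (Finset.mem_univ i)
      have h6 : ∑ j ∈ Finset.univ.erase i, β j = 0 := by omega
      funext j
      by_cases hj : j = i
      · subst hj
        rw [Pi.single_eq_same]
        omega
      · rw [Pi.single_eq_of_ne hj]
        exact Finset.sum_eq_zero_iff.mp h6 j (by simp [hj])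
    rw [hβ] at h2
    obtain ⟨c, hc⟩ := IsAlgClosed.exists_pow_nat_eq (w (Pi.single i k)) (n := k) (by omega)
    have hc0 : c ≠ 0 := by
      rintro rfl
      rw [zero_pow (by omega)] at hc
      exact h2 hc.symm
    set x : Fin (n + 1) → ℂ := fun j => w (Pi.single i (k - 1) + Pi.single j 1) / c ^ (k - 1)
      with hx
    have hxj : ∀ j, w (Pi.single i (k - 1) + Pi.single j 1) = x j * c ^ (k - 1) := by
      intro j
      rw [hx]
      field_simp
    have hxi : x i = c := by
      have h7 := hxj i
      have h8 : (Pi.single i (k - 1) + Pi.single i 1 : Fin (n + 1) → ℕ) = Pi.single i k := by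
        rw [← Pi.single_add]
        congr 1
        omega
      rw [h8, ← hc] at h7
      have h9 : c ^ k = c * c ^ (k - 1) := by
        rw [← pow_succ']
        congr 1
        omega
      rw [h9] at h7
      exact (mul_right_cancel₀ (pow_ne_zero _ hc0) h7).symm
    have main : ∀ m : ℕ, m ≤ k → ∀ β : Fin (n + 1) → ℕ, ∑ i, β i = m →
        w (β + Pi.single i (k - m)) = c ^ (k - m) * ∏ j, x j ^ β j := by
      intro m
      induction m with
      | zero =>
        intro _ β hβ
        have h10 : β = 0 := by
          funext j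
          exact Finset.sum_eq_zero_iff.mp hβ j (Finset.mem_univ j)
        subst h10
        simp [hc]
      | succ m ih =>
        intro hmk β hβ
        have h4 : ∃ j, β j ≠ 0 := by
          by_contra hcc
          push Not at hcc
          have : ∑ i, β i = 0 := Finset.sum_eq_zero fun i _ => hcc i
          omega
        obtain ⟨j, hj⟩ := h4
        obtain ⟨γ, hγ⟩ := pred_vero_quad β j hj
        have hsum : ∑ i, γ i = m := by
          have h11 : ∑ i, γ i + 1 = m + 1 := by
            rw [← hβ, ← hγ]
            simp only [Pi.add_apply, Finset.sum_add_distrib, sumsingle_vero_quad]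
          omega
        have key := hw (β + Pi.single i (k - (m + 1))) (Pi.single i k)
          (γ + Pi.single i (k - m)) (Pi.single i (k - 1) + Pi.single j 1)
          (by simp only [Pi.add_apply, Finset.sum_add_distrib, sumsingle_vero_quad]; omega)
          (by simp only [sumsingle_vero_quad])
          (by simp only [Pi.add_apply, Finset.sum_add_distrib, sumsingle_vero_quad]; omega)
          (by simp only [Pi.add_apply, Finset.sum_add_distrib, sumsingle_vero_quad]; omega)
          (by
            have h12 : (Pi.single i (k - (m + 1)) + Pi.single i k : Fin (n + 1) → ℕ) =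
                Pi.single i (k - m) + Pi.single i (k - 1) := by
              rw [← Pi.single_add, ← Pi.single_add]
              congr 1
              omega
            rw [add_assoc, h12, ← hγ]
            abel)
        rw [ih (by omega) γ hsum, hxj j, ← hc] at key
        have h13 : ∏ l, x l ^ β l = (∏ l, x l ^ γ l) * x j := by
          rw [← hγ]
          simp only [Pi.add_apply, pow_add, Finset.prod_mul_distrib]
          congr 1
          rw [Finset.prod_eq_single j]
          · simp
          · intro l _ hl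
            simp [Pi.single_eq_of_ne hl]
          · simp
        rw [h13]
        apply mul_right_cancel₀ (pow_ne_zero k hc0)
        rw [key]
        have h14 : c ^ (k - m) * c ^ (k - 1) = c ^ (k - (m + 1)) * c ^ k := by
          rw [← pow_add, ← pow_add]
          congr 1
          omega
        calc c ^ (k - m) * (∏ l, x l ^ γ l) * (x j * c ^ (k - 1))
            = (c ^ (k - m) * c ^ (k - 1)) * ((∏ l, x l ^ γ l) * x j) := by ring
          _ = c ^ (k - (m + 1)) * ((∏ l, x l ^ γ l) * x j) * c ^ k := by rw [h14]; ring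
    refine ⟨x, fun β hβ => ?_⟩
    have := main k le_rfl β hβ
    simpa using this

/-- the monomial with the given exponents -/
private def mon_vero_quad {n k : ℕ} (β : Fin (n + 1) → ℕ) (h : ∑ i, β i = k) : Mon n k :=
  ⟨fun i => ⟨β i, by
    have h1 := Finset.single_le_sum (f := β) (fun _ _ => Nat.zero_le _) (Finset.mem_univ i)
    omega⟩, h⟩

private theorem vero_mon_vero_quad {n k : ℕ} (x : Fin (n + 1) → ℂ) (β : Fin (n + 1) → ℕ)
    (h : ∑ i, β i = k) : vero k x (mon_vero_quad β h) = ∏ i, x i ^ β i := rfl

private theorem lift_vero_quad {n k : ℕ} (F : MvPolynomial (Fin (n + 1)) ℂ)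
    (hF : F.IsHomogeneous (2 * k)) :
    ∃ G : MvPolynomial (Mon n k) ℂ, G.IsHomogeneous 2 ∧
      ∀ x : Fin (n + 1) → ℂ, eval (vero k x) G = eval x F := by
  have hsp : ∀ β : Fin (n + 1) →₀ ℕ, ∃ a b : Mon n k, β ∈ F.support →
      ∀ x : Fin (n + 1) → ℂ, vero k x a * vero k x b = ∏ i, x i ^ β i := by
    intro β
    by_cases hβ : β ∈ F.support
    · have h1 : ∑ i, β i = 2 * k := by
        have h2 := hF (mem_support_iff.mp hβ)
        rw [Finsupp.weight_apply, Finsupp.sum_fintype _ _ (by simp)] at h2
        simpa using h2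
      obtain ⟨α, γ, h3, h4⟩ := split_vero_quad (β : Fin (n + 1) → ℕ) k (by omega)
      have h5 : ∑ i, γ i = k := by
        have h6 : ∑ i, α i + ∑ i, γ i = ∑ i, β i := by
          rw [← Finset.sum_add_distrib]
          exact Finset.sum_congr rfl fun i _ => congrFun h3 i
        omega
      refine ⟨mon_vero_quad α h4, mon_vero_quad γ h5, fun _ x => ?_⟩
      rw [vero_mon_vero_quad, vero_mon_vero_quad, ← Finset.prod_mul_distrib]
      refine Finset.prod_congr rfl fun i _ => ?_
      rw [← pow_add]
      congr 1
      exact congrFun h3 i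
    · have hsum : ∑ i, (Pi.single 0 k : Fin (n + 1) → ℕ) i = k := sumsingle_vero_quad 0 k
      exact ⟨mon_vero_quad _ hsum, mon_vero_quad _ hsum, fun h => absurd h hβ⟩
  choose a b hab using hsp
  refine ⟨∑ β ∈ F.support, C (coeff β F) * (X (a β) * X (b β)), ?_, ?_⟩
  · refine IsHomogeneous.sum _ _ _ fun β _ => ?_
    have h1 := (isHomogeneous_C (Mon n k) (coeff β F)).mul
      ((isHomogeneous_X ℂ (a β)).mul (isHomogeneous_X ℂ (b β)))
    simpa using h1
  · intro x
    rw [map_sum, eval_eq' x F]
    refine Finset.sum_congr rfl fun β hβ => ?_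
    simp only [map_mul, eval_C, eval_X]
    rw [hab β hβ x]

/-- PIECE V2 (VeroQuad.lean) -/
theorem vero_quad (n : ℕ) (S : Set (MvPolynomial (Fin (n + 1)) ℂ))
    (hS : ∀ p ∈ S, ∃ d : ℕ, p.IsHomogeneous d) :
    ∃ (k r : ℕ) (G : Fin r → MvPolynomial (Mon n k) ℂ), 1 ≤ k ∧ (∀ i, (G i).IsHomogeneous 2) ∧
      ∀ w : Mon n k → ℂ, (∀ i, eval w (G i) = 0) ↔
        ∃ x : Fin (n + 1) → ℂ, w = vero k x ∧ (x ≠ 0 → ∀ p ∈ S, eval x p = 0) := by
  classical
  -- finite subset of `S` with the same zeros
  obtain ⟨S', hS'S, hS'⟩ := Submodule.fg_span_iff_fg_span_finset_subset S |>.mp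
    (IsNoetherian.noetherian (Submodule.span (MvPolynomial (Fin (n + 1)) ℂ) S))
  have hzero : ∀ x : Fin (n + 1) → ℂ, (∀ p ∈ S', eval x p = 0) → ∀ p ∈ S, eval x p = 0 := by
    intro x hx p hp
    have h1 : p ∈ Submodule.span (MvPolynomial (Fin (n + 1)) ℂ) (S' : Set _) := by
      rw [← hS']
      exact Submodule.subset_span hp
    have h2 : Submodule.span (MvPolynomial (Fin (n + 1)) ℂ) (S' : Set _) ≤
        RingHom.ker (eval x) := by
      rw [Submodule.span_le]
      intro q hq
      exact hx q hq
    exact h2 h1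
  -- a bound for the degrees
  have hD : ∃ D : ℕ, ∀ p ∈ S', ∃ d ≤ D, p.IsHomogeneous d := by
    have h1 : ∀ p : MvPolynomial (Fin (n + 1)) ℂ, ∃ d : ℕ, p ∈ S' → p.IsHomogeneous d := by
      intro p
      by_cases hp : p ∈ S'
      · obtain ⟨d, hd⟩ := hS p (hS'S hp)
        exact ⟨d, fun _ => hd⟩
      · exact ⟨0, fun h => absurd h hp⟩
    choose d hd using h1
    exact ⟨∑ p ∈ S', d p, fun p hp => ⟨d p,
      Finset.single_le_sum (f := d) (fun _ _ => Nat.zero_le _) hp, hd p hp⟩⟩
  obtain ⟨D, hD⟩ := hD
  set k : ℕ := D + 1 with hkdef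
  have hk : 1 ≤ k := by omega
  set T : Set (MvPolynomial (Mon n k) ℂ) := {G | G.IsHomogeneous 2 ∧
    ∀ x : Fin (n + 1) → ℂ, (x ≠ 0 → ∀ p ∈ S, eval x p = 0) → eval (vero k x) G = 0} with hT
  obtain ⟨T', hT'T, hT'⟩ := Submodule.fg_span_iff_fg_span_finset_subset T |>.mp
    (IsNoetherian.noetherian (Submodule.span (MvPolynomial (Mon n k) ℂ) T))
  have hzeroT : ∀ w : Mon n k → ℂ, (∀ G ∈ T', eval w G = 0) → ∀ G ∈ T, eval w G = 0 := by
    intro w hw G hG
    have h1 : G ∈ Submodule.span (MvPolynomial (Mon n k) ℂ) (T' : Set _) := by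
      rw [← hT']
      exact Submodule.subset_span hG
    have h2 : Submodule.span (MvPolynomial (Mon n k) ℂ) (T' : Set _) ≤
        RingHom.ker (eval w) := by
      rw [Submodule.span_le]
      intro q hq
      exact hw q hq
    exact h2 h1
  refine ⟨k, T'.card, fun i => (T'.equivFin.symm i : MvPolynomial (Mon n k) ℂ), hk, ?_, ?_⟩
  · intro i
    exact (hT'T (T'.equivFin.symm i).2).1
  intro w
  constructor
  · intro hw
    have hwT : ∀ G ∈ T, eval w G = 0 := by
      apply hzeroT
      intro G hG
      have h1 := hw (T'.equivFin ⟨G, hG⟩)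
      simpa using h1
    -- the toric equations
    obtain ⟨x, hx⟩ := toric_vero_quad hk
      (fun β => if h : ∑ i, β i = k then w (mon_vero_quad β h) else 0) (by
        intro a b c d ha hb hc hd habcd
        simp only [ha, hb, hc, hd, dite_true]
        have hmem : X (mon_vero_quad a ha) * X (mon_vero_quad b hb) -
            X (mon_vero_quad c hc) * X (mon_vero_quad d hd) ∈ T := by
          refine ⟨?_, ?_⟩
          · have h1 := (isHomogeneous_X ℂ (mon_vero_quad a ha)).mul
              (isHomogeneous_X ℂ (mon_vero_quad b hb))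
            have h2 := (isHomogeneous_X ℂ (mon_vero_quad c hc)).mul
              (isHomogeneous_X ℂ (mon_vero_quad d hd))
            exact h1.sub h2
          · intro x _
            simp only [map_sub, map_mul, eval_X, vero_mon_vero_quad]
            rw [← Finset.prod_mul_distrib, ← Finset.prod_mul_distrib, sub_eq_zero]
            refine Finset.prod_congr rfl fun i _ => ?_
            rw [← pow_add, ← pow_add]
            congr 1
            exact congrFun habcd i
        have h3 := hwT _ hmem
        simp only [map_sub, map_mul, eval_X] at h3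
        exact sub_eq_zero.mp h3)
    have hwx : w = vero k x := by
      funext α
      have h1 := hx (fun i => (α.1 i : ℕ)) α.2
      simp only [α.2, dite_true] at h1
      exact h1
    refine ⟨x, hwx, fun hx0 => ?_⟩
    apply hzero
    intro p hp
    obtain ⟨d, hdD, hd⟩ := hD p hp
    obtain ⟨i, hi⟩ : ∃ i, x i ≠ 0 := by
      by_contra hc
      push Not at hc
      exact hx0 (funext hc)
    have hF : ((X i : MvPolynomial (Fin (n + 1)) ℂ) ^ (2 * k - d) * p).IsHomogeneous (2 * k) := by
      have h1 := (isHomogeneous_X_pow (R := ℂ) i (2 * k - d)).mul hd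
      have h2 : 2 * k - d + d = 2 * k := by omega
      rwa [h2] at h1
    obtain ⟨G, hG2, hG⟩ := lift_vero_quad _ hF
    have hGT : G ∈ T := by
      refine ⟨hG2, fun y hy => ?_⟩
      rw [hG y, map_mul, map_pow, eval_X]
      by_cases hy0 : y = 0
      · have h3 : (y i) ^ (2 * k - d) = 0 := by
          rw [hy0]
          simp only [Pi.zero_apply]
          exact zero_pow (by omega)
        rw [h3, zero_mul]
      · rw [hy hy0 p (hS'S hp), mul_zero]
    have h4 := hwT G hGT
    rw [hwx, hG x, map_mul, map_pow, eval_X] at h4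
    exact (mul_eq_zero.mp h4).resolve_left (pow_ne_zero _ hi)
  · rintro ⟨x, rfl, hx⟩ i
    exact (hT'T (T'.equivFin.symm i).2).2 x hx

end Pool.Agent.QY
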