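import Pool.Agent.Lib_MP_b9fedf_qy.Step
import Pool.Agent.Lib_MP_b9fedf_qy.GGLY
import Pool.Agent.Lib_MP_b9fedf_qy.VeroQuad

/-! Smooth complete intersections of quadrics with prescribed exceptional set. -/

set_option autoImplicit false

namespace Pool.Agent.QY
open MvPolynomial Pool.Agent.SQ Pool.Agent.GGL

theorem fam_eval {N : ℕ} {ι : Type} [Fintype ι] (g : ι → MvPolynomial (Fin (N + 1)) ℂ)
    (a : ℕ → Fin (N + 1) ⊕ ι → ℂ) (K : ℕ) (j : Fin K) (z : Fin (N + 1) ⊕ Fin K → ℂ) :
    eval z (fam g a K j) = z (Sum.inr j) ^ 2 - eval (fun i => z (Sum.inl i)) (qd g (a j)) := by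
  unfold fam
  rw [map_sub, map_pow, eval_X, eval_rename]
  rfl

theorem fam_hom {N : ℕ} {ι : Type} [Fintype ι] (g : ι → MvPolynomial (Fin (N + 1)) ℂ)
    (hg : ∀ a, (qd g a).IsHomogeneous 2)
    (a : ℕ → Fin (N + 1) ⊕ ι → ℂ) (K : ℕ) (j : Fin K) : (fam g a K j).IsHomogeneous 2 := by
  unfold fam
  exact ((isHomogeneous_X ℂ _).pow 2).sub (hg _).rename_isHomogeneous

/-- renaming the variables of a smooth complete intersection -/
theorem sci_rename {τ τ' : Type} {K : ℕ} (σ : τ ≃ τ') (F : Fin K → MvPolynomial τ ℂ)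
    (hF : SCI F) : SCI (fun j => rename σ (F j)) := by
  intro z hz hzF
  have h1 := hF (z ∘ σ) (by
    intro h
    apply hz
    funext i
    have := congrFun h (σ.symm i)
    simpa using this) (fun j => by
    have := hzF j
    rwa [eval_rename] at this)
  let Λ : (τ' → ℂ) →ₗ[ℂ] (τ → ℂ) :=
    { toFun := fun u => u ∘ σ
      map_add' := fun _ _ => rfl
      map_smul' := fun _ _ => rfl }
  apply LinearIndependent.of_comp Λ
  have h2 : (Λ ∘ fun j => fun i => eval z (pderiv i (rename σ (F j)))) =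
      fun j => fun i => eval (z ∘ σ) (pderiv i (F j)) := by
    funext j i
    show eval z (pderiv (σ i) (rename σ (F j))) = _
    rw [pderiv_rename σ.injective, eval_rename]
  rw [h2]
  exact h1

/-- the linear embedding -/
noncomputable def L1 {μ : Type} {b N K m : ℕ} {ι : Type} (e : μ ≃ Fin (b + 1))
    (σ : Fin (N + 1) ⊕ Fin K ≃ Fin (m + 1)) (a : ℕ → Fin (N + 1) ⊕ ι → ℂ) :
    (μ → ℂ) →ₗ[ℂ] (Fin (m + 1) → ℂ) where
  toFun w i := Sum.elim (L0 e w : Fin (N + 1) → ℂ)
    (fun j : Fin K => ∑ i, a j (Sum.inl i) * (L0 e w : Fin (N + 1) → ℂ) i) (σ.symm i)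
  map_add' w w' := by
    funext i
    rw [Pi.add_apply]
    generalize σ.symm i = l
    rcases l with l | j
    · simp
    · simp [mul_add, Finset.sum_add_distrib]
  map_smul' c w := by
    funext i
    rw [Pi.smul_apply]
    generalize σ.symm i = l
    rcases l with l | j
    · simp
    · simp only [map_smul, Pi.smul_apply, smul_eq_mul, Sum.elim_inr, RingHom.id_apply,
        Finset.mul_sum]
      exact Finset.sum_congr rfl fun _ _ => by ring

theorem L1_inl {μ : Type} {b N K m : ℕ} {ι : Type} (e : μ ≃ Fin (b + 1))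
    (σ : Fin (N + 1) ⊕ Fin K ≃ Fin (m + 1)) (a : ℕ → Fin (N + 1) ⊕ ι → ℂ) (w : μ → ℂ)
    (i : Fin (N + 1)) : L1 e σ a w (σ (Sum.inl i)) = (L0 e w : Fin (N + 1) → ℂ) i := by
  show Sum.elim _ _ (σ.symm (σ (Sum.inl i))) = _
  rw [Equiv.symm_apply_apply]
  rfl

theorem L1_inr {μ : Type} {b N K m : ℕ} {ι : Type} (e : μ ≃ Fin (b + 1))
    (σ : Fin (N + 1) ⊕ Fin K ≃ Fin (m + 1)) (a : ℕ → Fin (N + 1) ⊕ ι → ℂ) (w : μ → ℂ)
    (j : Fin K) : L1 e σ a w (σ (Sum.inr j)) =
      ∑ i, a j (Sum.inl i) * (L0 e w : Fin (N + 1) → ℂ) i := by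
  show Sum.elim _ _ (σ.symm (σ (Sum.inr j))) = _
  rw [Equiv.symm_apply_apply]
  rfl

theorem exists_quadrics (n : ℕ) (S : Set (MvPolynomial (Fin (n + 1)) ℂ))
    (hS : ∀ p ∈ S, ∃ d : ℕ, p.IsHomogeneous d) (B : ℕ) :
    ∃ (k m r : ℕ) (F : Fin r → MvPolynomial (Fin (m + 1)) ℂ)
      (L : (Mon n k → ℂ) →ₗ[ℂ] (Fin (m + 1) → ℂ)),
      1 ≤ k ∧ r < m ∧ m + 1 + B ≤ 2 * r ∧ (∀ j, (F j).IsHomogeneous 2) ∧ SCI F ∧
      Function.Injective L ∧
      (∀ x : Fin (n + 1) → ℂ, x ≠ 0 → (∀ p ∈ S, eval x p = 0) →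
        ∀ p ∈ Set.range F, eval (L (vero k x)) p = 0) ∧
      AltAll S (Set.range F) L := by
  classical
  obtain ⟨k, r₀, G, hk, hG, hGv⟩ := vero_quad n S hS
  -- the number of variables
  obtain ⟨b, hb⟩ : ∃ b, Fintype.card (Mon n k) = b + 1 := by
    have : 0 < Fintype.card (Mon n k) := by
      apply Fintype.card_pos_iff.mpr
      refine ⟨⟨Pi.single 0 (Fin.last k), ?_⟩⟩
      rw [Finset.sum_eq_single 0]
      · simp
      · intro i _ hi
        rw [Pi.single_eq_of_ne hi]
        rfl
      · intro h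
        exact absurd (Finset.mem_univ _) h
    exact ⟨Fintype.card (Mon n k) - 1, by omega⟩
  set e : Mon n k ≃ Fin (b + 1) := Fintype.equivFinOfCardEq hb with he
  set N := 3 * b + 2 with hN
  have hbN : b ≤ N := by omega
  set g := famG (N := N) e hbN G with hg
  have hset : Setup g b (N - b) := famG_setup e hbN G hG (by omega)
  have hqh : ∀ a, (qd g a).IsHomogeneous 2 := fun a => qd_hom g hset.hg a
  obtain ⟨K₁, a₁, -, -, hS₁, hL₁, hf₁⟩ := induct g hset ⊥ (by
    intro s hs d
    rw [Ideal.mem_bot] at hs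
    rw [hs, map_zero]
    exact Ideal.zero_mem _) 0 (fun _ _ => 0) (by
    intro z _ _
    exact linearIndependent_empty_type) (by
    intro J hJ _
    have : J = ∅ := Finset.eq_empty_of_forall_notMem fun j hj => absurd (hJ j hj) (by omega)
    subst this
    exact linearIndependent_empty_type)
  obtain ⟨a, ha, hSa, -, -⟩ := ext_many g hset K₁ a₁ hS₁ hL₁ 1 one_ne_zero (N + B + 1)
  set K := K₁ + (N + B + 1) with hK
  have hc : ∀ f : Fin (N + 1) → ℂ → ℂ, (∀ k, Differentiable ℂ (f k)) → Mult g a K f →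
        (∃ v : Fin (N + 1) → ℂ, v ≠ 0 ∧ ∀ z i j, v i * f j z = v j * f i z) ∨
        ∀ z i, eval (fun k => f k z) (g i) = 0 := by
    intro f hf hM
    refine hf₁ f hf ?_ (mult_mono g (by omega) ha hM)
    intro s hs z
    rw [Ideal.mem_bot] at hs
    rw [hs, map_zero]
  set m := N + K with hm
  set σ : Fin (N + 1) ⊕ Fin K ≃ Fin (m + 1) := finSumFinEquiv.trans (finCongr (by omega)) with hσ
  refine ⟨k, m, K, fun j => rename σ (fam g a K j), L1 e σ a, hk, by omega, by omega,
    fun j => (fam_hom g hqh a K j).rename_isHomogeneous, sci_rename σ _ hSa, ?_, ?_, ?_⟩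
  · -- injective
    intro w w' h
    apply L0_inj e hbN
    funext i
    rw [← L1_inl e σ a w i, ← L1_inl e σ a w' i, h]
  · -- `X` is contained in `Y`
    rintro x hx hxS p ⟨j, rfl⟩
    show eval _ (rename σ (fam g a K j)) = 0
    rw [eval_rename, fam_eval]
    simp only [Function.comp_apply]
    rw [L1_inr]
    have h1 : (fun i => L1 e σ a (vero k x) (σ (Sum.inl i))) =
        (L0 e (vero k x) : Fin (N + 1) → ℂ) := funext fun i => L1_inl e σ a _ i
    rw [h1, qd_eval]
    have h2 := (famG_zero e hbN G (L0 e (vero k x))).mpr ⟨vero k x, rfl,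
      (hGv (vero k x)).mpr ⟨x, rfl, fun _ => hxS⟩⟩
    have h3 : ∑ i, a j (Sum.inr i) * eval (L0 e (vero k x)) (g i) = 0 :=
      Finset.sum_eq_zero fun i _ => by rw [h2 i, mul_zero]
    rw [h3]
    ring
  · -- the curves of `Y`
    intro E _ _ f hf hf0 hfY
    have hfd := differentiable_pi.mp hf
    have hfY' : ∀ z (j : Fin K), f z (σ (Sum.inr j)) ^ 2 =
        eval (fun i => f z (σ (Sum.inl i))) (qd g (a j)) := by
      intro z j
      have h1 := hfY z _ ⟨j, rfl⟩
      rw [eval_rename, fam_eval] at h1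
      exact sub_eq_zero.mp h1
    rcases alt_E g hqh a hc (fun z i => f z (σ (Sum.inl i))) (fun z j => f z (σ (Sum.inr j)))
      (differentiable_pi.mpr fun i => hfd _) (differentiable_pi.mpr fun i => hfd _) (by
        rintro z ⟨h1, h2⟩
        apply hf0 z
        funext i
        obtain ⟨i', rfl⟩ := σ.surjective i
        rcases i' with i' | i'
        · exact congrFun h1 i'
        · exact congrFun h2 i') hfY' with h1 | ⟨h1, ε, hε, h2⟩
    · left
      intro z w
      obtain ⟨c, hc1, hc2⟩ := h1 z w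
      refine ⟨c, ?_⟩
      funext i
      obtain ⟨i', rfl⟩ := σ.surjective i
      rcases i' with i' | i'
      · exact congrFun hc1 i'
      · exact congrFun hc2 i'
    · right
      have hε1 : ∀ i, Sum.elim (fun _ => (1 : ℂ)) ε (σ.symm (σ (Sum.inl i))) = 1 := by
        intro i
        rw [Equiv.symm_apply_apply]
        rfl
      have hε2 : ∀ j, Sum.elim (fun _ : Fin (N + 1) => (1 : ℂ)) ε (σ.symm (σ (Sum.inr j))) = ε j := by
        intro i
        rw [Equiv.symm_apply_apply]
        rfl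
      refine ⟨fun i => Sum.elim (fun _ => 1) ε (σ.symm i), ?_, ?_, ?_⟩
      · intro i
        show Sum.elim (fun _ => (1 : ℂ)) ε (σ.symm i) = 1 ∨
          Sum.elim (fun _ => (1 : ℂ)) ε (σ.symm i) = -1
        generalize σ.symm i = l
        rcases l with l | j
        · exact Or.inl rfl
        · exact hε j
      · rintro p ⟨j, rfl⟩ z
        show eval _ (rename σ (fam g a K j)) = eval _ (rename σ (fam g a K j))
        rw [eval_rename, eval_rename, fam_eval, fam_eval]
        simp only [Function.comp_apply, Pi.mul_apply, hε1, hε2, one_mul]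
        have h3 : ε j ^ 2 = 1 := by
          rcases hε j with h | h <;> rw [h] <;> norm_num
        rw [mul_pow, h3, one_mul]
      · intro z
        obtain ⟨w, hw, hwG⟩ := (famG_zero e hbN G _).mp (h1 z)
        obtain ⟨x, rfl, hxS⟩ := (hGv w).mp hwG
        have hx : x ≠ 0 := by
          intro hx
          apply hf0 z
          have hw0 : ∀ i, f z (σ (Sum.inl i)) = 0 := by
            intro i
            have h3 := congrFun hw i
            rw [hx, vero_zero hk, map_zero] at h3
            exact h3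
          funext i
          obtain ⟨i', rfl⟩ := σ.surjective i
          rcases i' with i' | i'
          · exact hw0 i'
          · rw [h2 z i', Finset.sum_eq_zero fun i _ => by rw [hw0 i, mul_zero], mul_zero]
            rfl
        refine ⟨x, hx, hxS hx, ?_⟩
        funext i
        obtain ⟨i', rfl⟩ := σ.surjective i
        rw [Pi.mul_apply]
        rcases i' with i' | i'
        · rw [hε1, one_mul, L1_inl]
          exact congrFun hw i'
        · rw [hε2, L1_inr, h2 z i']
          congr 1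
          refine Finset.sum_congr rfl fun i _ => ?_
          have h3 := congrFun hw i
          rw [← h3]

end Pool.Agent.QY
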