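import Pool.Agent.Lib_MP_b9fedf_qy.TrLem
import Pool.Agent.Lib_MP_b9fedf_qy.DerQ

set_option autoImplicit false

namespace Pool.Agent.QY
open MvPolynomial Pool.Agent.SQ

private theorem lin_add_Y9 {τ : Type} [Fintype τ] (h h' : τ → ℂ) : lin (h + h') = lin h + lin h' := by
  simp only [lin, Pi.add_apply, C_add, add_mul, Finset.sum_add_distrib]

private theorem lin_smul_Y9 {τ : Type} [Fintype τ] (c : ℂ) (h : τ → ℂ) : lin (c • h) = C c * lin h := by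
  simp only [lin, Pi.smul_apply, smul_eq_mul, C_mul, mul_assoc, Finset.mul_sum]

private theorem lin_zero_Y9 {τ : Type} [Fintype τ] : lin (0 : τ → ℂ) = 0 := by
  simp [lin]

private theorem lin_single_Y9 {τ : Type} [Fintype τ] [DecidableEq τ] (i : τ) :
    lin (Pi.single i 1 : τ → ℂ) = X i := by
  classical
  rw [lin, Finset.sum_eq_single i]
  · rw [Pi.single_eq_same, C_1, one_mul]
  · intro j _ hj
    rw [Pi.single_eq_of_ne hj, C_0, zero_mul]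
  · intro h
    exact absurd (Finset.mem_univ i) h

private theorem lin_hom_Y9 {τ : Type} [Fintype τ] (h : τ → ℂ) : (lin h).IsHomogeneous 1 :=
  IsHomogeneous.sum _ _ _ fun i _ => (isHomogeneous_X ℂ i).C_mul (h i)

/-- the linear forms in an ideal -/
private noncomputable def subm_Y9 {n : ℕ} (P : Ideal (MvPolynomial (Fin (n + 1)) ℂ)) :
    Submodule ℂ (Fin (n + 1) → ℂ) where
  carrier := {h | lin h ∈ P}
  add_mem' {a b} ha hb := by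
    show lin (a + b) ∈ P
    rw [lin_add_Y9]
    exact P.add_mem ha hb
  zero_mem' := by
    show lin 0 ∈ P
    rw [lin_zero_Y9]
    exact P.zero_mem
  smul_mem' c a ha := by
    show lin (c • a) ∈ P
    rw [lin_smul_Y9]
    exact P.mul_mem_left _ ha

/-- the linear forms which are multiples of `a` modulo `q` -/
private noncomputable def submL_Y9 {n : ℕ} (q : Ideal (MvPolynomial (Fin (n + 1)) ℂ))
    (a : MvPolynomial (Fin (n + 1)) ℂ) : Submodule ℂ (Fin (n + 1) → ℂ) where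
  carrier := {h | ∃ α : ℂ, lin h - C α * a ∈ q}
  add_mem' := by
    rintro x y ⟨α, hα⟩ ⟨β, hβ⟩
    refine ⟨α + β, ?_⟩
    have e : lin (x + y) - C (α + β) * a = (lin x - C α * a) + (lin y - C β * a) := by
      rw [lin_add_Y9, C_add]
      ring
    rw [e]
    exact q.add_mem hα hβ
  zero_mem' := ⟨0, by rw [lin_zero_Y9, C_0, zero_mul, sub_zero]; exact q.zero_mem⟩
  smul_mem' := by
    rintro c x ⟨α, hα⟩
    refine ⟨c * α, ?_⟩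
    have e : lin (c • x) - C (c * α) * a = C c * (lin x - C α * a) := by
      rw [lin_smul_Y9, C_mul]
      ring
    rw [e]
    exact q.mul_mem_left _ hα

/-- two squares of linear forms which are proportional modulo a prime ideal -/
private theorem sq_prop_Y9 {n : ℕ} {q : Ideal (MvPolynomial (Fin (n + 1)) ℂ)} (hq : q.IsPrime)
    (g l b : MvPolynomial (Fin (n + 1)) ℂ) (hg : g ∉ q) (c c' : ℂ) (h : g - C c * l ^ 2 ∈ q)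
    (h' : g - C c' * b ^ 2 ∈ q) : ∃ α : ℂ, l - C α * b ∈ q := by
  have hc : c ≠ 0 := by
    rintro rfl
    rw [C_0, zero_mul, sub_zero] at h
    exact hg h
  obtain ⟨s, hs⟩ := IsAlgClosed.exists_pow_nat_eq (c' / c) (n := 2) (by norm_num)
  have h1 : C c * ((l - C s * b) * (l + C s * b)) ∈ q := by
    have e : C c * ((l - C s * b) * (l + C s * b)) =
        (g - C c' * b ^ 2) - (g - C c * l ^ 2) := by
      have e2 : (C c' : MvPolynomial (Fin (n + 1)) ℂ) = C c * (C s) ^ 2 := by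
        rw [← C_pow, hs, ← C_mul, mul_div_cancel₀ _ hc]
      rw [e2]
      ring
    rw [e]
    exact q.sub_mem h' h
  have h2 : (l - C s * b) * (l + C s * b) ∈ q := by
    have h3 := q.mul_mem_left (C c⁻¹) h1
    rwa [← mul_assoc, ← C_mul, inv_mul_cancel₀ hc, C_1, one_mul] at h3
  rcases hq.mem_or_mem h2 with h3 | h3
  · exact ⟨s, h3⟩
  · refine ⟨-s, ?_⟩
    rwa [C_neg, neg_mul, sub_neg_eq_add]

/-- PIECE Y9 (Penc.lean; uses TrLem, derq) -/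
theorem penc {n N : ℕ} {ι : Type} [Fintype ι] {q : Ideal (MvPolynomial (Fin (n + 1)) ℂ)}
    (hq : q.IsPrime) (hqh : HomI q) (hN : 1 ≤ N) (h1 : Tr q (N + 1)) (h2 : ¬ Tr q (N + 2))
    (g : ι → MvPolynomial (Fin (n + 1)) ℂ) (hg : ∀ i, (g i).IsHomogeneous 2)
    (hgq : ∃ i, g i ∉ q) :
    ∃ (a : Fin (n + 1) ⊕ ι → ℂ) (δ : ℕ) (d : Fin (n + 1) → MvPolynomial (Fin (n + 1)) ℂ),
      (∀ i, (d i).IsHomogeneous δ) ∧ (∀ g ∈ q, mkDerivation ℂ d g ∈ q) ∧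
      ∀ 𝔓 : Ideal (MvPolynomial (Fin (n + 1)) ℂ), 𝔓.IsPrime → q ≤ 𝔓 → qd g a ∈ 𝔓 →
        mkDerivation ℂ d (qd g a) ∈ 𝔓 → ¬ Tr 𝔓 N := by
  classical
  obtain ⟨i₀, hi₀⟩ := hgq
  have hF1 := tr_fin hq h2 (g i₀) hi₀
  -- a linear form in general position
  obtain ⟨ℓ, hℓq, hℓF, hℓg⟩ : ∃ ℓ : Fin (n + 1) → ℂ, lin ℓ ∉ q ∧
      (∀ 𝔓 : Ideal (MvPolynomial (Fin (n + 1)) ℂ), 𝔓.IsPrime → q ≤ 𝔓 → g i₀ ∈ 𝔓 → Tr 𝔓 N →
        lin ℓ ∉ 𝔓) ∧ ∀ c : ℂ, g i₀ - C c * lin ℓ ^ 2 ∉ q := by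
    obtain ⟨b, hb⟩ : ∃ b : Fin (n + 1) → ℂ, ∀ ℓ : Fin (n + 1) → ℂ, lin ℓ ∉ q →
        (∃ c : ℂ, g i₀ - C c * lin ℓ ^ 2 ∈ q) → ℓ ∈ submL_Y9 q (lin b) := by
      by_cases hbad : ∃ (b : Fin (n + 1) → ℂ) (c : ℂ), g i₀ - C c * lin b ^ 2 ∈ q
      · obtain ⟨b, c', hb⟩ := hbad
        refine ⟨b, fun ℓ _ hc => ?_⟩
        obtain ⟨c, hc⟩ := hc
        exact sq_prop_Y9 hq (g i₀) (lin ℓ) (lin b) hi₀ c c' hc hb
      · exact ⟨0, fun ℓ _ hc => absurd ⟨ℓ, hc⟩ hbad⟩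
    let F : Set (Submodule ℂ (Fin (n + 1) → ℂ)) :=
      (subm_Y9 '' {𝔓 | 𝔓.IsPrime ∧ q ≤ 𝔓 ∧ g i₀ ∈ 𝔓 ∧ Tr 𝔓 N}) ∪
        {subm_Y9 q, submL_Y9 q (lin b)}
    have hFfin : F.Finite := (hF1.image _).union ((Set.finite_singleton _).insert _)
    have htop : ∀ 𝔓 : Ideal (MvPolynomial (Fin (n + 1)) ℂ), Tr 𝔓 1 → subm_Y9 𝔓 ≠ ⊤ := by
      intro 𝔓 h𝔓 ht
      obtain ⟨i, hi⟩ := tr_one h𝔓
      have h3 : (Pi.single i 1 : Fin (n + 1) → ℂ) ∈ subm_Y9 𝔓 := by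
        rw [ht]
        trivial
      have h4 : lin (Pi.single i 1 : Fin (n + 1) → ℂ) ∈ 𝔓 := h3
      rw [lin_single_Y9] at h4
      exact hi h4
    have hFtop : (⊤ : Submodule ℂ (Fin (n + 1) → ℂ)) ∉ hFfin.toFinset := by
      rw [Set.Finite.mem_toFinset]
      rintro (⟨𝔓, ⟨_, _, _, h𝔓⟩, ht⟩ | ht | ht)
      · exact htop 𝔓 (tr_mono le_rfl hN h𝔓) ht
      · exact htop q (tr_mono le_rfl (by omega) h1) ht.symm
      · obtain ⟨i, hi⟩ := tr_lin (tr_mono le_rfl (by omega) h1 : Tr q 2) (lin b)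
        have h3 : (Pi.single i 1 : Fin (n + 1) → ℂ) ∈ submL_Y9 q (lin b) := by
          have ht' : (⊤ : Submodule ℂ (Fin (n + 1) → ℂ)) = submL_Y9 q (lin b) := ht
          rw [← ht']
          trivial
        obtain ⟨α, hα⟩ := h3
        rw [lin_single_Y9] at hα
        exact hi α hα
    have hne := Subspace.biUnion_ne_univ_of_top_notMem hFtop
    obtain ⟨ℓ, hℓ⟩ := (Set.ne_univ_iff_exists_notMem _).1 hne
    have hℓ' : ∀ S ∈ F, ℓ ∉ S := by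
      intro S hS hmem
      apply hℓ
      rw [Set.mem_iUnion₂]
      exact ⟨S, hFfin.mem_toFinset.2 hS, hmem⟩
    have hℓ1 : lin ℓ ∉ q := hℓ' _ (Or.inr (Or.inl rfl))
    refine ⟨ℓ, hℓ1, fun 𝔓 hp hle hgp htr hmem => ?_, fun c hc => ?_⟩
    · exact hℓ' _ (Or.inl ⟨𝔓, ⟨hp, hle, hgp, htr⟩, rfl⟩) hmem
    · exact hℓ' _ (Or.inr (Or.inr rfl)) (hb ℓ hℓ1 ⟨c, hc⟩)
  obtain ⟨δ, d, hd, hdq, hw⟩ := derq hq hqh (g i₀) (lin ℓ ^ 2) 2 (hg i₀)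
    (by simpa using (lin_hom_Y9 ℓ).pow 2) (fun h => hℓq (hq.mem_of_pow_mem 2 h)) hℓg
  have hF2 := tr_fin hq h2 _ hw
  -- the values of the parameter to be avoided
  have hfin : {c : ℂ | ∃ 𝔓 ∈ {𝔓 : Ideal (MvPolynomial (Fin (n + 1)) ℂ) | 𝔓.IsPrime ∧ q ≤ 𝔓 ∧
      lin ℓ ^ 2 * mkDerivation ℂ d (g i₀) - g i₀ * mkDerivation ℂ d (lin ℓ ^ 2) ∈ 𝔓 ∧ Tr 𝔓 N},
      lin ℓ ^ 2 + C c * g i₀ ∈ 𝔓}.Finite := by
    have e : {c : ℂ | ∃ 𝔓 ∈ {𝔓 : Ideal (MvPolynomial (Fin (n + 1)) ℂ) | 𝔓.IsPrime ∧ q ≤ 𝔓 ∧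
      lin ℓ ^ 2 * mkDerivation ℂ d (g i₀) - g i₀ * mkDerivation ℂ d (lin ℓ ^ 2) ∈ 𝔓 ∧ Tr 𝔓 N},
      lin ℓ ^ 2 + C c * g i₀ ∈ 𝔓} = ⋃ 𝔓 ∈ {𝔓 : Ideal (MvPolynomial (Fin (n + 1)) ℂ) | 𝔓.IsPrime ∧
        q ≤ 𝔓 ∧ lin ℓ ^ 2 * mkDerivation ℂ d (g i₀) - g i₀ * mkDerivation ℂ d (lin ℓ ^ 2) ∈ 𝔓 ∧
        Tr 𝔓 N}, {c : ℂ | lin ℓ ^ 2 + C c * g i₀ ∈ 𝔓} := by
      ext c
      simp only [Set.mem_setOf_eq, Set.mem_iUnion, exists_prop]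
    rw [e]
    refine hF2.biUnion fun 𝔓 h𝔓 => Set.Subsingleton.finite ?_
    obtain ⟨hp, hle, -, htr⟩ := h𝔓
    intro c hc c' hc'
    by_contra hcc
    have hc1 : lin ℓ ^ 2 + C c * g i₀ ∈ 𝔓 := hc
    have hc2 : lin ℓ ^ 2 + C c' * g i₀ ∈ 𝔓 := hc'
    have h3 : g i₀ ∈ 𝔓 := by
      have h4 := 𝔓.mul_mem_left (C (c - c')⁻¹) (𝔓.sub_mem hc1 hc2)
      have e : C (c - c')⁻¹ * (lin ℓ ^ 2 + C c * g i₀ - (lin ℓ ^ 2 + C c' * g i₀)) = g i₀ := by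
        have e1 : lin ℓ ^ 2 + C c * g i₀ - (lin ℓ ^ 2 + C c' * g i₀) = C (c - c') * g i₀ := by
          rw [C_sub]
          ring
        rw [e1, ← mul_assoc, ← C_mul, inv_mul_cancel₀ (sub_ne_zero.2 hcc), C_1, one_mul]
      rwa [e] at h4
    have h5 : lin ℓ ∈ 𝔓 := by
      refine hp.mem_of_pow_mem 2 ?_
      have h6 := 𝔓.sub_mem hc1 (𝔓.mul_mem_left (C c) h3)
      rwa [add_sub_cancel_right] at h6
    exact hℓF 𝔓 hp hle h3 htr h5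
  obtain ⟨c, hc⟩ := hfin.exists_notMem
  refine ⟨Sum.elim ℓ (Pi.single i₀ c), δ, d, hd, hdq, fun 𝔓 hp hle hQ hDQ htr => hc ?_⟩
  have hqd : qd g (Sum.elim ℓ (Pi.single i₀ c)) = lin ℓ ^ 2 + C c * g i₀ := by
    rw [qd, Finset.sum_eq_single i₀]
    · simp only [Sum.elim_inl, Sum.elim_inr, Pi.single_eq_same]
    · intro j _ hj
      simp only [Sum.elim_inr, Pi.single_eq_of_ne hj, C_0, zero_mul]
    · intro h
      exact absurd (Finset.mem_univ _) h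
  rw [hqd] at hQ hDQ
  refine ⟨𝔓, ⟨hp, hle, ?_, htr⟩, hQ⟩
  have e : lin ℓ ^ 2 * mkDerivation ℂ d (g i₀) - g i₀ * mkDerivation ℂ d (lin ℓ ^ 2) =
      (lin ℓ ^ 2 + C c * g i₀) * mkDerivation ℂ d (g i₀) -
        g i₀ * mkDerivation ℂ d (lin ℓ ^ 2 + C c * g i₀) := by
    rw [map_add, C_mul', Derivation.map_smul, smul_eq_C_mul, smul_eq_C_mul]
    ring
  rw [e]
  exact 𝔓.sub_mem (𝔓.mul_mem_right _ hQ) (𝔓.mul_mem_left _ hDQ)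

end Pool.Agent.QY
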