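import Pool.Agent.Lib_MP_b9fedf_qy.ExcY
import Pool.Agent.Lib_MP_b9fedf_qy.TrLem
import Pool.Agent.Lib_MP_b9fedf_qy.Cut
import Pool.Agent.Lib_MP_b9fedf_qy.Penc
import Pool.Agent.Lib_MP_b9fedf_qy.Cert
import Pool.Agent.Lib_MP_b9fedf_qy.HPrime

/-! Quadrics with certificates. -/

set_option autoImplicit false

namespace Pool.Agent.QY
open MvPolynomial Pool.Agent.SQ

theorem lin_hom' {n : ℕ} (h : Fin (n + 1) → ℂ) : (lin h).IsHomogeneous 1 := by
  unfold lin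
  refine IsHomogeneous.sum _ _ _ fun i _ => ?_
  have := (isHomogeneous_C (Fin (n + 1)) (h i)).mul (isHomogeneous_X ℂ i)
  rwa [zero_add] at this

theorem qd_hom {n : ℕ} {ι : Type} [Fintype ι] (g : ι → MvPolynomial (Fin (n + 1)) ℂ)
    (hg : ∀ i, (g i).IsHomogeneous 2) (a : Fin (n + 1) ⊕ ι → ℂ) : (qd g a).IsHomogeneous 2 := by
  unfold qd
  refine IsHomogeneous.add ?_ ?_
  · exact (lin_hom' _).pow 2
  · refine IsHomogeneous.sum _ _ _ fun i _ => ?_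
    exact (hg i).C_mul _

theorem mkDer_eq {n : ℕ} (d : Fin (n + 1) → MvPolynomial (Fin (n + 1)) ℂ)
    (p : MvPolynomial (Fin (n + 1)) ℂ) : mkDerivation ℂ d p = ∑ i, pderiv i p * d i := by
  have hs : ∀ x : MvPolynomial (Fin (n + 1)) ℂ,
      (∑ i, d i • (pderiv i : Derivation ℂ (MvPolynomial (Fin (n + 1)) ℂ)
      (MvPolynomial (Fin (n + 1)) ℂ))) x = ∑ i, d i * pderiv i x := by
    intro x
    have h1 := congrFun (map_sum (Derivation.coeFnAddMonoidHom (R := ℂ)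
      (A := MvPolynomial (Fin (n + 1)) ℂ) (M := MvPolynomial (Fin (n + 1)) ℂ))
      (fun i => d i • (pderiv i : Derivation ℂ (MvPolynomial (Fin (n + 1)) ℂ)
      (MvPolynomial (Fin (n + 1)) ℂ))) Finset.univ) x
    rw [Finset.sum_apply] at h1
    exact h1
  have h : mkDerivation ℂ d = ∑ i, d i • (pderiv i : Derivation ℂ (MvPolynomial (Fin (n + 1)) ℂ)
      (MvPolynomial (Fin (n + 1)) ℂ)) := by
    apply MvPolynomial.derivation_ext
    intro j
    rw [mkDerivation_X, hs, Finset.sum_eq_single j]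
    · rw [pderiv_X_self, mul_one]
    · intro i _ hi
      rw [pderiv_X_of_ne hi.symm, mul_zero]
    · intro h
      exact absurd (Finset.mem_univ _) h
  rw [h, hs]
  exact Finset.sum_congr rfl fun i _ => mul_comm _ _

theorem mkDer_hom {n e δ : ℕ} (d : Fin (n + 1) → MvPolynomial (Fin (n + 1)) ℂ)
    (hd : ∀ i, (d i).IsHomogeneous δ) (p : MvPolynomial (Fin (n + 1)) ℂ)
    (hp : p.IsHomogeneous e) : (mkDerivation ℂ d p).IsHomogeneous (e - 1 + δ) := by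
  rw [mkDer_eq]
  exact IsHomogeneous.sum _ _ _ fun i _ => (hp.pderiv).mul (hd i)

theorem good_exists {n m : ℕ} {ι : Type} [Fintype ι]
    {q : Ideal (MvPolynomial (Fin (n + 1)) ℂ)} (hq : q.IsPrime) (hqh : HomI q) (h2 : Tr q 2)
    (g : ι → MvPolynomial (Fin (n + 1)) ℂ) (hg : ∀ i, (g i).IsHomogeneous 2)
    (hgq : ∃ i, g i ∉ q) (P : Fin (m + 1) → MvPolynomial (Fin (n + 1)) ℂ)
    (hP : ∀ i, (P i).IsHomogeneous 2)
    (hPs : ∀ Q : MvPolynomial (Fin (n + 1)) ℂ, Q.IsHomogeneous 2 →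
      ∃ v : Fin (m + 1) → ℂ, Q = ∑ i, C (v i) * P i) :
    ∃ (a : Fin (n + 1) ⊕ ι → ℂ) (v : Fin (m + 1) → ℂ) (e₁ : ℕ)
      (s : MvPolynomial (Fin (m + 1)) ℂ), qd g a = ∑ i, C (v i) * P i ∧ s.IsHomogeneous e₁ ∧
      eval v s ≠ 0 ∧ ExcOn q P s := by
  classical
  -- the dimension
  obtain ⟨N, hN, hN1, hN2⟩ : ∃ N, 1 ≤ N ∧ Tr q (N + 1) ∧ ¬ Tr q (N + 2) := by
    by_contra hcon
    push Not at hcon
    have h3 : ∀ N, 1 ≤ N → Tr q (N + 1) := by
      intro N hN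
      induction N, hN using Nat.le_induction with
      | base => exact h2
      | succ N hN ih => exact hcon N hN ih
    have := tr_le hq (h3 (n + 1) (by omega))
    omega
  obtain ⟨a, δ, d, hd, hdq, hda⟩ := penc hq hqh hN hN1 hN2 g hg hgq
  obtain ⟨v, hv⟩ := hPs (qd g a) (qd_hom g hg a)
  have hQh := qd_hom g hg a
  have hDh := mkDer_hom d hd (qd g a) hQh
  obtain ⟨c, rfl⟩ : ∃ c, N = c + 1 := ⟨N - 1, by omega⟩
  obtain ⟨ℓ, hℓ⟩ := cut c (q ⊔ Ideal.span {qd g a} ⊔ Ideal.span {mkDerivation ℂ d (qd g a)})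
    (homI_sup (homI_sup hqh _ _ hQh) _ _ hDh) (by
    intro 𝔓 h𝔓 hle
    refine hda 𝔓 h𝔓 ((le_sup_left.trans le_sup_left).trans hle) ?_ ?_
    · exact hle (Ideal.mem_sup_left (Ideal.mem_sup_right (Ideal.mem_span_singleton_self _)))
    · exact hle (Ideal.mem_sup_right (Ideal.mem_span_singleton_self _)))
  have hder : ∀ x : Fin (n + 1) → ℂ, eval x (mkDerivation ℂ d (qd g a)) =
      ∑ i, v i * eval x (mkDerivation ℂ d (P i)) := by
    intro x
    rw [hv, map_sum, map_sum]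
    refine Finset.sum_congr rfl fun i _ => ?_
    rw [← smul_eq_C_mul, Derivation.map_smul, smul_eq_C_mul, map_mul, eval_C]
  obtain ⟨N₁, e₁, s, hN₁, hs1, hs2, hs3⟩ := cert (r := 1) hqh P hP
    (fun _ i => mkDerivation ℂ d (P i)) (fun _ => 2 - 1 + δ)
    (fun _ i => mkDer_hom d hd (P i) (hP i)) ℓ v (by
    intro x hx1 hx2 hx3 hx4
    refine hℓ x ?_ hx4
    intro w hw
    obtain ⟨w₁, hw₁, w₂, hw₂, rfl⟩ := Submodule.mem_sup.mp hw
    obtain ⟨w₃, hw₃, w₄, hw₄, rfl⟩ := Submodule.mem_sup.mp hw₁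
    obtain ⟨b, rfl⟩ := Ideal.mem_span_singleton'.mp hw₂
    obtain ⟨b', rfl⟩ := Ideal.mem_span_singleton'.mp hw₄
    have h3 : eval x (qd g a) = 0 := by
      rw [hv, map_sum, ← hx2]
      exact Finset.sum_congr rfl fun i _ => by rw [map_mul, eval_C]
    rw [map_add, map_add, map_mul, map_mul, hx1 w₃ hw₃, h3, hder, hx3 0, mul_zero, mul_zero,
      add_zero, add_zero])
  exact ⟨a, v, e₁, s, hv, hs1, hs2, exc_y hq hqh hN1 (fun _ : Fin 1 => mkDerivation ℂ d)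
    (fun _ => hdq) P hP ℓ s hN₁ hs3⟩

end Pool.Agent.QY
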