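import Pool.Agent.Lib_MP_b9fedf_qy.DefsY

/-! At most `n` of the quadrics of a smooth complete intersection `y_j ^ 2 = Q_j(x)` pass through
a given point. -/

set_option autoImplicit false

namespace Pool.Agent.QY
open MvPolynomial Pool.Agent.SQ

private theorem memb_qd_hom {n : ℕ} {ι : Type} [Fintype ι]
    (g : ι → MvPolynomial (Fin (n + 1)) ℂ) (hg : ∀ i, (g i).IsHomogeneous 2)
    (a : Fin (n + 1) ⊕ ι → ℂ) : (qd g a).IsHomogeneous 2 := by
  unfold qd
  refine IsHomogeneous.add ?_ ?_
  · have h1 : (lin (fun i => a (Sum.inl i))).IsHomogeneous 1 := by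
      unfold lin
      refine IsHomogeneous.sum _ _ _ fun i _ => ?_
      have := (isHomogeneous_C (Fin (n + 1)) (a (Sum.inl i))).mul (isHomogeneous_X ℂ i)
      simpa using this
    simpa using h1.pow 2
  · refine IsHomogeneous.sum _ _ _ fun i _ => ?_
    have := (isHomogeneous_C (Fin (n + 1)) (a (Sum.inr i))).mul (hg i)
    simpa using this

private theorem memb_pd_inl {n K : ℕ} {ι : Type} [Fintype ι]
    (g : ι → MvPolynomial (Fin (n + 1)) ℂ) (a : ℕ → Fin (n + 1) ⊕ ι → ℂ) (j : Fin K)
    (x : Fin (n + 1) → ℂ) (y : Fin K → ℂ) (i : Fin (n + 1)) :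
    eval (Sum.elim x y) (pderiv (Sum.inl i) (fam g a K j)) =
      - eval x (pderiv i (qd g (a j))) := by
  unfold fam
  rw [map_sub, pderiv_rename Sum.inl_injective, pderiv_pow,
    pderiv_X_of_ne (by simp : (Sum.inr j : Fin (n + 1) ⊕ Fin K) ≠ Sum.inl i), map_sub,
    eval_rename]
  simp

private theorem memb_pd_inr {n K : ℕ} {ι : Type} [Fintype ι]
    (g : ι → MvPolynomial (Fin (n + 1)) ℂ) (a : ℕ → Fin (n + 1) ⊕ ι → ℂ) (j : Fin K)
    (x : Fin (n + 1) → ℂ) (y : Fin K → ℂ) (hy : y j = 0) (k : Fin K) :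
    eval (Sum.elim x y) (pderiv (Sum.inr k) (fam g a K j)) = 0 := by
  classical
  unfold fam
  have h0 : pderiv (Sum.inr k : Fin (n + 1) ⊕ Fin K) (rename Sum.inl (qd g (a j))) = 0 := by
    refine pderiv_eq_zero_of_notMem_vars fun h => ?_
    have := vars_rename (Sum.inl : Fin (n + 1) → Fin (n + 1) ⊕ Fin K) (qd g (a j)) h
    simp at this
  rw [map_sub, h0, pderiv_pow]
  simp [hy]

/-- PIECE B5 (Memb.lean) -/
theorem memb {n K : ℕ} {ι : Type} [Fintype ι] (g : ι → MvPolynomial (Fin (n + 1)) ℂ)
    (hg : ∀ i, (g i).IsHomogeneous 2) (a : ℕ → Fin (n + 1) ⊕ ι → ℂ) (hS : SCI (fam g a K))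
    (x : Fin (n + 1) → ℂ) (hx : x ≠ 0) (J : Finset (Fin K))
    (hJ : ∀ j ∈ J, eval x (qd g (a j)) = 0) : J.card ≤ n := by
  classical
  have hsq : ∀ j : Fin K, ∃ y : ℂ, y ^ 2 = eval x (qd g (a j)) := fun j =>
    IsAlgClosed.exists_pow_nat_eq _ (by norm_num)
  choose y hy using hsq
  have hy0 : ∀ j ∈ J, y j = 0 := fun j hj => by
    have := hy j
    rw [hJ j hj] at this
    exact pow_eq_zero_iff (by norm_num) |>.1 this
  have hz : (Sum.elim x y : Fin (n + 1) ⊕ Fin K → ℂ) ≠ 0 := by
    intro h
    apply hx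
    funext i
    exact congrFun h (Sum.inl i)
  have hli := hS (Sum.elim x y) hz (fun j => by
    unfold fam
    rw [map_sub, map_pow, eval_X, eval_rename]
    simp [hy j])
  have hliJ := hli.comp (Subtype.val : J → Fin K) Subtype.val_injective
  set v : J → (Fin (n + 1) → ℂ) := fun j i => eval x (pderiv i (qd g (a j))) with hv
  -- the functional
  let φ : Module.Dual ℂ (Fin (n + 1) → ℂ) := ∑ i, x i • LinearMap.proj i
  have hφ : ∀ u : Fin (n + 1) → ℂ, φ u = ∑ i, x i * u i := by
    intro u
    simp [φ, LinearMap.sum_apply]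
  have hφ0 : φ ≠ 0 := by
    intro h
    apply hx
    funext i
    have := hφ (Pi.single i 1)
    rw [h] at this
    simpa [Pi.single_apply] using this.symm
  have hker : ∀ j : J, v j ∈ LinearMap.ker φ := by
    intro j
    rw [LinearMap.mem_ker, hφ]
    have hE := (memb_qd_hom g hg (a j)).sum_X_mul_pderiv
    have hE2 := congrArg (eval x) hE
    rw [map_sum] at hE2
    simp only [map_mul, eval_X, map_nsmul, hJ j j.2, smul_zero] at hE2
    exact hE2
  let L : (Fin (n + 1) → ℂ) →ₗ[ℂ] (Fin (n + 1) ⊕ Fin K → ℂ) :=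
    { toFun := fun u => Sum.elim (fun i => - u i) (fun _ => 0)
      map_add' := by
        intro u w
        funext k
        rcases k with k | k
        · simp [add_comm]
        · simp
      map_smul' := by
        intro c u
        funext k
        rcases k with k | k
        · simp
        · simp }
  have hvli : LinearIndependent ℂ v := by
    apply LinearIndependent.of_comp L
    have : (L ∘ v) = (fun j => fun i => eval (Sum.elim x y) (pderiv i (fam g a K j))) ∘
        (Subtype.val : J → Fin K) := by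
      funext j k
      rcases k with k | k
      · simp only [Function.comp_apply]
        rw [memb_pd_inl]
        rfl
      · simp only [Function.comp_apply]
        rw [memb_pd_inr g a j x y (hy0 j j.2)]
        rfl
    rw [this]
    exact hliJ
  have hw : LinearIndependent ℂ (fun j : J => (⟨v j, hker j⟩ : LinearMap.ker φ)) := by
    apply LinearIndependent.of_comp (Submodule.subtype (LinearMap.ker φ))
    exact hvli
  have hcard := hw.fintype_card_le_finrank
  have hfr := Module.Dual.finrank_ker_add_one_of_ne_zero hφ0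
  rw [Module.finrank_fin_fun] at hfr
  rw [Fintype.card_coe] at hcard
  omega

end Pool.Agent.QY
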