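import Pool.Agent.Lib_MP_b9fedf_qy.Memb

/-! Different quadrics of a smooth complete intersection are not proportional. -/

set_option autoImplicit false

namespace Pool.Agent.QY
open MvPolynomial Pool.Agent.SQ

/-- restriction of a polynomial to the line `x + T y` -/
private noncomputable def lineNP {n : ℕ} {K : Type} [CommRing K] (x y : Fin (n + 1) → K) :
    MvPolynomial (Fin (n + 1)) K →+* Polynomial K :=
  MvPolynomial.eval₂Hom Polynomial.C
    (fun i => Polynomial.C (x i) + Polynomial.C (y i) * Polynomial.X)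

private theorem mono_np {n : ℕ} {K : Type} [CommRing K] (x y : Fin (n + 1) → K)
    (d : Fin (n + 1) → ℕ) (s : Finset (Fin (n + 1))) :
    (∏ i ∈ s, (Polynomial.C (x i) + Polynomial.C (y i) * Polynomial.X) ^ d i).natDegree
      ≤ ∑ i ∈ s, d i ∧
    (∏ i ∈ s, (Polynomial.C (x i) + Polynomial.C (y i) * Polynomial.X) ^ d i).coeff
      (∑ i ∈ s, d i) = ∏ i ∈ s, y i ^ d i := by
  classical
  have h1 : ∀ i, (Polynomial.C (x i) + Polynomial.C (y i) * Polynomial.X).natDegree ≤ 1 := by
    intro i
    rw [add_comm]
    exact Polynomial.natDegree_linear_le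
  induction s using Finset.induction_on with
  | empty => simp
  | insert i s hi ih =>
    rw [Finset.prod_insert hi, Finset.sum_insert hi, Finset.prod_insert hi]
    have h2 : ((Polynomial.C (x i) + Polynomial.C (y i) * Polynomial.X) ^ d i).natDegree
        ≤ d i := by
      have := Polynomial.natDegree_pow_le_of_le (d i) (h1 i)
      simpa using this
    constructor
    · exact Polynomial.natDegree_mul_le_of_le h2 ih.1
    · rw [Polynomial.coeff_mul_add_eq_of_natDegree_le h2 ih.1, ih.2]
      congr 1
      have := Polynomial.coeff_pow_of_natDegree_le (m := d i) (h1 i)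
      rw [mul_one] at this
      rw [this]
      simp

private theorem lineNP_natDegree {n : ℕ} {K : Type} [CommRing K] (x y : Fin (n + 1) → K)
    (Q : MvPolynomial (Fin (n + 1)) K) : (lineNP x y Q).natDegree ≤ Q.totalDegree := by
  rw [lineNP, MvPolynomial.coe_eval₂Hom, MvPolynomial.eval₂_eq']
  apply Polynomial.natDegree_sum_le_of_forall_le
  intro d hd
  refine (Polynomial.natDegree_C_mul_le _ _).trans ((mono_np x y d Finset.univ).1.trans ?_)
  have := MvPolynomial.le_totalDegree hd
  rw [Finsupp.sum_fintype _ _ (fun _ => rfl)] at this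
  exact this

private theorem lineNP_coeff {n e : ℕ} {K : Type} [CommRing K] (x y : Fin (n + 1) → K)
    (Q : MvPolynomial (Fin (n + 1)) K) (hQ : Q.IsHomogeneous e) :
    (lineNP x y Q).coeff e = eval y Q := by
  rw [lineNP, MvPolynomial.coe_eval₂Hom, MvPolynomial.eval₂_eq', MvPolynomial.eval_eq',
    Polynomial.finsetSum_coeff]
  apply Finset.sum_congr rfl
  intro d hd
  have h1 : ∑ i, d i = e := by
    have := hQ.degree_eq_sum_deg_support hd
    rw [this, ← Finsupp.degree_eq_sum, Finsupp.degree_apply]
  have := (mono_np x y d Finset.univ).2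
  rw [h1] at this
  rw [Polynomial.coeff_C_mul, this]


private theorem lineNP_eval {n : ℕ} (x y : Fin (n + 1) → ℂ) (t : ℂ)
    (Q : MvPolynomial (Fin (n + 1)) ℂ) :
    (lineNP x y Q).eval t = eval (fun i => x i + y i * t) Q := by
  have h : (Polynomial.evalRingHom t).comp (lineNP x y) = eval (fun i => x i + y i * t) := by
    apply MvPolynomial.ringHom_ext
    · intro c
      simp [lineNP]
    · intro i
      simp [lineNP]
  exact congrArg (fun f => f Q) h

theorem quad_zero {n : ℕ} (hn : 1 ≤ n) (Q : MvPolynomial (Fin (n + 1)) ℂ)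
    (hQ : Q.IsHomogeneous 2) : ∃ x : Fin (n + 1) → ℂ, x ≠ 0 ∧ eval x Q = 0 := by
  classical
  set e0 : Fin (n + 1) → ℂ := Pi.single 0 1 with he0
  set e1 : Fin (n + 1) → ℂ := Pi.single ⟨1, by omega⟩ 1 with he1
  have h01 : (0 : Fin (n + 1)) ≠ ⟨1, by omega⟩ := by
    intro h
    have := congrArg Fin.val h
    simp at this
  by_cases h1 : eval e1 Q = 0
  · refine ⟨e1, ?_, h1⟩
    intro h
    have := congrFun h ⟨1, by omega⟩
    rw [he1, Pi.single_eq_same] at this
    exact one_ne_zero this
  set p := lineNP e0 e1 Q with hp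
  have hc : p.coeff 2 ≠ 0 := by
    rw [hp, lineNP_coeff e0 e1 Q hQ]
    exact h1
  have hdeg : p.degree ≠ 0 := by
    intro h
    rw [Polynomial.eq_C_of_degree_eq_zero h, Polynomial.coeff_C] at hc
    simp at hc
  obtain ⟨t, ht⟩ := IsAlgClosed.exists_root p hdeg
  refine ⟨fun i => e0 i + e1 i * t, ?_, ?_⟩
  · intro h
    have h2 := congrFun h 0
    simp only [he0, he1, Pi.single_eq_same, Pi.single_apply, if_neg h01, zero_mul, add_zero,
      Pi.zero_apply] at h2
    exact one_ne_zero h2
  · rw [← lineNP_eval]
    exact ht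

/-- the gradients of the quadrics passing through a point are linearly independent -/
theorem sci_grad {n K : ℕ} {ι : Type} [Fintype ι] (g : ι → MvPolynomial (Fin (n + 1)) ℂ)
    (a : ℕ → Fin (n + 1) ⊕ ι → ℂ) (hS : SCI (fam g a K))
    (x : Fin (n + 1) → ℂ) (hx : x ≠ 0) (J : Finset (Fin K))
    (hJ : ∀ j ∈ J, eval x (qd g (a j)) = 0) :
    LinearIndependent ℂ (fun j : J => fun i => eval x (pderiv i (qd g (a j)))) := by
  classical
  have hsq : ∀ j : Fin K, ∃ y : ℂ, y ^ 2 = eval x (qd g (a j)) := fun j =>
    IsAlgClosed.exists_pow_nat_eq _ (by norm_num)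
  choose y hy using hsq
  have hy0 : ∀ j ∈ J, y j = 0 := fun j hj => by
    have := hy j
    rw [hJ j hj] at this
    exact pow_eq_zero_iff (by norm_num) |>.1 this
  have hz : (Sum.elim x y : Fin (n + 1) ⊕ Fin K → ℂ) ≠ 0 := by
    intro h
    apply hx
    funext i
    exact congrFun h (Sum.inl i)
  have hli := hS (Sum.elim x y) hz (fun j => by
    unfold fam
    rw [map_sub, map_pow, eval_X, eval_rename]
    simp [hy j])
  have hliJ := hli.comp (Subtype.val : J → Fin K) Subtype.val_injective
  let L : (Fin (n + 1) → ℂ) →ₗ[ℂ] (Fin (n + 1) ⊕ Fin K → ℂ) :=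
    { toFun := fun u => Sum.elim (fun i => - u i) (fun _ => 0)
      map_add' := by
        intro u w
        funext k
        rcases k with k | k
        · simp [add_comm]
        · simp
      map_smul' := by
        intro c u
        funext k
        rcases k with k | k
        · simp
        · simp }
  apply LinearIndependent.of_comp L
  have : (L ∘ fun j : J => fun i => eval x (pderiv i (qd g (a j)))) =
      (fun j => fun i => eval (Sum.elim x y) (pderiv i (fam g a K j))) ∘
      (Subtype.val : J → Fin K) := by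
    funext j k
    rcases k with k | k
    · simp only [Function.comp_apply]
      unfold fam
      rw [map_sub, pderiv_rename Sum.inl_injective, pderiv_pow,
        pderiv_X_of_ne (by simp : (Sum.inr (j : Fin K) : Fin (n + 1) ⊕ Fin K) ≠ Sum.inl k),
        map_sub, eval_rename]
      simp [L]
    · simp only [Function.comp_apply]
      unfold fam
      have h0 : pderiv (Sum.inr k : Fin (n + 1) ⊕ Fin K)
          (rename Sum.inl (qd g (a (j : Fin K)))) = 0 := by
        refine pderiv_eq_zero_of_notMem_vars fun h => ?_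
        have := vars_rename (Sum.inl : Fin (n + 1) → Fin (n + 1) ⊕ Fin K) (qd g (a (j : Fin K))) h
        simp at this
      rw [map_sub, h0, pderiv_pow]
      simp [hy0 j j.2, L]
  rw [this]
  exact hliJ

/-- different quadrics are not proportional -/
theorem non_prop {n K : ℕ} (hn : 1 ≤ n) {ι : Type} [Fintype ι]
    (g : ι → MvPolynomial (Fin (n + 1)) ℂ) (hq : ∀ a, (qd g a).IsHomogeneous 2)
    (a : ℕ → Fin (n + 1) ⊕ ι → ℂ) (hS : SCI (fam g a K)) (j j' : Fin K) (hjj : j ≠ j')
    (c c' : ℂ) (h : C c * qd g (a j) + C c' * qd g (a j') = 0) : c = 0 ∧ c' = 0 := by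
  classical
  by_contra hcon
  have hex : ∃ x : Fin (n + 1) → ℂ, x ≠ 0 ∧ eval x (qd g (a j)) = 0 ∧
      eval x (qd g (a j')) = 0 := by
    have hev : ∀ x, c * eval x (qd g (a j)) + c' * eval x (qd g (a j')) = 0 := by
      intro x
      have := congrArg (eval x) h
      simpa using this
    by_cases hc : c = 0
    · have hc' : c' ≠ 0 := fun h' => hcon ⟨hc, h'⟩
      obtain ⟨x, hx, hx0⟩ := quad_zero hn _ (hq (a j))
      refine ⟨x, hx, hx0, ?_⟩
      have := hev x
      rw [hx0, mul_zero, zero_add] at this
      exact (mul_eq_zero.mp this).resolve_left hc'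
    · obtain ⟨x, hx, hx0⟩ := quad_zero hn _ (hq (a j'))
      refine ⟨x, hx, ?_, hx0⟩
      have := hev x
      rw [hx0, mul_zero, add_zero] at this
      exact (mul_eq_zero.mp this).resolve_left hc
  obtain ⟨x, hx, h1, h2⟩ := hex
  have hli := sci_grad g a hS x hx {j, j'} (by
    intro i hi
    rcases Finset.mem_insert.mp hi with rfl | hi
    · exact h1
    · rw [Finset.mem_singleton.mp hi]
      exact h2)
  rw [Fintype.linearIndependent_iff] at hli
  have h3 := hli (fun i => if i.1 = j then c else c') (by
    rw [Finset.sum_coe_sort ({j, j'} : Finset (Fin K)) (fun i => (if i = j then c else c') •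
      fun k => eval x (pderiv k (qd g (a i)))), Finset.sum_pair hjj, if_pos rfl,
      if_neg (Ne.symm hjj)]
    funext k
    have h4 := congrArg (fun p => eval x (pderiv k p)) h
    simpa using h4)
  apply hcon
  refine ⟨?_, ?_⟩
  · have := h3 ⟨j, Finset.mem_insert_self _ _⟩
    simpa using this
  · have := h3 ⟨j', Finset.mem_insert_of_mem (Finset.mem_singleton_self _)⟩
    simpa [Ne.symm hjj] using this

end Pool.Agent.QY
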