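import Pool.Agent.Lib_MP_b9fedf_qy.DefsY

/-! The family of quadrics vanishing on the Veronese image. -/

set_option autoImplicit false

namespace Pool.Agent.QY
open MvPolynomial Pool.Agent.SQ

/-- the standing assumptions -/
structure Setup {n : ℕ} {ι : Type} [Fintype ι] (g : ι → MvPolynomial (Fin (n + 1)) ℂ)
    (b ρ : ℕ) : Prop where
  hg : ∀ i, (g i).IsHomogeneous 2
  hV : ∀ (Ω : Type) [Field Ω] (φ : ℂ →+* Ω) (x : Fin (n + 1) → Ω),
      (∀ i, (g i).eval₂ φ x = 0) → ∀ i : Fin (n + 1), b < (i : ℕ) → x i = 0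
  hρ : ∀ (Ω : Type) [Field Ω] (φ : ℂ →+* Ω) (x : Fin (n + 1) → Ω), x ≠ 0 →
      (∀ i, (g i).eval₂ φ x = 0) → ρ ≤ Module.finrank Ω (Submodule.span Ω
      (Set.range fun i => fun k => (pderiv k (g i)).eval₂ φ x))
  hρb : b + n + 1 < 2 * ρ
  hbn : b ≤ n

/-- the variables of the Veronese space are the first `b + 1` variables -/
def jn {μ : Type} {b N : ℕ} (e : μ ≃ Fin (b + 1)) (hb : b ≤ N) (α : μ) : Fin (N + 1) :=
  ⟨(e α).1, by have := (e α).2; omega⟩

/-- the quadrics -/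
noncomputable def famG {μ : Type} {b N r : ℕ} (e : μ ≃ Fin (b + 1)) (hb : b ≤ N)
    (G : Fin r → MvPolynomial μ ℂ) :
    Fin r ⊕ (Fin (N + 1) × Fin (N + 1)) → MvPolynomial (Fin (N + 1)) ℂ
  | Sum.inl i => rename (jn e hb) (G i)
  | Sum.inr p => if b < (p.1 : ℕ) then X p.1 * X p.2 else 0

theorem famG_hom {μ : Type} {b N r : ℕ} (e : μ ≃ Fin (b + 1)) (hb : b ≤ N)
    (G : Fin r → MvPolynomial μ ℂ) (hG : ∀ i, (G i).IsHomogeneous 2)
    (i : Fin r ⊕ (Fin (N + 1) × Fin (N + 1))) : (famG e hb G i).IsHomogeneous 2 := by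
  rcases i with i | p
  · exact (hG i).rename_isHomogeneous
  · simp only [famG]
    split_ifs
    · exact (isHomogeneous_X ℂ p.1).mul (isHomogeneous_X ℂ p.2)
    · exact isHomogeneous_zero _ _ _

theorem famG_setup {μ : Type} {b N r : ℕ} (e : μ ≃ Fin (b + 1)) (hb : b ≤ N)
    (G : Fin r → MvPolynomial μ ℂ) (hG : ∀ i, (G i).IsHomogeneous 2) (hN : 3 * b + 1 < N) :
    Setup (famG e hb G) b (N - b) := by
  classical
  have hv : ∀ (Ω : Type) [Field Ω] (φ : ℂ →+* Ω) (x : Fin (N + 1) → Ω),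
      (∀ i, (famG e hb G i).eval₂ φ x = 0) → ∀ i : Fin (N + 1), b < (i : ℕ) → x i = 0 := by
    intro Ω _ φ x h i hi
    have h1 := h (Sum.inr (i, i))
    simp only [famG, if_pos hi, eval₂_mul, eval₂_X] at h1
    exact mul_self_eq_zero.mp h1
  refine ⟨famG_hom e hb G hG, hv, ?_, by omega, hb⟩
  intro Ω _ φ x hx h
  have hvx := hv Ω φ x h
  obtain ⟨j, hj⟩ := Function.ne_iff.mp hx
  simp only [Pi.zero_apply] at hj
  have hjb : ¬ b < (j : ℕ) := fun hjb => hj (hvx j hjb)
  set W := Submodule.span Ω (Set.range fun i => fun k =>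
    (pderiv k (famG e hb G i)).eval₂ φ x) with hW
  -- the basis vectors
  set T : Finset (Fin (N + 1)) := Finset.univ.filter fun i => b < (i : ℕ) with hT
  have hTcard : T.card = N - b := by
    have h1 : T = Finset.Ioi (⟨b, by omega⟩ : Fin (N + 1)) := by
      ext i
      simp [hT, Fin.lt_def]
    rw [h1, Fin.card_Ioi]
    simp
  have hmem : ∀ i : T, (Pi.single i.1 (1 : Ω) : Fin (N + 1) → Ω) ∈ W := by
    intro i
    have hib : b < (i.1 : ℕ) := (Finset.mem_filter.mp i.2).2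
    have h1 : (fun k => (pderiv k (famG e hb G (Sum.inr (i.1, j)))).eval₂ φ x) ∈ W :=
      Submodule.subset_span ⟨Sum.inr (i.1, j), rfl⟩
    have h2 : (fun k => (pderiv k (famG e hb G (Sum.inr (i.1, j)))).eval₂ φ x) =
        x j • (Pi.single i.1 (1 : Ω) : Fin (N + 1) → Ω) := by
      funext k
      simp only [famG, if_pos hib]
      rw [Pi.smul_apply, smul_eq_mul, pderiv_mul, eval₂_add, eval₂_mul, eval₂_mul, eval₂_X,
        eval₂_X, hvx i.1 hib, zero_mul, add_zero, pderiv_X, Pi.single_apply, Pi.single_apply]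
      split_ifs with h3 h4 h4
      · simp
      · exact absurd h3.symm h4
      · exact absurd h4.symm h3
      · simp
    rw [h2] at h1
    have h3 := W.smul_mem (x j)⁻¹ h1
    rwa [smul_smul, inv_mul_cancel₀ hj, one_smul] at h3
  have hli : LinearIndependent Ω (fun i : T => (⟨_, hmem i⟩ : W)) := by
    apply LinearIndependent.of_comp W.subtype
    have h1 : (W.subtype ∘ fun i : T => (⟨_, hmem i⟩ : W)) =
        fun i : T => (Pi.single i.1 (1 : Ω) : Fin (N + 1) → Ω) := rfl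
    rw [h1]
    have h2 := (Pi.basisFun Ω (Fin (N + 1))).linearIndependent
    have h3 := h2.comp (Subtype.val : T → Fin (N + 1)) Subtype.val_injective
    have h4 : ((Pi.basisFun Ω (Fin (N + 1)) : Fin (N + 1) → (Fin (N + 1) → Ω)) ∘
        (Subtype.val : T → Fin (N + 1))) =
        fun i : T => (Pi.single i.1 (1 : Ω) : Fin (N + 1) → Ω) := by
      funext i
      rw [Function.comp_apply, Pi.basisFun_apply]
    rw [← h4]
    exact h3
  have := hli.fintype_card_le_finrank
  rw [Fintype.card_coe, hTcard] at this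
  exact this

/-- the linear embedding of the Veronese space -/
noncomputable def L0 {μ : Type} {b N : ℕ} (e : μ ≃ Fin (b + 1)) :
    (μ → ℂ) →ₗ[ℂ] (Fin (N + 1) → ℂ) where
  toFun w i := if h : (i : ℕ) ≤ b then w (e.symm ⟨i, by omega⟩) else 0
  map_add' w w' := by
    funext i
    by_cases h : (i : ℕ) ≤ b
    · simp [h]
    · simp [h]
  map_smul' c w := by
    funext i
    by_cases h : (i : ℕ) ≤ b
    · simp [h]
    · simp [h]

theorem L0_jn {μ : Type} {b N : ℕ} (e : μ ≃ Fin (b + 1)) (hb : b ≤ N) (w : μ → ℂ) (α : μ) :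
    (L0 e w : Fin (N + 1) → ℂ) (jn e hb α) = w α := by
  have h : ((jn e hb α : Fin (N + 1)) : ℕ) ≤ b := by
    have := (e α).2
    show (e α : ℕ) ≤ b
    omega
  show (if h : ((jn e hb α : Fin (N + 1)) : ℕ) ≤ b then _ else _) = _
  rw [dif_pos h]
  show w (e.symm (e α)) = _
  rw [Equiv.symm_apply_apply]

theorem L0_inj {μ : Type} {b N : ℕ} (e : μ ≃ Fin (b + 1)) (hb : b ≤ N) :
    Function.Injective (L0 e : (μ → ℂ) →ₗ[ℂ] (Fin (N + 1) → ℂ)) := by
  intro w w' h
  funext α
  rw [← L0_jn e hb w α, ← L0_jn e hb w' α, h]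

theorem L0_out {μ : Type} {b N : ℕ} (e : μ ≃ Fin (b + 1)) (hb : b ≤ N) (x : Fin (N + 1) → ℂ)
    (hx : ∀ i : Fin (N + 1), b < (i : ℕ) → x i = 0) : x = L0 e (fun α => x (jn e hb α)) := by
  funext i
  show _ = (if h : (i : ℕ) ≤ b then _ else _)
  by_cases h : (i : ℕ) ≤ b
  · rw [dif_pos h]
    congr 1
    apply Fin.ext
    show (i : ℕ) = (e (e.symm ⟨i, _⟩) : ℕ)
    rw [Equiv.apply_symm_apply]
  · rw [dif_neg h]
    exact hx i (by omega)

theorem famG_zero {μ : Type} {b N r : ℕ} (e : μ ≃ Fin (b + 1)) (hb : b ≤ N)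
    (G : Fin r → MvPolynomial μ ℂ) (x : Fin (N + 1) → ℂ) :
    (∀ i, eval x (famG e hb G i) = 0) ↔
      ∃ w : μ → ℂ, x = L0 e w ∧ ∀ i, eval w (G i) = 0 := by
  constructor
  · intro h
    have hv : ∀ i : Fin (N + 1), b < (i : ℕ) → x i = 0 := by
      intro i hi
      have h1 := h (Sum.inr (i, i))
      simp only [famG, if_pos hi, map_mul, eval_X] at h1
      exact mul_self_eq_zero.mp h1
    refine ⟨fun α => x (jn e hb α), L0_out e hb x hv, fun i => ?_⟩
    have h1 := h (Sum.inl i)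
    simp only [famG, eval_rename] at h1
    exact h1
  · rintro ⟨w, rfl, h⟩ i
    rcases i with i | p
    · simp only [famG, eval_rename]
      have h1 : (L0 e w : Fin (N + 1) → ℂ) ∘ jn e hb = w := funext fun α => L0_jn e hb w α
      rw [h1]
      exact h i
    · simp only [famG]
      split_ifs with hp
      · have h1 : (L0 e w : Fin (N + 1) → ℂ) p.1 = 0 := by
          show (if h : (p.1 : ℕ) ≤ b then _ else _) = _
          rw [dif_neg (by omega)]
        rw [map_mul, eval_X, h1, zero_mul]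
      · exact map_zero _

end Pool.Agent.QY
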