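import Pool.Agent.Lib_MP_b9fedf_qy.DefsY
import Pool.Agent.Lib_MP_b9fedf_sq.EntDom

/-! An entire curve which is not constant forces transcendence degree at least two. -/

set_option autoImplicit false

namespace Pool.Agent.QY
open MvPolynomial Pool.Agent.SQ

/-- scaling of a homogeneous form with values in an algebra -/
private theorem aeval_scale_trtwo {A : Type} [CommRing A] [Algebra ℂ A] {m n : ℕ}
    (f : MvPolynomial (Fin m) ℂ) (hf : f.IsHomogeneous n) (t : A) (y : Fin m → A) :
    aeval (fun i => t * y i) f = t ^ n * aeval y f := by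
  classical
  rw [aeval_def, aeval_def, eval₂_eq', eval₂_eq', Finset.mul_sum]
  refine Finset.sum_congr rfl fun s hs => ?_
  have h1 : ∑ i, s i = n := by
    have := hf (mem_support_iff.mp hs)
    rw [Finsupp.weight_apply, Finsupp.sum_fintype _ _ (by simp)] at this
    simpa using this
  rw [show (∏ i, (t * y i) ^ s i) = t ^ n * ∏ i, y i ^ s i by
    rw [← h1, ← Finset.prod_pow_eq_pow_sum, ← Finset.prod_mul_distrib]
    exact Finset.prod_congr rfl fun i _ => mul_pow _ _ _]
  ring

/-- a nonzero binary form vanishes only at pairs with constant ratio -/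
private theorem bin_ratio_trtwo {K : Type} [Field K] [Algebra ℂ K] {d : ℕ}
    (G : MvPolynomial (Fin 2) ℂ) (hG : G.IsHomogeneous d) (hG0 : G ≠ 0) (a b : K) (hb : b ≠ 0)
    (h : aeval ![a, b] G = 0) : ∃ c : ℂ, a = algebraMap ℂ K c * b := by
  set P : Polynomial ℂ := aeval ![Polynomial.X, 1] G with hP
  have hPe : ∀ (A : Type) [CommRing A] [Algebra ℂ A] (s : A),
      Polynomial.aeval s P = aeval ![s, 1] G := by
    intro A _ _ s
    rw [hP]
    have h1 := MvPolynomial.comp_aeval_apply (R := ℂ) ![Polynomial.X, (1 : Polynomial ℂ)]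
      (Polynomial.aeval s : Polynomial ℂ →ₐ[ℂ] A) G
    rw [h1]
    congr 2
    funext i
    fin_cases i <;> simp
  have hP0 : P ≠ 0 := by
    intro hP0
    apply hG0
    have h1 : X 1 * G = 0 := by
      refine MvPolynomial.funext fun x => ?_
      rw [map_mul, eval_X, map_zero]
      by_cases hx : x 1 = 0
      · rw [hx, zero_mul]
      have h2 := hPe ℂ (x 0 / x 1)
      rw [hP0, map_zero] at h2
      have h3 := aeval_scale_trtwo G hG (x 1) ![x 0 / x 1, 1]
      rw [← h2, mul_zero] at h3
      have h4 : (fun i => x 1 * (![x 0 / x 1, (1 : ℂ)] : Fin 2 → ℂ) i) = x := by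
        funext i
        fin_cases i
        · show x 1 * (x 0 / x 1) = x 0
          field_simp
        · show x 1 * 1 = x 1
          ring
      rw [h4] at h3
      have h5 : eval x G = 0 := h3
      rw [h5, mul_zero]
    exact (mul_eq_zero.mp h1).resolve_left (X_ne_zero 1)
  have hr : Polynomial.aeval (a / b) P = 0 := by
    rw [hPe K (a / b)]
    have h3 := aeval_scale_trtwo G hG b ![a / b, 1]
    have h4 : (fun i => b * (![a / b, (1 : K)] : Fin 2 → K) i) = ![a, b] := by
      funext i
      fin_cases i
      · show b * (a / b) = a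
        field_simp
      · show b * 1 = b
        ring
    rw [h4, h] at h3
    exact (mul_eq_zero.mp h3.symm).resolve_left (pow_ne_zero _ hb)
  have hint : IsIntegral ℂ (a / b) := (isAlgebraic_iff_isIntegral).mp ⟨P, hP0, hr⟩
  obtain ⟨c, hc⟩ := minpoly.mem_range_of_degree_eq_one ℂ (a / b)
    (IsAlgClosed.degree_eq_one_of_irreducible ℂ (minpoly.irreducible hint))
  refine ⟨c, ?_⟩
  rw [hc]
  field_simp

/-- PIECE Y13 -/
theorem tr_two {n : ℕ} {q : Ideal (MvPolynomial (Fin (n + 1)) ℂ)} (hqh : HomI q)
    (f : Fin (n + 1) → ℂ → ℂ) (hf : ∀ k, Differentiable ℂ (f k))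
    (hfq : ∀ g ∈ q, ∀ z, eval (fun k => f k z) g = 0)
    (hnc : ∀ v : Fin (n + 1) → ℂ, v ≠ 0 → ∃ z i j, v i * f j z ≠ v j * f i z) : Tr q 2 := by
  classical
  -- some coordinate does not vanish identically
  obtain ⟨i₀, z₀, hi₀⟩ : ∃ i z, f i z ≠ 0 := by
    by_contra hcon
    push Not at hcon
    obtain ⟨z, i, j, h⟩ := hnc (fun _ => 1) (by
      intro h
      have := congrFun h 0
      simp at this)
    exact h (by rw [hcon, hcon])
  -- two coordinates are not proportional
  obtain ⟨j, hj⟩ : ∃ j, ∀ c : ℂ, ∃ z, f j z ≠ c * f i₀ z := by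
    by_contra hcon
    push Not at hcon
    choose v hv using hcon
    have hv1 : v i₀ = 1 := by
      have h1 := hv i₀ z₀
      have h2 : (v i₀ - 1) * f i₀ z₀ = 0 := by
        rw [sub_mul, ← h1]
        ring
      have h3 := (mul_eq_zero.mp h2).resolve_right hi₀
      linear_combination h3
    obtain ⟨z, i, k, h⟩ := hnc v (by
      intro h
      have := congrFun h i₀
      rw [hv1] at this
      simp at this)
    exact h (by rw [hv i z, hv k z]; ring)
  refine ⟨![X j, X i₀], fun G hG => ?_⟩
  by_contra hG0
  -- a nonzero homogeneous component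
  obtain ⟨d, hd⟩ : ∃ d, homogeneousComponent d G ≠ 0 := by
    by_contra hcon
    push Not at hcon
    apply hG0
    rw [← sum_homogeneousComponent G]
    exact Finset.sum_eq_zero fun d _ => hcon d
  have hw : ∀ i : Fin 2, ((![X j, X i₀] : Fin 2 → MvPolynomial (Fin (n + 1)) ℂ) i).IsHomogeneous 1 := by
    intro i
    fin_cases i
    · exact isHomogeneous_X ℂ j
    · exact isHomogeneous_X ℂ i₀
  have hcomp : ∀ e, (aeval ![X j, X i₀] (homogeneousComponent e G) :
      MvPolynomial (Fin (n + 1)) ℂ).IsHomogeneous e := by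
    intro e
    have h1 := (homogeneousComponent_isHomogeneous e G).aeval
      (![X j, X i₀] : Fin 2 → MvPolynomial (Fin (n + 1)) ℂ) hw
    simpa using h1
  have hmem : (aeval ![X j, X i₀] (homogeneousComponent d G) :
      MvPolynomial (Fin (n + 1)) ℂ) ∈ q := by
    have h1 := hqh _ hG d
    have h2 : homogeneousComponent d (aeval ![X j, X i₀] G :
        MvPolynomial (Fin (n + 1)) ℂ) = aeval ![X j, X i₀] (homogeneousComponent d G) := by
      conv_lhs => rw [← sum_homogeneousComponent G]
      rw [map_sum, map_sum]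
      have h3 : ∀ e ∈ Finset.range (G.totalDegree + 1),
          homogeneousComponent d (aeval ![X j, X i₀] (homogeneousComponent e G) :
            MvPolynomial (Fin (n + 1)) ℂ) =
          if e = d then aeval ![X j, X i₀] (homogeneousComponent d G) else 0 := by
        intro e _
        rw [homogeneousComponent_of_mem ((mem_homogeneousSubmodule _ _).mpr (hcomp e))]
        by_cases hed : e = d
        · subst hed
          simp
        · rw [if_neg hed, if_neg (fun h => hed h.symm)]
      rw [Finset.sum_congr rfl h3, Finset.sum_ite_eq']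
      by_cases hdm : d ∈ Finset.range (G.totalDegree + 1)
      · rw [if_pos hdm]
      · rw [if_neg hdm]
        rw [Finset.mem_range, not_lt] at hdm
        rw [homogeneousComponent_eq_zero _ _ (by omega), map_zero]
    rwa [h2] at h1
  -- pass to entire functions
  set F : Fin (n + 1) → Ent := fun k => ⟨f k, hf k⟩ with hF
  have hFi : F i₀ ≠ 0 := (Ent.ne_zero_iff _).mpr ⟨z₀, hi₀⟩
  have hval : ∀ (m : ℕ) (g : MvPolynomial (Fin m) ℂ) (u : Fin m → Ent) (z : ℂ),
      (aeval u g : Ent).1 z = eval (fun k => (u k).1 z) g := by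
    intro m g u z
    let ev : Ent →ₐ[ℂ] ℂ :=
      { toFun := fun a => a.1 z
        map_one' := rfl
        map_mul' := fun _ _ => rfl
        map_zero' := rfl
        map_add' := fun _ _ => rfl
        commutes' := fun _ => rfl }
    have h1 := MvPolynomial.comp_aeval_apply (R := ℂ) u ev g
    exact h1
  have hzero : aeval ![F j, F i₀] (homogeneousComponent d G) = 0 := by
    apply Ent.ext'
    intro z
    rw [hval]
    have h1 := hfq _ hmem z
    have h2 := MvPolynomial.comp_aeval_apply (R := ℂ)
      (![X j, X i₀] : Fin 2 → MvPolynomial (Fin (n + 1)) ℂ)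
      (aeval (fun k => f k z) : MvPolynomial (Fin (n + 1)) ℂ →ₐ[ℂ] ℂ) (homogeneousComponent d G)
    have h3 : aeval (fun k => f k z) (aeval ![X j, X i₀] (homogeneousComponent d G) :
        MvPolynomial (Fin (n + 1)) ℂ) = 0 := h1
    rw [h3] at h2
    have h4 : (fun k => ((![F j, F i₀] : Fin 2 → Ent) k).1 z) =
        fun i => (aeval (fun k => f k z) :
          MvPolynomial (Fin (n + 1)) ℂ →ₐ[ℂ] ℂ) (![X j, X i₀] i) := by
      funext i
      fin_cases i <;> simp [hF]
    rw [h4]
    exact h2.symm
  let K := FractionRing Ent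
  have hinj : Function.Injective (algebraMap Ent K) := IsFractionRing.injective Ent K
  have hK : aeval ![algebraMap Ent K (F j), algebraMap Ent K (F i₀)]
      (homogeneousComponent d G) = 0 := by
    have h1 := MvPolynomial.comp_aeval_apply (R := ℂ) ![F j, F i₀]
      (IsScalarTower.toAlgHom ℂ Ent K) (homogeneousComponent d G)
    rw [hzero, map_zero] at h1
    rw [h1]
    congr 2
    funext i
    fin_cases i <;> simp
  obtain ⟨c, hc⟩ := bin_ratio_trtwo (homogeneousComponent d G)
    (homogeneousComponent_isHomogeneous d G) hd _ _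
    (fun h => hFi (hinj (by rw [h, map_zero]))) hK
  have hEq : F j = algebraMap ℂ Ent c * F i₀ := by
    apply hinj
    rw [hc, map_mul, ← IsScalarTower.algebraMap_apply]
  obtain ⟨z, hz⟩ := hj c
  apply hz
  have := congrFun (congrArg Subtype.val hEq) z
  exact this

end Pool.Agent.QY
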