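import Pool.Agent.Lib_MP_b9fedf_qy.CurveY
import Pool.Agent.Lib_MP_b9fedf_qy.NonProp
import Pool.Agent.Lib_MP_b9fedf_qy.TrTwo
import Pool.Agent.Lib_MP_b9fedf_qy.FiniteMapY
import Pool.Agent.Lib_MP_b9fedf_qy.ExtStep
import Pool.Agent.Lib_MP_b9fedf_qy.Good
import Pool.Agent.Lib_MP_b9fedf_qy.SetupY
import Pool.Agent.Lib_MP_b9fedf_qy.AltY

/-! The induction over the closed sets of projective space. -/

set_option autoImplicit false

namespace Pool.Agent.QY
open MvPolynomial Pool.Agent.SQ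

theorem fam_congr {n : ℕ} {ι : Type} [Fintype ι] (g : ι → MvPolynomial (Fin (n + 1)) ℂ)
    (a a' : ℕ → Fin (n + 1) ⊕ ι → ℂ) (K : ℕ) (h : ∀ j < K, a' j = a j) :
    fam g a' K = fam g a K := by
  funext j
  unfold fam
  rw [h j j.2]

theorem ext_many {n b ρ : ℕ} {ι : Type} [Fintype ι] [DecidableEq ι]
    (g : ι → MvPolynomial (Fin (n + 1)) ℂ) (hset : Setup g b ρ) (K : ℕ)
    (a : ℕ → Fin (n + 1) ⊕ ι → ℂ) (hS : SCI (fam g a K)) (hL : LG b K a)
    (Θ : MvPolynomial (Fin (n + 1) ⊕ ι) ℂ) (hΘ : Θ ≠ 0) (r : ℕ) :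
    ∃ a' : ℕ → Fin (n + 1) ⊕ ι → ℂ, (∀ j < K, a' j = a j) ∧ SCI (fam g a' (K + r)) ∧
      LG b (K + r) a' ∧ ∀ j, K ≤ j → j < K + r → eval (a' j) Θ ≠ 0 := by
  induction r with
  | zero => exact ⟨a, fun j _ => rfl, hS, hL, fun j h1 h2 => absurd h2 (by omega)⟩
  | succ r ih =>
    obtain ⟨a', h1, h2, h3, h4⟩ := ih
    obtain ⟨c, hc1, hc2, hc3⟩ := ext_step g hset.hg hset.hV hset.hρ hset.hρb hset.hbn (K + r) a'
      h2 h3 Θ hΘ
    refine ⟨Function.update a' (K + r) c, ?_, hc2, hc3, ?_⟩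
    · intro j hj
      rw [Function.update_of_ne (by omega)]
      exact h1 j hj
    · intro j hj1 hj2
      by_cases hj : j = K + r
      · subst hj
        rw [Function.update_self]
        exact hc1
      · rw [Function.update_of_ne hj]
        exact h4 j hj1 (by omega)

/-- squares have even order -/
theorem even_order (y : ℂ → ℂ) (hy : Differentiable ℂ y) (F : ℂ → ℂ) (hF : ∀ z, y z ^ 2 = F z)
    (z : ℂ) (c : ℕ) (h : analyticOrderAt F z = c) : Even c := by
  have h1 : F = y ^ 2 := funext fun z => (hF z).symm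
  rw [h1, analyticOrderAt_pow (hy.analyticAt z)] at h
  have h2 : analyticOrderAt y z ≠ ⊤ := by
    intro h3
    rw [h3] at h
    simp at h
  obtain ⟨o, ho⟩ := ENat.ne_top_iff_exists.mp h2
  rw [← ho] at h
  have h3 : 2 * o = c := by
    rw [nsmul_eq_mul] at h
    exact_mod_cast h
  exact ⟨o, by omega⟩

theorem step {n b ρ : ℕ} {ι : Type} [Fintype ι] [DecidableEq ι]
    (g : ι → MvPolynomial (Fin (n + 1)) ℂ) (hset : Setup g b ρ)
    {q : Ideal (MvPolynomial (Fin (n + 1)) ℂ)} (hq : q.IsPrime) (hqh : HomI q) (h2 : Tr q 2)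
    (hgq : ∃ i, g i ∉ q) (K : ℕ) (a : ℕ → Fin (n + 1) ⊕ ι → ℂ) (hS : SCI (fam g a K))
    (hL : LG b K a) :
    ∃ (K' : ℕ) (a' : ℕ → Fin (n + 1) ⊕ ι → ℂ), K ≤ K' ∧ (∀ j < K, a' j = a j) ∧
      SCI (fam g a' K') ∧ LG b K' a' ∧
      ∃ (dZ : ℕ) (Z : MvPolynomial (Fin (n + 1)) ℂ), Z ∉ q ∧ Z.IsHomogeneous dZ ∧
        ∀ f : Fin (n + 1) → ℂ → ℂ, (∀ k, Differentiable ℂ (f k)) →
          (∀ s ∈ q, ∀ z, eval (fun k => f k z) s = 0) → Mult g a' K' f →
          (∀ z, eval (fun k => f k z) Z = 0) ∨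
          ∃ v : Fin (n + 1) → ℂ, v ≠ 0 ∧ ∀ z i j, v i * f j z = v j * f i z := by
  classical
  have hn : 1 ≤ n := by
    have := tr_le hq h2
    omega
  obtain ⟨m, ⟨bas⟩⟩ := exists_basis n 2
  set P : Fin (m + 1) → MvPolynomial (Fin (n + 1)) ℂ := fun i => (bas i : _) with hP
  have hPh : ∀ i, (P i).IsHomogeneous 2 := fun i =>
    (mem_homogeneousSubmodule _ _).mp (bas i).2
  -- coordinates
  have hpr : ∀ Q : MvPolynomial (Fin (n + 1)) ℂ, Q.IsHomogeneous 2 →
      Q ∈ homogeneousSubmodule (Fin (n + 1)) ℂ 2 := fun Q hQ =>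
    (mem_homogeneousSubmodule _ _).mpr hQ
  set κ : MvPolynomial (Fin (n + 1)) ℂ → (Fin (m + 1) → ℂ) := fun Q =>
    if h : Q.IsHomogeneous 2 then bas.equivFun ⟨Q, hpr Q h⟩ else 0 with hκ
  have hsum : ∀ v : Fin (m + 1) → ℂ, ∑ i, C (v i) * P i = ((bas.equivFun.symm v : _) :
      MvPolynomial (Fin (n + 1)) ℂ) := by
    intro v
    rw [bas.equivFun_symm_apply, AddSubmonoidClass.coe_finsetSum]
    apply Finset.sum_congr rfl
    intro i _
    rw [Submodule.coe_smul, smul_eq_C_mul]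
  have hκ1 : ∀ Q : MvPolynomial (Fin (n + 1)) ℂ, Q.IsHomogeneous 2 →
      ∑ i, C (κ Q i) * P i = Q := by
    intro Q hQ
    rw [hsum, hκ]
    simp only [dif_pos hQ, LinearEquiv.symm_apply_apply]
  have hκ2 : ∀ (Q : MvPolynomial (Fin (n + 1)) ℂ) (v : Fin (m + 1) → ℂ),
      Q = ∑ i, C (v i) * P i → κ Q = v := by
    intro Q v hQ
    have hQh : Q.IsHomogeneous 2 := by
      rw [hQ]
      exact IsHomogeneous.sum _ _ _ fun i _ => (hPh i).C_mul _
    rw [hκ]
    simp only [dif_pos hQh]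
    rw [← bas.equivFun.apply_symm_apply v]
    congr 1
    apply Subtype.ext
    rw [← hsum]
    exact hQ
  have hqh' : ∀ a : Fin (n + 1) ⊕ ι → ℂ, (qd g a).IsHomogeneous 2 := fun a => qd_hom g hset.hg a
  obtain ⟨a₀, v₀, e₁, s, hv₀, hs1, hs2, hs3⟩ := good_exists hq hqh h2 g hset.hg hgq P hPh
    (fun Q hQ => ⟨κ Q, (hκ1 Q hQ).symm⟩)
  -- the condition on the parameters
  set V : Fin (m + 1) → MvPolynomial (Fin (n + 1) ⊕ ι) ℂ := fun i =>
    ∑ k, ∑ k', X (Sum.inl k) * X (Sum.inl k') * C (κ (X k * X k') i) +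
      ∑ i', X (Sum.inr i') * C (κ (g i') i) with hV
  have hVe : ∀ (c : Fin (n + 1) ⊕ ι → ℂ) (i : Fin (m + 1)), eval c (V i) = κ (qd g c) i := by
    intro c i
    have h1 : κ (qd g c) = fun i => ∑ k, ∑ k', c (Sum.inl k) * c (Sum.inl k') * κ (X k * X k') i +
        ∑ i', c (Sum.inr i') * κ (g i') i := by
      apply hκ2
      have h3 : ∀ k k', (X k * X k' : MvPolynomial (Fin (n + 1)) ℂ).IsHomogeneous 2 :=
        fun k k' => (isHomogeneous_X ℂ k).mul (isHomogeneous_X ℂ k')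
      have h4 : qd g c = ∑ k, ∑ k', C (c (Sum.inl k) * c (Sum.inl k')) * (X k * X k') +
          ∑ i', C (c (Sum.inr i')) * g i' := by
        unfold qd lin
        rw [sq, Finset.sum_mul_sum]
        refine congrArg₂ (· + ·) (Finset.sum_congr rfl fun k _ =>
          Finset.sum_congr rfl fun k' _ => ?_) rfl
        rw [map_mul]
        ring
      have h5 : ∀ k k', C (c (Sum.inl k) * c (Sum.inl k')) *
          (X k * X k' : MvPolynomial (Fin (n + 1)) ℂ) =
          ∑ i, C (c (Sum.inl k) * c (Sum.inl k') * κ (X k * X k') i) * P i := by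
        intro k k'
        conv_lhs => rw [← hκ1 _ (h3 k k')]
        rw [Finset.mul_sum]
        exact Finset.sum_congr rfl fun i _ => by simp only [map_mul]; ring
      have h6 : ∀ i', C (c (Sum.inr i')) * g i' =
          ∑ i, C (c (Sum.inr i') * κ (g i') i) * P i := by
        intro i'
        conv_lhs => rw [← hκ1 _ (hset.hg i')]
        rw [Finset.mul_sum]
        exact Finset.sum_congr rfl fun i _ => by simp only [map_mul]; ring
      rw [h4, Finset.sum_congr rfl fun k _ => Finset.sum_congr rfl fun k' _ => h5 k k',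
        Finset.sum_congr rfl fun i' _ => h6 i']
      have h7 : ∀ k, ∑ k', ∑ i, C (c (Sum.inl k) * c (Sum.inl k') * κ (X k * X k') i) * P i =
          ∑ i, ∑ k', C (c (Sum.inl k) * c (Sum.inl k') * κ (X k * X k') i) * P i := fun k =>
        Finset.sum_comm
      rw [Finset.sum_congr rfl fun k _ => h7 k, Finset.sum_comm, Finset.sum_comm (s := Finset.univ (α := ι)),
        ← Finset.sum_add_distrib]
      refine Finset.sum_congr rfl fun i _ => ?_
      simp only [map_add, map_sum, add_mul, Finset.sum_mul]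
    rw [h1, hV]
    simp only [map_add, map_sum, map_mul, eval_X, eval_C]
  set Θ : MvPolynomial (Fin (n + 1) ⊕ ι) ℂ := aeval V s with hΘdef
  have hΘe : ∀ c, eval c Θ = eval (κ (qd g c)) s := by
    intro c
    have h1 := comp_aeval_apply (f := V) (aeval c : MvPolynomial (Fin (n + 1) ⊕ ι) ℂ →ₐ[ℂ] ℂ) s
    have h3 : (fun i => (aeval c : MvPolynomial (Fin (n + 1) ⊕ ι) ℂ →ₐ[ℂ] ℂ) (V i)) =
        κ (qd g c) := funext fun i => by
      rw [← hVe, ← coe_aeval_eq_eval]
      rfl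
    rw [h3] at h1
    rw [← coe_aeval_eq_eval, ← coe_aeval_eq_eval, hΘdef]
    exact h1
  have hΘ0 : Θ ≠ 0 := by
    intro h
    apply hs2
    rw [← hκ2 _ v₀ hv₀, ← hΘe, h, map_zero]
  obtain ⟨N₀, hN₀⟩ := curve_y n 2 n m e₁
  obtain ⟨a', ha1, ha2, ha3, ha4⟩ := ext_many g hset K a hS hL Θ hΘ0 (N₀ + 1)
  refine ⟨K + (N₀ + 1), a', by omega, ha1, ha2, ha3, ?_⟩
  -- the points
  set pt : Fin (N₀ + 1) → Fin (m + 1) → ℂ := fun j => κ (qd g (a' (K + j))) with hpt
  have hidx : ∀ j : Fin (N₀ + 1), K + (j : ℕ) < K + (N₀ + 1) := fun j => by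
    have := j.2
    omega
  have hnp : ∀ j j' : Fin (N₀ + 1), j ≠ j' → ∀ c c' : ℂ, c • pt j + c' • pt j' = 0 →
      c = 0 ∧ c' = 0 := by
    intro j j' hjj c c' h
    refine non_prop hn g hqh' a' ha2 ⟨K + j, hidx j⟩ ⟨K + j', hidx j'⟩ (by
      intro h1
      apply hjj
      have h3 := congrArg Fin.val h1
      simp only [add_right_inj] at h3
      exact Fin.ext h3) c c' ?_
    show C c * qd g (a' (K + j)) + C c' * qd g (a' (K + j')) = 0
    rw [← hκ1 _ (hqh' (a' (K + j))), ← hκ1 _ (hqh' (a' (K + j'))), Finset.mul_sum,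
      Finset.mul_sum, ← Finset.sum_add_distrib]
    apply Finset.sum_eq_zero
    intro i _
    have h3 := congrFun h i
    simp only [hpt, Pi.add_apply, Pi.smul_apply, smul_eq_mul, Pi.zero_apply] at h3
    rw [← mul_assoc, ← mul_assoc, ← map_mul, ← map_mul, ← add_mul, ← map_add, h3, map_zero,
      zero_mul]
  have hinj : Function.Injective pt := by
    intro j j' h
    by_contra hjj
    have := (hnp j j' hjj 1 (-1) (by rw [h]; simp)).1
    exact one_ne_zero this
  set A : Finset (Fin (m + 1) → ℂ) := Finset.univ.image pt with hA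
  have hAcard : A.card = N₀ + 1 := by
    rw [hA, Finset.card_image_of_injective _ hinj, Finset.card_univ, Fintype.card_fin]
  have hpt0 : ∀ j, pt j ≠ 0 := by
    intro j h0
    have h1 : eval (pt j) s ≠ 0 := by
      have := ha4 (K + j) (by omega) (hidx j)
      rw [hΘe] at this
      exact this
    -- use another quadric or the order of `s`
    have h3 : qd g (a' (K + j)) = 0 := by
      rw [← hκ1 _ (hqh' (a' (K + j)))]
      apply Finset.sum_eq_zero
      intro i _
      have h4 := congrFun h0 i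
      simp only [hpt, Pi.zero_apply] at h4
      rw [h4, map_zero, zero_mul]
    -- the gradient vanishes at every point
    have h5 := sci_grad g a' ha2 (fun _ => 1) (by
      intro h6
      have := congrFun h6 0
      simp at this) {⟨K + j, hidx j⟩} (by
      intro i hi
      rw [Finset.mem_singleton.mp hi]
      show eval _ (qd g (a' (K + j))) = 0
      rw [h3, map_zero])
    have h6 := h5.ne_zero ⟨⟨K + j, hidx j⟩, Finset.mem_singleton_self _⟩
    apply h6
    funext i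
    show eval _ (pderiv i (qd g (a' (K + j)))) = 0
    rw [h3, map_zero, map_zero]
  have hPW : PW A := by
    intro x hx
    obtain ⟨j, _, rfl⟩ := Finset.mem_image.mp hx
    refine ⟨hpt0 j, ?_⟩
    intro y hy hxy
    obtain ⟨j', _, rfl⟩ := Finset.mem_image.mp hy
    rw [LinearIndependent.pair_iff]
    intro α β h
    exact hnp j j' (fun h1 => hxy (by rw [h1])) α β h
  obtain ⟨l, T, A₁, dZ, Z, hl, hT, hA₁, hA₁r, hA₁c, hZ0, hZh, hZ⟩ :=
    hN₀ q hq P hPh A hPW (by rw [hAcard]; omega) (by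
      intro x hx
      obtain ⟨j, _, rfl⟩ := Finset.mem_image.mp hx
      refine ⟨s, hs1, ?_, hs3⟩
      have := ha4 (K + j) (by omega) (hidx j)
      rw [hΘe] at this
      exact this)
  refine ⟨dZ, Z, hZ0, hZh, ?_⟩
  intro f hf hfq hmult
  -- values of the members
  have hval : ∀ (j : Fin (N₀ + 1)) (x : Fin (n + 1) → ℂ),
      ∑ i, pt j i * eval x (P i) = eval x (qd g (a' (K + j))) := by
    intro j x
    conv_rhs => rw [← hκ1 _ (hqh' (a' (K + j)))]
    rw [map_sum]
    exact Finset.sum_congr rfl fun i _ => by rw [map_mul, eval_C]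
  rcases hZ f hf hfq (by
    intro x hx y hy z c hc hc' A' _ _
    exfalso
    obtain ⟨j, _, rfl⟩ := Finset.mem_image.mp hx
    obtain ⟨j', _, rfl⟩ := Finset.mem_image.mp hy
    obtain ⟨u, hu, hu2⟩ := hmult (K + j) (hidx j)
    obtain ⟨u', hu', hu2'⟩ := hmult (K + j') (hidx j')
    simp only [hval] at hc hc'
    have h3 := even_order u' hu' _ hu2' z c hc
    have h4 := even_order u hu _ hu2 z (c + 1) hc'
    rw [Nat.even_add_one] at h4
    exact h4 h3) with h | ⟨t, ht0, ht⟩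
  · exact Or.inl h
  right
  refine finite_map_y (by norm_num : 1 ≤ 2) q hqh (pullP T P) (pullP_hom T P hPh) ?_ f hf hfq t
    ht0 ht
  intro x hxq hx
  by_contra hx0
  -- more than `n` members pass through `x`
  set J₀ : Finset (Fin (N₀ + 1)) := Finset.univ.filter fun j => pt j ∈ A₁ with hJ₀
  set J : Finset (Fin (K + (N₀ + 1))) := J₀.image
    (fun j : Fin (N₀ + 1) => (⟨K + (j : ℕ), hidx j⟩ : Fin (K + (N₀ + 1)))) with hJ
  have hJcard : n < J.card := by
    rw [hJ, Finset.card_image_of_injective _ (by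
      intro j j' h
      have h3 := congrArg Fin.val h
      simp only [add_right_inj] at h3
      exact Fin.ext h3)]
    refine lt_of_lt_of_le hA₁c ?_
    have h3 : A₁ ⊆ J₀.image pt := by
      intro y hy
      obtain ⟨j, _, rfl⟩ := Finset.mem_image.mp (hA₁ hy)
      exact Finset.mem_image.mpr ⟨j, Finset.mem_filter.mpr ⟨Finset.mem_univ _, hy⟩, rfl⟩
    exact (Finset.card_le_card h3).trans Finset.card_image_le
  have := memb g hset.hg a' ha2 x hx0 J (by
    intro i hi
    obtain ⟨j, hj, rfl⟩ := Finset.mem_image.mp hi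
    obtain ⟨v, hv⟩ := hA₁r _ (Finset.mem_filter.mp hj).2
    show eval x (qd g (a' (K + j))) = 0
    rw [← hval, ← hv]
    have h3 := congrArg (eval x) (pullP_sum T P v)
    rw [map_sum, map_sum] at h3
    simp only [map_mul, eval_C] at h3
    rw [← h3]
    exact Finset.sum_eq_zero fun i _ => by rw [hx i, mul_zero])
  omega

theorem mult_mono {n : ℕ} {ι : Type} [Fintype ι] (g : ι → MvPolynomial (Fin (n + 1)) ℂ)
    {a a' : ℕ → Fin (n + 1) ⊕ ι → ℂ} {K K' : ℕ} (hK : K ≤ K') (h : ∀ j < K, a' j = a j)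
    {f : Fin (n + 1) → ℂ → ℂ} (hf : Mult g a' K' f) : Mult g a K f := by
  intro j hj
  rw [← h j hj]
  exact hf j (by omega)

/-- the conclusion of the induction -/
def Concl {n : ℕ} {ι : Type} [Fintype ι] (g : ι → MvPolynomial (Fin (n + 1)) ℂ) (b : ℕ)
    (I : Ideal (MvPolynomial (Fin (n + 1)) ℂ)) : Prop :=
  ∀ (K : ℕ) (a : ℕ → Fin (n + 1) ⊕ ι → ℂ), SCI (fam g a K) → LG b K a →
    ∃ (K' : ℕ) (a' : ℕ → Fin (n + 1) ⊕ ι → ℂ), K ≤ K' ∧ (∀ j < K, a' j = a j) ∧
      SCI (fam g a' K') ∧ LG b K' a' ∧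
      ∀ f : Fin (n + 1) → ℂ → ℂ, (∀ k, Differentiable ℂ (f k)) →
        (∀ s ∈ I, ∀ z, eval (fun k => f k z) s = 0) → Mult g a' K' f →
        (∃ v : Fin (n + 1) → ℂ, v ≠ 0 ∧ ∀ z i j, v i * f j z = v j * f i z) ∨
        ∀ z i, eval (fun k => f k z) (g i) = 0

theorem induct {n b ρ : ℕ} {ι : Type} [Fintype ι] [DecidableEq ι]
    (g : ι → MvPolynomial (Fin (n + 1)) ℂ) (hset : Setup g b ρ)
    (I : Ideal (MvPolynomial (Fin (n + 1)) ℂ)) : HomI I → Concl g b I := by
  classical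
  induction I using IsNoetherian.induction with
  | hgt I ih =>
  intro hI K a hS hL
  -- the two parts of a reducible set
  have htwo : ∀ (Z : MvPolynomial (Fin (n + 1)) ℂ) (d : ℕ), Z.IsHomogeneous d → Z ∉ I →
      Concl g b (I ⊔ Ideal.span {Z}) := by
    intro Z d hZ hZI
    refine ih (I ⊔ Ideal.span {Z}) ?_ (homI_sup hI Z d hZ)
    refine lt_of_le_of_ne le_sup_left ?_
    intro h
    apply hZI
    rw [h]
    exact Ideal.mem_sup_right (Ideal.mem_span_singleton_self _)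
  have hmem : ∀ (Z : MvPolynomial (Fin (n + 1)) ℂ) (f : Fin (n + 1) → ℂ → ℂ),
      (∀ s ∈ I, ∀ z, eval (fun k => f k z) s = 0) → (∀ z, eval (fun k => f k z) Z = 0) →
      ∀ s ∈ I ⊔ Ideal.span {Z}, ∀ z, eval (fun k => f k z) s = 0 := by
    intro Z f h1 h2 s hs z
    obtain ⟨s₁, hs₁, s₂, hs₂, rfl⟩ := Submodule.mem_sup.mp hs
    obtain ⟨c, rfl⟩ := Ideal.mem_span_singleton'.mp hs₂
    rw [map_add, map_mul, h1 s₁ hs₁ z, h2 z, mul_zero, add_zero]
  by_cases htop : I = ⊤
  · refine ⟨K, a, le_rfl, fun _ _ => rfl, hS, hL, ?_⟩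
    intro f hf hfI
    have h1 := hfI 1 (by rw [htop]; trivial) 0
    rw [map_one] at h1
    exact absurd h1 one_ne_zero
  by_cases hprime' : Ideal.IsPrime I
  · by_cases hgI : ∃ i, g i ∉ I
    · by_cases htr : Tr I 2
      · obtain ⟨K₁, a₁, hK₁, ha₁, hS₁, hL₁, dZ, Z, hZI, hZh, hZ⟩ :=
          step g hset hprime' hI htr hgI K a hS hL
        obtain ⟨K₂, a₂, hK₂, ha₂, hS₂, hL₂, h₂⟩ := htwo Z dZ hZh hZI K₁ a₁ hS₁ hL₁
        refine ⟨K₂, a₂, hK₁.trans hK₂, ?_, hS₂, hL₂, ?_⟩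
        · intro j hj
          rw [ha₂ j (by omega), ha₁ j hj]
        · intro f hf hfI hM
          rcases hZ f hf hfI (mult_mono g hK₂ ha₂ hM) with h | h
          · exact h₂ f hf (hmem Z f hfI h) hM
          · exact Or.inl h
      · refine ⟨K, a, le_rfl, fun _ _ => rfl, hS, hL, ?_⟩
        intro f hf hfI _
        left
        by_contra hcon
        push Not at hcon
        exact htr (tr_two hI f hf hfI hcon)
    · push Not at hgI
      refine ⟨K, a, le_rfl, fun _ _ => rfl, hS, hL, ?_⟩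
      intro f hf hfI _
      right
      intro z i
      exact hfI (g i) (hgI i) z
  · have hex : ∃ (A B : MvPolynomial (Fin (n + 1)) ℂ) (dA dB : ℕ), A.IsHomogeneous dA ∧
        B.IsHomogeneous dB ∧ A * B ∈ I ∧ A ∉ I ∧ B ∉ I := by
      by_contra hcon
      push Not at hcon
      apply hprime'
      refine hprime hI htop ?_
      intro A B dA dB hA hB hAB
      by_contra h
      push Not at h
      exact h.2 (hcon A B dA dB hA hB hAB h.1)
    obtain ⟨A, B, dA, dB, hA, hB, hAB, hAI, hBI⟩ := hex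
    obtain ⟨K₁, a₁, hK₁, ha₁, hS₁, hL₁, h₁⟩ := htwo A dA hA hAI K a hS hL
    obtain ⟨K₂, a₂, hK₂, ha₂, hS₂, hL₂, h₂⟩ := htwo B dB hB hBI K₁ a₁ hS₁ hL₁
    refine ⟨K₂, a₂, hK₁.trans hK₂, ?_, hS₂, hL₂, ?_⟩
    · intro j hj
      rw [ha₂ j (by omega), ha₁ j hj]
    · intro f hf hfI hM
      set f' : Fin (n + 1) → Ent := fun k => ⟨f k, hf k⟩ with hf'
      have hf'v : ∀ R : MvPolynomial (Fin (n + 1)) ℂ, (aeval f' R : Ent) = 0 ↔
          ∀ z, eval (fun k => f k z) R = 0 := by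
        intro R
        constructor
        · intro h z
          have h3 := ent_aeval f' R z
          rw [h] at h3
          exact h3.symm
        · intro h
          apply Ent.ext'
          intro z
          rw [ent_aeval]
          exact h z
      have h3 : (aeval f' (A * B) : Ent) = 0 := (hf'v _).mpr (hfI _ hAB)
      rw [map_mul] at h3
      rcases mul_eq_zero.mp h3 with h4 | h4
      · exact h₁ f hf (hmem A f hfI ((hf'v A).mp h4)) (mult_mono g hK₂ ha₂ hM)
      · exact h₂ f hf (hmem B f hfI ((hf'v B).mp h4)) hM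

end Pool.Agent.QY
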